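import Pool.Agent.BSv.Defs

/-!
# Module POIN: Poincaré inequality on a square

`poinc`: for `v` of class `C¹` and the closed square `R` of side `L`:
`∫_R ∫_R (v p - v q)² ≤ 2 L⁴ ∫_R |∇v|²`.
PROOF.  `v p - v q = (v (p1,p2) - v (q1,p2)) + (v (q1,p2) - v (q1,q2))`,
`(v(p1,p2) - v(q1,p2))² ≤ L ∫_{t ∈ [x,x+L]} (dx v (t,p2))² dt` (FTC and Cauchy-Schwarz), the same in
the other variable, `(α+β)² ≤ 2α²+2β²`, Fubini: each of the two terms gives
`2 L · L³ ∫_R (∂v)² ... = 2 L⁴ ∫_R (∂ v)²` in total `2 L⁴ ∫_R gr2 v`.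

`two_set`: if `α ≤ v` on `A`, `v ≤ β` on `B`, `β ≤ α`, then
`vol A · vol B · (α - β)² ≤ 2 L⁴ ∫_R gr2 v` (restrict the double integral to `A × B`).

`avg_diff`: for measurable `S ⊆ R` of positive area:
`(∫_S v / vol S - ∫_R v / L²)² · vol S ≤ 2 L² ∫_R gr2 v` (Jensen / Cauchy-Schwarz for
`(1/(vol S · L²)) ∫_S ∫_R (v p - v q)`).
-/

open MeasureTheory Set Filter Topology
open scoped ENNReal NNReal ContDiff

noncomputable section

namespace Pool.Agent.BSv

theorem vol_sq (x y : ℝ) {L : ℝ} (hL : 0 ≤ L) : vol (sq x y L) = L ^ 2 := by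
  unfold vol sq
  rw [Measure.volume_eq_prod, Measure.prod_prod, Real.volume_Icc, Real.volume_Icc,
    ENNReal.toReal_mul, add_sub_cancel_left, add_sub_cancel_left, ENNReal.toReal_ofReal hL]
  ring

private lemma poin_compact (x y L : ℝ) : IsCompact (sq x y L) :=
  isCompact_Icc.prod isCompact_Icc

private lemma poin_intOn {f : Pl → ℝ} (hf : Continuous f) (x y L : ℝ) :
    IntegrableOn f (sq x y L) :=
  hf.continuousOn.integrableOn_compact (poin_compact x y L)

/-- one-dimensional estimate -/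
private lemma poin_one {g g' : ℝ → ℝ} (hg : ∀ t, HasDerivAt g (g' t) t) (hg' : Continuous g')
    (x : ℝ) {L : ℝ} (hL : 0 < L) {u w : ℝ} (hu : u ∈ Icc x (x + L)) (hw : w ∈ Icc x (x + L)) :
    (g u - g w) ^ 2 ≤ L * ∫ t in x..(x + L), g' t ^ 2 := by
  have main : ∀ u w : ℝ, u ∈ Icc x (x + L) → w ∈ Icc x (x + L) → w ≤ u →
      (g u - g w) ^ 2 ≤ L * ∫ t in x..(x + L), g' t ^ 2 := by
    intro u w hu hw hwu
    have h0 : 0 ≤ ∫ t in x..(x + L), g' t ^ 2 :=
      intervalIntegral.integral_nonneg (by linarith) fun t _ => sq_nonneg _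
    rcases hwu.eq_or_lt with h | h
    · rw [h, sub_self]
      have : 0 ≤ L * ∫ t in x..(x + L), g' t ^ 2 := by positivity
      simpa using this
    · have e1 : ∫ t in w..u, g' t = g u - g w :=
        intervalIntegral.integral_eq_sub_of_hasDerivAt (fun t _ => hg t)
          (hg'.intervalIntegrable _ _)
      set m : ℝ := (g u - g w) / (u - w) with hm
      have hd : 0 < u - w := by linarith
      have e2 : 0 ≤ ∫ t in w..u, (g' t - m) ^ 2 :=
        intervalIntegral.integral_nonneg h.le fun t _ => sq_nonneg _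
      have e3 : ∫ t in w..u, (g' t - m) ^ 2 =
          (∫ t in w..u, g' t ^ 2) - 2 * m * (g u - g w) + m ^ 2 * (u - w) := by
        have e4 : ∀ t, (g' t - m) ^ 2 = g' t ^ 2 - 2 * m * g' t + m ^ 2 := fun t => by ring
        simp_rw [e4]
        rw [intervalIntegral.integral_add, intervalIntegral.integral_sub,
          intervalIntegral.integral_const_mul, e1, intervalIntegral.integral_const, smul_eq_mul]
        · ring
        · exact Continuous.intervalIntegrable (by fun_prop) _ _
        · exact Continuous.intervalIntegrable (by fun_prop) _ _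
        · exact Continuous.intervalIntegrable (by fun_prop) _ _
        · exact Continuous.intervalIntegrable (by fun_prop) _ _
      have e5 : (g u - g w) ^ 2 ≤ (u - w) * ∫ t in w..u, g' t ^ 2 := by
        rw [e3] at e2
        have e6 : (u - w) * (2 * m * (g u - g w) - m ^ 2 * (u - w)) = (g u - g w) ^ 2 := by
          rw [hm]
          field_simp
          ring
        have e7 := mul_le_mul_of_nonneg_left (show 2 * m * (g u - g w) - m ^ 2 * (u - w) ≤
          ∫ t in w..u, g' t ^ 2 by linarith) hd.le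
        linarith
      have e8 : ∫ t in w..u, g' t ^ 2 ≤ ∫ t in x..(x + L), g' t ^ 2 := by
        refine intervalIntegral.integral_mono_interval hw.1 h.le hu.2 ?_ ?_
        · exact Filter.Eventually.of_forall fun t => sq_nonneg _
        · exact Continuous.intervalIntegrable (by fun_prop) _ _
      have e9 : 0 ≤ ∫ t in w..u, g' t ^ 2 :=
        intervalIntegral.integral_nonneg h.le fun t _ => sq_nonneg _
      calc (g u - g w) ^ 2 ≤ (u - w) * ∫ t in w..u, g' t ^ 2 := e5
        _ ≤ L * ∫ t in x..(x + L), g' t ^ 2 :=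
          mul_le_mul (by linarith [hu.2, hw.1]) e8 e9 hL.le
  rcases le_total w u with h | h
  · exact main u w hu hw h
  · have := main w u hw hu h
    have e : (g u - g w) ^ 2 = (g w - g u) ^ 2 := by ring
    rw [e]
    exact this

private lemma poin_dx {v : Pl → ℝ} (hv : ContDiff ℝ 1 v) (s t : ℝ) :
    HasDerivAt (fun t => v (t, s)) (dx v (t, s)) t := by
  have h1 : HasFDerivAt v (fderiv ℝ v (t, s)) (t, s) :=
    (hv.differentiable one_ne_zero).differentiableAt.hasFDerivAt
  have h2 : HasDerivAt (fun t : ℝ => ((t, s) : Pl)) (1, 0) t :=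
    (hasDerivAt_id t).prodMk (hasDerivAt_const t s)
  exact h1.comp_hasDerivAt t h2

private lemma poin_dy {v : Pl → ℝ} (hv : ContDiff ℝ 1 v) (s t : ℝ) :
    HasDerivAt (fun t => v (s, t)) (dy v (s, t)) t := by
  have h1 : HasFDerivAt v (fderiv ℝ v (s, t)) (s, t) :=
    (hv.differentiable one_ne_zero).differentiableAt.hasFDerivAt
  have h2 : HasDerivAt (fun t : ℝ => ((s, t) : Pl)) (0, 1) t :=
    (hasDerivAt_const t s).prodMk (hasDerivAt_id t)
  exact h1.comp_hasDerivAt t h2

private lemma poin_cdx {v : Pl → ℝ} (hv : ContDiff ℝ 1 v) : Continuous (dx v) :=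
  (hv.continuous_fderiv one_ne_zero).clm_apply continuous_const

private lemma poin_cdy {v : Pl → ℝ} (hv : ContDiff ℝ 1 v) : Continuous (dy v) :=
  (hv.continuous_fderiv one_ne_zero).clm_apply continuous_const

private lemma poin_fst {φ : ℝ → ℝ} (x y : ℝ) {L : ℝ} (hL : 0 < L) :
    ∫ p in sq x y L, φ p.1 = L * ∫ t in x..(x + L), φ t := by
  have h := setIntegral_prod_mul (μ := (volume : Measure ℝ)) (ν := (volume : Measure ℝ)) φ
    (fun _ => (1 : ℝ)) (Icc x (x + L)) (Icc y (y + L))
  simp only [mul_one] at h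
  unfold sq
  rw [Measure.volume_eq_prod, h, intervalIntegral.integral_of_le (by linarith),
    integral_Icc_eq_integral_Ioc]
  simp [hL.le, mul_comm]

private lemma poin_snd {φ : ℝ → ℝ} (x y : ℝ) {L : ℝ} (hL : 0 < L) :
    ∫ p in sq x y L, φ p.2 = L * ∫ t in y..(y + L), φ t := by
  have h := setIntegral_prod_mul (μ := (volume : Measure ℝ)) (ν := (volume : Measure ℝ))
    (fun _ => (1 : ℝ)) φ (Icc x (x + L)) (Icc y (y + L))
  simp only [one_mul] at h
  unfold sq
  rw [Measure.volume_eq_prod, h, intervalIntegral.integral_of_le (by linarith),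
    integral_Icc_eq_integral_Ioc (x := y)]
  simp [hL.le]

private lemma poin_iter1 {f : Pl → ℝ} (hf : Continuous f) (x y : ℝ) {L : ℝ} (hL : 0 < L) :
    ∫ p in sq x y L, f p = ∫ s in x..(x + L), ∫ t in y..(y + L), f (s, t) := by
  have h := setIntegral_prod (μ := (volume : Measure ℝ)) (ν := (volume : Measure ℝ)) f
    (s := Icc x (x + L)) (t := Icc y (y + L)) (poin_intOn hf x y L)
  unfold sq
  rw [Measure.volume_eq_prod, h, intervalIntegral.integral_of_le (by linarith),
    integral_Icc_eq_integral_Ioc]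
  refine setIntegral_congr_fun measurableSet_Ioc fun s _ => ?_
  rw [intervalIntegral.integral_of_le (by linarith), integral_Icc_eq_integral_Ioc]

private lemma poin_iter2 {f : Pl → ℝ} (hf : Continuous f) (x y : ℝ) {L : ℝ} (hL : 0 < L) :
    ∫ p in sq x y L, f p = ∫ s in y..(y + L), ∫ t in x..(x + L), f (t, s) := by
  have hi : Integrable f ((volume.restrict (Icc x (x + L))).prod
      (volume.restrict (Icc y (y + L)))) := by
    rw [Measure.prod_restrict]
    exact poin_intOn hf x y L
  have h := integral_prod_symm f hi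
  rw [Measure.prod_restrict] at h
  unfold sq
  rw [Measure.volume_eq_prod, h, intervalIntegral.integral_of_le (by linarith),
    integral_Icc_eq_integral_Ioc (x := y)]
  refine setIntegral_congr_fun measurableSet_Ioc fun s _ => ?_
  rw [intervalIntegral.integral_of_le (by linarith), integral_Icc_eq_integral_Ioc]

/-- the inner integral -/
private def Gin (v : Pl → ℝ) (x y L : ℝ) (p : Pl) : ℝ := ∫ q in sq x y L, (v p - v q) ^ 2

private lemma Gin_cont {v : Pl → ℝ} (hv : Continuous v) (x y L : ℝ) : Continuous (Gin v x y L) := by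
  unfold Gin
  exact continuous_parametric_integral_of_continuous (f := fun p q => (v p - v q) ^ 2)
    (by
      show Continuous (fun z : Pl × Pl => (v z.1 - v z.2) ^ 2)
      fun_prop) (poin_compact x y L)

private lemma Gin_nonneg (v : Pl → ℝ) (x y L : ℝ) (p : Pl) : 0 ≤ Gin v x y L p :=
  integral_nonneg fun _ => sq_nonneg _

theorem poinc {v : Pl → ℝ} (hv : ContDiff ℝ 1 v) (x y : ℝ) {L : ℝ} (hL : 0 < L) :
    ∫ p in sq x y L, ∫ q in sq x y L, (v p - v q) ^ 2 ≤ 2 * L ^ 4 * ∫ p in sq x y L, gr2 v p := by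
  have hcx := poin_cdx hv
  have hcy := poin_cdy hv
  set a : ℝ → ℝ := fun s => ∫ t in x..(x + L), dx v (t, s) ^ 2 with ha
  set b : ℝ → ℝ := fun s => ∫ t in y..(y + L), dy v (s, t) ^ 2 with hb
  have hac : Continuous a := by
    rw [ha]
    exact intervalIntegral.continuous_parametric_intervalIntegral_of_continuous'
      (f := fun s t => dx v (t, s) ^ 2) (by
        show Continuous (fun z : ℝ × ℝ => dx v (z.2, z.1) ^ 2)
        fun_prop) x (x + L)
  have hbc : Continuous b := by
    rw [hb]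
    exact intervalIntegral.continuous_parametric_intervalIntegral_of_continuous'
      (f := fun s t => dy v (s, t) ^ 2) (by
        show Continuous (fun z : ℝ × ℝ => dy v (z.1, z.2) ^ 2)
        fun_prop) y (y + L)
  have hpt : ∀ p ∈ sq x y L, ∀ q ∈ sq x y L, (v p - v q) ^ 2 ≤ 2 * L * a p.2 + 2 * L * b q.1 := by
    rintro ⟨p1, p2⟩ ⟨hp1, hp2⟩ ⟨q1, q2⟩ ⟨hq1, hq2⟩
    have h1 := poin_one (g := fun t => v (t, p2)) (g' := fun t => dx v (t, p2))
      (fun t => poin_dx hv p2 t) (by fun_prop) x hL hp1 hq1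
    have h2 := poin_one (g := fun t => v (q1, t)) (g' := fun t => dy v (q1, t))
      (fun t => poin_dy hv q1 t) (by fun_prop) y hL hp2 hq2
    simp only at h1 h2 ⊢
    have e : v (p1, p2) - v (q1, q2) = (v (p1, p2) - v (q1, p2)) + (v (q1, p2) - v (q1, q2)) := by
      ring
    rw [e]
    have h3 : ((v (p1, p2) - v (q1, p2)) + (v (q1, p2) - v (q1, q2))) ^ 2 ≤
        2 * (v (p1, p2) - v (q1, p2)) ^ 2 + 2 * (v (q1, p2) - v (q1, q2)) ^ 2 := by
      nlinarith [sq_nonneg ((v (p1, p2) - v (q1, p2)) - (v (q1, p2) - v (q1, q2)))]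
    calc _ ≤ _ := h3
      _ ≤ 2 * (L * a p2) + 2 * (L * b q1) := by
        simp only [ha, hb]
        linarith
      _ = _ := by ring
  have hvs : vol (sq x y L) = L ^ 2 := vol_sq x y hL.le
  -- inner integral
  have hin : ∀ p ∈ sq x y L, Gin v x y L p ≤
      2 * L ^ 3 * a p.2 + 2 * L ^ 2 * ∫ t in x..(x + L), b t := by
    intro p hp
    have h1 : Gin v x y L p ≤ ∫ q in sq x y L, (2 * L * a p.2 + 2 * L * b q.1) := by
      unfold Gin
      refine setIntegral_mono_on (poin_intOn (by have := hv.continuous; fun_prop) x y L)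
        (poin_intOn (by fun_prop) x y L) (poin_compact x y L).isClosed.measurableSet
        fun q hq => hpt p hp q hq
    refine h1.trans (le_of_eq ?_)
    rw [integral_add (poin_intOn (f := fun _ : Pl => 2 * L * a p.2) continuous_const x y L)
      (poin_intOn (f := fun q : Pl => 2 * L * b q.1) (by fun_prop) x y L), setIntegral_const,
      integral_const_mul, poin_fst x y hL, smul_eq_mul]
    have h2 : (volume : Measure Pl).real (sq x y L) = L ^ 2 := hvs
    rw [h2]
    ring
  have hout : ∫ p in sq x y L, Gin v x y L p ≤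
      ∫ p in sq x y L, (2 * L ^ 3 * a p.2 + 2 * L ^ 2 * ∫ t in x..(x + L), b t) :=
    setIntegral_mono_on (poin_intOn (Gin_cont hv.continuous x y L) x y L)
      (poin_intOn (by fun_prop) x y L) (poin_compact x y L).isClosed.measurableSet hin
  refine hout.trans (le_of_eq ?_)
  rw [integral_add (poin_intOn (f := fun p : Pl => 2 * L ^ 3 * a p.2) (by fun_prop) x y L)
    (integrableOn_const (poin_compact x y L).measure_lt_top.ne), setIntegral_const,
    integral_const_mul, poin_snd x y hL, smul_eq_mul]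
  have h2 : (volume : Measure Pl).real (sq x y L) = L ^ 2 := hvs
  rw [h2]
  have h3 : ∫ p in sq x y L, gr2 v p = (∫ s in y..(y + L), a s) + ∫ s in x..(x + L), b s := by
    unfold gr2
    rw [integral_add (poin_intOn (f := fun p : Pl => dx v p ^ 2) (by fun_prop) x y L)
      (poin_intOn (f := fun p : Pl => dy v p ^ 2) (by fun_prop) x y L),
      poin_iter2 (f := fun p : Pl => dx v p ^ 2) (by fun_prop) x y hL,
      poin_iter1 (f := fun p : Pl => dy v p ^ 2) (by fun_prop) x y hL]
  rw [h3]
  ring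

theorem two_set {v : Pl → ℝ} (hv : ContDiff ℝ 1 v) (x y : ℝ) {L : ℝ} (hL : 0 < L)
    {A B : Set Pl} (hA : A ⊆ sq x y L) (hB : B ⊆ sq x y L) (hAm : MeasurableSet A)
    (hBm : MeasurableSet B) {α β : ℝ} (hβ : β ≤ α) (h1 : ∀ p ∈ A, α ≤ v p) (h2 : ∀ p ∈ B, v p ≤ β) :
    vol A * vol B * (α - β) ^ 2 ≤ 2 * L ^ 4 * ∫ p in sq x y L, gr2 v p := by
  have hvc := hv.continuous
  have hRfin : volume (sq x y L) ≠ ⊤ := (poin_compact x y L).measure_lt_top.ne
  have hAfin : volume A ≠ ⊤ := ((measure_mono hA).trans_lt (poin_compact x y L).measure_lt_top).ne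
  have hBfin : volume B ≠ ⊤ := ((measure_mono hB).trans_lt (poin_compact x y L).measure_lt_top).ne
  have hG : ∀ p ∈ A, vol B * (α - β) ^ 2 ≤ Gin v x y L p := by
    intro p hp
    have e1 : ∫ q in B, (α - β) ^ 2 ≤ ∫ q in B, (v p - v q) ^ 2 := by
      refine setIntegral_mono_on (integrableOn_const hBfin)
        ((poin_intOn (by fun_prop) x y L).mono_set hB) hBm fun q hq => ?_
      have := h1 p hp
      have := h2 q hq
      nlinarith
    rw [setIntegral_const, smul_eq_mul] at e1
    refine e1.trans ?_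
    unfold Gin
    exact setIntegral_mono_set (poin_intOn (by fun_prop) x y L)
      (Filter.Eventually.of_forall fun q => sq_nonneg _) (Filter.Eventually.of_forall hB)
  have hGc := Gin_cont hvc x y L
  have e2 : ∫ p in A, vol B * (α - β) ^ 2 ≤ ∫ p in A, Gin v x y L p :=
    setIntegral_mono_on (integrableOn_const hAfin)
      ((poin_intOn hGc x y L).mono_set hA) hAm hG
  rw [setIntegral_const, smul_eq_mul] at e2
  have e3 : ∫ p in A, Gin v x y L p ≤ ∫ p in sq x y L, Gin v x y L p :=
    setIntegral_mono_set (poin_intOn hGc x y L)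
      (Filter.Eventually.of_forall fun q => Gin_nonneg _ _ _ _ _) (Filter.Eventually.of_forall hA)
  have e4 := poinc hv x y hL
  calc vol A * vol B * (α - β) ^ 2 = vol A * (vol B * (α - β) ^ 2) := by ring
    _ ≤ _ := e2
    _ ≤ _ := e3
    _ ≤ _ := e4

/-- Cauchy-Schwarz -/
private lemma poin_cs {f : Pl → ℝ} (hf : Continuous f) {x y L : ℝ} {S : Set Pl}
    (hS : S ⊆ sq x y L) (hS0 : 0 < vol S) : (∫ p in S, f p) ^ 2 ≤ vol S * ∫ p in S, f p ^ 2 := by
  have hSfin : volume S ≠ ⊤ := ((measure_mono hS).trans_lt (poin_compact x y L).measure_lt_top).ne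
  have hv : (volume : Measure Pl).real S = vol S := rfl
  set c : ℝ := (∫ p in S, f p) / vol S with hc
  have h0 : 0 ≤ ∫ p in S, (f p - c) ^ 2 := integral_nonneg fun _ => sq_nonneg _
  have h1 : ∫ p in S, (f p - c) ^ 2 = (∫ p in S, f p ^ 2) - 2 * c * (∫ p in S, f p) +
      c ^ 2 * vol S := by
    have e : ∀ p, (f p - c) ^ 2 = f p ^ 2 - 2 * c * f p + c ^ 2 := fun p => by ring
    simp_rw [e]
    rw [integral_add, integral_sub, integral_const_mul, setIntegral_const, smul_eq_mul, hv]
    · ring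
    · exact (poin_intOn (f := fun p => f p ^ 2) (by fun_prop) x y L).mono_set hS
    · exact (poin_intOn (f := fun p => 2 * c * f p) (by fun_prop) x y L).mono_set hS
    · exact (poin_intOn (f := fun p => f p ^ 2 - 2 * c * f p) (by fun_prop) x y L).mono_set hS
    · exact integrableOn_const hSfin
  rw [h1] at h0
  have h2 : vol S * (2 * c * (∫ p in S, f p) - c ^ 2 * vol S) = (∫ p in S, f p) ^ 2 := by
    rw [hc]
    field_simp
    ring
  have h3 := mul_le_mul_of_nonneg_left (show 2 * c * (∫ p in S, f p) - c ^ 2 * vol S ≤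
    ∫ p in S, f p ^ 2 by linarith) hS0.le
  linarith

theorem avg_diff {v : Pl → ℝ} (hv : ContDiff ℝ 1 v) (x y : ℝ) {L : ℝ} (hL : 0 < L)
    {S : Set Pl} (hS : S ⊆ sq x y L) (hSm : MeasurableSet S) (hS0 : 0 < vol S) :
    ((∫ p in S, v p) / vol S - (∫ p in sq x y L, v p) / L ^ 2) ^ 2 * vol S ≤
      2 * L ^ 2 * ∫ p in sq x y L, gr2 v p := by
  have hvc := hv.continuous
  have hSfin : volume S ≠ ⊤ := ((measure_mono hS).trans_lt (poin_compact x y L).measure_lt_top).ne
  have hvs : vol (sq x y L) = L ^ 2 := vol_sq x y hL.le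
  have hvsr : (volume : Measure Pl).real (sq x y L) = L ^ 2 := hvs
  have hvS : (volume : Measure Pl).real S = vol S := rfl
  set m : ℝ := (∫ p in sq x y L, v p) / L ^ 2 with hm
  have hmL : ∫ p in sq x y L, v p = m * L ^ 2 := by
    rw [hm]; field_simp
  -- pointwise
  have h1 : ∀ p, L ^ 2 * (v p - m) ^ 2 ≤ Gin v x y L p := by
    intro p
    have e1 := poin_cs (f := fun q => v p - v q) (by fun_prop) (x := x) (y := y) (L := L)
      (S := sq x y L) Subset.rfl (by rw [hvs]; positivity)
    have e2 : ∫ q in sq x y L, (v p - v q) = L ^ 2 * (v p - m) := by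
      rw [integral_sub (poin_intOn (f := fun _ : Pl => v p) continuous_const x y L)
        (poin_intOn hvc x y L), setIntegral_const, smul_eq_mul, hvsr, hmL]
      ring
    rw [e2, hvs] at e1
    have e3 : 0 < L ^ 2 := by positivity
    have e4 : L ^ 2 * (L ^ 2 * (v p - m) ^ 2) ≤ L ^ 2 * Gin v x y L p := by
      unfold Gin
      linarith
    exact le_of_mul_le_mul_left e4 e3
  have hGc := Gin_cont hvc x y L
  have h2 : ∫ p in S, L ^ 2 * (v p - m) ^ 2 ≤ ∫ p in S, Gin v x y L p :=
    setIntegral_mono_on ((poin_intOn (by fun_prop) x y L).mono_set hS)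
      ((poin_intOn hGc x y L).mono_set hS) hSm fun p _ => h1 p
  rw [integral_const_mul] at h2
  have h3 : ∫ p in S, Gin v x y L p ≤ ∫ p in sq x y L, Gin v x y L p :=
    setIntegral_mono_set (poin_intOn hGc x y L)
      (Filter.Eventually.of_forall fun q => Gin_nonneg _ _ _ _ _) (Filter.Eventually.of_forall hS)
  have h4 := poinc hv x y hL
  have h5 := poin_cs (f := fun p => v p - m) (by fun_prop) hS hS0
  have h6 : ∫ p in S, (v p - m) = (∫ p in S, v p) - m * vol S := by
    rw [integral_sub ((poin_intOn hvc x y L).mono_set hS) (integrableOn_const hSfin),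
      setIntegral_const, smul_eq_mul, hvS]
    ring
  rw [h6] at h5
  have h7 : ((∫ p in S, v p) / vol S - m) ^ 2 * vol S * vol S = ((∫ p in S, v p) - m * vol S) ^ 2 := by
    field_simp
  have h8 : ((∫ p in S, v p) / vol S - m) ^ 2 * vol S ≤ ∫ p in S, (v p - m) ^ 2 := by
    refine le_of_mul_le_mul_right ?_ hS0
    rw [h7]
    linarith
  have h9 : L ^ 2 * (((∫ p in S, v p) / vol S - m) ^ 2 * vol S) ≤
      L ^ 2 * (2 * L ^ 2 * ∫ p in sq x y L, gr2 v p) := by
    calc _ ≤ L ^ 2 * ∫ p in S, (v p - m) ^ 2 := mul_le_mul_of_nonneg_left h8 (by positivity)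
      _ ≤ _ := h2
      _ ≤ _ := h3
      _ ≤ _ := h4
      _ = _ := by ring
  exact le_of_mul_le_mul_left h9 (by positivity)

end Pool.Agent.BSv
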