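import Pool.Agent.BSv.Whit
import Pool.Agent.BSv.Poin

/-!
# Module FAM: the Whitney squares and the closed cells met by a set `D ⊆ UV V`

`UV V` is bounded, every point of the plane lies in a closed unit cell, every cell of `V` lies in a
Whitney square.  Closed dyadic squares of the same scale overlap in null sets, distinct Whitney
squares have disjoint sets of cells.
-/

open MeasureTheory Set Filter Topology
open scoped ENNReal NNReal ContDiff

noncomputable section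

namespace Pool.Agent.BSv

private lemma fam_mem_sq {x y L : ℝ} {p : Pl} :
    p ∈ sq x y L ↔ (x ≤ p.1 ∧ p.1 ≤ x + L) ∧ (y ≤ p.2 ∧ p.2 ≤ y + L) := by
  unfold sq
  rw [Set.mem_prod, Set.mem_Icc, Set.mem_Icc]

private lemma fam_mem_cell {c : ℤ × ℤ} {p : Pl} :
    p ∈ cell c ↔ ((c.1 : ℝ) ≤ p.1 ∧ p.1 ≤ (c.1 : ℝ) + 1) ∧
      ((c.2 : ℝ) ≤ p.2 ∧ p.2 ≤ (c.2 : ℝ) + 1) := by
  unfold cell
  rw [fam_mem_sq]

private lemma fam_mem_UV {V : Finset (ℤ × ℤ)} {p : Pl} :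
    p ∈ UV V ↔ ∃ z, (∃ d ∈ V, z ∈ cell d) ∧ |p.1 - z.1| < 1 / 4 ∧ |p.2 - z.2| < 1 / 4 := by
  unfold UV cells
  rw [Metric.mem_thickening_iff]
  constructor
  · rintro ⟨z, hz, hd⟩
    rw [Set.mem_iUnion₂] at hz
    obtain ⟨d, hd1, hd2⟩ := hz
    rw [Prod.dist_eq, max_lt_iff, Real.dist_eq, Real.dist_eq] at hd
    exact ⟨z, ⟨d, hd1, hd2⟩, hd⟩
  · rintro ⟨z, ⟨d, hd1, hd2⟩, hd⟩
    refine ⟨z, ?_, ?_⟩
    · rw [Set.mem_iUnion₂]
      exact ⟨d, hd1, hd2⟩
    · rw [Prod.dist_eq, max_lt_iff, Real.dist_eq, Real.dist_eq]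
      exact hd

/-- the middle squares of the cells outside `V` do not meet `UV V` -/
theorem ob_disjoint {V : Finset (ℤ × ℤ)} {c : ℤ × ℤ} (hc : c ∉ V) : Disjoint (ob c) (UV V) := by
  rw [Set.disjoint_left]
  intro p hp hU
  rw [fam_mem_UV] at hU
  obtain ⟨z, ⟨d, hd, hz⟩, h1, h2⟩ := hU
  unfold ob at hp
  rw [fam_mem_sq] at hp
  rw [fam_mem_cell] at hz
  obtain ⟨⟨p1, p2⟩, p3, p4⟩ := hp
  obtain ⟨⟨z1, z2⟩, z3, z4⟩ := hz
  rw [abs_lt] at h1 h2
  have e1 : d.1 = c.1 := by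
    have a1 : d.1 < c.1 + 1 := by
      have : (d.1 : ℝ) < (c.1 : ℝ) + 1 := by linarith [h1.1, h1.2]
      exact_mod_cast this
    have a2 : c.1 < d.1 + 1 := by
      have : (c.1 : ℝ) < (d.1 : ℝ) + 1 := by linarith [h1.1, h1.2]
      exact_mod_cast this
    omega
  have e2 : d.2 = c.2 := by
    have a1 : d.2 < c.2 + 1 := by
      have : (d.2 : ℝ) < (c.2 : ℝ) + 1 := by linarith [h2.1, h2.2]
      exact_mod_cast this
    have a2 : c.2 < d.2 + 1 := by
      have : (c.2 : ℝ) < (d.2 : ℝ) + 1 := by linarith [h2.1, h2.2]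
      exact_mod_cast this
    omega
  apply hc
  rwa [← Prod.ext (Eq.symm e1) (Eq.symm e2)] at hd

theorem isOpen_UV (V : Finset (ℤ × ℤ)) : IsOpen (UV V) :=
  Metric.isOpen_thickening

theorem cells_subset_UV (V : Finset (ℤ × ℤ)) : cells V ⊆ UV V :=
  Metric.self_subset_thickening (by norm_num) _

theorem UV_mono {V V' : Finset (ℤ × ℤ)} (h : V ⊆ V') : UV V ⊆ UV V' := by
  intro p hp
  rw [fam_mem_UV] at hp ⊢
  obtain ⟨z, ⟨d, hd, hz⟩, h1, h2⟩ := hp
  exact ⟨z, ⟨d, h hd, hz⟩, h1, h2⟩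

private lemma fam_volume_sq (x y : ℝ) {L : ℝ} (hL : 0 ≤ L) :
    volume (sq x y L) = ENNReal.ofReal (L ^ 2) := by
  unfold sq
  rw [Measure.volume_eq_prod, Measure.prod_prod, Real.volume_Icc, Real.volume_Icc,
    add_sub_cancel_left, add_sub_cancel_left, ← ENNReal.ofReal_mul hL, pow_two]

private lemma fam_meas_sq (x y L : ℝ) : MeasurableSet (sq x y L) := by
  unfold sq
  exact measurableSet_Icc.prod measurableSet_Icc

private lemma fam_vline (a : ℝ) : volume {p : Pl | p.1 = a} = 0 := by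
  have h : {p : Pl | p.1 = a} = ({a} : Set ℝ) ×ˢ (univ : Set ℝ) := by
    ext p
    simp
  rw [h, Measure.volume_eq_prod, Measure.prod_prod, Real.volume_singleton, zero_mul]

private lemma fam_hline (a : ℝ) : volume {p : Pl | p.2 = a} = 0 := by
  have h : {p : Pl | p.2 = a} = (univ : Set ℝ) ×ˢ ({a} : Set ℝ) := by
    ext p
    simp
  rw [h, Measure.volume_eq_prod, Measure.prod_prod, Real.volume_singleton, mul_zero]

private lemma fam_touch {L : ℝ} (hL : 0 < L) {i i' : ℤ} (h : i ≠ i') {x : ℝ}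
    (h1 : (i : ℝ) * L ≤ x) (h2 : x ≤ (i : ℝ) * L + L) (h3 : (i' : ℝ) * L ≤ x)
    (h4 : x ≤ (i' : ℝ) * L + L) : x = ((max i i' : ℤ) : ℝ) * L := by
  rcases lt_or_gt_of_ne h with h | h
  · rw [max_eq_right h.le]
    have h5 : (i : ℝ) + 1 ≤ i' := by exact_mod_cast h
    nlinarith
  · rw [max_eq_left h.le]
    have h5 : (i' : ℝ) + 1 ≤ i := by exact_mod_cast h
    nlinarith

/-- squares of a grid are essentially disjoint -/
private lemma fam_aed {L : ℝ} (hL : 0 < L) {c d : ℤ × ℤ} (h : c ≠ d) :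
    AEDisjoint volume (sq ((c.1 : ℝ) * L) ((c.2 : ℝ) * L) L)
      (sq ((d.1 : ℝ) * L) ((d.2 : ℝ) * L) L) := by
  have h1 : sq ((c.1 : ℝ) * L) ((c.2 : ℝ) * L) L ∩ sq ((d.1 : ℝ) * L) ((d.2 : ℝ) * L) L ⊆
      {p : Pl | p.1 = ((max c.1 d.1 : ℤ) : ℝ) * L} ∪
        {p : Pl | p.2 = ((max c.2 d.2 : ℤ) : ℝ) * L} := by
    rintro p ⟨hp, hp'⟩
    rw [fam_mem_sq] at hp hp'
    by_cases h2 : c.1 = d.1
    · right
      have h3 : c.2 ≠ d.2 := fun h3 => h (Prod.ext h2 h3)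
      exact fam_touch hL h3 hp.2.1 hp.2.2 hp'.2.1 hp'.2.2
    · left
      exact fam_touch hL h2 hp.1.1 hp.1.2 hp'.1.1 hp'.1.2
  unfold AEDisjoint
  refine measure_mono_null h1 ?_
  exact measure_union_null (fam_vline _) (fam_hline _)

private lemma fam_cell_eq (c : ℤ × ℤ) : cell c = sq ((c.1 : ℝ) * 1) ((c.2 : ℝ) * 1) 1 := by
  unfold cell
  rw [mul_one, mul_one]

/-- each cell contributes a square of side `3/2` -/
theorem vol_UV (V : Finset (ℤ × ℤ)) : volume (UV V) ≠ ⊤ ∧ vol (UV V) ≤ 3 * V.card := by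
  have hsub : UV V ⊆ ⋃ c ∈ V, sq ((c.1 : ℝ) - 1 / 4) ((c.2 : ℝ) - 1 / 4) (3 / 2) := by
    intro p hp
    rw [fam_mem_UV] at hp
    obtain ⟨z, ⟨d, hd, hz⟩, h1, h2⟩ := hp
    rw [Set.mem_iUnion₂]
    refine ⟨d, hd, ?_⟩
    rw [fam_mem_cell] at hz
    rw [fam_mem_sq]
    rw [abs_lt] at h1 h2
    refine ⟨⟨?_, ?_⟩, ?_, ?_⟩
    · linarith [hz.1.1]
    · linarith [hz.1.2]
    · linarith [hz.2.1]
    · linarith [hz.2.2]
  have h3 : volume (UV V) ≤ ENNReal.ofReal (3 * V.card) := by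
    calc volume (UV V) ≤ volume (⋃ c ∈ V, sq ((c.1 : ℝ) - 1 / 4) ((c.2 : ℝ) - 1 / 4) (3 / 2)) :=
          measure_mono hsub
      _ ≤ ∑ c ∈ V, volume (sq ((c.1 : ℝ) - 1 / 4) ((c.2 : ℝ) - 1 / 4) (3 / 2)) :=
          measure_biUnion_finset_le _ _
      _ = ∑ _c ∈ V, ENNReal.ofReal ((3 / 2) ^ 2) := by
          apply Finset.sum_congr rfl
          intro c _
          exact fam_volume_sq _ _ (by norm_num)
      _ = ENNReal.ofReal ((3 / 2) ^ 2 * V.card) := by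
          rw [Finset.sum_const, nsmul_eq_mul, ENNReal.ofReal_mul (by norm_num),
            ENNReal.ofReal_natCast, mul_comm]
      _ ≤ ENNReal.ofReal (3 * V.card) := by
          apply ENNReal.ofReal_le_ofReal
          apply mul_le_mul_of_nonneg_right (by norm_num)
          positivity
  refine ⟨ne_top_of_le_ne_top ENNReal.ofReal_ne_top h3, ?_⟩
  unfold vol
  have h4 := ENNReal.toReal_mono ENNReal.ofReal_ne_top h3
  rwa [ENNReal.toReal_ofReal (by positivity)] at h4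

private lemma fam_meas_cell (c : ℤ × ℤ) : MeasurableSet (cell c) := by
  unfold cell
  exact fam_meas_sq _ _ _

theorem vol_cells (T : Finset (ℤ × ℤ)) : volume (cells T) ≠ ⊤ ∧ vol (cells T) = T.card := by
  have h1 : volume (cells T) = ENNReal.ofReal T.card := by
    unfold cells
    rw [measure_biUnion_finset₀]
    · have h2 : ∀ c ∈ T, volume (cell c) = 1 := by
        intro c _
        unfold cell
        rw [fam_volume_sq _ _ (by norm_num)]
        simp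
      rw [Finset.sum_congr rfl h2, Finset.sum_const, nsmul_eq_mul, mul_one,
        ENNReal.ofReal_natCast]
    · intro c _ d _ hcd
      change AEDisjoint volume (cell c) (cell d)
      rw [fam_cell_eq, fam_cell_eq]
      exact fam_aed one_pos hcd
    · intro c _
      exact (fam_meas_cell c).nullMeasurableSet
  refine ⟨by rw [h1]; exact ENNReal.ofReal_ne_top, ?_⟩
  unfold vol
  rw [h1, ENNReal.toReal_ofReal (by positivity)]

theorem isCompact_cells (T : Finset (ℤ × ℤ)) : IsCompact (cells T) := by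
  unfold cells
  apply T.isCompact_biUnion
  intro c _
  unfold cell sq
  exact isCompact_Icc.prod isCompact_Icc

/-- essentially disjoint squares of the same scale -/
theorem sum_vol_dsq (k : ℕ) (S : Finset (ℤ × ℤ)) {A : Set Pl} (hA : MeasurableSet A)
    (hfin : volume A ≠ ⊤) : ∑ c ∈ S, vol (dsq k c.1 c.2 ∩ A) ≤ vol A := by
  have hm : ∀ c : ℤ × ℤ, MeasurableSet (dsq k c.1 c.2 ∩ A) := by
    intro c
    unfold dsq
    exact (fam_meas_sq _ _ _).inter hA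
  have h1 : volume (⋃ c ∈ S, dsq k c.1 c.2 ∩ A) = ∑ c ∈ S, volume (dsq k c.1 c.2 ∩ A) := by
    rw [measure_biUnion_finset₀]
    · intro c _ d _ hcd
      change AEDisjoint volume (dsq k c.1 c.2 ∩ A) (dsq k d.1 d.2 ∩ A)
      unfold dsq
      exact (fam_aed (by positivity) hcd).mono inter_subset_left inter_subset_left
    · intro c _
      exact (hm c).nullMeasurableSet
  have h2 : ∑ c ∈ S, vol (dsq k c.1 c.2 ∩ A) = (∑ c ∈ S, volume (dsq k c.1 c.2 ∩ A)).toReal := by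
    unfold vol
    rw [ENNReal.toReal_sum]
    intro c _
    exact ne_top_of_le_ne_top hfin (measure_mono inter_subset_right)
  rw [h2, ← h1]
  unfold vol
  apply ENNReal.toReal_mono hfin
  apply measure_mono
  apply iUnion₂_subset
  intro c _
  exact inter_subset_right

/-- the two finite families met by `D` -/
theorem exists_fam {V : Finset (ℤ × ℤ)} {D : Set Pl} (hD : D ⊆ UV V) :
    ∃ (W : Finset (ℕ × ℤ × ℤ)) (B : Finset (ℤ × ℤ)),
      (∀ q, q ∈ W ↔ wh V q.1 q.2.1 q.2.2 ∧ (D ∩ dsq q.1 q.2.1 q.2.2).Nonempty) ∧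
      (∀ c, c ∈ B ↔ c ∉ V ∧ (D ∩ cell c).Nonempty) ∧
      D ⊆ (⋃ q ∈ W, dsq q.1 q.2.1 q.2.2) ∪ ⋃ c ∈ B, cell c := by
  classical
  have hWf : {q : ℕ × ℤ × ℤ | wh V q.1 q.2.1 q.2.2 ∧
      (D ∩ dsq q.1 q.2.1 q.2.2).Nonempty}.Finite :=
    (wh_finite V).subset fun q hq => hq.1
  have hBf : {c : ℤ × ℤ | c ∉ V ∧ (D ∩ cell c).Nonempty}.Finite := by
    apply Set.Finite.subset (V.biUnion fun d =>
      Finset.Icc (d.1 - 2) (d.1 + 2) ×ˢ Finset.Icc (d.2 - 2) (d.2 + 2)).finite_toSet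
    rintro c ⟨_, p, hpD, hpc⟩
    have hU := hD hpD
    rw [fam_mem_UV] at hU
    obtain ⟨z, ⟨d, hd, hz⟩, h1, h2⟩ := hU
    rw [fam_mem_cell] at hz hpc
    rw [abs_lt] at h1 h2
    rw [Finset.mem_coe, Finset.mem_biUnion]
    refine ⟨d, hd, ?_⟩
    rw [Finset.mem_product, Finset.mem_Icc, Finset.mem_Icc]
    have a1 : d.1 - 2 ≤ c.1 := by
      have : (d.1 : ℝ) - 2 ≤ (c.1 : ℝ) := by linarith [hz.1.1, hpc.1.2]
      exact_mod_cast this
    have a2 : c.1 ≤ d.1 + 2 := by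
      have : (c.1 : ℝ) ≤ (d.1 : ℝ) + 2 := by linarith [hz.1.2, hpc.1.1]
      exact_mod_cast this
    have a3 : d.2 - 2 ≤ c.2 := by
      have : (d.2 : ℝ) - 2 ≤ (c.2 : ℝ) := by linarith [hz.2.1, hpc.2.2]
      exact_mod_cast this
    have a4 : c.2 ≤ d.2 + 2 := by
      have : (c.2 : ℝ) ≤ (d.2 : ℝ) + 2 := by linarith [hz.2.2, hpc.2.1]
      exact_mod_cast this
    exact ⟨⟨a1, a2⟩, a3, a4⟩
  refine ⟨hWf.toFinset, hBf.toFinset, ?_, ?_, ?_⟩
  · intro q
    rw [Set.Finite.mem_toFinset]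
    rfl
  · intro c
    rw [Set.Finite.mem_toFinset]
    rfl
  · intro p hp
    obtain ⟨c, hc⟩ : ∃ c : ℤ × ℤ, c = (⌊p.1⌋, ⌊p.2⌋) := ⟨_, rfl⟩
    have hpc : p ∈ cell c := by
      rw [fam_mem_cell, hc]
      exact ⟨⟨Int.floor_le _, (Int.lt_floor_add_one _).le⟩, Int.floor_le _,
        (Int.lt_floor_add_one _).le⟩
    by_cases hcV : c ∈ V
    · left
      obtain ⟨k, hk⟩ := wh_cover hcV
      have hpd : p ∈ dsq k (c.1 / 2 ^ k) (c.2 / 2 ^ k) := by
        rw [← cells_cellsOf]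
        unfold cells
        rw [Set.mem_iUnion₂]
        exact ⟨c, mem_cellsOf.2 ⟨rfl, rfl⟩, hpc⟩
      rw [Set.mem_iUnion₂]
      refine ⟨(k, c.1 / 2 ^ k, c.2 / 2 ^ k), ?_, hpd⟩
      rw [Set.Finite.mem_toFinset]
      exact ⟨hk, p, hp, hpd⟩
    · right
      rw [Set.mem_iUnion₂]
      refine ⟨c, ?_, hpc⟩
      rw [Set.Finite.mem_toFinset]
      exact ⟨hcV, p, hp, hpc⟩

/-- the cells of a family of Whitney squares -/
def famT (W : Finset (ℕ × ℤ × ℤ)) : Finset (ℤ × ℤ) := W.biUnion fun q => cellsOf q.1 q.2.1 q.2.2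

theorem famT_subset {V : Finset (ℤ × ℤ)} {W : Finset (ℕ × ℤ × ℤ)}
    (hW : ∀ q ∈ W, wh V q.1 q.2.1 q.2.2) : famT W ⊆ V := by
  unfold famT
  rw [Finset.biUnion_subset]
  intro q hq
  exact wh_sub (hW q hq)

theorem cells_famT (W : Finset (ℕ × ℤ × ℤ)) :
    cells (famT W) = ⋃ q ∈ W, dsq q.1 q.2.1 q.2.2 := by
  ext p
  unfold famT cells
  rw [Set.mem_iUnion₂, Set.mem_iUnion₂]
  constructor
  · rintro ⟨c, hc, hp⟩
    rw [Finset.mem_biUnion] at hc
    obtain ⟨q, hq, hcq⟩ := hc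
    refine ⟨q, hq, ?_⟩
    rw [← cells_cellsOf]
    unfold cells
    rw [Set.mem_iUnion₂]
    exact ⟨c, hcq, hp⟩
  · rintro ⟨q, hq, hp⟩
    rw [← cells_cellsOf] at hp
    unfold cells at hp
    rw [Set.mem_iUnion₂] at hp
    obtain ⟨c, hc, hpc⟩ := hp
    exact ⟨c, Finset.mem_biUnion.2 ⟨q, hq, hc⟩, hpc⟩

theorem card_famT {V : Finset (ℤ × ℤ)} {W : Finset (ℕ × ℤ × ℤ)}
    (hW : ∀ q ∈ W, wh V q.1 q.2.1 q.2.2) : (famT W).card = ∑ q ∈ W, 4 ^ q.1 := by
  unfold famT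
  rw [Finset.card_biUnion]
  · apply Finset.sum_congr rfl
    intro q _
    exact card_cellsOf _ _ _
  · intro q hq r hr hqr
    change Disjoint (cellsOf q.1 q.2.1 q.2.2) (cellsOf r.1 r.2.1 r.2.2)
    rw [Finset.disjoint_left]
    intro c hc hc'
    apply hqr
    obtain ⟨h1, h2, h3⟩ := wh_unique (hW q hq) (hW r hr) hc hc'
    exact Prod.ext h1 (Prod.ext h2 h3)

/-- `D ⊆ cells T ∪ cells B` -/
theorem vol_D_le {D : Set Pl} {T B : Finset (ℤ × ℤ)} (hD : MeasurableSet D)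
    (h : D ⊆ cells T ∪ cells B) : vol D ≤ vol (cells T ∩ D) + B.card := by
  have h1 : D ⊆ (cells T ∩ D) ∪ cells B := by
    intro p hp
    rcases h hp with h2 | h2
    · exact Or.inl ⟨h2, hp⟩
    · exact Or.inr h2
  have h2 : volume D ≤ volume (cells T ∩ D) + volume (cells B) :=
    (measure_mono h1).trans (measure_union_le _ _)
  have h3 : volume (cells T ∩ D) ≠ ⊤ :=
    ne_top_of_le_ne_top (vol_cells T).1 (measure_mono inter_subset_left)
  have h4 := ENNReal.toReal_mono (ENNReal.add_ne_top.2 ⟨h3, (vol_cells B).1⟩) h2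
  rw [ENNReal.toReal_add h3 (vol_cells B).1] at h4
  have h5 := (vol_cells B).2
  unfold vol at h5 ⊢
  rw [h5] at h4
  exact h4

end Pool.Agent.BSv
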