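import Pool.Agent.BSv.Counts

/-!
# The counting estimates, second part (helper98)
-/

open MeasureTheory Set Filter Topology
open scoped ENNReal NNReal ContDiff

noncomputable section

namespace Pool.Agent.BSv

theorem energy_count {r a e s x C c E l n : ℝ} {k : ℕ} (hr : 0 < r) (ha : 0 < a) (he : 0 < e)
    (hs : s = e / √a) (hx : 0 < x) (hC : 0 ≤ C)
    (h : (x * s / 2) ^ 2 * n ≤ C * (1 + k) ^ 2 * E) (hE : E ≤ 40 * l * x * e)
    (hl : l ≤ 2 * c / r ^ 2) :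
    n ≤ 320 * C * c * (1 + k) ^ 2 * (a / (r ^ 2 * e)) / x := by
  have hs2 : s ^ 2 = e ^ 2 / a := by
    rw [hs, div_pow, Real.sq_sqrt ha.le]
  have h1 : (x * s / 2) ^ 2 * n = (x ^ 2 * e ^ 2 / (4 * a)) * n := by
    have : (x * s / 2) ^ 2 = x ^ 2 * s ^ 2 / 4 := by ring
    rw [this, hs2]; field_simp
  have h2 : C * (1 + k) ^ 2 * E ≤ C * (1 + k) ^ 2 * (40 * (2 * c / r ^ 2) * x * e) := by
    have : E ≤ 40 * (2 * c / r ^ 2) * x * e := by
      refine hE.trans ?_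
      gcongr
    gcongr
  have h3 : (x ^ 2 * e ^ 2 / (4 * a)) * n ≤ C * (1 + k) ^ 2 * (40 * (2 * c / r ^ 2) * x * e) := by
    rw [← h1]; exact h.trans h2
  have h4 : C * (1 + k) ^ 2 * (40 * (2 * c / r ^ 2) * x * e) =
      (x ^ 2 * e ^ 2 / (4 * a)) * (320 * C * c * (1 + k) ^ 2 * (a / (r ^ 2 * e)) / x) := by
    field_simp; ring
  rw [h4] at h3
  exact le_of_mul_le_mul_left h3 (by positivity)

theorem count_ident (C2 C4 Y M ν : ℝ) (k : ℕ) (hν : ν ≠ 0) :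
    C2 * (1 + k) ^ 2 * Y / 2 ^ k + 4 / 4 ^ k * (M / ν + C4 * 2 ^ k * Y) =
      (C2 * (1 + k) ^ 2 + 4 * C4) / 2 ^ k * Y + (4 / ν) * M / 4 ^ k := by
  have h44 : (4 : ℝ) ^ k = 2 ^ k * 2 ^ k := by
    rw [← mul_pow]; norm_num
  rw [h44]
  field_simp
  ring

theorem counts (ν : ℝ) (hν : 0 < ν) : ∃ r0 c1 C1 C2 C4 : ℝ, 1 ≤ r0 ∧ 0 < c1 ∧ 0 < C1 ∧ 0 < C2 ∧
    0 < C4 ∧ ∀ r : ℝ, r0 ≤ r → ∀ V : Finset (ℤ × ℤ), V.Nonempty →
    lam (UV V) ≤ 2 * cst ν / r ^ 2 →
    ∃ (D : Set Pl) (a e : ℝ) (W : Finset (ℕ × ℤ × ℤ)) (B : Finset (ℤ × ℤ)),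
      IsConnected D ∧ c1 * r ^ 2 ≤ a ∧ a ≤ 3 * V.card ∧ e = ee r a ∧ 0 < e ∧ a / 16 ≤ vol D ∧
      (∀ q ∈ W, wh V q.1 q.2.1 q.2.2 ∧ (D ∩ dsq q.1 q.2.1 q.2.2).Nonempty) ∧
      (∀ c ∈ B, c ∉ V ∧ (D ∩ cell c).Nonempty) ∧
      D ⊆ (⋃ q ∈ W, dsq q.1 q.2.1 q.2.2) ∪ (⋃ c ∈ B, cell c) ∧
      vol D ≤ (famT W).card + B.card ∧
      (B.card : ℝ) ≤ C1 * (a / (r ^ 2 * e)) ∧
      (∀ k : ℕ, 9 * 4 ^ k < a / 16 →
        ((lev W k).card : ℝ) ≤ C1 * (1 + k) ^ 2 * (a / (r ^ 2 * e))) ∧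
      -(ν * C4 * (a / (r ^ 2 * e))) ≤
        r ^ 4 * lam (UV V) + ν * (famT W).card - cst ν * r ^ 2 ∧
      (∀ k : ℕ, 128 * 2 ^ k * e ≤ 1 → ((lev W k).card : ℝ) ≤
        (C2 * (1 + k) ^ 2 + 4 * C4) / 2 ^ k * (a / (r ^ 2 * e)) +
        (4 / ν) * max (r ^ 4 * lam (UV V) + ν * (famT W).card - cst ν * r ^ 2) 0 / 4 ^ k) := by
  have hc := cst_pos hν
  obtain ⟨r1, c1, hr1, hc1, hpack⟩ := pack (2 * cst ν) (by positivity)
  obtain ⟨Cc, hCc, hcross⟩ := cross_count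
  obtain ⟨CB, hCB, hcapB⟩ := capB_count
  set C1 : ℝ := 320 * Cc * cst ν with hC1
  set C2 : ℝ := 320 * CB * cst ν with hC2
  set κ : ℝ := 1 + 1 / c1 with hκ
  have hκpos : 0 < κ := by positivity
  set C4 : ℝ := C1 + 500 * cst ν * κ * (κ / c1) / ν with hC4
  have hC1pos : 0 < C1 := by positivity
  have hC2pos : 0 < C2 := by positivity
  have hC4pos : 0 < C4 := by positivity
  refine ⟨max r1 (160 / c1 + 1), c1, C1, C2, C4, hr1.trans (le_max_left _ _), hc1, hC1pos, hC2pos,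
    hC4pos, ?_⟩
  intro r hr V hV hlam
  have hrr1 : r1 ≤ r := (le_max_left _ _).trans hr
  have hr1' : 1 ≤ r := hr1.trans hrr1
  have hr0 : 0 < r := by linarith
  have hrr2 : 160 / c1 + 1 ≤ r := (le_max_right _ _).trans hr
  have hcr : 160 < c1 * r ^ 2 := by
    have h1 : 160 / c1 < r := by linarith
    rw [div_lt_iff₀ hc1] at h1
    nlinarith
  obtain ⟨c0, hc0⟩ := hV
  have hUne : (UV V).Nonempty := by
    obtain ⟨p, hp⟩ : (cell c0).Nonempty := by
      refine ⟨((c0.1 : ℝ), (c0.2 : ℝ)), ?_⟩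
      simp [cell, sq]
    exact ⟨p, cells_subset_UV V (Set.mem_biUnion hc0 hp)⟩
  obtain ⟨f, D, a, e, s, hf, hea, hsa, hca, haU, he, he1, hs, hDo, hDc, hDU, hDf, hvD, -, hv, hx⟩ :=
    hpack (UV V) (isOpen_UV V) hUne (vol_UV V).1 r hrr1 hlam
  have ha : 0 < a := by
    have : 0 < c1 * r ^ 2 := by positivity
    linarith
  have h4 : e ^ 4 * (r ^ 2 * a) = 1 := by rw [hea]; exact ee_pow hr0 ha
  have her : e * r ≤ κ := er_le hr0 ha he h4 hc1 hca
  have hrY : r ≤ κ / c1 * (a / (r ^ 2 * e)) := r_le_Y hr0 ha he hc1 hca her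
  obtain ⟨W, B, hW, hB, hcov⟩ := exists_fam hDU
  have hUfin := (vol_UV V).1
  have hDfin : volume D ≠ ⊤ := ne_top_of_le_ne_top hUfin (measure_mono hDU)
  set Y := a / (r ^ 2 * e) with hY
  have hYpos : 0 < Y := by positivity
  have hWsub : ∀ q ∈ W, dsq q.1 q.2.1 q.2.2 ⊆ cells (famT W) := by
    intro q hq
    rw [cells_famT]
    exact Set.subset_biUnion_of_mem (u := fun q : ℕ × ℤ × ℤ => dsq q.1 q.2.1 q.2.2) hq
  have hcov' : D ⊆ cells (famT W) ∪ cells B := by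
    rw [cells_famT]; exact hcov
  have hDTB : vol D ≤ vol (cells (famT W) ∩ D) + B.card := vol_D_le hDo.measurableSet hcov'
  have hobsB : ∀ c ∈ B, (D ∩ dsq 0 c.1 c.2).Nonempty ∧ obs V 0 c := by
    intro c hc
    obtain ⟨h1, h2⟩ := (hB c).mp hc
    refine ⟨by rw [dsq_zero]; exact h2, c, h1, ?_, ?_, ?_, ?_⟩ <;> simp
  have hobsW : ∀ k c, (k, c) ∈ W → (D ∩ dsq k c.1 c.2).Nonempty ∧ obs V k c := by
    intro k c hc
    obtain ⟨h1, h2⟩ := (hW _).mp hc
    obtain ⟨c', g1, g2, g3, g4, g5⟩ := wh_far h1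
    exact ⟨h2, c', g1, g2, g3, g4, g5⟩
  -- the function at level one
  obtain ⟨v1, hv1, hev1, -, hv1D, -⟩ := hv 1 le_rfl
  have hBcard : (B.card : ℝ) ≤ C1 * Y := by
    have h1 := hcross V D hDo hDc v1 hv1 (1 * s / 2) (by positivity)
      (fun p hp => by rw [one_mul]; exact hv1D p hp) 0 B (by
        rw [pow_zero]
        intro hcon
        linarith) hobsB
    have h2 := energy_count hr0 ha he hsa one_pos hCc.le h1 hev1 hlam
    simpa using h2
  have hlevk : ∀ k : ℕ, 9 * 4 ^ k < a / 16 → ((lev W k).card : ℝ) ≤ C1 * (1 + k) ^ 2 * Y := by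
    intro k hk
    have h1 := hcross V D hDo hDc v1 hv1 (1 * s / 2) (by positivity)
      (fun p hp => by rw [one_mul]; exact hv1D p hp) k (lev W k) (by
        intro hcon
        linarith) (fun c hc => hobsW k c (mem_lev.mp hc))
    have h2 := energy_count hr0 ha he hsa one_pos hCc.le h1 hev1 hlam
    simpa using h2
  -- gain
  set G := r ^ 4 * lam (UV V) + ν * (famT W).card - cst ν * r ^ 2 with hG
  have hTfin := (vol_cells (famT W)).1
  have hgain : ∀ x : ℝ, 1 ≤ x → 128 * x * e ≤ 1 →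
      ν * (vol (D \ (D ∩ {p | x * s / 2 < f p})) + vol (cells (famT W) \ D)) ≤
        G + ν * C4 * x * Y := by
    intro x hx1 hxe
    obtain ⟨g1, g2, g3⟩ := hx x hx1 hxe
    set Dx := D ∩ {p | x * s / 2 < f p} with hDx
    have hDxD : Dx ⊆ D := inter_subset_left
    have hDxfin : volume Dx ≠ ⊤ := ne_top_of_le_ne_top hDfin (measure_mono hDxD)
    have h1 := cst_le hν g1 g2 hDxfin (t := r ^ 4) (by positivity)
    have h2 : √(r ^ 4) = r ^ 2 := by
      rw [show r ^ 4 = (r ^ 2) ^ 2 by ring, Real.sqrt_sq (by positivity)]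
    rw [h2] at h1
    have h3 : r ^ 4 * lam Dx ≤ r ^ 4 * (lam (UV V) * (1 + 250 * x * e)) := by gcongr
    have h5 : r ^ 4 * lam (UV V) ≤ 2 * cst ν * r ^ 2 := by
      calc r ^ 4 * lam (UV V) ≤ r ^ 4 * (2 * cst ν / r ^ 2) := by gcongr
        _ = 2 * cst ν * r ^ 2 := by field_simp
    have h6 : r ^ 4 * (lam (UV V) * (1 + 250 * x * e)) ≤
        r ^ 4 * lam (UV V) + 500 * cst ν * κ * (κ / c1) * x * Y := by
      have h7 : r ^ 4 * lam (UV V) * (250 * x * e) ≤ 2 * cst ν * r ^ 2 * (250 * x * e) := by gcongr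
      have h8 : 2 * cst ν * r ^ 2 * (250 * x * e) = 500 * cst ν * x * ((e * r) * r) := by ring
      have h9 : (e * r) * r ≤ κ * (κ / c1 * Y) := by gcongr
      calc r ^ 4 * (lam (UV V) * (1 + 250 * x * e)) =
          r ^ 4 * lam (UV V) + r ^ 4 * lam (UV V) * (250 * x * e) := by ring
        _ ≤ r ^ 4 * lam (UV V) + 500 * cst ν * x * ((e * r) * r) := by linarith
        _ ≤ r ^ 4 * lam (UV V) + 500 * cst ν * x * (κ * (κ / c1 * Y)) := by gcongr
        _ = _ := by ring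
    have e1 : vol D = vol Dx + vol (D \ Dx) := by
      have := vol_split (A := D) (E := Dx) g1.measurableSet hDfin
      rwa [inter_eq_self_of_subset_right hDxD] at this
    have e2 : ((famT W).card : ℝ) = vol (cells (famT W) ∩ D) + vol (cells (famT W) \ D) := by
      rw [← (vol_cells (famT W)).2]
      exact vol_split hDo.measurableSet hTfin
    have e3 : vol Dx ≤ (famT W).card - vol (cells (famT W) \ D) + B.card - vol (D \ Dx) := by
      linarith
    have e4 : ν * vol Dx ≤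
        ν * ((famT W).card - vol (cells (famT W) \ D) + B.card - vol (D \ Dx)) := by gcongr
    have e5 : ν * (B.card : ℝ) ≤ ν * (C1 * (x * Y)) := by
      have : C1 * Y ≤ C1 * (x * Y) := by
        have : Y ≤ x * Y := by nlinarith
        gcongr
      have := hBcard.trans this
      gcongr
    have e6 : ν * C4 * x * Y = ν * (C1 * (x * Y)) + 500 * cst ν * κ * (κ / c1) * x * Y := by
      rw [hC4]; field_simp
    rw [e6, hG]
    have e7 : ν * ((famT W).card - vol (cells (famT W) \ D) + B.card - vol (D \ Dx)) =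
        ν * (famT W).card + ν * B.card - ν * (vol (D \ Dx) + vol (cells (famT W) \ D)) := by ring
    rw [e7] at e4
    linarith
  have hlow : -(ν * C4 * Y) ≤ G := by
    have h1 := hgain 1 le_rfl (by linarith)
    have h2 : 0 ≤ ν * (vol (D \ (D ∩ {p | 1 * s / 2 < f p})) + vol (cells (famT W) \ D)) := by
      have h3 := vol_nonneg (D \ (D ∩ {p | 1 * s / 2 < f p}))
      have h4 := vol_nonneg (cells (famT W) \ D)
      positivity
    have h3 : ν * C4 * 1 * Y = ν * C4 * Y := by ring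
    rw [h3] at h1
    linarith
  refine ⟨D, a, e, W, B, hDc, hca, haU.trans (vol_UV V).2, hea, he, hvD, fun q hq => (hW q).mp hq,
    fun c hc => (hB c).mp hc, hcov, ?_, hBcard, hlevk, hlow, ?_⟩
  · have h1 : vol (cells (famT W) ∩ D) ≤ (famT W).card := by
      rw [← (vol_cells (famT W)).2]
      exact vol_mono hTfin inter_subset_left
    linarith
  · intro k hk
    have hx1 : (1 : ℝ) ≤ 2 ^ k := one_le_pow₀ (by norm_num)
    obtain ⟨g1, -, -⟩ := hx (2 ^ k) hx1 hk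
    obtain ⟨vx, hvx, hevx, -, -, hvxD⟩ := hv (2 ^ k) hx1
    have h1 := three_types (k := k) (W := W) hDo.measurableSet g1.measurableSet hDfin
      inter_subset_left (T := famT W) hWsub (C2 * (1 + k) ^ 2 * Y / 2 ^ k) (by
        intro S hS
        have h2 := hcapB V _ g1.measurableSet vx hvx (2 ^ k * s / 2) (by positivity)
          (fun p hp => hvxD p hp.1 hp.2) k S (fun c hc => ⟨(hS c hc).2, (hobsW k c (hS c hc).1).2⟩)
        exact energy_count hr0 ha he hsa (by positivity) hCB.le h2 hevx hlam)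
    have h2 := hgain (2 ^ k) hx1 hk
    have h3 : vol (D \ (D ∩ {p | 2 ^ k * s / 2 < f p})) + vol (cells (famT W) \ D) ≤
        max G 0 / ν + C4 * 2 ^ k * Y := by
      have h4 : vol (D \ (D ∩ {p | 2 ^ k * s / 2 < f p})) + vol (cells (famT W) \ D) ≤
          (G + ν * C4 * 2 ^ k * Y) / ν := by
        rw [le_div_iff₀ hν]; linarith
      have h5 : (G + ν * C4 * 2 ^ k * Y) / ν = G / ν + C4 * 2 ^ k * Y := by
        field_simp
      have h6 : G / ν ≤ max G 0 / ν := by gcongr; exact le_max_left _ _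
      linarith
    calc ((lev W k).card : ℝ) ≤ C2 * (1 + k) ^ 2 * Y / 2 ^ k +
          4 / 4 ^ k * (vol (D \ (D ∩ {p | 2 ^ k * s / 2 < f p})) + vol (cells (famT W) \ D)) := h1
      _ ≤ C2 * (1 + k) ^ 2 * Y / 2 ^ k + 4 / 4 ^ k * (max G 0 / ν + C4 * 2 ^ k * Y) := by gcongr
      _ = _ := count_ident C2 C4 Y (max G 0) ν k hν.ne'

end Pool.Agent.BSv
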