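import Pool.Agent.BSv.Lam

/-!
# Module TRANS: Euclidean plane versus `ℝ × ℝ`

The linear homeomorphism `φ : E2 → ℝ × ℝ`, `x ↦ (x 0, x 1)` preserves volume
(`EuclideanSpace.volume_preserving_symm_measurableEquiv_toLp`, `volume_preserving_finTwoArrow`), and
`‖fderiv (f ∘ φ) x‖² = gr2 f (φ x)` (operator norm of a functional on `E2` = Euclidean norm of its
coefficients).
-/

open MeasureTheory Set Filter Topology
open scoped ENNReal NNReal ContDiff

noncomputable section

namespace Pool.Agent.BSv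

/-- coordinates -/
def toPl (x : E2) : Pl := (x 0, x 1)

private def Trans_lin : E2 ≃ₗ[ℝ] Pl where
  toFun := toPl
  map_add' _ _ := rfl
  map_smul' _ _ := rfl
  invFun p := !₂[p.1, p.2]
  left_inv x := by
    ext i
    fin_cases i <;> rfl
  right_inv p := rfl

private def Trans_L : E2 ≃L[ℝ] Pl := Trans_lin.toContinuousLinearEquiv

private theorem Trans_L_apply (x : E2) : Trans_L x = toPl x := rfl

private theorem Trans_norm (T : E2 →L[ℝ] ℝ) : ‖T‖ ^ 2 =
    T (EuclideanSpace.single 0 1) ^ 2 + T (EuclideanSpace.single 1 1) ^ 2 := by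
  obtain ⟨y, rfl⟩ := (InnerProductSpace.toDual ℝ E2).surjective T
  rw [LinearIsometryEquiv.norm_map, EuclideanSpace.norm_sq_eq, Fin.sum_univ_two]
  simp [EuclideanSpace.inner_single_right]

private theorem Trans_gr2 {g : Pl → ℝ} (hg : ContDiff ℝ ∞ g) (x : E2) :
    ‖fderiv ℝ (fun y => g (Trans_L y)) x‖ ^ 2 = gr2 g (Trans_L x) := by
  have h1 : HasFDerivAt g (fderiv ℝ g (Trans_L x)) (Trans_L x) :=
    (hg.differentiable (by simp)).differentiableAt.hasFDerivAt
  have h2 : fderiv ℝ (fun y => g (Trans_L y)) x =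
      (fderiv ℝ g (Trans_L x)).comp (Trans_L : E2 →L[ℝ] Pl) :=
    (h1.comp x (Trans_L : E2 →L[ℝ] Pl).hasFDerivAt).fderiv
  have e0 : Trans_L (EuclideanSpace.single 0 1) = ((1, 0) : Pl) := by
    rw [Trans_L_apply]
    simp [toPl]
  have e1 : Trans_L (EuclideanSpace.single 1 1) = ((0, 1) : Pl) := by
    rw [Trans_L_apply]
    simp [toPl]
  rw [Trans_norm, h2]
  unfold gr2 dx dy
  rw [ContinuousLinearMap.comp_apply, ContinuousLinearMap.comp_apply]
  show fderiv ℝ g (Trans_L x) (Trans_L (EuclideanSpace.single 0 1)) ^ 2 +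
    fderiv ℝ g (Trans_L x) (Trans_L (EuclideanSpace.single 1 1)) ^ 2 = _
  rw [e0, e1]

theorem toPl_homeo : ∃ φ : E2 ≃ₜ Pl, ∀ x, φ x = toPl x :=
  ⟨Trans_L.toHomeomorph, fun _ => rfl⟩

theorem toPl_mp : MeasurePreserving toPl :=
  (volume_preserving_finTwoArrow ℝ).comp
    (EuclideanSpace.volume_preserving_symm_measurableEquiv_toLp (Fin 2))

private theorem Trans_int (h : Pl → ℝ) : ∫ x, h (Trans_L x) = ∫ p, h p :=
  toPl_mp.integral_comp Trans_L.toHomeomorph.measurableEmbedding h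

private theorem Trans_CC (U : Set E2) (g : Pl → ℝ) : CC (toPl '' U) g ↔
    ContDiff ℝ ∞ (fun x => g (Trans_L x)) ∧ HasCompactSupport (fun x => g (Trans_L x)) ∧
      tsupport (fun x => g (Trans_L x)) ⊆ U := by
  have hts : tsupport (fun x => g (Trans_L x)) = Trans_L ⁻¹' tsupport g :=
    tsupport_comp_eq_preimage g Trans_L.toHomeomorph
  have himg : toPl '' (Trans_L ⁻¹' tsupport g) = tsupport g :=
    image_preimage_eq _ Trans_L.surjective
  constructor
  · intro h
    refine ⟨h.smooth.comp Trans_L.contDiff, h.cpt.comp_homeomorph Trans_L.toHomeomorph, ?_⟩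
    rw [hts]
    intro x hx
    obtain ⟨y, hy, hyx⟩ := h.sub hx
    have h2 : y = x := Trans_L.injective hyx
    rwa [← h2]
  · rintro ⟨h1, h2, h3⟩
    have hg : g = fun p => (fun x => g (Trans_L x)) (Trans_L.symm p) := by
      funext p
      simp
    refine ⟨?_, ?_, ?_⟩
    · rw [hg]
      exact h1.comp Trans_L.symm.contDiff
    · rw [hg]
      exact h2.comp_homeomorph Trans_L.symm.toHomeomorph
    · rw [← himg, ← hts]
      exact image_mono h3

theorem lamE_eq (U : Set E2) : lamE U = lam (toPl '' U) := by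
  unfold lamE lam
  congr 1
  ext e
  constructor
  · rintro ⟨f, h1, h2, h3, h4, h5⟩
    obtain ⟨g, rfl⟩ : ∃ g : Pl → ℝ, (fun x => g (Trans_L x)) = f :=
      ⟨fun p => f (Trans_L.symm p), by funext x; simp⟩
    have hCC := (Trans_CC U g).2 ⟨h1, h2, h3⟩
    refine ⟨g, hCC, ?_, ?_⟩
    · rw [← h4]
      exact (Trans_int fun p => g p ^ 2).symm
    · rw [h5]
      unfold en
      rw [← Trans_int (gr2 g)]
      congr 1
      congr 1
      funext x
      exact Trans_gr2 hCC.smooth x
  · rintro ⟨g, hCC, h4, h5⟩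
    obtain ⟨h1, h2, h3⟩ := (Trans_CC U g).1 hCC
    refine ⟨fun x => g (Trans_L x), h1, h2, h3, ?_, ?_⟩
    · rw [← h4]
      exact Trans_int fun p => g p ^ 2
    · rw [h5]
      unfold en
      rw [← Trans_int (gr2 g)]
      congr 1
      congr 1
      funext x
      exact (Trans_gr2 hCC.smooth x).symm

private theorem Trans_vol (U : Set E2) (hU : IsOpen U) : volume (toPl '' U) = volume U := by
  have h1 : MeasurableSet (toPl '' U) :=
    (Trans_L.toHomeomorph.isOpenMap U hU).measurableSet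
  have h2 : toPl ⁻¹' (toPl '' U) = U := preimage_image_eq U Trans_L.injective
  rw [← toPl_mp.measure_preimage h1.nullMeasurableSet, h2]

theorem cE_eq (ν : ℝ) : cE ν = cst ν := by
  unfold cE cst
  congr 1
  ext e
  constructor
  · rintro ⟨U, h1, h2, h3, h4⟩
    refine ⟨toPl '' U, Trans_L.toHomeomorph.isOpenMap U h1, h2.image _, ?_, ?_⟩
    · rw [Trans_vol U h1]
      exact h3
    · rw [h4, vol, Trans_vol U h1, lamE_eq]
  · rintro ⟨V, h1, h2, h3, h4⟩
    have hO : IsOpen (toPl ⁻¹' V) := h1.preimage Trans_L.continuous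
    have hV : toPl '' (toPl ⁻¹' V) = V := image_preimage_eq _ Trans_L.surjective
    refine ⟨toPl ⁻¹' V, hO, ?_, ?_, ?_⟩
    · obtain ⟨p, hp⟩ := h2
      obtain ⟨x, rfl⟩ := Trans_L.surjective p
      exact ⟨x, hp⟩
    · rw [← Trans_vol _ hO, hV]
      exact h3
    · rw [h4, vol, lamE_eq, hV, ← Trans_vol _ hO, hV]

end Pool.Agent.BSv
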