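import Pool.Agent.BSv.Defs

/-!
# Module WHIT: the Whitney squares of a finite set of cells

`fit V k i j` for `k ≥ 1` implies `fit` for the sub-squares: if `fit V (k+1) i j` then
`fit V k i' j'` whenever `i'/2 = i`, `j'/2 = j` (for `k = 0`: `(i',j') ∈ cellsOf3 1 i j`).

* `wh_cover`: for a cell `c ∈ V` let `k` be maximal with `fit V k (c.1/2^k) (c.2/2^k)` (it exists:
  `V` is finite, `cellsOf3` has at least `4^k` elements); note `(c.1/2^k)/2 = c.1/2^(k+1)`.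
* `wh_sub`: the cells of a Whitney square are in `V`.
* `wh_unique`: two Whitney squares with a common cell are equal (heredity).
* `wh_far`: the parent `(k+1, i/2, j/2)` is not admissible, so its 3 by 3 block contains a cell
  `c ∉ V`; `2 (i/2) ∈ {i-1, i}`, so `(i - 3) 2^k ≤ c.1 < (i + 4) 2^k`, the same for the second
  coordinate.
* `wh_near`: touching Whitney squares have scales differing by at most one: if `k + 2 ≤ k'` then the
  3 by 3 block of the parent of the small square is inside the 3 by 3 block of the large one.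
* `wh_closed`: a Whitney square touching a cell outside `V` has `k = 0`.
* `wh_finite`: finitely many Whitney squares (each contains a cell of `V`, disjoint).
-/

open MeasureTheory Set Filter Topology
open scoped ENNReal NNReal ContDiff

noncomputable section

namespace Pool.Agent.BSv

private lemma whit_one_le (k : ℕ) : (1 : ℤ) ≤ 2 ^ k := by
  have : (0 : ℤ) < 2 ^ k := by positivity
  omega

private lemma whit_div_iff (a i : ℤ) (k : ℕ) :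
    a / 2 ^ k = i ↔ i * 2 ^ k ≤ a ∧ a < (i + 1) * 2 ^ k := by
  have h2 : (0 : ℤ) < 2 ^ k := by positivity
  constructor
  · intro h
    constructor
    · rw [← Int.le_ediv_iff_mul_le h2, h]
    · rw [← Int.ediv_lt_iff_lt_mul h2, h]
      omega
  · rintro ⟨h3, h4⟩
    rw [← Int.le_ediv_iff_mul_le h2] at h3
    rw [← Int.ediv_lt_iff_lt_mul h2] at h4
    omega

theorem mem_cellsOf {k : ℕ} {i j : ℤ} {c : ℤ × ℤ} :
    c ∈ cellsOf k i j ↔ c.1 / 2 ^ k = i ∧ c.2 / 2 ^ k = j := by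
  unfold cellsOf
  rw [Finset.mem_product, Finset.mem_Ico, Finset.mem_Ico, whit_div_iff, whit_div_iff]

theorem card_cellsOf (k : ℕ) (i j : ℤ) : (cellsOf k i j).card = 4 ^ k := by
  unfold cellsOf
  rw [Finset.card_product, Int.card_Ico, Int.card_Ico]
  have h1 : ∀ i : ℤ, ((i + 1) * 2 ^ k - i * 2 ^ k).toNat = 2 ^ k := by
    intro i
    have h2 : (i + 1) * 2 ^ k - i * 2 ^ k = ((2 ^ k : ℕ) : ℤ) := by
      push_cast
      ring
    rw [h2, Int.toNat_natCast]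
  rw [h1, h1, ← mul_pow]
  norm_num

private lemma whit_mem_sq {x y L : ℝ} {p : Pl} :
    p ∈ sq x y L ↔ (x ≤ p.1 ∧ p.1 ≤ x + L) ∧ (y ≤ p.2 ∧ p.2 ≤ y + L) := by
  unfold sq
  rw [Set.mem_prod, Set.mem_Icc, Set.mem_Icc]

private lemma whit_mem_dsq {k : ℕ} {i j : ℤ} {p : Pl} :
    p ∈ dsq k i j ↔ ((i : ℝ) * 2 ^ k ≤ p.1 ∧ p.1 ≤ ((i : ℝ) + 1) * 2 ^ k) ∧
      ((j : ℝ) * 2 ^ k ≤ p.2 ∧ p.2 ≤ ((j : ℝ) + 1) * 2 ^ k) := by
  unfold dsq
  rw [whit_mem_sq]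
  have e1 : (i : ℝ) * 2 ^ k + 2 ^ k = ((i : ℝ) + 1) * 2 ^ k := by ring
  have e2 : (j : ℝ) * 2 ^ k + 2 ^ k = ((j : ℝ) + 1) * 2 ^ k := by ring
  rw [e1, e2]

private lemma whit_mem_cell {c : ℤ × ℤ} {p : Pl} :
    p ∈ cell c ↔ ((c.1 : ℝ) ≤ p.1 ∧ p.1 ≤ (c.1 : ℝ) + 1) ∧
      ((c.2 : ℝ) ≤ p.2 ∧ p.2 ≤ (c.2 : ℝ) + 1) := by
  unfold cell
  rw [whit_mem_sq]

/-- one coordinate of the covering of a dyadic interval by unit intervals -/
private lemma whit_coord (k : ℕ) (i : ℤ) {x : ℝ} (h1 : (i : ℝ) * 2 ^ k ≤ x)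
    (h2 : x ≤ ((i : ℝ) + 1) * 2 ^ k) :
    ∃ a : ℤ, i * 2 ^ k ≤ a ∧ a < (i + 1) * 2 ^ k ∧ (a : ℝ) ≤ x ∧ x ≤ (a : ℝ) + 1 := by
  have hpos : (1 : ℤ) ≤ 2 ^ k := whit_one_le _
  rcases lt_or_ge x (((i : ℝ) + 1) * 2 ^ k) with h | h
  · refine ⟨⌊x⌋, ?_, ?_, Int.floor_le x, (Int.lt_floor_add_one x).le⟩
    · rw [Int.le_floor]
      push_cast
      exact h1
    · rw [Int.floor_lt]
      push_cast
      exact h
  · refine ⟨(i + 1) * 2 ^ k - 1, ?_, ?_, ?_, ?_⟩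
    · have e : (i + 1) * 2 ^ k = i * 2 ^ k + 2 ^ k := by ring
      rw [e]
      omega
    · omega
    · push_cast
      linarith
    · push_cast
      linarith

/-- a closed dyadic square is the union of its closed cells -/
theorem cells_cellsOf (k : ℕ) (i j : ℤ) : cells (cellsOf k i j) = dsq k i j := by
  ext p
  unfold cells
  rw [Set.mem_iUnion₂, whit_mem_dsq]
  constructor
  · rintro ⟨c, hc, hp⟩
    unfold cellsOf at hc
    rw [Finset.mem_product, Finset.mem_Ico, Finset.mem_Ico] at hc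
    rw [whit_mem_cell] at hp
    obtain ⟨⟨h1, h2⟩, h3, h4⟩ := hc
    obtain ⟨⟨h5, h6⟩, h7, h8⟩ := hp
    have h1' : (i : ℝ) * 2 ^ k ≤ c.1 := by exact_mod_cast h1
    have h3' : (j : ℝ) * 2 ^ k ≤ c.2 := by exact_mod_cast h3
    have h2' : (c.1 : ℝ) + 1 ≤ ((i : ℝ) + 1) * 2 ^ k := by exact_mod_cast h2
    have h4' : (c.2 : ℝ) + 1 ≤ ((j : ℝ) + 1) * 2 ^ k := by exact_mod_cast h4
    exact ⟨⟨h1'.trans h5, h6.trans h2'⟩, h3'.trans h7, h8.trans h4'⟩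
  · rintro ⟨⟨h1, h2⟩, h3, h4⟩
    obtain ⟨a, ha1, ha2, ha3, ha4⟩ := whit_coord k i h1 h2
    obtain ⟨b, hb1, hb2, hb3, hb4⟩ := whit_coord k j h3 h4
    refine ⟨(a, b), ?_, ?_⟩
    · unfold cellsOf
      rw [Finset.mem_product, Finset.mem_Ico, Finset.mem_Ico]
      exact ⟨⟨ha1, ha2⟩, hb1, hb2⟩
    · rw [whit_mem_cell]
      exact ⟨⟨ha3, ha4⟩, hb3, hb4⟩

private lemma whit_cellsOf_sub (k : ℕ) (i j : ℤ) : cellsOf k i j ⊆ cellsOf3 k i j := by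
  have h2 : (0 : ℤ) ≤ 2 ^ k := by positivity
  intro c hc
  unfold cellsOf at hc
  unfold cellsOf3
  rw [Finset.mem_product, Finset.mem_Ico, Finset.mem_Ico] at hc ⊢
  obtain ⟨⟨a1, a2⟩, a3, a4⟩ := hc
  have e1 : (i - 1) * 2 ^ k = i * 2 ^ k - 2 ^ k := by ring
  have e2 : (i + 2) * 2 ^ k = (i + 1) * 2 ^ k + 2 ^ k := by ring
  have e3 : (j - 1) * 2 ^ k = j * 2 ^ k - 2 ^ k := by ring
  have e4 : (j + 2) * 2 ^ k = (j + 1) * 2 ^ k + 2 ^ k := by ring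
  rw [e1, e2, e3, e4]
  omega

private lemma whit_fit_sub {V : Finset (ℤ × ℤ)} {k : ℕ} {i j : ℤ} (h : fit V k i j) :
    cellsOf k i j ⊆ V := by
  unfold fit at h
  split_ifs at h with hk
  · subst hk
    intro c hc
    rw [mem_cellsOf] at hc
    simp only [pow_zero, Int.ediv_one] at hc
    rw [← hc.1, ← hc.2] at h
    exact h
  · exact (whit_cellsOf_sub k i j).trans h

private lemma whit_fit_down {V : Finset (ℤ × ℤ)} {k : ℕ} {i j i' j' : ℤ}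
    (h : fit V (k + 1) i j) (hi : i' / 2 = i) (hj : j' / 2 = j) : fit V k i' j' := by
  unfold fit at h ⊢
  rw [if_neg (by omega)] at h
  split_ifs with hk
  · subst hk
    apply h
    unfold cellsOf3
    rw [Finset.mem_product, Finset.mem_Ico, Finset.mem_Ico]
    simp only [zero_add, pow_one]
    omega
  · intro c hc
    apply h
    unfold cellsOf3 at hc ⊢
    rw [Finset.mem_product, Finset.mem_Ico, Finset.mem_Ico] at hc ⊢
    obtain ⟨⟨a1, a2⟩, a3, a4⟩ := hc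
    have h2 : (0 : ℤ) ≤ 2 ^ k := by positivity
    have e1 : (i - 1) * 2 ^ (k + 1) ≤ (i' - 1) * 2 ^ k := by
      have e : (i - 1) * 2 ^ (k + 1) = (2 * (i - 1)) * 2 ^ k := by ring
      rw [e]
      exact mul_le_mul_of_nonneg_right (by omega) h2
    have e2 : (i' + 2) * 2 ^ k ≤ (i + 2) * 2 ^ (k + 1) := by
      have e : (i + 2) * 2 ^ (k + 1) = (2 * (i + 2)) * 2 ^ k := by ring
      rw [e]
      exact mul_le_mul_of_nonneg_right (by omega) h2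
    have e3 : (j - 1) * 2 ^ (k + 1) ≤ (j' - 1) * 2 ^ k := by
      have e : (j - 1) * 2 ^ (k + 1) = (2 * (j - 1)) * 2 ^ k := by ring
      rw [e]
      exact mul_le_mul_of_nonneg_right (by omega) h2
    have e4 : (j' + 2) * 2 ^ k ≤ (j + 2) * 2 ^ (k + 1) := by
      have e : (j + 2) * 2 ^ (k + 1) = (2 * (j + 2)) * 2 ^ k := by ring
      rw [e]
      exact mul_le_mul_of_nonneg_right (by omega) h2
    exact ⟨⟨e1.trans a1, a2.trans_le e2⟩, e3.trans a3, a4.trans_le e4⟩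

private lemma whit_div_div (a : ℤ) (k : ℕ) : a / 2 ^ k / 2 = a / 2 ^ (k + 1) := by
  rw [pow_succ, Int.ediv_ediv_of_nonneg (by positivity)]

private lemma whit_fit_downs {V : Finset (ℤ × ℤ)} (c : ℤ × ℤ) (k m : ℕ)
    (h : fit V (k + m) (c.1 / 2 ^ (k + m)) (c.2 / 2 ^ (k + m))) :
    fit V k (c.1 / 2 ^ k) (c.2 / 2 ^ k) := by
  induction m with
  | zero => exact h
  | succ m ih =>
    apply ih
    exact whit_fit_down h (whit_div_div _ _) (whit_div_div _ _)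

private lemma whit_fit_le {V : Finset (ℤ × ℤ)} {k : ℕ} {i j : ℤ} (h : fit V k i j) :
    k < V.card := by
  have h1 := Finset.card_le_card (whit_fit_sub h)
  rw [card_cellsOf] at h1
  exact (Nat.lt_pow_self (by norm_num)).trans_le h1

theorem wh_cover {V : Finset (ℤ × ℤ)} {c : ℤ × ℤ} (hc : c ∈ V) :
    ∃ k : ℕ, wh V k (c.1 / 2 ^ k) (c.2 / 2 ^ k) := by
  classical
  have h0 : fit V 0 (c.1 / 2 ^ 0) (c.2 / 2 ^ 0) := by
    unfold fit
    rw [if_pos rfl]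
    simpa using hc
  obtain ⟨k, hk⟩ : ∃ k, k = Nat.findGreatest
    (fun k => fit V k (c.1 / 2 ^ k) (c.2 / 2 ^ k)) V.card := ⟨_, rfl⟩
  have h1 : fit V k (c.1 / 2 ^ k) (c.2 / 2 ^ k) := by
    rw [hk]
    exact Nat.findGreatest_spec (P := fun k => fit V k (c.1 / 2 ^ k) (c.2 / 2 ^ k))
      (Nat.zero_le _) h0
  refine ⟨k, h1, ?_⟩
  rw [whit_div_div, whit_div_div]
  intro h2
  have h3 := (whit_fit_le h2).le
  have h4 := Nat.le_findGreatest (P := fun k => fit V k (c.1 / 2 ^ k) (c.2 / 2 ^ k)) h3 h2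
  omega

theorem wh_sub {V : Finset (ℤ × ℤ)} {k : ℕ} {i j : ℤ} (h : wh V k i j) : cellsOf k i j ⊆ V :=
  whit_fit_sub h.1

private lemma whit_not_lt {V : Finset (ℤ × ℤ)} {k k' : ℕ} {i j i' j' : ℤ} (h : wh V k i j)
    (h' : wh V k' i' j') {c : ℤ × ℤ} (hc : c ∈ cellsOf k i j) (hc' : c ∈ cellsOf k' i' j') :
    ¬ k < k' := by
  intro hlt
  rw [mem_cellsOf] at hc hc'
  obtain ⟨m, hm⟩ := Nat.exists_eq_add_of_le (Nat.succ_le_of_lt hlt)
  have h1 := h'.1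
  rw [← hc'.1, ← hc'.2, hm] at h1
  have h2 := whit_fit_downs c (k + 1) m h1
  apply h.2
  rw [← hc.1, ← hc.2, whit_div_div, whit_div_div]
  exact h2

theorem wh_unique {V : Finset (ℤ × ℤ)} {k k' : ℕ} {i j i' j' : ℤ} (h : wh V k i j)
    (h' : wh V k' i' j') {c : ℤ × ℤ} (hc : c ∈ cellsOf k i j) (hc' : c ∈ cellsOf k' i' j') :
    k = k' ∧ i = i' ∧ j = j' := by
  have h1 : k = k' := le_antisymm (not_lt.1 (whit_not_lt h' h hc' hc))
    (not_lt.1 (whit_not_lt h h' hc hc'))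
  subst h1
  rw [mem_cellsOf] at hc hc'
  exact ⟨rfl, hc.1.symm.trans hc'.1, hc.2.symm.trans hc'.2⟩

private lemma whit_not_fit {V : Finset (ℤ × ℤ)} {k : ℕ} {i j : ℤ} (h : ¬ fit V (k + 1) i j) :
    ∃ c : ℤ × ℤ, c ∉ V ∧ (i - 1) * 2 ^ (k + 1) ≤ c.1 ∧ c.1 < (i + 2) * 2 ^ (k + 1) ∧
      (j - 1) * 2 ^ (k + 1) ≤ c.2 ∧ c.2 < (j + 2) * 2 ^ (k + 1) := by
  unfold fit at h
  rw [if_neg (by omega), Finset.not_subset] at h
  obtain ⟨c, hc, hcV⟩ := h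
  unfold cellsOf3 at hc
  rw [Finset.mem_product, Finset.mem_Ico, Finset.mem_Ico] at hc
  exact ⟨c, hcV, hc.1.1, hc.1.2, hc.2.1, hc.2.2⟩

theorem wh_far {V : Finset (ℤ × ℤ)} {k : ℕ} {i j : ℤ} (h : wh V k i j) :
    ∃ c : ℤ × ℤ, c ∉ V ∧ (i - 3) * 2 ^ k ≤ c.1 ∧ c.1 < (i + 4) * 2 ^ k ∧
      (j - 3) * 2 ^ k ≤ c.2 ∧ c.2 < (j + 4) * 2 ^ k := by
  obtain ⟨c, hc, h1, h2, h3, h4⟩ := whit_not_fit h.2
  have hp : (0 : ℤ) ≤ 2 ^ k := by positivity
  have lo : ∀ i : ℤ, (i - 3) * 2 ^ k ≤ (i / 2 - 1) * 2 ^ (k + 1) := by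
    intro i
    have e : (i / 2 - 1) * 2 ^ (k + 1) = (2 * (i / 2 - 1)) * 2 ^ k := by ring
    rw [e]
    exact mul_le_mul_of_nonneg_right (by omega) hp
  have hi : ∀ i : ℤ, (i / 2 + 2) * 2 ^ (k + 1) ≤ (i + 4) * 2 ^ k := by
    intro i
    have e : (i / 2 + 2) * 2 ^ (k + 1) = (2 * (i / 2 + 2)) * 2 ^ k := by ring
    rw [e]
    exact mul_le_mul_of_nonneg_right (by omega) hp
  exact ⟨c, hc, (lo i).trans h1, h2.trans_le (hi i), (lo j).trans h3, h4.trans_le (hi j)⟩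

/-- touching dyadic intervals -/
private lemma whit_touch {k k' : ℕ} {i i' : ℤ} {x : ℝ} (h1 : (i : ℝ) * 2 ^ k ≤ x)
    (h2 : x ≤ ((i : ℝ) + 1) * 2 ^ k) (h3 : (i' : ℝ) * 2 ^ k' ≤ x)
    (h4 : x ≤ ((i' : ℝ) + 1) * 2 ^ k') :
    i * 2 ^ k ≤ (i' + 1) * 2 ^ k' ∧ i' * 2 ^ k' ≤ (i + 1) * 2 ^ k := by
  constructor
  · have := h1.trans h4
    exact_mod_cast this
  · have := h3.trans h2
    exact_mod_cast this

private lemma whit_touch2 {k k' : ℕ} {i j i' j' : ℤ}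
    (ht : (dsq k i j ∩ dsq k' i' j').Nonempty) :
    (i * 2 ^ k ≤ (i' + 1) * 2 ^ k' ∧ i' * 2 ^ k' ≤ (i + 1) * 2 ^ k) ∧
      (j * 2 ^ k ≤ (j' + 1) * 2 ^ k' ∧ j' * 2 ^ k' ≤ (j + 1) * 2 ^ k) := by
  obtain ⟨p, hp, hp'⟩ := ht
  rw [whit_mem_dsq] at hp hp'
  exact ⟨whit_touch hp.1.1 hp.1.2 hp'.1.1 hp'.1.2, whit_touch hp.2.1 hp.2.2 hp'.2.1 hp'.2.2⟩

private lemma whit_block {k m : ℕ} {i i' : ℤ} (h1 : i * 2 ^ k ≤ (i' + 1) * 2 ^ (k + 2 + m))
    (h2 : i' * 2 ^ (k + 2 + m) ≤ (i + 1) * 2 ^ k) :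
    (i' - 1) * 2 ^ (k + 2 + m) ≤ (i / 2 - 1) * 2 ^ (k + 1) ∧
      (i / 2 + 2) * 2 ^ (k + 1) ≤ (i' + 2) * 2 ^ (k + 2 + m) := by
  have hp : (0 : ℤ) < 2 ^ k := by positivity
  have hN : (1 : ℤ) ≤ 2 ^ m := whit_one_le _
  have e0 : ∀ z : ℤ, z * 2 ^ (k + 2 + m) = (4 * (z * 2 ^ m)) * 2 ^ k := by
    intro z
    rw [pow_add, pow_add]
    ring
  have e1 : ∀ z : ℤ, z * 2 ^ (k + 1) = (2 * z) * 2 ^ k := by
    intro z
    ring
  rw [e0] at h1 h2
  have h1' := le_of_mul_le_mul_right h1 hp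
  have h2' := le_of_mul_le_mul_right h2 hp
  rw [e0, e0, e1, e1]
  have d1 : (i' + 1) * 2 ^ m = i' * 2 ^ m + 2 ^ m := by ring
  have d2 : (i' - 1) * 2 ^ m = i' * 2 ^ m - 2 ^ m := by ring
  have d3 : (i' + 2) * 2 ^ m = i' * 2 ^ m + 2 * 2 ^ m := by ring
  rw [d1] at h1'
  rw [d2, d3]
  constructor
  · exact mul_le_mul_of_nonneg_right (by omega) hp.le
  · exact mul_le_mul_of_nonneg_right (by omega) hp.le

private lemma whit_near_aux {V : Finset (ℤ × ℤ)} {k k' : ℕ} {i j i' j' : ℤ} (h : wh V k i j)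
    (h' : wh V k' i' j') (ht : (dsq k i j ∩ dsq k' i' j').Nonempty) : k' ≤ k + 1 := by
  by_contra hlt
  obtain ⟨m, hm⟩ := Nat.exists_eq_add_of_le (show k + 2 ≤ k' by omega)
  subst hm
  obtain ⟨⟨a1, a2⟩, a3, a4⟩ := whit_touch2 ht
  obtain ⟨b1, b2⟩ := whit_block a1 a2
  obtain ⟨b3, b4⟩ := whit_block a3 a4
  obtain ⟨c, hc, c1, c2, c3, c4⟩ := whit_not_fit h.2
  have h5 := h'.1
  unfold fit at h5
  rw [if_neg (by omega)] at h5
  apply hc
  apply h5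
  unfold cellsOf3
  rw [Finset.mem_product, Finset.mem_Ico, Finset.mem_Ico]
  exact ⟨⟨b1.trans c1, c2.trans_le b2⟩, b3.trans c3, c4.trans_le b4⟩

theorem wh_near {V : Finset (ℤ × ℤ)} {k k' : ℕ} {i j i' j' : ℤ} (h : wh V k i j)
    (h' : wh V k' i' j') (ht : (dsq k i j ∩ dsq k' i' j').Nonempty) : k ≤ k' + 1 ∧ k' ≤ k + 1 :=
  ⟨whit_near_aux h' h (by rwa [Set.inter_comm]), whit_near_aux h h' ht⟩

theorem wh_closed {V : Finset (ℤ × ℤ)} {k : ℕ} {i j : ℤ} (h : wh V k i j) {c : ℤ × ℤ}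
    (hc : c ∉ V) (ht : (dsq k i j ∩ cell c).Nonempty) : k = 0 := by
  by_contra hk
  have h5 := h.1
  unfold fit at h5
  rw [if_neg hk] at h5
  obtain ⟨p, hp, hp'⟩ := ht
  rw [whit_mem_dsq] at hp
  rw [whit_mem_cell] at hp'
  have h2 : (1 : ℤ) ≤ 2 ^ k := whit_one_le _
  have key : ∀ (i a : ℤ) (x : ℝ), (i : ℝ) * 2 ^ k ≤ x → x ≤ ((i : ℝ) + 1) * 2 ^ k →
      (a : ℝ) ≤ x → x ≤ (a : ℝ) + 1 → (i - 1) * 2 ^ k ≤ a ∧ a < (i + 2) * 2 ^ k := by
    intro i a x x1 x2 x3 x4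
    have y1 : i * 2 ^ k ≤ a + 1 := by
      have := x1.trans x4
      exact_mod_cast this
    have y2 : a ≤ (i + 1) * 2 ^ k := by
      have := x3.trans x2
      exact_mod_cast this
    have e1 : (i - 1) * 2 ^ k = i * 2 ^ k - 2 ^ k := by ring
    have e2 : (i + 2) * 2 ^ k = (i + 1) * 2 ^ k + 2 ^ k := by ring
    rw [e1, e2]
    omega
  obtain ⟨k1, k2⟩ := key i c.1 p.1 hp.1.1 hp.1.2 hp'.1.1 hp'.1.2
  obtain ⟨k3, k4⟩ := key j c.2 p.2 hp.2.1 hp.2.2 hp'.2.1 hp'.2.2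
  apply hc
  apply h5
  unfold cellsOf3
  rw [Finset.mem_product, Finset.mem_Ico, Finset.mem_Ico]
  exact ⟨⟨k1, k2⟩, k3, k4⟩

theorem wh_finite (V : Finset (ℤ × ℤ)) : {q : ℕ × ℤ × ℤ | wh V q.1 q.2.1 q.2.2}.Finite := by
  classical
  apply Set.Finite.subset ((V ×ˢ Finset.range V.card).image
    (fun x : (ℤ × ℤ) × ℕ => (x.2, x.1.1 / 2 ^ x.2, x.1.2 / 2 ^ x.2))).finite_toSet
  rintro ⟨k, i, j⟩ hq
  change wh V k i j at hq
  rw [Finset.mem_coe, Finset.mem_image]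
  have h2 : (2 : ℤ) ^ k ≠ 0 := by positivity
  have h1 : ((i * 2 ^ k, j * 2 ^ k) : ℤ × ℤ) ∈ cellsOf k i j := by
    rw [mem_cellsOf]
    exact ⟨Int.mul_ediv_cancel _ h2, Int.mul_ediv_cancel _ h2⟩
  refine ⟨((i * 2 ^ k, j * 2 ^ k), k), ?_, ?_⟩
  · rw [Finset.mem_product, Finset.mem_range]
    exact ⟨wh_sub hq h1, whit_fit_le hq.1⟩
  · simp only [Int.mul_ediv_cancel _ h2]

private lemma whit_fin4 {a : ℤ} (h0 : 0 ≤ a) (h4 : a < 4) : ∃ f : Fin 4, ((f : ℕ) : ℤ) = a := by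
  refine ⟨⟨a.toNat, by omega⟩, ?_⟩
  simp only
  omega

/-- touching dyadic squares of comparable size are joined by one step (any labels) -/
theorem exists_stp {k k' : ℕ} {i j i' j' : ℤ} (hk : k ≤ k' + 1) (hk' : k' ≤ k + 1)
    (ht : (dsq k i j ∩ dsq k' i' j').Nonempty) (b b' : Bool) :
    ∃ α : Alf, stp α (k, i, j, b) = (k', i', j', b') := by
  obtain ⟨⟨a1, a2⟩, a3, a4⟩ := whit_touch2 ht
  have hc : k = k' + 1 ∨ k = k' ∨ k' = k + 1 := by omega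
  rcases hc with hc | hc | hc
  · subst hc
    have hp : (0 : ℤ) < 2 ^ k' := by positivity
    have e1 : ∀ z : ℤ, z * 2 ^ (k' + 1) = (2 * z) * 2 ^ k' := by
      intro z
      ring
    rw [e1] at a1 a2 a3 a4
    have b1 := le_of_mul_le_mul_right a1 hp
    have b2 := le_of_mul_le_mul_right a2 hp
    have b3 := le_of_mul_le_mul_right a3 hp
    have b4 := le_of_mul_le_mul_right a4 hp
    obtain ⟨f, hf⟩ := whit_fin4 (a := i' - (2 * i - 1)) (by omega) (by omega)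
    obtain ⟨g, hg⟩ := whit_fin4 (a := j' - (2 * j - 1)) (by omega) (by omega)
    refine ⟨(0, f, g, b'), ?_⟩
    unfold stp
    rw [if_pos rfl]
    simp only [hf, hg, Prod.mk.injEq, and_true]
    refine ⟨by omega, by omega, by omega⟩
  · subst hc
    have hp : (0 : ℤ) < 2 ^ k := by positivity
    have b1 := le_of_mul_le_mul_right a1 hp
    have b2 := le_of_mul_le_mul_right a2 hp
    have b3 := le_of_mul_le_mul_right a3 hp
    have b4 := le_of_mul_le_mul_right a4 hp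
    obtain ⟨f, hf⟩ := whit_fin4 (a := i' - (i - 1)) (by omega) (by omega)
    obtain ⟨g, hg⟩ := whit_fin4 (a := j' - (j - 1)) (by omega) (by omega)
    refine ⟨(1, f, g, b'), ?_⟩
    unfold stp
    rw [if_neg (show ¬ (1 : Fin 3) = 0 by decide), if_pos rfl]
    simp only [hf, hg, Prod.mk.injEq, and_true, true_and]
    refine ⟨by omega, by omega⟩
  · subst hc
    have hp : (0 : ℤ) < 2 ^ k := by positivity
    have e1 : ∀ z : ℤ, z * 2 ^ (k + 1) = (2 * z) * 2 ^ k := by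
      intro z
      ring
    rw [e1] at a1 a2 a3 a4
    have b1 := le_of_mul_le_mul_right a1 hp
    have b2 := le_of_mul_le_mul_right a2 hp
    have b3 := le_of_mul_le_mul_right a3 hp
    have b4 := le_of_mul_le_mul_right a4 hp
    obtain ⟨f, hf⟩ := whit_fin4 (a := i' - (i - 1) / 2) (by omega) (by omega)
    obtain ⟨g, hg⟩ := whit_fin4 (a := j' - (j - 1) / 2) (by omega) (by omega)
    refine ⟨(2, f, g, b'), ?_⟩
    unfold stp
    rw [if_neg (show ¬ (2 : Fin 3) = 0 by decide), if_neg (show ¬ (2 : Fin 3) = 1 by decide)]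
    simp only [hf, hg, Prod.mk.injEq, and_true, true_and]
    refine ⟨by omega, by omega⟩

end Pool.Agent.BSv
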