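import Pool.Agent.BSv.Hit
import Pool.Agent.BSv.Whit

/-!
# The union bound over codes (helper98)
-/

open MeasureTheory Set Filter Topology
open scoped ENNReal NNReal ContDiff

noncomputable section

namespace Pool.Agent.BSv

/-- words of length `n` -/
def words (n : ℕ) : Finset (List Alf) := (Finset.univ : Finset (Fin n → Alf)).image List.ofFn

theorem mem_words (w : List Alf) : w ∈ words w.length := by
  unfold words
  rw [Finset.mem_image]
  exact ⟨w.get, Finset.mem_univ _, List.ofFn_get w⟩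

theorem card_words (n : ℕ) : (words n).card ≤ 96 ^ n := by
  unfold words
  refine Finset.card_image_le.trans ?_
  rw [Finset.card_univ, Fintype.card_fun, Fintype.card_fin]
  apply le_of_eq
  congr 1

/-- weight of a configuration -/
def wt (q : ℝ) (Λ V : Finset (ℤ × ℤ)) : ℝ := q ^ V.card * (1 - q) ^ (Λ.card - V.card)

theorem wt_nonneg {q : ℝ} (h0 : 0 ≤ q) (h1 : q ≤ 1) (Λ V : Finset (ℤ × ℤ)) : 0 ≤ wt q Λ V := by
  unfold wt
  have : 0 ≤ 1 - q := by linarith
  positivity

theorem sum_wt_le {q : ℝ} (h0 : 0 ≤ q) (h1 : q ≤ 1) (Λ : Finset (ℤ × ℤ))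
    (S : Finset (Finset (ℤ × ℤ))) (hS : S ⊆ Λ.powerset) (H : Finset (ℤ × ℤ)) :
    ∑ V ∈ S with H ⊆ V, wt q Λ V ≤ q ^ H.card := by
  by_cases hH : H ⊆ Λ
  · rw [← sum_weights hH q]
    apply Finset.sum_le_sum_of_subset_of_nonneg
    · intro V hV
      rw [Finset.mem_filter] at hV ⊢
      exact ⟨hS hV.1, hV.2⟩
    · intro V _ _
      exact wt_nonneg h0 h1 Λ V
  · have : (S.filter fun V => H ⊆ V) = ∅ := by
      rw [Finset.filter_eq_empty_iff]
      intro V hV hHV
      exact hH (hHV.trans (Finset.mem_powerset.mp (hS hV)))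
    rw [this, Finset.sum_empty]
    positivity

theorem union_bound {q : ℝ} (h0 : 0 < q) (h1 : q ≤ 1) (Λ : Finset (ℤ × ℤ))
    (S : Finset (Finset (ℤ × ℤ))) (hS : S ⊆ Λ.powerset) (g : Finset (ℤ × ℤ) → ℝ) {A : ℝ}
    (hA : 0 ≤ A)
    (hcode : ∀ V ∈ S, ∃ (k : ℕ) (i j : ℤ) (w : List Alf), cellsOf k i j ⊆ V ∧
      Tst (wlk w (k, i, j, true)) ⊆ V ∧
      g V ≤ A * (1 / 192) ^ w.length * (1 / q) ^ (Tst (wlk w (k, i, j, true))).card) :
    ∑ V ∈ S, wt q Λ V * g V ≤ A * (2 * ((Λ.card + 1) * Λ.card)) := by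
  classical
  -- the index set of the starting squares
  set I : Finset (ℕ × ℤ × ℤ) := Finset.range (Λ.card + 1) ×ˢ Λ with hI
  let st : ℕ × ℤ × ℤ → Vx := fun x => (x.1, x.2.1 / 2 ^ x.1, x.2.2 / 2 ^ x.1, true)
  have hcode' : ∀ V ∈ S, ∃ x ∈ I, ∃ w : List Alf, Tst (wlk w (st x)) ⊆ V ∧
      g V ≤ A * (1 / 192) ^ w.length * (1 / q) ^ (Tst (wlk w (st x))).card := by
    intro V hV
    obtain ⟨k, i, j, w, g1, g2, g3⟩ := hcode V hV
    have hVΛ : V ⊆ Λ := Finset.mem_powerset.mp (hS hV)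
    have hcard : 4 ^ k ≤ Λ.card := by
      rw [← card_cellsOf k i j]
      exact Finset.card_le_card (g1.trans hVΛ)
    have hk : k < Λ.card + 1 := by
      have : k < 4 ^ k := Nat.lt_pow_self (by norm_num)
      omega
    have hne : (cellsOf k i j).Nonempty := by
      rw [← Finset.card_pos, card_cellsOf]
      positivity
    obtain ⟨c, hc⟩ := hne
    obtain ⟨e1, e2⟩ := mem_cellsOf.mp hc
    refine ⟨(k, c), ?_, w, ?_, ?_⟩
    · rw [hI, Finset.mem_product]
      exact ⟨Finset.mem_range.mpr hk, hVΛ (g1 hc)⟩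
    · show Tst (wlk w (k, c.1 / 2 ^ k, c.2 / 2 ^ k, true)) ⊆ V
      rw [e1, e2]; exact g2
    · show g V ≤ A * (1 / 192) ^ w.length *
        (1 / q) ^ (Tst (wlk w (k, c.1 / 2 ^ k, c.2 / 2 ^ k, true))).card
      rw [e1, e2]; exact g3
  choose! x hxI w hwV hwg using hcode'
  set L := S.sup (fun V => (w V).length) + 1 with hL
  have hlen : ∀ V ∈ S, (w V).length ∈ Finset.range L := by
    intro V hV
    rw [Finset.mem_range, hL]
    exact Nat.lt_succ_of_le (Finset.le_sup (f := fun V => (w V).length) hV)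
  -- the bound for one configuration
  let F : ℕ × ℤ × ℤ → ℕ → List Alf → ℝ := fun x n w =>
    A * (1 / 192) ^ n * (1 / q) ^ (Tst (wlk w (st x))).card
  have hF : ∀ x n w, 0 ≤ F x n w := by
    intro x n w
    positivity
  have hone : ∀ V ∈ S, g V ≤ ∑ x ∈ I, ∑ n ∈ Finset.range L, ∑ w ∈ words n,
      if Tst (wlk w (st x)) ⊆ V then F x n w else 0 := by
    intro V hV
    have n1 : ∀ x n w, 0 ≤ (if Tst (wlk w (st x)) ⊆ V then F x n w else 0) := by
      intro x n w
      split_ifs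
      · exact hF x n w
      · exact le_rfl
    have s1 : (if Tst (wlk (w V) (st (x V))) ⊆ V then F (x V) (w V).length (w V) else 0) ≤
        ∑ w' ∈ words (w V).length, if Tst (wlk w' (st (x V))) ⊆ V then
          F (x V) (w V).length w' else 0 :=
      Finset.single_le_sum (f := fun w' => if Tst (wlk w' (st (x V))) ⊆ V then
          F (x V) (w V).length w' else 0) (fun w' _ => n1 _ _ _) (mem_words (w V))
    have s2 : ∑ w' ∈ words (w V).length, (if Tst (wlk w' (st (x V))) ⊆ V then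
          F (x V) (w V).length w' else 0) ≤ ∑ n ∈ Finset.range L, ∑ w' ∈ words n,
          if Tst (wlk w' (st (x V))) ⊆ V then F (x V) n w' else 0 :=
      Finset.single_le_sum (f := fun n => ∑ w' ∈ words n,
          if Tst (wlk w' (st (x V))) ⊆ V then F (x V) n w' else 0)
        (fun n _ => Finset.sum_nonneg fun w' _ => n1 _ _ _) (hlen V hV)
    have s3 : ∑ n ∈ Finset.range L, ∑ w' ∈ words n,
          (if Tst (wlk w' (st (x V))) ⊆ V then F (x V) n w' else 0) ≤
          ∑ x ∈ I, ∑ n ∈ Finset.range L, ∑ w ∈ words n,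
      if Tst (wlk w (st x)) ⊆ V then F x n w else 0 :=
      Finset.single_le_sum (f := fun x => ∑ n ∈ Finset.range L, ∑ w ∈ words n,
      if Tst (wlk w (st x)) ⊆ V then F x n w else 0)
        (fun x _ => Finset.sum_nonneg fun n _ => Finset.sum_nonneg fun w' _ => n1 _ _ _)
        (hxI V hV)
    refine le_trans ?_ (s1.trans (s2.trans s3))
    rw [if_pos (hwV V hV)]
    exact hwg V hV
  have hsum : ∑ V ∈ S, wt q Λ V * g V ≤ ∑ V ∈ S, ∑ x ∈ I, ∑ n ∈ Finset.range L, ∑ w ∈ words n,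
      wt q Λ V * (if Tst (wlk w (st x)) ⊆ V then F x n w else 0) := by
    apply Finset.sum_le_sum
    intro V hV
    have := mul_le_mul_of_nonneg_left (hone V hV) (wt_nonneg h0.le h1 Λ V)
    simpa only [Finset.mul_sum] using this
  refine hsum.trans ?_
  have hswap : ∑ V ∈ S, ∑ x ∈ I, ∑ n ∈ Finset.range L, ∑ w ∈ words n,
      wt q Λ V * (if Tst (wlk w (st x)) ⊆ V then F x n w else 0) =
      ∑ x ∈ I, ∑ n ∈ Finset.range L, ∑ w ∈ words n, ∑ V ∈ S,
      wt q Λ V * (if Tst (wlk w (st x)) ⊆ V then F x n w else 0) := by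
    rw [Finset.sum_comm]
    apply Finset.sum_congr rfl
    intro x _
    rw [Finset.sum_comm]
    apply Finset.sum_congr rfl
    intro n _
    rw [Finset.sum_comm]
  rw [hswap]
  have hin : ∀ x n w, ∑ V ∈ S, wt q Λ V * (if Tst (wlk w (st x)) ⊆ V then F x n w else 0) ≤
      A * (1 / 192) ^ n := by
    intro x n w
    have e1 : ∑ V ∈ S, wt q Λ V * (if Tst (wlk w (st x)) ⊆ V then F x n w else 0) =
        F x n w * ∑ V ∈ S with Tst (wlk w (st x)) ⊆ V, wt q Λ V := by
      rw [Finset.mul_sum, Finset.sum_filter]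
      apply Finset.sum_congr rfl
      intro V _
      split_ifs <;> ring
    rw [e1]
    calc F x n w * ∑ V ∈ S with Tst (wlk w (st x)) ⊆ V, wt q Λ V
        ≤ F x n w * q ^ (Tst (wlk w (st x))).card :=
          mul_le_mul_of_nonneg_left (sum_wt_le h0.le h1 Λ S hS _) (hF x n w)
      _ = A * (1 / 192) ^ n := by
          show A * (1 / 192) ^ n * (1 / q) ^ (Tst (wlk w (st x))).card *
            q ^ (Tst (wlk w (st x))).card = _
          rw [mul_assoc, ← mul_pow, one_div_mul_cancel h0.ne', one_pow, mul_one]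
  have hn : ∀ n, ∑ _w ∈ words n, A * (1 / 192) ^ n ≤ A * (1 / 2) ^ n := by
    intro n
    rw [Finset.sum_const, nsmul_eq_mul]
    have h3 : ((words n).card : ℝ) ≤ 96 ^ n := by exact_mod_cast card_words n
    calc ((words n).card : ℝ) * (A * (1 / 192) ^ n) ≤ 96 ^ n * (A * (1 / 192) ^ n) := by gcongr
      _ = A * (96 ^ n * (1 / 192) ^ n) := by ring
      _ = A * (1 / 2) ^ n := by rw [← mul_pow]; norm_num
  have hgeo : ∑ n ∈ Finset.range L, A * (1 / 2 : ℝ) ^ n ≤ A * 2 := by
    rw [← Finset.mul_sum]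
    gcongr
    have : ∀ m : ℕ, ∑ n ∈ Finset.range m, (1 / 2 : ℝ) ^ n = 2 - 2 * (1 / 2) ^ m := by
      intro m
      induction m with
      | zero => norm_num
      | succ m ih => rw [Finset.sum_range_succ, ih, pow_succ]; ring
    rw [this]
    have : (0 : ℝ) ≤ 2 * (1 / 2) ^ L := by positivity
    linarith
  calc ∑ x ∈ I, ∑ n ∈ Finset.range L, ∑ w ∈ words n, ∑ V ∈ S,
      wt q Λ V * (if Tst (wlk w (st x)) ⊆ V then F x n w else 0)
      ≤ ∑ _x ∈ I, A * 2 := by
        apply Finset.sum_le_sum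
        intro x _
        refine le_trans ?_ hgeo
        apply Finset.sum_le_sum
        intro n _
        refine le_trans ?_ (hn n)
        apply Finset.sum_le_sum
        intro w _
        exact hin x n w
    _ = A * (2 * ((Λ.card + 1) * Λ.card)) := by
        rw [Finset.sum_const, hI, Finset.card_product, Finset.card_range, nsmul_eq_mul]
        push_cast
        ring

end Pool.Agent.BSv
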