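import Pool.Agent.BSv.Fdd

/-!
# Module MEAS: measurability of the area of the sausage

For a continuous path `z` on `[0,t]` the sausage `W = ⋃_{s ≤ t} closedBall (z s) a` is compact, and
`volume W = inf_m volume (W'_m)`, `W'_m = ⋃_{s ≤ t} ball (z s) (a + 1/(m+1))` (decreasing sets of
finite measure with intersection `W`), and `volume (W'_m) = sup_n volume (⋃_{k ≤ 2^n} ball (z (k t/2^n)) (a+1/(m+1)))`
(increasing open sets).  The volume of a finite union of `n` balls of a fixed radius is a continuous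
(or at least measurable: indicator of the open/closed set in `(centres, point)` and
`measurable_measure_prodMk_left`) function of the centres.
-/

open MeasureTheory Set Filter Topology ProbabilityTheory
open scoped ENNReal NNReal ContDiff

noncomputable section

namespace Pool.Agent.BSv

variable {Ω : Type*} [MeasurableSpace Ω] {P : Measure Ω} {X Y : ℝ≥0 → Ω → ℝ}

private theorem path_cont {o : Ω} (hX : Continuous (X · o)) (hY : Continuous (Y · o)) :
    Continuous (fun s : ℝ≥0 => (!₂[X s o, Y s o] : E2)) := by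
  refine (PiLp.continuous_toLp 2 _).comp (continuous_pi fun i => ?_)
  fin_cases i
  · exact hX
  · exact hY

private theorem cpt_Iic (t : ℝ≥0) : IsCompact (Set.Iic t) := by
  rw [← Set.Icc_bot]
  exact isCompact_Icc

/-- the sausage of a continuous path has finite area -/
theorem sausage_finite {o : Ω} (hX : Continuous (X · o)) (hY : Continuous (Y · o)) (a : ℝ)
    (t : ℝ≥0) : volume (sausage X Y a t o) ≠ ⊤ := by
  have hc := path_cont hX hY
  have hK := (cpt_Iic t).image hc
  obtain ⟨R, hR⟩ := hK.isBounded.subset_closedBall (0 : E2)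
  have h1 : sausage X Y a t o ⊆ Metric.closedBall (0 : E2) (R + a) := by
    unfold sausage
    refine iUnion₂_subset fun s hs => ?_
    have h2 := hR (mem_image_of_mem _ hs)
    rw [Metric.mem_closedBall] at h2
    intro x hx
    rw [Metric.mem_closedBall] at hx ⊢
    calc dist x 0 ≤ dist x (!₂[X s o, Y s o] : E2) + dist (!₂[X s o, Y s o] : E2) 0 :=
          dist_triangle _ _ _
      _ ≤ R + a := by linarith
  exact ((measure_mono h1).trans_lt measure_closedBall_lt_top).ne

/-- a countable description of the sausage -/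
private theorem mem_sausage {o : Ω} (hX : Continuous (X · o)) (hY : Continuous (Y · o)) (a : ℝ)
    (t : ℝ≥0) {u : ℕ → Set.Iic t} (hu : DenseRange u) (x : E2) :
    x ∈ sausage X Y a t o ↔
      ∀ m : ℕ, ∃ q : ℕ, dist x (!₂[X (u q) o, Y (u q) o] : E2) < a + 1 / ((m : ℝ) + 1) := by
  have hc := path_cont hX hY
  constructor
  · intro hx m
    unfold sausage at hx
    obtain ⟨s, hs, hx⟩ := mem_iUnion₂.1 hx
    rw [Metric.mem_closedBall] at hx
    have hm : (0 : ℝ) < 1 / ((m : ℝ) + 1) := by positivity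
    have hc' : Continuous (fun s : Set.Iic t => (!₂[X s o, Y s o] : E2)) :=
      hc.comp continuous_subtype_val
    have hopen : IsOpen {s' : Set.Iic t |
        dist (!₂[X s o, Y s o] : E2) (!₂[X s' o, Y s' o] : E2) < 1 / ((m : ℝ) + 1)} :=
      isOpen_lt (continuous_const.dist hc') continuous_const
    obtain ⟨q, hq⟩ := hu.exists_mem_open hopen ⟨⟨s, hs⟩, by simpa using hm⟩
    refine ⟨q, ?_⟩
    have hq' : dist (!₂[X s o, Y s o] : E2) (!₂[X (u q) o, Y (u q) o] : E2) <
      1 / ((m : ℝ) + 1) := hq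
    calc dist x (!₂[X (u q) o, Y (u q) o] : E2) ≤ dist x (!₂[X s o, Y s o] : E2) +
          dist (!₂[X s o, Y s o] : E2) (!₂[X (u q) o, Y (u q) o] : E2) := dist_triangle _ _ _
      _ < a + 1 / ((m : ℝ) + 1) := by linarith
  · intro hx
    obtain ⟨s, hs, hmin⟩ := (cpt_Iic t).exists_isMinOn ⟨t, le_refl t⟩
      (continuous_const.dist hc : Continuous fun s : ℝ≥0 =>
        dist x (!₂[X s o, Y s o] : E2)).continuousOn
    unfold sausage
    refine mem_iUnion₂.2 ⟨s, hs, ?_⟩
    rw [Metric.mem_closedBall]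
    refine le_of_forall_pos_lt_add fun ε hε => ?_
    obtain ⟨m, hm⟩ := exists_nat_one_div_lt hε
    obtain ⟨q, hq⟩ := hx m
    have h1 : dist x (!₂[X s o, Y s o] : E2) ≤ dist x (!₂[X (u q) o, Y (u q) o] : E2) :=
      hmin (u q).2
    linarith

theorem aemeasurable_sausage (h : PBM P X Y) {a : ℝ} (ha : 0 < a) (t : ℝ≥0) :
    AEMeasurable (fun o => volume (sausage X Y a t o)) P := by
  have : Nonempty (Set.Iic t) := ⟨⟨t, le_refl t⟩⟩
  set u : ℕ → Set.Iic t := TopologicalSpace.denseSeq (Set.Iic t) with hu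
  have hud : DenseRange u := TopologicalSpace.denseRange_denseSeq _
  set X' : ℕ → Ω → ℝ := fun q => (h.fst.aemeasurable (u q)).mk (X (u q)) with hX'
  set Y' : ℕ → Ω → ℝ := fun q => (h.snd.aemeasurable (u q)).mk (Y (u q)) with hY'
  have mX' : ∀ q, Measurable (X' q) := fun q => (h.fst.aemeasurable (u q)).measurable_mk
  have mY' : ∀ q, Measurable (Y' q) := fun q => (h.snd.aemeasurable (u q)).measurable_mk
  set S : Set (Ω × E2) := ⋂ m : ℕ, ⋃ q : ℕ,
    {w | dist w.2 (!₂[X' q w.1, Y' q w.1] : E2) < a + 1 / ((m : ℝ) + 1)} with hS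
  have mS : MeasurableSet S := by
    refine MeasurableSet.iInter fun m => MeasurableSet.iUnion fun q => ?_
    have hm : Measurable (fun w : Ω × E2 => (!₂[X' q w.1, Y' q w.1] : E2)) := by
      refine (WithLp.measurable_toLp 2 _).comp (measurable_pi_lambda _ fun i => ?_)
      fin_cases i
      · exact (mX' q).comp measurable_fst
      · exact (mY' q).comp measurable_fst
    exact measurableSet_lt (measurable_snd.dist hm) measurable_const
  refine ⟨fun o => volume (Prod.mk o ⁻¹' S), measurable_measure_prodMk_left mS, ?_⟩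
  have a1 : ∀ᵐ o ∂P, ∀ q, X (u q) o = X' q o :=
    ae_all_iff.2 fun q => (h.fst.aemeasurable (u q)).ae_eq_mk
  have a2 : ∀ᵐ o ∂P, ∀ q, Y (u q) o = Y' q o :=
    ae_all_iff.2 fun q => (h.snd.aemeasurable (u q)).ae_eq_mk
  filter_upwards [h.fst.cont, h.snd.cont, a1, a2] with o h1 h2 h3 h4
  congr 1
  ext x
  rw [mem_sausage h1 h2 a t hud x]
  simp only [hS, mem_preimage, mem_iInter, mem_iUnion, mem_ofPred_eq, h3, h4]

private theorem expo_le_one {ν : ℝ} (hν : 0 < ν) (v : ℝ≥0∞) : Real.exp (-ν * v.toReal) ≤ 1 := by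
  refine Real.exp_le_one_iff.2 ?_
  have := ENNReal.toReal_nonneg (a := v)
  nlinarith

theorem integrable_surv (h : PBM P X Y) {ν a : ℝ} (hν : 0 < ν) (ha : 0 < a) (t : ℝ≥0) :
    Integrable (fun o => Real.exp (-ν * (volume (sausage X Y a t o)).toReal)) P := by
  have := h.isProb
  refine Integrable.of_bound (C := 1) ?_ (Eventually.of_forall fun o => ?_)
  · have hm := (aemeasurable_sausage h ha t).ennreal_toReal
    exact (Real.measurable_exp.comp_aemeasurable (hm.const_mul (-ν))).aestronglyMeasurable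
  · rw [Real.norm_eq_abs, abs_of_pos (Real.exp_pos _)]
    exact expo_le_one hν _

/-- `S(t)` as a lower integral -/
theorem ofReal_surv (h : PBM P X Y) {ν a : ℝ} (hν : 0 < ν) (ha : 0 < a) (t : ℝ≥0) :
    ENNReal.ofReal (surv P X Y ν a t) =
      ∫⁻ o, ENNReal.ofReal (Real.exp (-ν * (volume (sausage X Y a t o)).toReal)) ∂P := by
  unfold surv
  exact ofReal_integral_eq_lintegral_ofReal (integrable_surv h hν ha t)
    (Eventually.of_forall fun o => (Real.exp_pos _).le)

/-- `S` is nonincreasing in time -/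
theorem surv_anti (h : PBM P X Y) {ν a : ℝ} (hν : 0 < ν) (ha : 0 < a) {s t : ℝ≥0} (hst : s ≤ t) :
    surv P X Y ν a t ≤ surv P X Y ν a s := by
  unfold surv
  refine integral_mono_ae (integrable_surv h hν ha t) (integrable_surv h hν ha s) ?_
  filter_upwards [h.fst.cont, h.snd.cont] with o h1 h2
  refine Real.exp_le_exp.2 ?_
  have h3 : sausage X Y a s o ⊆ sausage X Y a t o := by
    unfold sausage
    exact biUnion_subset_biUnion_left (Set.Iic_subset_Iic.2 hst)
  have h4 := ENNReal.toReal_mono (sausage_finite h1 h2 a t) (measure_mono h3)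
  nlinarith

theorem surv_pos (h : PBM P X Y) {ν a : ℝ} (hν : 0 < ν) (ha : 0 < a) (t : ℝ≥0) :
    0 < surv P X Y ν a t := by
  have := h.isProb
  unfold surv
  exact integral_exp_pos (integrable_surv h hν ha t)

theorem surv_le_one (h : PBM P X Y) {ν a : ℝ} (hν : 0 < ν) (ha : 0 < a) (t : ℝ≥0) :
    surv P X Y ν a t ≤ 1 := by
  have := h.isProb
  unfold surv
  calc ∫ o, Real.exp (-ν * (volume (sausage X Y a t o)).toReal) ∂P ≤ ∫ _, (1 : ℝ) ∂P :=
        integral_mono (integrable_surv h hν ha t) (integrable_const _) fun o => expo_le_one hν _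
    _ = 1 := by simp

end Pool.Agent.BSv
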