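import Pool.Agent.BSv.Lam

/-!
# Module SCALE: scaling and the constant `cst`

`lam (ρ • U) = ρ^(-2) lam U` (`f ↦ ρ^(-1) f (· / ρ)`), `vol (ρ • U) = ρ² vol U`.  With
`ρ = t^(-1/4)`: `ν vol (ρ U) + lam (ρ U) = t^(-1/2) (ν vol U + t lam U)`.
`cst_pos`: `lam_lower` gives `ν v + λ ≥ 2 √(ν v λ) ≥ 2 √(ν / C0)`.
`cst_scale`: `cst (h² ν) = h cst ν` (`U ↦ h^(-1/2) U`... choose `ρ² = 1/h`).
-/

open MeasureTheory Set Filter Topology
open scoped ENNReal NNReal ContDiff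

noncomputable section

namespace Pool.Agent.BSv

/-- the scaled set -/
private def Sc (ρ : ℝ) (U : Set Pl) : Set Pl := (fun p : Pl => ρ⁻¹ • p) ⁻¹' U

private lemma Sc_open {ρ : ℝ} {U : Set Pl} (hU : IsOpen U) : IsOpen (Sc ρ U) :=
  hU.preimage (by fun_prop)

private lemma Sc_nonempty {ρ : ℝ} (hρ : 0 < ρ) {U : Set Pl} (hU : U.Nonempty) :
    (Sc ρ U).Nonempty := by
  obtain ⟨p, hp⟩ := hU
  refine ⟨ρ • p, ?_⟩
  simp only [Sc, mem_preimage, smul_smul, inv_mul_cancel₀ hρ.ne', one_smul]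
  exact hp

private lemma Sc_inv {ρ : ℝ} (hρ : 0 < ρ) (U : Set Pl) : Sc ρ⁻¹ (Sc ρ U) = U := by
  ext p
  simp only [Sc, mem_preimage, smul_smul, inv_inv, inv_mul_cancel₀ hρ.ne', one_smul]

private lemma finrank_Pl : Module.finrank ℝ Pl = 2 := by
  simp [Pl]

private lemma Sc_volume {ρ : ℝ} (hρ : 0 < ρ) (U : Set Pl) :
    volume (Sc ρ U) = ENNReal.ofReal (ρ ^ 2) * volume U := by
  unfold Sc
  have h := MeasureTheory.Measure.addHaar_preimage_smul (volume : Measure Pl)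
    (inv_ne_zero hρ.ne') U
  rw [h, finrank_Pl]
  congr 2
  rw [inv_pow, inv_inv, abs_of_pos (by positivity)]

private lemma integral_Sc {ρ : ℝ} (hρ : 0 < ρ) (F : Pl → ℝ) :
    ∫ p, F (ρ⁻¹ • p) = ρ ^ 2 * ∫ p, F p := by
  rw [MeasureTheory.Measure.integral_comp_smul, finrank_Pl, smul_eq_mul]
  congr 1
  rw [inv_pow, inv_inv, abs_of_pos (by positivity)]

private lemma scale_fun {ρ : ℝ} (hρ : 0 < ρ) {U : Set Pl} {f : Pl → ℝ} (hf : CC U f) :
    CC (Sc ρ U) (fun p => ρ⁻¹ * f (ρ⁻¹ • p)) ∧ ms (fun p => ρ⁻¹ * f (ρ⁻¹ • p)) = ms f ∧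
      en (fun p => ρ⁻¹ * f (ρ⁻¹ • p)) = en f / ρ ^ 2 := by
  have hρi : ρ⁻¹ ≠ 0 := inv_ne_zero hρ.ne'
  have hfd : Differentiable ℝ f := hf.smooth.differentiable (by simp)
  have hcd : ContDiff ℝ ∞ fun p : Pl => f (ρ⁻¹ • p) :=
    hf.smooth.comp (contDiff_const_smul ρ⁻¹)
  have hcc : CC (Sc ρ U) fun p : Pl => f (ρ⁻¹ • p) := by
    refine ⟨hcd, ?_, ?_⟩
    · exact hf.cpt.comp_homeomorph (Homeomorph.smulOfNeZero ρ⁻¹ hρi)
    · have e : tsupport (fun p : Pl => f (ρ⁻¹ • p)) =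
          (Homeomorph.smulOfNeZero ρ⁻¹ hρi : Pl ≃ₜ Pl) ⁻¹' tsupport f :=
        tsupport_comp_eq_preimage f (Homeomorph.smulOfNeZero ρ⁻¹ hρi)
      rw [e]
      intro p hp
      exact hf.sub hp
  refine ⟨hcc.smul ρ⁻¹, ?_, ?_⟩
  · rw [ms_smul]
    unfold ms
    rw [integral_Sc hρ (fun p => f p ^ 2)]
    field_simp
  · rw [en_smul _ hcd]
    unfold en
    have e1 : (fun p => gr2 (fun p : Pl => f (ρ⁻¹ • p)) p) =
        fun p => ρ⁻¹ ^ 2 * gr2 f (ρ⁻¹ • p) := by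
      ext p
      have h1 : fderiv ℝ (fun p : Pl => f (ρ⁻¹ • p)) p = ρ⁻¹ • fderiv ℝ f (ρ⁻¹ • p) := by
        have h2 : HasFDerivAt (fun p : Pl => ρ⁻¹ • p) (ρ⁻¹ • ContinuousLinearMap.id ℝ Pl) p :=
          (hasFDerivAt_id p).const_smul ρ⁻¹
        have h3 := (hfd (ρ⁻¹ • p)).hasFDerivAt.comp p h2
        have h4 := h3.fderiv
        have h5 : (f ∘ fun p : Pl => ρ⁻¹ • p) = fun p : Pl => f (ρ⁻¹ • p) := rfl
        rw [h5] at h4
        rw [h4]
        ext v <;> simp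
      unfold gr2 dx dy
      rw [h1]
      simp only [ContinuousLinearMap.smul_apply, smul_eq_mul]
      ring
    rw [e1, integral_const_mul, integral_Sc hρ (gr2 f)]
    field_simp

private lemma lam_Sc_le {ρ : ℝ} (hρ : 0 < ρ) {U : Set Pl} (hU : IsOpen U) (hne : U.Nonempty) :
    lam (Sc ρ U) ≤ lam U / ρ ^ 2 := by
  apply le_of_forall_pos_lt_add
  intro η hη
  obtain ⟨f, hf, hm, he⟩ := exists_near hU hne (show 0 < η * ρ ^ 2 by positivity)
  obtain ⟨h1, h2, h3⟩ := scale_fun hρ hf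
  have h4 := lam_mul_le h1
  rw [h2, h3, hm, mul_one] at h4
  refine h4.trans_lt ?_
  rw [div_lt_iff₀ (by positivity)]
  calc en f < lam U + η * ρ ^ 2 := he
    _ = (lam U / ρ ^ 2 + η) * ρ ^ 2 := by field_simp

private lemma lam_Sc {ρ : ℝ} (hρ : 0 < ρ) {U : Set Pl} (hU : IsOpen U) (hne : U.Nonempty) :
    lam (Sc ρ U) = lam U / ρ ^ 2 := by
  apply le_antisymm (lam_Sc_le hρ hU hne)
  have h1 := lam_Sc_le (ρ := ρ⁻¹) (by positivity) (Sc_open (ρ := ρ) hU) (Sc_nonempty hρ hne)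
  rw [Sc_inv hρ, inv_pow, div_inv_eq_mul] at h1
  rw [div_le_iff₀ (by positivity)]
  exact h1

private lemma exists_scale {U : Set Pl} (hU : IsOpen U) (hne : U.Nonempty)
    (hv : volume U ≠ ⊤) {q : ℝ} (hq : 0 < q) :
    ∃ V : Set Pl, IsOpen V ∧ V.Nonempty ∧ volume V ≠ ⊤ ∧ vol V = q * vol U ∧
      lam V = lam U / q := by
  have hρ : 0 < √q := Real.sqrt_pos.mpr hq
  have hs : √q ^ 2 = q := Real.sq_sqrt hq.le
  refine ⟨Sc (√q) U, Sc_open hU, Sc_nonempty hρ hne, ?_, ?_, ?_⟩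
  · rw [Sc_volume hρ]
    exact ENNReal.mul_ne_top ENNReal.ofReal_ne_top hv
  · unfold vol
    rw [Sc_volume hρ, ENNReal.toReal_mul, ENNReal.toReal_ofReal (by positivity), hs]
  · rw [lam_Sc hρ hU hne, hs]

private lemma vol_nonneg (U : Set Pl) : 0 ≤ vol U := ENNReal.toReal_nonneg

private lemma bdd {ν : ℝ} (hν : 0 < ν) :
    BddBelow {e | ∃ U : Set Pl, IsOpen U ∧ U.Nonempty ∧ volume U ≠ ⊤ ∧ e = ν * vol U + lam U} := by
  refine ⟨0, ?_⟩
  rintro e ⟨U, _, _, _, rfl⟩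
  have h1 := vol_nonneg U
  have h2 := lam_nonneg U
  positivity

private lemma nonempty_set (ν : ℝ) :
    {e | ∃ U : Set Pl, IsOpen U ∧ U.Nonempty ∧ volume U ≠ ⊤ ∧ e = ν * vol U + lam U}.Nonempty :=
  ⟨_, Metric.ball (0 : Pl) 1, Metric.isOpen_ball, Metric.nonempty_ball.mpr one_pos,
    (measure_ball_lt_top).ne, rfl⟩

private lemma cst_le_val {ν : ℝ} (hν : 0 < ν) {U : Set Pl} (hU : IsOpen U) (hne : U.Nonempty)
    (hv : volume U ≠ ⊤) : cst ν ≤ ν * vol U + lam U :=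
  csInf_le (bdd hν) ⟨U, hU, hne, hv, rfl⟩

theorem cst_le {ν : ℝ} (hν : 0 < ν) {U : Set Pl} (hU : IsOpen U) (hne : U.Nonempty)
    (hv : volume U ≠ ⊤) {t : ℝ} (ht : 0 < t) : cst ν * √t ≤ t * lam U + ν * vol U := by
  have hs : 0 < √t := Real.sqrt_pos.mpr ht
  have hs2 : √t * √t = t := Real.mul_self_sqrt ht.le
  obtain ⟨V, h1, h2, h3, h4, h5⟩ := exists_scale hU hne hv (q := 1 / √t) (by positivity)
  have h6 := cst_le_val hν h1 h2 h3
  rw [h4, h5] at h6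
  calc cst ν * √t ≤ (ν * (1 / √t * vol U) + lam U / (1 / √t)) * √t := by gcongr
    _ = ν * vol U * (√t / √t) + lam U * (√t * √t) := by
        field_simp
    _ = t * lam U + ν * vol U := by
        rw [div_self hs.ne', hs2]
        ring

theorem cst_pos {ν : ℝ} (hν : 0 < ν) : 0 < cst ν := by
  obtain ⟨C0, hC0, h⟩ := lam_lower
  have hm : 0 < 2 * √(ν / C0) := by positivity
  refine lt_of_lt_of_le hm (le_csInf (nonempty_set ν) ?_)
  rintro e ⟨U, hU, hne, hv, rfl⟩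
  have h1 := h U hU hne hv
  have h2 := vol_nonneg U
  have h3 := lam_nonneg U
  have h4 : 2 * √(ν / C0) = √(4 * (ν / C0)) := by
    rw [Real.sqrt_mul (by norm_num), show (4 : ℝ) = 2 ^ 2 by norm_num, Real.sqrt_sq (by norm_num)]
  rw [h4]
  apply Real.sqrt_le_iff.mpr
  refine ⟨by positivity, ?_⟩
  have h5 : ν / C0 ≤ ν * (vol U * lam U) := by
    rw [div_le_iff₀ hC0]
    calc ν = ν * 1 := (mul_one ν).symm
      _ ≤ ν * (C0 * vol U * lam U) := by gcongr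
      _ = ν * (vol U * lam U) * C0 := by ring
  nlinarith [sq_nonneg (ν * vol U - lam U)]

private lemma near_val {ν : ℝ} {η : ℝ} (hη : 0 < η) :
    ∃ U : Set Pl, IsOpen U ∧ U.Nonempty ∧ volume U ≠ ⊤ ∧ ν * vol U + lam U < cst ν + η := by
  obtain ⟨e, ⟨U, hU, hne, hv, rfl⟩, he⟩ := exists_lt_of_csInf_lt (nonempty_set ν)
    (show cst ν < cst ν + η by linarith)
  exact ⟨U, hU, hne, hv, he⟩

theorem near_cst {ν : ℝ} (hν : 0 < ν) {t : ℝ} (ht : 0 < t) {η : ℝ} (hη : 0 < η) :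
    ∃ U : Set Pl, IsOpen U ∧ U.Nonempty ∧ volume U ≠ ⊤ ∧
      t * lam U + ν * vol U ≤ cst ν * √t + η := by
  have hs : 0 < √t := Real.sqrt_pos.mpr ht
  have hs2 : √t * √t = t := Real.mul_self_sqrt ht.le
  obtain ⟨U, hU, hne, hv, he⟩ := near_val (ν := ν) (show 0 < η / √t by positivity)
  obtain ⟨V, h1, h2, h3, h4, h5⟩ := exists_scale hU hne hv (q := √t) hs
  refine ⟨V, h1, h2, h3, ?_⟩
  rw [h4, h5]
  calc t * (lam U / √t) + ν * (√t * vol U) = (√t * √t) * (lam U / √t) + ν * (√t * vol U) := by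
        rw [hs2]
    _ = (ν * vol U + lam U) * √t := by
        field_simp
        ring
    _ ≤ (cst ν + η / √t) * √t := by gcongr
    _ = cst ν * √t + η := by
        field_simp

private lemma cst_scale_le {ν h : ℝ} (hν : 0 < ν) (hh : 0 < h) :
    cst (ν * h ^ 2) ≤ h * cst ν := by
  apply le_of_forall_pos_lt_add
  intro η hη
  obtain ⟨U, hU, hne, hv, he⟩ := near_val (ν := ν) (show 0 < η / h by positivity)
  obtain ⟨V, h1, h2, h3, h4, h5⟩ := exists_scale hU hne hv (q := 1 / h) (by positivity)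
  have h6 := cst_le_val (ν := ν * h ^ 2) (by positivity) h1 h2 h3
  rw [h4, h5] at h6
  calc cst (ν * h ^ 2) ≤ ν * h ^ 2 * (1 / h * vol U) + lam U / (1 / h) := h6
    _ = h * (ν * vol U + lam U) := by
        field_simp
    _ < h * (cst ν + η / h) := by gcongr
    _ = h * cst ν + η := by
        field_simp

theorem cst_scale {ν h : ℝ} (hν : 0 < ν) (hh : 0 < h) : cst (ν * h ^ 2) = h * cst ν := by
  apply le_antisymm (cst_scale_le hν hh)
  have h1 := cst_scale_le (ν := ν * h ^ 2) (h := 1 / h) (by positivity) (by positivity)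
  have e : ν * h ^ 2 * (1 / h) ^ 2 = ν := by
    field_simp
  rw [e] at h1
  calc h * cst ν ≤ h * (1 / h * cst (ν * h ^ 2)) := by gcongr
    _ = cst (ν * h ^ 2) := by
        field_simp

end Pool.Agent.BSv
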