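import Pool.Agent.BSv.Ten

/-!
# Module SUPTR: near minimisers may be assumed bounded

`f ∈ CC D`, `D ⊆ U`, `ms f = 1`, `en f ≤ λ (1 + C1/r)`, `λ = lam U ≤ Λ0/r²`.  Let `w = Th 1 ∘ f`.
`en_Th_le` (in `U`): `en w ≤ 2 λ ∫ f w + λ C1/r`.  Where `w ≠ 0` we have `|f| ≥ 1`, and
`|f| ≤ |w| + 2`, `vol {|f| ≥ 1} ≤ 1`; so `∫ f w ≤ ms w + 2 ∫ |w| ≤ ms w + 2 √(ms w)`, and
`gns`: `ms w ≤ C0 vol {w ≠ 0} en w ≤ C0 en w`.  With `m = √(ms w) ≤ 1`:
`m²/C0 ≤ 2 λ (m² + 2 m) + λ C1/r ≤ 6 λ m + λ C1/r`, so `m ≤ C (λ + √(λ/r)) ≤ C' r^(-3/2)`.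
Hence `ms (Ta 1 ∘ f) ≥ 1 - 2 ∫ f w ≥ 1 - 6 m ≥ 1 - C''/r ≥ 1/4` (`ms_Ta_ge`) and
`g = Ta 1 ∘ f / √(ms (Ta 1 ∘ f))` satisfies `|g| ≤ 4`, `en g ≤ en f/(1 - C''/r)`.
-/

open MeasureTheory Set Filter Topology
open scoped ENNReal NNReal ContDiff

noncomputable section

namespace Pool.Agent.BSv

private theorem SupTr_pt (y : ℝ) :
    |Th 1 y| ≤ |y| ∧ y * Th 1 y ≤ Th 1 y ^ 2 + 2 * |Th 1 y| := by
  rcases le_total 0 y with h | h
  · have h1 := Th_nonneg one_pos h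
    have h2 := Th_le_self one_pos h
    have h3 := Th_ge one_pos h
    rw [abs_of_nonneg h1, abs_of_nonneg h]
    exact ⟨h2, by nlinarith⟩
  · obtain ⟨z, rfl⟩ : ∃ z, y = -z := ⟨-y, by ring⟩
    have hz : 0 ≤ z := by linarith
    have h1 := Th_nonneg one_pos hz
    have h2 := Th_le_self one_pos hz
    have h3 := Th_ge one_pos hz
    rw [Th_neg one_pos, abs_neg, abs_neg, abs_of_nonneg h1, abs_of_nonneg hz]
    exact ⟨h2, by nlinarith⟩

/-- Chebyshev -/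
private theorem SupTr_cheb {U : Set Pl} {f : Pl → ℝ} (hf : CC U f) (h1 : ms f = 1) :
    vol {p | Th 1 (f p) ≠ 0} ≤ 1 := by
  have hw := cc_Th' hf one_pos
  set S : Set Pl := {p | Th 1 (f p) ≠ 0} with hS
  have hSm : MeasurableSet S := (isOpen_ne_fun hw.smooth.continuous continuous_const).measurableSet
  have hSf : volume S ≠ ⊤ :=
    ne_top_of_le_ne_top hw.cpt.isCompact.measure_lt_top.ne (measure_mono (subset_tsupport _))
  have e1 : vol S = ∫ p in S, (1 : ℝ) := by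
    rw [setIntegral_const, smul_eq_mul, mul_one]
    rfl
  have h2 : ∫ p in S, (1 : ℝ) ≤ ∫ p in S, f p ^ 2 := by
    refine setIntegral_mono_on (integrableOn_const hSf) hf.integrable_sq.integrableOn hSm
      fun p hp => ?_
    have h3 : 1 < |f p| := by
      by_contra hc
      exact hp (Th_eq_zero one_pos (not_lt.1 hc))
    rw [← sq_abs]
    nlinarith
  have h3 : ∫ p in S, f p ^ 2 ≤ ∫ p, f p ^ 2 :=
    setIntegral_le_integral hf.integrable_sq (Filter.Eventually.of_forall fun p => sq_nonneg _)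
  unfold ms at h1
  linarith

theorem suptr (Λ0 C1 : ℝ) (hΛ : 0 < Λ0) (hC1 : 0 ≤ C1) : ∃ C r0 : ℝ, 1 ≤ r0 ∧
    ∀ U : Set Pl, IsOpen U → U.Nonempty → volume U ≠ ⊤ → ∀ r : ℝ, r0 ≤ r → lam U ≤ Λ0 / r ^ 2 →
    ∀ (D : Set Pl) (f : Pl → ℝ), D ⊆ U → CC D f → ms f = 1 → en f ≤ lam U * (1 + C1 / r) →
    ∃ g, CC D g ∧ ms g = 1 ∧ en g ≤ lam U * (1 + C / r) ∧ ∀ p, |g p| ≤ 4 := by
  obtain ⟨C0, hC0, hgns⟩ := gns
  set B : ℝ := 6 * C0 * Λ0 + C0 * C1 * Λ0 + 1 with hB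
  have hB1 : 1 ≤ B := by
    have : 0 ≤ 6 * C0 * Λ0 + C0 * C1 * Λ0 := by positivity
    linarith
  refine ⟨C1 + 12 * B + 12 * B * C1, 12 * B, by linarith, ?_⟩
  intro U hU hne hv r hr hlam D f hDU hf hms hen
  have hr1 : 1 ≤ r := by linarith
  have hr0 : 0 < r := by linarith
  have hfU : CC U f := hf.mono hDU
  have hl0 := lam_nonneg U
  set lm := lam U with hlm
  set w : Pl → ℝ := fun p => Th 1 (f p) with hw
  have hwU : CC U w := cc_Th' hfU one_pos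
  set q := ms w with hq
  have hq0 : 0 ≤ q := ms_nonneg w
  set m := √q with hm
  have hm0 : 0 ≤ m := Real.sqrt_nonneg _
  have hmq : m ^ 2 = q := Real.sq_sqrt hq0
  have hq1 : q ≤ 1 := by
    rw [hq, ← hms]
    unfold ms
    refine integral_mono hwU.integrable_sq hf.integrable_sq fun p => ?_
    show Th 1 (f p) ^ 2 ≤ f p ^ 2
    rw [← sq_abs, ← sq_abs (f p)]
    exact pow_le_pow_left₀ (abs_nonneg _) (SupTr_pt (f p)).1 2
  have hm1 : m ≤ 1 := by
    by_contra hc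
    nlinarith [not_le.1 hc]
  have hvol : vol {p | w p ≠ 0} ≤ 1 := SupTr_cheb hf hms
  have hvol0 : 0 ≤ vol {p | w p ≠ 0} := ENNReal.toReal_nonneg
  have habs : ∫ p, |w p| ≤ m := by
    have h1 := int_abs_le hwU
    have h2 : √(vol {p | w p ≠ 0}) ≤ 1 := Real.sqrt_le_one.2 hvol
    refine h1.trans ?_
    calc √(vol {p | w p ≠ 0}) * √(ms w) ≤ 1 * √(ms w) := by gcongr
      _ = m := by rw [one_mul]
  have hint : Integrable (fun p => f p * Th 1 (f p)) := by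
    refine Continuous.integrable_of_hasCompactSupport
      (hf.smooth.continuous.mul hwU.smooth.continuous) ?_
    exact hf.cpt.mul_right
  have hfw : ∫ p, f p * Th 1 (f p) ≤ 3 * m := by
    have h1 : ∫ p, f p * Th 1 (f p) ≤ ∫ p, (w p ^ 2 + 2 * |w p|) :=
      integral_mono hint (hwU.integrable_sq.add (hwU.integrable.abs.const_mul 2))
        fun p => (SupTr_pt (f p)).2
    rw [integral_add hwU.integrable_sq (hwU.integrable.abs.const_mul 2), integral_const_mul] at h1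
    have h2 : ∫ p, w p ^ 2 = m ^ 2 := hmq.symm
    rw [h2] at h1
    nlinarith
  have hfw0 : 0 ≤ ∫ p, f p * Th 1 (f p) := integral_nonneg fun p => mul_Th_nonneg one_pos _
  have henw : en w ≤ 6 * lm * m + lm * C1 / r := by
    have h1 : en w ≤ 2 * lm * (∫ p, f p * Th 1 (f p)) + (en f - lm) := en_Th_le hfU hms one_pos
    have h2 : 2 * lm * (∫ p, f p * Th 1 (f p)) ≤ 2 * lm * (3 * m) := by gcongr
    have h3 : lm * (1 + C1 / r) = lm + lm * C1 / r := by ring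
    linarith
  have henw0 := en_nonneg w
  have hmain : m ^ 2 ≤ C0 * (6 * lm * m + lm * C1 / r) := by
    rw [hmq]
    have h1 := hgns w hwU.smooth hwU.cpt
    have h2 : C0 * vol {p | w p ≠ 0} * en w ≤ C0 * 1 * en w := by gcongr
    have h3 : C0 * en w ≤ C0 * (6 * lm * m + lm * C1 / r) := by gcongr
    linarith
  -- `m ≤ B / r`
  set ρ := 1 / r with hρ
  have hρ0 : 0 < ρ := by positivity
  have hρ1 : ρ ≤ 1 := by
    rw [hρ, div_le_one hr0]
    exact hr1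
  have hlam' : lm ≤ Λ0 * ρ ^ 2 := by
    have : Λ0 / r ^ 2 = Λ0 * ρ ^ 2 := by rw [hρ]; field_simp
    linarith
  have hmain' : m ^ 2 ≤ 6 * C0 * Λ0 * ρ ^ 2 * m + C0 * C1 * Λ0 * ρ ^ 3 := by
    have h1 : C0 * (6 * lm * m + lm * C1 / r) = lm * (6 * C0 * m + C0 * C1 * ρ) := by
      rw [hρ]; ring
    rw [h1] at hmain
    have h2 : lm * (6 * C0 * m + C0 * C1 * ρ) ≤ Λ0 * ρ ^ 2 * (6 * C0 * m + C0 * C1 * ρ) := by
      gcongr
    calc m ^ 2 ≤ _ := hmain
      _ ≤ _ := h2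
      _ = _ := by ring
  have hmB : m ≤ B * ρ := by
    by_contra hc
    have hc' := not_le.1 hc
    have hm' : 0 < m := lt_trans (by positivity) hc'
    have a1 : 0 ≤ 6 * C0 * Λ0 := by positivity
    have a2 : 0 ≤ C0 * C1 * Λ0 := by positivity
    have b1 : B * ρ * m < m ^ 2 := by
      rw [pow_two]
      exact mul_lt_mul_of_pos_right hc' hm'
    have b2 : 6 * C0 * Λ0 * ρ ^ 2 * m ≤ 6 * C0 * Λ0 * ρ * m := by
      have : ρ ^ 2 ≤ ρ := by nlinarith
      gcongr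
    have b3 : C0 * C1 * Λ0 * ρ ^ 3 ≤ C0 * C1 * Λ0 * ρ * m := by
      have c1 : ρ ≤ m := by nlinarith
      have c2 : ρ ^ 3 ≤ ρ * m := by
        have : ρ ^ 3 = ρ * (ρ * ρ) := by ring
        rw [this]
        have c3 : ρ * ρ ≤ m := by nlinarith
        gcongr
      calc C0 * C1 * Λ0 * ρ ^ 3 ≤ C0 * C1 * Λ0 * (ρ * m) := by gcongr
        _ = C0 * C1 * Λ0 * ρ * m := by ring
    have b4 : B * ρ * m = 6 * C0 * Λ0 * ρ * m + C0 * C1 * Λ0 * ρ * m + ρ * m := by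
      rw [hB]; ring
    have b5 : 0 < ρ * m := by positivity
    linarith
  -- the mass of the truncation
  have hBρ : B * ρ ≤ 1 / 12 := by
    rw [hρ, mul_one_div, div_le_div_iff₀ hr0 (by norm_num)]
    linarith
  set u : Pl → ℝ := fun p => Ta 1 (f p) with hu
  have huD : CC D u := cc_Ta hf one_pos
  set M := ms u with hM
  have hM1 : 1 - 6 * (B * ρ) ≤ M := by
    have h1 : 1 - 2 * ∫ p, f p * Th 1 (f p) ≤ M := ms_Ta_ge hf hms one_pos
    linarith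
  have hM2 : 1 / 2 ≤ M := by linarith
  have hM0 : 0 < M := by linarith
  have henu : en u ≤ lm * (1 + C1 * ρ) := by
    have h1 := en_Th_add_en_Ta hf (s := 1) one_pos
    have h2 := en_nonneg (fun p => Th 1 (f p))
    have h3 : lm * (1 + C1 / r) = lm * (1 + C1 * ρ) := by rw [hρ]; ring
    have h4 : en u = en (fun p => Ta 1 (f p)) := rfl
    linarith
  refine ⟨fun p => (√M)⁻¹ * u p, huD.smul _, ?_, ?_, fun p => ?_⟩
  · rw [ms_smul, inv_pow, Real.sq_sqrt hM0.le, ← hM, inv_mul_cancel₀ hM0.ne']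
  · rw [en_smul _ huD.smooth, inv_pow, Real.sq_sqrt hM0.le]
    have h1 : M⁻¹ ≤ 1 + 12 * (B * ρ) := by
      rw [inv_le_comm₀ hM0 (by positivity)]
      refine le_trans ?_ hM1
      rw [inv_le_iff_one_le_mul₀ (by positivity)]
      nlinarith [mul_nonneg (zero_le_one.trans hB1) hρ0.le]
    calc M⁻¹ * en u ≤ (1 + 12 * (B * ρ)) * (lm * (1 + C1 * ρ)) := by
          refine mul_le_mul h1 henu (en_nonneg u) (by positivity)
      _ = lm * (1 + (C1 + 12 * B) * ρ + 12 * B * C1 * ρ ^ 2) := by ring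
      _ ≤ lm * (1 + (C1 + 12 * B) * ρ + 12 * B * C1 * ρ) := by
          have h2 : ρ ^ 2 ≤ ρ := by nlinarith
          have h3 : 0 ≤ 12 * B * C1 := by positivity
          gcongr
      _ = lm * (1 + (C1 + 12 * B + 12 * B * C1) / r) := by
          rw [hρ]
          ring
  · rw [abs_mul, abs_of_nonneg (inv_nonneg.2 (Real.sqrt_nonneg _))]
    have h1 : |u p| ≤ 2 * 1 := abs_Ta_le one_pos (f p)
    have h2 : (1 / 2 : ℝ) ≤ √M := by
      refine Real.le_sqrt_of_sq_le ?_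
      norm_num
      linarith
    have h3 : (√M)⁻¹ ≤ 2 := by
      rw [inv_le_comm₀ (by linarith) (by norm_num)]
      linarith
    calc (√M)⁻¹ * |u p| ≤ 2 * (2 * 1) := by gcongr
      _ = 4 := by norm_num

end Pool.Agent.BSv
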