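import Pool.Agent.BSv.Fdd

/-!
# Module SURVLOW: lower bound for the probability to stay in a compact set

For `δ = t/2^m`: the events `E_m(p) = {∀ k ≤ 2^m, p + Z_{k t/2^m} ∈ F}` decrease in `m` and their
intersection is (a.s., continuous paths, `F` closed) `{∀ s ≤ t, p + Z_s ∈ F}`.  `fdd`: `P (E_m(p)) =
ofReal (kf (t/2^m) F (2^m) p)`.  Monotone convergence in `p` (decreasing, finite measure on `F`):
`∫_F P(∀ s ≤ t, …) dp = lim_m ∫_F kf (t/2^m) F (2^m) ≥ lim_m B^(-2) (1 - t en f/2^m)^(2^m)`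
(`kf_low`), and the limit is `B^(-2) exp (-t en f)`.
-/

open MeasureTheory Set Filter Topology ProbabilityTheory
open scoped ENNReal NNReal ContDiff

noncomputable section

namespace Pool.Agent.BSv

variable {Ω : Type*} [MeasurableSpace Ω] {P : Measure Ω} {X Y : ℝ≥0 → Ω → ℝ}

/-- dyadic times -/
private theorem SurvLow_dense {t : ℝ≥0} (ht : 0 < t) {s : ℝ≥0} (hs : s ≤ t) :
    ∃ k : ℕ → ℕ, (∀ m, k m ≤ 2 ^ m) ∧
      Tendsto (fun m => (k m : ℝ≥0) * (t / 2 ^ m)) atTop (𝓝 s) := by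
  refine ⟨fun m => ⌊(s / t : ℝ≥0) * 2 ^ m⌋₊, fun m => ?_, ?_⟩
  · have h1 : s / t * 2 ^ m ≤ ((2 ^ m : ℕ) : ℝ≥0) := by
      push_cast
      calc s / t * 2 ^ m ≤ 1 * 2 ^ m := by
            gcongr
            exact (div_le_one ht).2 hs
        _ = 2 ^ m := one_mul _
    exact Nat.floor_le_of_le h1
  · rw [← NNReal.tendsto_coe]
    have ht' : (0 : ℝ) < t := by exact_mod_cast ht
    have hle : ∀ m : ℕ, ((⌊(s / t : ℝ≥0) * 2 ^ m⌋₊ : ℝ≥0) * (t / 2 ^ m) : ℝ≥0) ≤ s := by
      intro m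
      have h1 : ((⌊(s / t : ℝ≥0) * 2 ^ m⌋₊ : ℕ) : ℝ≥0) ≤ s / t * 2 ^ m := Nat.floor_le (by positivity)
      calc ((⌊(s / t : ℝ≥0) * 2 ^ m⌋₊ : ℝ≥0) * (t / 2 ^ m) : ℝ≥0) ≤ s / t * 2 ^ m * (t / 2 ^ m) := by
            gcongr
        _ = s := by
          field_simp
    have hge : ∀ m : ℕ, (s : ℝ) - t / 2 ^ m ≤
        (((⌊(s / t : ℝ≥0) * 2 ^ m⌋₊ : ℝ≥0) * (t / 2 ^ m) : ℝ≥0) : ℝ) := by
      intro m
      have h1 : ((s / t * 2 ^ m : ℝ≥0) : ℝ) < (⌊(s / t : ℝ≥0) * 2 ^ m⌋₊ : ℝ) + 1 := by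
        exact_mod_cast Nat.lt_floor_add_one ((s / t : ℝ≥0) * 2 ^ m)
      push_cast at h1 ⊢
      have h2 : (s : ℝ) / t * 2 ^ m * (t / 2 ^ m) ≤
          ((⌊(s / t : ℝ≥0) * 2 ^ m⌋₊ : ℝ) + 1) * (t / 2 ^ m) :=
        mul_le_mul_of_nonneg_right h1.le (by positivity)
      have h3 : (s : ℝ) / t * 2 ^ m * (t / 2 ^ m) = s := by
        field_simp
      rw [h3] at h2
      linarith
    refine tendsto_of_tendsto_of_tendsto_of_le_of_le (g := fun m : ℕ => (s : ℝ) - t / 2 ^ m)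
      (h := fun _ => (s : ℝ)) ?_ tendsto_const_nhds hge fun m => by exact_mod_cast hle m
    have h1 : Tendsto (fun m : ℕ => (t : ℝ) * (1 / 2) ^ m) atTop (𝓝 (t * 0)) :=
      (tendsto_pow_atTop_nhds_zero_of_lt_one (by norm_num) (by norm_num)).const_mul _
    rw [mul_zero] at h1
    have h2 := h1.const_sub (s : ℝ)
    rw [sub_zero] at h2
    refine h2.congr fun m => ?_
    rw [one_div, inv_pow, div_eq_mul_inv]

theorem surv_low (h : PBM P X Y) {F : Set Pl} (hF : IsCompact F) {f : Pl → ℝ} (hf : CC univ f)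
    (hs : tsupport f ⊆ F) (h1 : ms f = 1) {B : ℝ} (hB : ∀ p, |f p| ≤ B) {t : ℝ≥0} (ht : 0 < t) :
    ENNReal.ofReal (Real.exp (-(t : ℝ) * en f)) ≤
      ENNReal.ofReal (B ^ 2) * ∫⁻ p in F, P {o | ∀ s ≤ t, pos X Y p s o ∈ F} := by
  have hFm : MeasurableSet F := hF.measurableSet
  have hv : volume F ≠ ⊤ := hF.measure_lt_top.ne
  have hP := h.isProb
  let E : Pl → ℕ → Set Ω := fun p m =>
    {o | ∀ k : ℕ, k ≤ 2 ^ m → pos X Y p ((k : ℝ≥0) * (t / 2 ^ m)) o ∈ F}
  have hδ : ∀ m : ℕ, (0 : ℝ≥0) < t / 2 ^ m := fun m => by positivity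
  have hE : ∀ p m, P (E p m) = ENNReal.ofReal (kf ((t / 2 ^ m : ℝ≥0) : ℝ) F (2 ^ m) p) := fun p m =>
    fdd h (hδ m) hFm (2 ^ m) p
  have hanti : ∀ p, Antitone (E p) := by
    intro p
    refine antitone_nat_of_succ_le fun m o ho k hk => ?_
    have h2 := ho (2 * k) (by rw [pow_succ]; omega)
    have h3 : ((2 * k : ℕ) : ℝ≥0) * (t / 2 ^ (m + 1)) = k * (t / 2 ^ m) := by
      push_cast
      rw [pow_succ]
      field_simp
    rwa [h3] at h2
  have hpm : ∀ p s, AEMeasurable (fun o => pos X Y p s o) P := fun p s =>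
    ((h.fst.aemeasurable s).const_add _).prodMk ((h.snd.aemeasurable s).const_add _)
  have hEm : ∀ p m, NullMeasurableSet (E p m) P := by
    intro p m
    have h2 : E p m = ⋂ k : Fin (2 ^ m + 1),
        (fun o => pos X Y p (((k : ℕ) : ℝ≥0) * (t / 2 ^ m)) o) ⁻¹' F := by
      ext o
      simp only [E, Set.mem_ofPred_eq, Set.mem_iInter, Set.mem_preimage]
      constructor
      · intro ho k
        exact ho k (by have := k.2; omega)
      · intro ho k hk
        exact ho ⟨k, by omega⟩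
    rw [h2]
    exact NullMeasurableSet.iInter fun k => (hpm p _).nullMeasurable hFm
  have hlimE : ∀ p, Tendsto (fun m => P (E p m)) atTop (𝓝 (P (⋂ m, E p m))) := fun p =>
    tendsto_measure_iInter_atTop (hEm p) (hanti p) ⟨0, measure_ne_top _ _⟩
  have hmono : ∀ p, P (⋂ m, E p m) ≤ P {o | ∀ s ≤ t, pos X Y p s o ∈ F} := by
    intro p
    refine measure_mono_ae ?_
    filter_upwards [h.fst.cont, h.snd.cont] with o hX hY ho s hs'
    have ho' : ∀ m, o ∈ E p m := Set.mem_iInter.1 ho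
    obtain ⟨k, hk, hklim⟩ := SurvLow_dense ht hs'
    have hc : Continuous fun s : ℝ≥0 => pos X Y p s o :=
      (continuous_const.add hX).prodMk (continuous_const.add hY)
    exact hF.isClosed.mem_of_tendsto ((hc.tendsto s).comp hklim)
      (Eventually.of_forall fun m => ho' m (k m) (hk m))
  -- the limit of the integrals
  have hint : Tendsto (fun m => ∫⁻ p in F, P (E p m)) atTop (𝓝 (∫⁻ p in F, P (⋂ m, E p m))) := by
    refine tendsto_lintegral_of_dominated_convergence (fun _ => 1) (fun m => ?_) (fun m => ?_) ?_ ?_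
    · have h2 : (fun p => P (E p m)) =
          fun p => ENNReal.ofReal (kf ((t / 2 ^ m : ℝ≥0) : ℝ) F (2 ^ m) p) := funext fun p => hE p m
      rw [h2]
      exact (kf_BF (by exact_mod_cast hδ m) hFm hv (2 ^ m)).meas.ennreal_ofReal
    · exact Eventually.of_forall fun p => prob_le_one
    · rw [setLIntegral_const, one_mul]
      exact hv
    · exact Eventually.of_forall hlimE
  have hB2 : ENNReal.ofReal (B ^ 2) ≠ ⊤ := ENNReal.ofReal_ne_top
  have hR := ENNReal.Tendsto.const_mul hint (Or.inr hB2)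
  have hL : Tendsto (fun m : ℕ => ENNReal.ofReal ((1 - ((t / 2 ^ m : ℝ≥0) : ℝ) * en f) ^ (2 ^ m)))
      atTop (𝓝 (ENNReal.ofReal (Real.exp (-(t : ℝ) * en f)))) := by
    refine (ENNReal.continuous_ofReal.tendsto _).comp ?_
    have h2 := (Real.tendsto_one_add_div_pow_exp (-(t : ℝ) * en f)).comp
      (tendsto_pow_atTop_atTop_of_one_lt (show 1 < 2 by norm_num))
    refine h2.congr fun m => ?_
    simp only [Function.comp]
    congr 1
    push_cast
    ring
  refine (le_of_tendsto_of_tendsto hL hR ?_).trans ?_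
  · have h2 : Tendsto (fun m : ℕ => ((t / 2 ^ m : ℝ≥0) : ℝ) * en f) atTop (𝓝 (0 * en f)) := by
      refine Tendsto.mul_const _ ?_
      have h3 : Tendsto (fun m : ℕ => (t : ℝ) * (1 / 2) ^ m) atTop (𝓝 (t * 0)) :=
        (tendsto_pow_atTop_nhds_zero_of_lt_one (by norm_num) (by norm_num)).const_mul _
      rw [mul_zero] at h3
      refine h3.congr fun m => ?_
      push_cast
      rw [one_div, inv_pow, div_eq_mul_inv]
    rw [zero_mul] at h2
    filter_upwards [h2.eventually (ge_mem_nhds zero_lt_one)] with m hm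
    have hδm : (0 : ℝ) < ((t / 2 ^ m : ℝ≥0) : ℝ) := by exact_mod_cast hδ m
    have h3 := kf_low hδm hFm hv hf hs h1 hB hm (2 ^ m)
    refine (ENNReal.ofReal_le_ofReal h3).trans ?_
    rw [ENNReal.ofReal_mul (sq_nonneg B)]
    refine le_of_eq (congrArg _ ?_)
    have hbf := kf_BF hδm hFm hv (2 ^ m)
    rw [ofReal_integral_eq_lintegral_ofReal]
    · exact lintegral_congr fun p => (hE p m).symm
    · refine Integrable.mono' (g := fun _ => (1 : ℝ)) ?_ hbf.meas.aestronglyMeasurable ?_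
      · exact integrableOn_const hv
      · refine Eventually.of_forall fun p => ?_
        rw [Real.norm_of_nonneg (kf_nonneg hδm F _ p)]
        exact kf_le_one hδm hFm _ p
    · exact Eventually.of_forall fun p => kf_nonneg hδm F _ p
  · exact mul_le_mul_right (lintegral_mono fun p => hmono p) _

end Pool.Agent.BSv
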