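import Pool.Agent.BSv.LowVol
import Pool.Agent.BSv.SupTr
import Pool.Agent.BSv.Scale
import Pool.Agent.BSv.SurvLow
import Pool.Agent.BSv.Meas
import Pool.Agent.BSv.Trans

/-!
# Module LOWER: the lower bound for radius 2 (helper98)
-/

open MeasureTheory Set Filter Topology ProbabilityTheory
open scoped ENNReal NNReal ContDiff

noncomputable section

namespace Pool.Agent.BSv

variable {Ω : Type*} [MeasurableSpace Ω] {P : Measure Ω} {X Y : ℝ≥0 → Ω → ℝ}

omit [MeasurableSpace Ω] in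
/-- the sausage of a path which stays in `F` when started at `p` is contained in a translate of the
closed 2-neighbourhood of `F` -/
theorem vol_sausage_le {D F : Set Pl} (hFD : F ⊆ D) {p : Pl} {t : ℝ≥0}
    {o : Ω} (ho : ∀ s ≤ t, pos X Y p s o ∈ F) :
    volume (sausage X Y 2 t o) ≤ volume (Metric.cthickening 2 D) := by
  have hmp := toPl_mp
  have hsub : sausage X Y 2 t o ⊆ toPl ⁻¹' ((fun x : Pl => x + p) ⁻¹' Metric.cthickening 2 D) := by
    intro x hx
    unfold sausage at hx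
    simp only [Set.mem_iUnion] at hx
    obtain ⟨s, hs, hx⟩ := hx
    rw [Metric.mem_closedBall, EuclideanSpace.dist_eq, Fin.sum_univ_two] at hx
    show toPl x + p ∈ Metric.cthickening 2 D
    have hmem : pos X Y p s o ∈ D := hFD (ho s hs)
    apply Metric.mem_cthickening_of_dist_le _ _ _ _ hmem
    have h1 : dist (x 0) (X s o) ^ 2 + dist (x 1) (Y s o) ^ 2 ≤ 2 ^ 2 := by
      have := (Real.sqrt_le_left (by norm_num : (0 : ℝ) ≤ 2)).mp hx
      simpa using this
    rw [Prod.dist_eq]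
    apply max_le
    · show dist (x 0 + p.1) (p.1 + X s o) ≤ 2
      have h2 : dist (x 0 + p.1) (p.1 + X s o) = dist (x 0) (X s o) := by
        rw [add_comm p.1, dist_add_right]
      rw [h2]
      have h3 : 0 ≤ dist (x 0) (X s o) := dist_nonneg
      have h4 : 0 ≤ dist (x 1) (Y s o) ^ 2 := by positivity
      nlinarith
    · show dist (x 1 + p.2) (p.2 + Y s o) ≤ 2
      have h2 : dist (x 1 + p.2) (p.2 + Y s o) = dist (x 1) (Y s o) := by
        rw [add_comm p.2, dist_add_right]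
      rw [h2]
      have h3 : 0 ≤ dist (x 1) (Y s o) := dist_nonneg
      have h4 : 0 ≤ dist (x 0) (X s o) ^ 2 := by positivity
      nlinarith
  refine (measure_mono hsub).trans ?_
  have hm : MeasurableSet ((fun x : Pl => x + p) ⁻¹' Metric.cthickening 2 D) :=
    (measurable_id.add_const p) Metric.isClosed_cthickening.measurableSet
  rw [hmp.measure_preimage hm.nullMeasurableSet, measure_preimage_add_right]

theorem surv_ge (h : PBM P X Y) {ν : ℝ} (hν : 0 < ν) {D F : Set Pl} (hD : Bornology.IsBounded D)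
    (hFD : F ⊆ D) (p : Pl) (t : ℝ≥0) :
    ENNReal.ofReal (Real.exp (-ν * vol (Metric.cthickening 2 D))) *
      P {o | ∀ s ≤ t, pos X Y p s o ∈ F} ≤ ENNReal.ofReal (surv P X Y ν 2 t) := by
  rw [ofReal_surv h hν (by norm_num) t]
  have hmeas : AEMeasurable (fun o => ENNReal.ofReal
      (Real.exp (-ν * (volume (sausage X Y 2 t o)).toReal))) P := by
    have := aemeasurable_sausage h (a := 2) (by norm_num) t
    exact (Real.measurable_exp.comp_aemeasurable
      (this.ennreal_toReal.const_mul (-ν))).ennreal_ofReal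
  have hfin : volume (Metric.cthickening 2 D) ≠ ⊤ := by
    exact (hD.cthickening (δ := 2)).measure_lt_top.ne
  refine le_trans ?_ (mul_meas_ge_le_lintegral₀ hmeas
    (ENNReal.ofReal (Real.exp (-ν * vol (Metric.cthickening 2 D)))))
  refine mul_le_mul' le_rfl (measure_mono fun o ho => ?_)
  show ENNReal.ofReal (Real.exp (-ν * vol (Metric.cthickening 2 D))) ≤ _
  apply ENNReal.ofReal_le_ofReal
  apply Real.exp_le_exp.mpr
  have h1 : (volume (sausage X Y 2 t o)).toReal ≤ vol (Metric.cthickening 2 D) :=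
    ENNReal.toReal_mono hfin (vol_sausage_le hFD ho)
  nlinarith

theorem sq_le_exp {r : ℝ} (hr : 0 ≤ r) : r ^ 2 ≤ Real.exp (2 * r) := by
  have h1 : Real.exp (2 * r) = Real.exp r ^ 2 := by
    rw [← Real.exp_nat_mul]; norm_num
  rw [h1]
  have : r ≤ Real.exp r := by
    have := Real.add_one_le_exp r
    linarith
  gcongr

theorem quarter' {t : ℝ} (ht : 1 ≤ t) : 1 ≤ t ^ (1 / 4 : ℝ) ∧ (t ^ (1 / 4 : ℝ)) ^ 2 = √t ∧
    (t ^ (1 / 4 : ℝ)) ^ 4 = t := by
  have h0 : 0 ≤ t := by linarith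
  refine ⟨Real.one_le_rpow ht (by norm_num), ?_, ?_⟩
  · rw [← Real.rpow_natCast, ← Real.rpow_mul h0, Real.sqrt_eq_rpow]
    norm_num
  · rw [← Real.rpow_natCast, ← Real.rpow_mul h0]
    norm_num

/-- the lower bound for large times -/
theorem lower_large (ν : ℝ) (hν : 0 < ν) : ∃ C r0 : ℝ, 0 ≤ C ∧ 1 ≤ r0 ∧
    ∀ (Ω : Type) [MeasurableSpace Ω] (P : Measure Ω)
    (X Y : ℝ≥0 → Ω → ℝ), PBM P X Y → ∀ t : ℝ≥0, 1 ≤ t → ∀ r : ℝ, r0 ≤ r → r ^ 4 = (t : ℝ) →
    Real.exp (-(cst ν) * r ^ 2 - C * r) ≤ surv P X Y ν 2 t := by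
  have hc := cst_pos hν
  set c := cst ν with hcdef
  set Λ0 : ℝ := c + 1 with hΛ0
  set K : ℝ := (c + 1) / ν with hK
  have hΛpos : 0 < Λ0 := by positivity
  have hKpos : 0 < K := by positivity
  obtain ⟨C1, r1, hr1, hlow⟩ := lowvol Λ0 K hΛpos hKpos
  obtain ⟨C2, r2, hr2, hsup⟩ := suptr Λ0 (max C1 0) hΛpos (le_max_right _ _)
  set M : ℝ := max (16 * K) 1 with hM
  have hM1 : 1 ≤ M := le_max_right _ _
  have hlogM : 0 ≤ Real.log M := Real.log_nonneg hM1
  refine ⟨1 + Λ0 * |C2| + ν * |C1| + 2 + Real.log M, max r1 r2, by positivity,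
    hr1.trans (le_max_left _ _), ?_⟩
  intro Ω _ P X Y h t ht r hr hrt
  have hrr1 : r1 ≤ r := (le_max_left _ _).trans hr
  have hrr2 : r2 ≤ r := (le_max_right _ _).trans hr
  have hr1' : 1 ≤ r := hr1.trans hrr1
  have hrpos : 0 < r := by linarith
  have htpos : (0 : ℝ) < (t : ℝ) := by rw [← hrt]; positivity
  have ht0 : 0 < t := by exact_mod_cast htpos
  have hsq : √(t : ℝ) = r ^ 2 := by
    rw [← hrt, show r ^ 4 = (r ^ 2) ^ 2 by ring, Real.sqrt_sq (by positivity)]
  obtain ⟨U, hU, hUne, hUv, hUle⟩ := near_cst hν htpos one_pos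
  rw [hsq, ← hrt] at hUle
  have hr21 : 1 ≤ r ^ 2 := one_le_pow₀ hr1'
  have hbound : r ^ 4 * lam U + ν * vol U ≤ Λ0 * r ^ 2 := by rw [hΛ0]; linarith
  have hlam0 := lam_nonneg U
  have hvol0 : 0 ≤ vol U := ENNReal.toReal_nonneg
  have hvU : vol U ≤ K * r ^ 2 := by
    rw [hK, div_mul_eq_mul_div, le_div_iff₀ hν]
    have : 0 ≤ r ^ 4 * lam U := by positivity
    linarith
  have hlU : lam U ≤ Λ0 / r ^ 2 := by
    rw [le_div_iff₀ (by positivity)]
    have h1 : 0 ≤ ν * vol U := by positivity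
    have h2 : r ^ 2 * (lam U * r ^ 2) ≤ r ^ 2 * Λ0 := by
      have : r ^ 2 * (lam U * r ^ 2) = r ^ 4 * lam U := by ring
      linarith
    exact le_of_mul_le_mul_left h2 (by positivity)
  obtain ⟨D, g, hDo, hDU, hDb, hgD, hg1, hge, hvD⟩ := hlow U hU hUne hUv r hrr1 hvU hlU
  have hge' : en g ≤ lam U * (1 + max C1 0 / r) := by
    refine hge.trans ?_
    gcongr
    exact le_max_left _ _
  obtain ⟨g', hgD', hg1', hge2, hg4⟩ := hsup U hU hUne hUv r hrr2 hlU D g hDU hgD hg1 hge'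
  set F := tsupport g' with hF
  have hFc : IsCompact F := hgD'.cpt
  have hFD : F ⊆ D := hgD'.sub
  have hs := surv_low h hFc (hgD'.mono (subset_univ _)) subset_rfl hg1' hg4 ht0
  set v := vol (Metric.cthickening 2 D) with hv
  have hpt : ∀ p : Pl, P {o | ∀ s ≤ t, pos X Y p s o ∈ F} ≤
      ENNReal.ofReal (Real.exp (ν * v)) * ENNReal.ofReal (surv P X Y ν 2 t) := by
    intro p
    have h1 := surv_ge h hν hDb hFD p t
    rw [← hv] at h1
    calc P {o | ∀ s ≤ t, pos X Y p s o ∈ F} =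
        ENNReal.ofReal (Real.exp (ν * v)) * (ENNReal.ofReal (Real.exp (-ν * v)) *
          P {o | ∀ s ≤ t, pos X Y p s o ∈ F}) := by
          rw [← mul_assoc, ← ENNReal.ofReal_mul (Real.exp_pos _).le, ← Real.exp_add]
          simp
      _ ≤ _ := by gcongr
  have hint : ∫⁻ p in F, P {o | ∀ s ≤ t, pos X Y p s o ∈ F} ≤
      ENNReal.ofReal (Real.exp (ν * v)) * ENNReal.ofReal (surv P X Y ν 2 t) * volume F := by
    calc ∫⁻ p in F, P {o | ∀ s ≤ t, pos X Y p s o ∈ F} ≤
        ∫⁻ _p in F, ENNReal.ofReal (Real.exp (ν * v)) * ENNReal.ofReal (surv P X Y ν 2 t) :=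
          lintegral_mono fun p => hpt p
      _ = _ := by rw [setLIntegral_const]
  have hFU : volume F ≤ ENNReal.ofReal (K * r ^ 2) := by
    have h1 : volume F ≤ volume U := measure_mono (hFD.trans hDU)
    have h2 : volume U = ENNReal.ofReal (vol U) := (ENNReal.ofReal_toReal hUv).symm
    rw [h2] at h1
    exact h1.trans (ENNReal.ofReal_le_ofReal hvU)
  have hspos := surv_pos h hν (a := 2) (by norm_num) t
  have hreal : Real.exp (-(t : ℝ) * en g') ≤
      4 ^ 2 * (Real.exp (ν * v) * surv P X Y ν 2 t * (K * r ^ 2)) := by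
    have h1 : ENNReal.ofReal (Real.exp (-(t : ℝ) * en g')) ≤ ENNReal.ofReal
        (4 ^ 2 * (Real.exp (ν * v) * surv P X Y ν 2 t * (K * r ^ 2))) := by
      refine hs.trans ?_
      rw [ENNReal.ofReal_mul (by positivity), ENNReal.ofReal_mul (by positivity),
        ENNReal.ofReal_mul (by positivity)]
      gcongr
      refine hint.trans ?_
      gcongr
    exact (ENNReal.ofReal_le_ofReal_iff (by positivity)).mp h1
  -- conclusion
  have hM2 : 4 ^ 2 * (K * r ^ 2) ≤ Real.exp (Real.log M + 2 * r) := by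
    rw [Real.exp_add, Real.exp_log (by linarith)]
    have h1 : 16 * K ≤ M := le_max_left _ _
    have h2 := sq_le_exp hrpos.le
    calc 4 ^ 2 * (K * r ^ 2) = (16 * K) * r ^ 2 := by ring
      _ ≤ M * Real.exp (2 * r) := by gcongr
  have hfin : Real.exp (-(t : ℝ) * en g' - ν * v - (Real.log M + 2 * r)) ≤ surv P X Y ν 2 t := by
    have h1 : Real.exp (-(t : ℝ) * en g') ≤
        Real.exp (ν * v + (Real.log M + 2 * r)) * surv P X Y ν 2 t := by
      calc Real.exp (-(t : ℝ) * en g') ≤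
          4 ^ 2 * (Real.exp (ν * v) * surv P X Y ν 2 t * (K * r ^ 2)) := hreal
        _ = (Real.exp (ν * v) * (4 ^ 2 * (K * r ^ 2))) * surv P X Y ν 2 t := by ring
        _ ≤ (Real.exp (ν * v) * Real.exp (Real.log M + 2 * r)) * surv P X Y ν 2 t := by gcongr
        _ = _ := by rw [← Real.exp_add]
    have h2 : Real.exp (-(t : ℝ) * en g' - ν * v - (Real.log M + 2 * r)) =
        Real.exp (-(ν * v + (Real.log M + 2 * r))) * Real.exp (-(t : ℝ) * en g') := by
      rw [← Real.exp_add]; congr 1; ring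
    rw [h2]
    calc Real.exp (-(ν * v + (Real.log M + 2 * r))) * Real.exp (-(t : ℝ) * en g') ≤
        Real.exp (-(ν * v + (Real.log M + 2 * r))) *
          (Real.exp (ν * v + (Real.log M + 2 * r)) * surv P X Y ν 2 t) := by gcongr
      _ = surv P X Y ν 2 t := by
          rw [← mul_assoc, ← Real.exp_add]; simp
  refine le_trans (Real.exp_le_exp.mpr ?_) hfin
  have e1 : (t : ℝ) * en g' ≤ r ^ 4 * lam U + Λ0 * |C2| * r := by
    rw [← hrt]
    have h1 : en g' ≤ lam U * (1 + |C2| / r) := by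
      refine hge2.trans ?_
      gcongr
      exact le_abs_self _
    have h2 : r ^ 4 * (lam U * (|C2| / r)) ≤ r ^ 4 * ((Λ0 / r ^ 2) * (|C2| / r)) := by gcongr
    have h3 : r ^ 4 * ((Λ0 / r ^ 2) * (|C2| / r)) = Λ0 * |C2| * r := by
      field_simp
    calc r ^ 4 * en g' ≤ r ^ 4 * (lam U * (1 + |C2| / r)) := by gcongr
      _ = r ^ 4 * lam U + r ^ 4 * (lam U * (|C2| / r)) := by ring
      _ ≤ _ := by linarith
  have e2 : ν * v ≤ ν * vol U + ν * |C1| * r := by
    have h1 : v ≤ vol U + |C1| * r := by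
      refine hvD.trans ?_
      gcongr
      exact le_abs_self _
    calc ν * v ≤ ν * (vol U + |C1| * r) := by gcongr
      _ = _ := by ring
  have e3 : (1 : ℝ) ≤ 1 * r := by linarith
  have e4 : Real.log M ≤ Real.log M * r := by nlinarith
  have e5 : (1 + Λ0 * |C2| + ν * |C1| + 2 + Real.log M) * r =
      1 * r + Λ0 * |C2| * r + ν * |C1| * r + 2 * r + Real.log M * r := by ring
  rw [e5]
  linarith

theorem lower (ν : ℝ) (hν : 0 < ν) : ∃ C : ℝ, ∀ (Ω : Type) [MeasurableSpace Ω] (P : Measure Ω)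
    (X Y : ℝ≥0 → Ω → ℝ), PBM P X Y → ∀ t : ℝ≥0, 1 ≤ t →
    Real.exp (-(cst ν) * √t - C * (t : ℝ) ^ (1 / 4 : ℝ)) ≤ surv P X Y ν 2 t := by
  have hc := cst_pos hν
  obtain ⟨C, r0, hC, hr0, hmain⟩ := lower_large ν hν
  refine ⟨C + (cst ν * r0 ^ 2 + C * r0), ?_⟩
  intro Ω _ P X Y h t ht
  have ht1 : (1 : ℝ) ≤ (t : ℝ) := by exact_mod_cast ht
  obtain ⟨hr1, hrsq, hr4⟩ := quarter' ht1
  set r : ℝ := (t : ℝ) ^ (1 / 4 : ℝ) with hr
  rw [← hrsq]
  have hextra : 0 ≤ cst ν * r0 ^ 2 + C * r0 := by positivity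
  have hrpos : 0 < r := by linarith
  by_cases hcase : r0 ≤ r
  · refine le_trans (Real.exp_le_exp.mpr ?_) (hmain Ω P X Y h t ht r hcase hr4)
    nlinarith
  · push Not at hcase
    set t0 : ℝ≥0 := ⟨r0 ^ 4, by positivity⟩ with ht0
    have ht01 : 1 ≤ t0 := by
      rw [← NNReal.coe_le_coe]
      show (1 : ℝ) ≤ r0 ^ 4
      exact one_le_pow₀ hr0
    have htt0 : t ≤ t0 := by
      rw [← NNReal.coe_le_coe]
      show (t : ℝ) ≤ r0 ^ 4
      rw [← hr4]
      gcongr
    have h1 := hmain Ω P X Y h t0 ht01 r0 le_rfl rfl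
    have h2 := surv_anti h hν (a := 2) (by norm_num) htt0
    refine le_trans (Real.exp_le_exp.mpr ?_) (h1.trans h2)
    have h3 : 0 ≤ cst ν * r ^ 2 := by positivity
    have h4 : 0 ≤ C * r := by positivity
    have h5 : (cst ν * r0 ^ 2 + C * r0) ≤ (cst ν * r0 ^ 2 + C * r0) * r := by nlinarith
    have h6 : (C + (cst ν * r0 ^ 2 + C * r0)) * r = C * r + (cst ν * r0 ^ 2 + C * r0) * r := by
      ring
    rw [h6]
    linarith

end Pool.Agent.BSv
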