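import Pool.Agent.BSv.Gns

/-!
# Module LAM: first properties of the eigenvalue `lam`

`lam_mul_le`: `lam U * ∫ f² ≤ 1/2 ∫ |∇f|²` for `f ∈ CC U` (scale `f` to mass one; if the mass is
`0` use `0 ≤ en f`).  `exists_cc`: a bump function (`exists_contDiff_...`, or
`ContDiffBump` in `ℝ × ℝ`; e.g. a product of two one-dimensional bumps) normalised.
`lam_lower`: from `gns`: `1 = ms f ≤ C0 * vol {f ≠ 0} * en f ≤ C0 * vol U * en f`.
`ms_pos`: a nonzero continuous function.
-/

open MeasureTheory Set Filter Topology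
open scoped ENNReal NNReal ContDiff

noncomputable section

namespace Pool.Agent.BSv

theorem en_nonneg (f : Pl → ℝ) : 0 ≤ en f := by
  unfold en
  refine mul_nonneg (by norm_num) (integral_nonneg fun p => ?_)
  show 0 ≤ gr2 f p
  unfold gr2
  positivity

theorem ms_nonneg (f : Pl → ℝ) : 0 ≤ ms f := by
  unfold ms
  exact integral_nonneg fun p => sq_nonneg _

theorem ms_smul (c : ℝ) (f : Pl → ℝ) : ms (fun p => c * f p) = c ^ 2 * ms f := by
  unfold ms
  rw [← integral_const_mul]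
  refine integral_congr_ae (Eventually.of_forall fun p => ?_)
  show (c * f p) ^ 2 = c ^ 2 * f p ^ 2
  ring

theorem en_smul (c : ℝ) {f : Pl → ℝ} (hf : ContDiff ℝ ∞ f) :
    en (fun p => c * f p) = c ^ 2 * en f := by
  have h : ∀ p, gr2 (fun p => c * f p) p = c ^ 2 * gr2 f p := by
    intro p
    have h1 : fderiv ℝ (fun p => c * f p) p = c • fderiv ℝ f p := by
      have h2 : DifferentiableAt ℝ f p := (hf.differentiable (by simp)).differentiableAt
      exact fderiv_const_mul h2 c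
    unfold gr2 dx dy
    rw [h1]
    simp only [smul_apply, smul_eq_mul]
    ring
  unfold en
  rw [integral_congr_ae (Eventually.of_forall h), integral_const_mul]
  ring

theorem CC.mono {U U' : Set Pl} {f : Pl → ℝ} (hf : CC U f) (h : U ⊆ U') : CC U' f := by
  exact ⟨hf.smooth, hf.cpt, hf.sub.trans h⟩

theorem CC.smul {U : Set Pl} {f : Pl → ℝ} (hf : CC U f) (c : ℝ) : CC U (fun p => c * f p) := by
  have h1 : Function.support (fun p => c * f p) ⊆ Function.support f := by
    intro p hp hp2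
    apply hp
    show c * f p = 0
    rw [hp2, mul_zero]
  exact ⟨contDiff_const.mul hf.smooth, hf.cpt.mono h1, (closure_mono h1).trans hf.sub⟩

theorem CC.integrable_sq {U : Set Pl} {f : Pl → ℝ} (hf : CC U f) :
    Integrable (fun p => f p ^ 2) := by
  have h1 : Continuous (fun p : Pl => f p ^ 2) := hf.smooth.continuous.pow 2
  have h2 : HasCompactSupport (fun p : Pl => f p ^ 2) := by
    refine hf.cpt.mono ?_
    intro p hp hp2
    apply hp
    show f p ^ 2 = 0
    rw [hp2]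
    norm_num
  exact h1.integrable_of_hasCompactSupport h2

theorem CC.integrable_gr2 {U : Set Pl} {f : Pl → ℝ} (hf : CC U f) : Integrable (gr2 f) := by
  have h1 : Continuous (fderiv ℝ f) := hf.smooth.continuous_fderiv (by simp)
  have h2 : HasCompactSupport (fderiv ℝ f) := hf.cpt.fderiv ℝ
  have h3 : Continuous (gr2 f) := by
    unfold gr2 dx dy
    exact ((h1.clm_apply continuous_const).pow 2).add ((h1.clm_apply continuous_const).pow 2)
  refine h3.integrable_of_hasCompactSupport ?_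
  refine h2.mono' ?_
  intro p hp
  by_contra h4
  have h5 : fderiv ℝ f p = 0 := by
    have : p ∉ Function.support (fderiv ℝ f) := fun h => h4 (subset_tsupport _ h)
    simpa using this
  apply hp
  unfold gr2 dx dy
  rw [h5]
  simp

theorem CC.integrable {U : Set Pl} {f : Pl → ℝ} (hf : CC U f) : Integrable f := by
  exact hf.smooth.continuous.integrable_of_hasCompactSupport hf.cpt

theorem lam_nonneg (U : Set Pl) : 0 ≤ lam U := by
  unfold lam
  refine Real.sInf_nonneg ?_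
  rintro e ⟨f, -, -, rfl⟩
  exact en_nonneg f

theorem lam_mul_le {U : Set Pl} {f : Pl → ℝ} (hf : CC U f) : lam U * ms f ≤ en f := by
  have hb : BddBelow {e | ∃ f, CC U f ∧ ms f = 1 ∧ e = en f} := by
    refine ⟨0, ?_⟩
    rintro e ⟨f, -, -, rfl⟩
    exact en_nonneg f
  rcases eq_or_lt_of_le (ms_nonneg f) with h0 | h0
  · rw [← h0, mul_zero]
    exact en_nonneg f
  · obtain ⟨c, hc⟩ : ∃ c : ℝ, c = (Real.sqrt (ms f))⁻¹ := ⟨_, rfl⟩
    have hc2 : c ^ 2 * ms f = 1 := by
      rw [hc, inv_pow, Real.sq_sqrt h0.le]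
      exact inv_mul_cancel₀ h0.ne'
    have h1 : ms (fun p => c * f p) = 1 := by rw [ms_smul, hc2]
    have h2 : lam U ≤ en (fun p => c * f p) := csInf_le hb ⟨_, hf.smul c, h1, rfl⟩
    rw [en_smul c hf.smooth] at h2
    calc lam U * ms f ≤ (c ^ 2 * en f) * ms f := mul_le_mul_of_nonneg_right h2 h0.le
      _ = en f * (c ^ 2 * ms f) := by ring
      _ = en f := by rw [hc2, mul_one]

theorem exists_cc {U : Set Pl} (hU : IsOpen U) (hne : U.Nonempty) :
    ∃ f, CC U f ∧ ms f = 1 := by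
  obtain ⟨p, hp⟩ := hne
  obtain ⟨g, hg1, hg2, hg3, -, hg5⟩ :=
    exists_contDiff_tsupport_subset (n := (⊤ : ℕ∞)) (hU.mem_nhds hp)
  have hcc : CC U g := ⟨hg3, hg2, hg1⟩
  have h0 : 0 < ms g := by
    unfold ms
    have hc : Continuous (fun p : Pl => g p ^ 2) := hg3.continuous.pow 2
    refine hc.integral_pos_of_hasCompactSupport_nonneg_nonzero ?_ (fun p => sq_nonneg (g p))
      (x := p) ?_
    · refine hg2.mono ?_
      intro q hq hq2
      apply hq
      show g q ^ 2 = 0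
      rw [hq2]
      norm_num
    · show g p ^ 2 ≠ 0
      rw [hg5]
      norm_num
  refine ⟨fun p => (Real.sqrt (ms g))⁻¹ * g p, hcc.smul _, ?_⟩
  rw [ms_smul, inv_pow, Real.sq_sqrt h0.le]
  exact inv_mul_cancel₀ h0.ne'

theorem lam_anti {U U' : Set Pl} (hU : IsOpen U) (hne : U.Nonempty) (h : U ⊆ U') :
    lam U' ≤ lam U := by
  obtain ⟨f0, hf0, hm0⟩ := exists_cc hU hne
  unfold lam
  refine csInf_le_csInf ?_ ⟨_, f0, hf0, hm0, rfl⟩ ?_
  · refine ⟨0, ?_⟩
    rintro e ⟨f, -, -, rfl⟩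
    exact en_nonneg f
  · rintro e ⟨f, hf, hm, rfl⟩
    exact ⟨f, hf.mono h, hm, rfl⟩

theorem exists_near {U : Set Pl} (hU : IsOpen U) (hne : U.Nonempty) {η : ℝ} (hη : 0 < η) :
    ∃ f, CC U f ∧ ms f = 1 ∧ en f < lam U + η := by
  obtain ⟨f0, hf0, hm0⟩ := exists_cc hU hne
  obtain ⟨e, ⟨f, hf, hm, rfl⟩, he⟩ := exists_lt_of_csInf_lt
    (s := {e | ∃ f, CC U f ∧ ms f = 1 ∧ e = en f}) ⟨_, f0, hf0, hm0, rfl⟩
    (show sInf {e | ∃ f, CC U f ∧ ms f = 1 ∧ e = en f} < lam U + η from lt_add_of_pos_right _ hη)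
  exact ⟨f, hf, hm, he⟩

theorem lam_lower : ∃ C0 : ℝ, 0 < C0 ∧ ∀ U : Set Pl, IsOpen U → U.Nonempty → volume U ≠ ⊤ →
    1 ≤ C0 * vol U * lam U := by
  obtain ⟨C0, hC0, h⟩ := gns
  refine ⟨C0, hC0, fun U hU hne hv => ?_⟩
  have hv0 : 0 ≤ vol U := ENNReal.toReal_nonneg
  have h1 : ∀ η : ℝ, 0 < η → 1 ≤ C0 * vol U * (lam U + η) := by
    intro η hη
    obtain ⟨f, hf, hm, he⟩ := exists_near hU hne hη
    have h2 := h f hf.smooth hf.cpt
    rw [hm] at h2
    have h3 : vol {p | f p ≠ 0} ≤ vol U := by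
      unfold vol
      refine ENNReal.toReal_mono hv (measure_mono ?_)
      exact (subset_tsupport f).trans hf.sub
    have h4 := en_nonneg f
    calc (1 : ℝ) ≤ C0 * vol {p | f p ≠ 0} * en f := h2
      _ ≤ C0 * vol U * en f := by gcongr
      _ ≤ C0 * vol U * (lam U + η) := by gcongr
  by_contra h5
  push Not at h5
  have h6 : 0 ≤ C0 * vol U := by positivity
  obtain ⟨η, hη, hη2⟩ : ∃ η : ℝ, 0 < η ∧ C0 * vol U * η < 1 - C0 * vol U * lam U := by
    refine ⟨(1 - C0 * vol U * lam U) / (C0 * vol U + 1) , by apply div_pos <;> linarith, ?_⟩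
    rw [← mul_div_assoc, div_lt_iff₀ (by linarith)]
    nlinarith
  have h7 := h1 η hη
  nlinarith

theorem lam_pos {U : Set Pl} (hU : IsOpen U) (hne : U.Nonempty) (hv : volume U ≠ ⊤) :
    0 < lam U := by
  obtain ⟨C0, hC0, h⟩ := lam_lower
  have h1 := h U hU hne hv
  rcases eq_or_lt_of_le (lam_nonneg U) with h2 | h2
  · rw [← h2, mul_zero] at h1
    linarith
  · exact h2

end Pool.Agent.BSv
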