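import Pool.Agent.BSv.Trunc
import Pool.Agent.BSv.Lam

/-!
# Module TEN: energies of truncations

`f ∈ CC U`, `s > 0`.  Chain rule: `gr2 (G ∘ f) p = (G' (f p))² gr2 f p`.
With `z = zt (f p / s) ∈ [0,1]`: `gr2 (Th s ∘ f) = z² gr2 f`, `gr2 (Ta s ∘ f) = (1-z)² gr2 f`,
`z² + (1-z)² ≤ 1`, hence `en (Th s ∘ f) + en (Ta s ∘ f) ≤ en f`.

`en_Ta_le`: `Th s ∘ f = f - Ta s ∘ f ∈ CC U`, so
`en (Ta s ∘ f) ≤ en f - en (Th s ∘ f) ≤ en f - lam U * ms (Th s ∘ f)` and
`ms (f - Ta s ∘ f) ≥ 1 - 2 ∫ f * Ta s f`.  Same for `en_Th_le`, with `Th` and `Ta` exchanged.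

`cc_Th`: `Th s (f p) ≠ 0` implies `|f p| > s`, so the closed support is in
`{s ≤ |f|} ∩ tsupport f ⊆ {s/2 < |f|}`.
`int_mul_Ta_le`: `0 ≤ f * Ta s f ≤ 2 s |f|` and `∫ |f| ≤ √(vol {f ≠ 0}) √(ms f)`.
-/

open MeasureTheory Set Filter Topology
open scoped ENNReal NNReal ContDiff

noncomputable section

namespace Pool.Agent.BSv

private theorem Ten_supp {g : ℝ → ℝ} (hg : g 0 = 0) (f : Pl → ℝ) :
    tsupport (fun p => g (f p)) ⊆ tsupport f := by
  refine closure_mono fun p hp => ?_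
  rw [Function.mem_support] at hp ⊢
  intro h
  exact hp (by rw [h, hg])

private theorem Ten_cc {U : Set Pl} {f : Pl → ℝ} (hf : CC U f) {g : ℝ → ℝ}
    (hg : ContDiff ℝ ∞ g) (h0 : g 0 = 0) : CC U (fun p => g (f p)) :=
  ⟨hg.comp hf.smooth, hf.cpt.comp_left h0, (Ten_supp h0 f).trans hf.sub⟩

private theorem Ten_fderiv {f : Pl → ℝ} (hf : ContDiff ℝ ∞ f) {g : ℝ → ℝ} {z : ℝ} (p : Pl)
    (hg : HasDerivAt g z (f p)) : fderiv ℝ (fun p => g (f p)) p = z • fderiv ℝ f p := by
  have h1 : DifferentiableAt ℝ f p := (hf.differentiable (by simp)) p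
  exact (hg.comp_hasFDerivAt p h1.hasFDerivAt).fderiv

private theorem Ten_gr2 {f : Pl → ℝ} (hf : ContDiff ℝ ∞ f) {g : ℝ → ℝ} {z : ℝ} (p : Pl)
    (hg : HasDerivAt g z (f p)) : gr2 (fun p => g (f p)) p = z ^ 2 * gr2 f p := by
  have h : fderiv ℝ (fun p => g (f p)) p = z • fderiv ℝ f p := Ten_fderiv hf p hg
  unfold gr2 dx dy
  rw [h]
  simp only [smul_apply, smul_eq_mul]
  ring

private theorem Ten_gr2_nonneg (f : Pl → ℝ) (p : Pl) : 0 ≤ gr2 f p := by
  unfold gr2
  positivity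

private theorem Ten_int {U : Set Pl} {f : Pl → ℝ} (hf : CC U f) {g : ℝ → ℝ}
    (hg : Continuous g) : Integrable (fun p => f p * g (f p)) := by
  refine Continuous.integrable_of_hasCompactSupport
    (hf.smooth.continuous.mul (hg.comp hf.smooth.continuous)) ?_
  exact hf.cpt.mul_right

theorem cc_Th {U : Set Pl} {f : Pl → ℝ} (hf : CC U f) {s : ℝ} (hs : 0 < s) :
    CC {p | s / 2 < |f p|} (fun p => Th s (f p)) := by
  refine ⟨(Th_contDiff hs).comp hf.smooth, hf.cpt.comp_left (Th_zero hs), ?_⟩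
  have h1 : IsClosed {p | s ≤ |f p|} := isClosed_le continuous_const hf.smooth.continuous.abs
  have h2 : tsupport (fun p => Th s (f p)) ⊆ {p | s ≤ |f p|} := by
    refine closure_minimal (fun p hp => ?_) h1
    rw [Function.mem_support] at hp
    by_contra hc
    exact hp (Th_eq_zero hs (not_le.1 hc).le)
  intro p hp
  have h3 : s ≤ |f p| := h2 hp
  show s / 2 < |f p|
  linarith

theorem cc_Th' {U : Set Pl} {f : Pl → ℝ} (hf : CC U f) {s : ℝ} (hs : 0 < s) :
    CC U (fun p => Th s (f p)) := by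
  exact Ten_cc hf (Th_contDiff hs) (Th_zero hs)

theorem cc_Ta {U : Set Pl} {f : Pl → ℝ} (hf : CC U f) {s : ℝ} (hs : 0 < s) :
    CC U (fun p => Ta s (f p)) := by
  exact Ten_cc hf (Ta_contDiff hs) (Ta_zero hs)

theorem en_Th_add_en_Ta {U : Set Pl} {f : Pl → ℝ} (hf : CC U f) {s : ℝ} (hs : 0 < s) :
    en (fun p => Th s (f p)) + en (fun p => Ta s (f p)) ≤ en f := by
  have h1 := (cc_Th' hf hs).integrable_gr2
  have h2 := (cc_Ta hf hs).integrable_gr2
  have h3 := hf.integrable_gr2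
  have h4 : ∫ p, (gr2 (fun p => Th s (f p)) p + gr2 (fun p => Ta s (f p)) p) ≤ ∫ p, gr2 f p := by
    refine integral_mono (h1.add h2) h3 fun p => ?_
    show gr2 (fun p => Th s (f p)) p + gr2 (fun p => Ta s (f p)) p ≤ gr2 f p
    rw [Ten_gr2 hf.smooth p (Th_hasDerivAt hs (f p)), Ten_gr2 hf.smooth p (Ta_hasDerivAt hs (f p))]
    have z0 := zt_nonneg (f p / s)
    have z1 := zt_le_one (f p / s)
    have g0 := Ten_gr2_nonneg f p
    nlinarith [mul_nonneg (mul_nonneg z0 (sub_nonneg.2 z1)) g0]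
  rw [integral_add h1 h2] at h4
  unfold en
  linarith

/-- pointwise: `gr2 (Th s' ∘ f) ≤ gr2 (Th s ∘ f)` for `s ≤ s'` -/
theorem gr2_Th_anti {f : Pl → ℝ} (hf : ContDiff ℝ ∞ f) {s s' : ℝ} (hs : 0 < s) (h : s ≤ s')
    (p : Pl) : gr2 (fun p => Th s' (f p)) p ≤ gr2 (fun p => Th s (f p)) p := by
  rw [Ten_gr2 hf p (Th_hasDerivAt (hs.trans_le h) (f p)), Ten_gr2 hf p (Th_hasDerivAt hs (f p))]
  refine mul_le_mul_of_nonneg_right ?_ (Ten_gr2_nonneg f p)
  exact pow_le_pow_left₀ (zt_nonneg _) (zt_anti hs h _) 2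

theorem ms_Th_ge {U : Set Pl} {f : Pl → ℝ} (hf : CC U f) (h1 : ms f = 1) {s : ℝ} (hs : 0 < s) :
    1 - 2 * ∫ p, f p * Ta s (f p) ≤ ms (fun p => Th s (f p)) := by
  have h2 : Integrable (fun p => f p * Ta s (f p)) := Ten_int hf (Ta_contDiff hs).continuous
  have h3 : ∫ p, (f p ^ 2 - 2 * (f p * Ta s (f p))) ≤ ∫ p, Th s (f p) ^ 2 := by
    refine integral_mono (hf.integrable_sq.sub (h2.const_mul 2)) (cc_Th' hf hs).integrable_sq
      fun p => ?_
    show f p ^ 2 - 2 * (f p * Ta s (f p)) ≤ Th s (f p) ^ 2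
    have e : Th s (f p) = f p - Ta s (f p) := by
      unfold Ta
      ring
    rw [e]
    nlinarith [sq_nonneg (Ta s (f p))]
  rw [integral_sub hf.integrable_sq (h2.const_mul 2), integral_const_mul] at h3
  unfold ms at h1 ⊢
  rw [h1] at h3
  exact h3

theorem ms_Ta_ge {U : Set Pl} {f : Pl → ℝ} (hf : CC U f) (h1 : ms f = 1) {s : ℝ} (hs : 0 < s) :
    1 - 2 * ∫ p, f p * Th s (f p) ≤ ms (fun p => Ta s (f p)) := by
  have h2 : Integrable (fun p => f p * Th s (f p)) := Ten_int hf (Th_contDiff hs).continuous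
  have h3 : ∫ p, (f p ^ 2 - 2 * (f p * Th s (f p))) ≤ ∫ p, Ta s (f p) ^ 2 := by
    refine integral_mono (hf.integrable_sq.sub (h2.const_mul 2)) (cc_Ta hf hs).integrable_sq
      fun p => ?_
    show f p ^ 2 - 2 * (f p * Th s (f p)) ≤ Ta s (f p) ^ 2
    have e : Ta s (f p) = f p - Th s (f p) := rfl
    rw [e]
    nlinarith [sq_nonneg (Th s (f p))]
  rw [integral_sub hf.integrable_sq (h2.const_mul 2), integral_const_mul] at h3
  unfold ms at h1 ⊢
  rw [h1] at h3
  exact h3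

/-- energy of the lower truncation of a function of mass one -/
theorem en_Ta_le {U : Set Pl} {f : Pl → ℝ} (hf : CC U f) (h1 : ms f = 1) {s : ℝ} (hs : 0 < s) :
    en (fun p => Ta s (f p)) ≤ 2 * lam U * (∫ p, f p * Ta s (f p)) + (en f - lam U) := by
  have h2 := en_Th_add_en_Ta hf hs
  have h3 := lam_mul_le (cc_Th' hf hs)
  have h4 := mul_le_mul_of_nonneg_left (ms_Th_ge hf h1 hs) (lam_nonneg U)
  linarith

theorem en_Th_le {U : Set Pl} {f : Pl → ℝ} (hf : CC U f) (h1 : ms f = 1) {s : ℝ} (hs : 0 < s) :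
    en (fun p => Th s (f p)) ≤ 2 * lam U * (∫ p, f p * Th s (f p)) + (en f - lam U) := by
  have h2 := en_Th_add_en_Ta hf hs
  have h3 := lam_mul_le (cc_Ta hf hs)
  have h4 := mul_le_mul_of_nonneg_left (ms_Ta_ge hf h1 hs) (lam_nonneg U)
  linarith

/-- Cauchy-Schwarz -/
theorem int_abs_le {U : Set Pl} {f : Pl → ℝ} (hf : CC U f) :
    ∫ p, |f p| ≤ √(vol {p | f p ≠ 0}) * √(ms f) := by
  have hc := hf.smooth.continuous
  set S : Set Pl := {p | f p ≠ 0} with hS
  have hSm : MeasurableSet S := (isOpen_ne_fun hc continuous_const).measurableSet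
  have hSf : volume S ≠ ⊤ :=
    ne_top_of_le_ne_top hf.cpt.isCompact.measure_lt_top.ne (measure_mono (subset_tsupport f))
  set V : ℝ := vol S with hV
  have hV' : volume.real S = V := rfl
  have hV0 : 0 ≤ V := ENNReal.toReal_nonneg
  set a : ℝ := ∫ p, |f p| with ha
  have ha0 : 0 ≤ a := integral_nonneg fun p => abs_nonneg _
  have i1 : Integrable (fun p => |f p|) := hf.integrable.abs
  have i2 : Integrable (fun p => f p ^ 2) := hf.integrable_sq
  have e1 : ∫ p in S, |f p| = a := by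
    rw [ha]
    refine setIntegral_eq_integral_of_forall_compl_eq_zero fun p hp => ?_
    have : f p = 0 := by
      by_contra h
      exact hp h
    rw [this, abs_zero]
  have e2 : ∫ p in S, f p ^ 2 = ms f := by
    unfold ms
    refine setIntegral_eq_integral_of_forall_compl_eq_zero fun p hp => ?_
    have : f p = 0 := by
      by_contra h
      exact hp h
    rw [this]
    norm_num
  have i3 : IntegrableOn (fun _ : Pl => a ^ 2) S :=
    integrableOn_const hSf
  have key : 0 ≤ V ^ 2 * ms f - 2 * V * a * a + a ^ 2 * V := by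
    have h1 : 0 ≤ ∫ p in S, (V * |f p| - a) ^ 2 := integral_nonneg fun p => sq_nonneg _
    have h2 : ∫ p in S, (V * |f p| - a) ^ 2 =
        ∫ p in S, ((V ^ 2 * f p ^ 2 - 2 * V * a * |f p|) + a ^ 2) := by
      congr 1
      funext p
      rw [← sq_abs (f p)]
      ring
    have j1 : Integrable (fun p => V ^ 2 * f p ^ 2) (volume.restrict S) :=
      i2.integrableOn.const_mul _
    have j2 : Integrable (fun p => 2 * V * a * |f p|) (volume.restrict S) :=
      i1.integrableOn.const_mul _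
    have j3 : Integrable (fun p => V ^ 2 * f p ^ 2 - 2 * V * a * |f p|) (volume.restrict S) :=
      j1.sub j2
    rw [h2, integral_add j3 i3, integral_sub j1 j2,
      integral_const_mul, integral_const_mul, e1, e2, setIntegral_const, hV', smul_eq_mul] at h1
    linarith
  have hms := ms_nonneg f
  have key2 : a ^ 2 ≤ V * ms f := by
    rcases hV0.eq_or_lt with h0 | h0
    · have h1 : volume S = 0 := by
        rcases (ENNReal.toReal_eq_zero_iff _).1 h0.symm with h | h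
        · exact h
        · exact absurd h hSf
      have h2 : a = 0 := by
        rw [← e1]
        rw [Measure.restrict_eq_zero.2 h1]
        simp
      rw [h2, ← h0]
      norm_num
    · have h1 : 0 ≤ V * (V * ms f - a ^ 2) := by linarith
      have h2 := nonneg_of_mul_nonneg_right h1 h0
      linarith
  rw [← Real.sqrt_mul hV0]
  exact Real.le_sqrt_of_sq_le key2

theorem int_mul_Ta_le {U : Set Pl} {f : Pl → ℝ} (hf : CC U f) {s : ℝ} (hs : 0 < s) :
    ∫ p, f p * Ta s (f p) ≤ 2 * s * √(vol {p | f p ≠ 0}) * √(ms f) := by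
  have h2 : Integrable (fun p => f p * Ta s (f p)) := Ten_int hf (Ta_contDiff hs).continuous
  have h3 : ∫ p, f p * Ta s (f p) ≤ ∫ p, 2 * s * |f p| := by
    refine integral_mono h2 (hf.integrable.abs.const_mul (2 * s)) fun p => ?_
    show f p * Ta s (f p) ≤ 2 * s * |f p|
    calc f p * Ta s (f p) ≤ |f p * Ta s (f p)| := le_abs_self _
      _ = |f p| * |Ta s (f p)| := abs_mul _ _
      _ ≤ |f p| * (2 * s) := mul_le_mul_of_nonneg_left (abs_Ta_le hs _) (abs_nonneg _)
      _ = 2 * s * |f p| := by ring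
  rw [integral_const_mul] at h3
  refine h3.trans ?_
  rw [mul_assoc (2 * s)]
  exact mul_le_mul_of_nonneg_left (int_abs_le hf) (by positivity)

end Pool.Agent.BSv
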