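import Pool.Agent.BSv.Fdd

/-!
# Module SCL: Brownian scaling for the survival probability

`h > 0`: `X' t = h⁻¹ X (h² t)`, `Y' t = h⁻¹ Y (h² t)` is again a planar Brownian motion
(`IsBrownianReal.smul` with `c = h²`), the sausage of `(X',Y')` of radius `a` up to `t` is `h⁻¹` times
the sausage of `(X,Y)` of radius `a h` up to `h² t`, so its area is `h⁻²` times that area:
`surv P X' Y' (ν h²) a t = surv P X Y ν (a h) (h² t)`.
-/

open MeasureTheory Set Filter Topology ProbabilityTheory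
open scoped ENNReal NNReal ContDiff

noncomputable section

namespace Pool.Agent.BSv

variable {Ω : Type*} [MeasurableSpace Ω] {P : Measure Ω} {X Y : ℝ≥0 → Ω → ℝ}

theorem PBM.scale (hp : PBM P X Y) {h : ℝ≥0} (hh : 0 < h) :
    PBM P (fun t o => (h : ℝ)⁻¹ * X (h ^ 2 * t) o) (fun t o => (h : ℝ)⁻¹ * Y (h ^ 2 * t) o) := by
  have hs : ((√(h ^ 2 : ℝ≥0) : ℝ)) = (h : ℝ) := by
    push_cast
    exact Real.sqrt_sq h.2
  have hc : (h ^ 2 : ℝ≥0) ≠ 0 := pow_ne_zero _ hh.ne'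
  refine ⟨?_, ?_, ?_⟩
  · have := hp.fst.smul hc
    rwa [hs] at this
  · have := hp.snd.smul hc
    rwa [hs] at this
  · have hm : Measurable fun (w : ℝ≥0 → ℝ) (t : ℝ≥0) => (h : ℝ)⁻¹ * w (h ^ 2 * t) := by
      refine measurable_pi_lambda _ fun t => ?_
      exact (measurable_pi_apply _).const_mul _
    exact hp.indep.comp hm hm

open scoped Pointwise in
private theorem Scl_sausage (X Y : ℝ≥0 → Ω → ℝ) {h : ℝ≥0} (hh : 0 < h) (a : ℝ) (t : ℝ≥0) (o : Ω) :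
    sausage (fun t o => (h : ℝ)⁻¹ * X (h ^ 2 * t) o) (fun t o => (h : ℝ)⁻¹ * Y (h ^ 2 * t) o) a t o =
      (h : ℝ)⁻¹ • sausage X Y (a * h) (h ^ 2 * t) o := by
  have hh' : (0 : ℝ) < h := by exact_mod_cast hh
  have hc : ((h : ℝ)⁻¹) ≠ 0 := inv_ne_zero hh'.ne'
  have hball : ∀ s : ℝ≥0, Metric.closedBall (!₂[(h : ℝ)⁻¹ * X s o, (h : ℝ)⁻¹ * Y s o] : E2) a =
      (h : ℝ)⁻¹ • Metric.closedBall (!₂[X s o, Y s o] : E2) (a * h) := by
    intro s
    rw [smul_closedBall' hc]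
    congr 1
    · ext i
      fin_cases i <;> simp
    · rw [Real.norm_of_nonneg (inv_nonneg.2 hh'.le)]
      field_simp
  have hh2 : (0 : ℝ≥0) < h ^ 2 := by positivity
  unfold sausage
  ext x
  rw [Set.mem_smul_set_iff_inv_smul_mem₀ hc, Set.mem_iUnion₂, Set.mem_iUnion₂]
  constructor
  · rintro ⟨s, hs, hx⟩
    refine ⟨h ^ 2 * s, ?_, ?_⟩
    · rw [Set.mem_Iic] at hs ⊢
      gcongr
    · rw [hball, Set.mem_smul_set_iff_inv_smul_mem₀ hc] at hx
      exact hx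
  · rintro ⟨s, hs, hx⟩
    have hs' : h ^ 2 * (s / h ^ 2) = s := mul_div_cancel₀ s hh2.ne'
    refine ⟨s / h ^ 2, ?_, ?_⟩
    · rw [Set.mem_Iic] at hs ⊢
      rw [div_le_iff₀ hh2, mul_comm]
      exact hs
    · rw [hball, Set.mem_smul_set_iff_inv_smul_mem₀ hc, hs']
      exact hx

open scoped Pointwise in
theorem surv_scale (X Y : ℝ≥0 → Ω → ℝ) {h : ℝ≥0} (hh : 0 < h) (ν a : ℝ) (t : ℝ≥0) :
    surv P (fun t o => (h : ℝ)⁻¹ * X (h ^ 2 * t) o) (fun t o => (h : ℝ)⁻¹ * Y (h ^ 2 * t) o)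
      (ν * h ^ 2) a t = surv P X Y ν (a * h) (h ^ 2 * t) := by
  have hh' : (0 : ℝ) < h := by exact_mod_cast hh
  unfold surv
  congr 1
  funext o
  rw [Scl_sausage X Y hh a t o, Measure.addHaar_smul, ENNReal.toReal_mul,
    ENNReal.toReal_ofReal (abs_nonneg _)]
  congr 1
  have h1 : |(h : ℝ)⁻¹ ^ Module.finrank ℝ E2| = ((h : ℝ) ^ 2)⁻¹ := by
    rw [show Module.finrank ℝ E2 = 2 from finrank_euclideanSpace_fin, inv_pow,
      abs_of_nonneg (by positivity)]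
  rw [h1]
  field_simp

end Pool.Agent.BSv
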