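import Pool.Agent.BSv.Upper
import Pool.Agent.BSv.Lower
import Pool.Agent.BSv.Trans
import Pool.Agent.BSv.Scl

/-!
# Module MAIN (helper98)
-/

open MeasureTheory Set Filter Topology ProbabilityTheory
open scoped ENNReal NNReal ContDiff

noncomputable section

namespace Pool.Agent.BSv

/-- both bounds for radius 2 -/
theorem main_two (ν : ℝ) (hν : 0 < ν) : ∃ C : ℝ, 0 ≤ C ∧ ∀ (Ω : Type) [MeasurableSpace Ω]
    (P : Measure Ω) (X Y : ℝ≥0 → Ω → ℝ), PBM P X Y → ∀ t : ℝ≥0, 1 ≤ t →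
    |Real.log (surv P X Y ν 2 t) + cst ν * √t| ≤ C * (t : ℝ) ^ (1 / 4 : ℝ) := by
  obtain ⟨C1, h1⟩ := upper ν hν
  obtain ⟨C2, h2⟩ := lower ν hν
  refine ⟨max |C1| |C2|, by positivity, ?_⟩
  intro Ω _ P X Y h t ht
  have hpos := surv_pos h hν (a := 2) (by norm_num) t
  have u := h1 Ω P X Y h t ht
  have l := h2 Ω P X Y h t ht
  have hq : 0 ≤ (t : ℝ) ^ (1 / 4 : ℝ) := by positivity
  have u' : Real.log (surv P X Y ν 2 t) ≤ -(cst ν) * √t + C1 * (t : ℝ) ^ (1 / 4 : ℝ) := by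
    rw [← Real.log_exp (-(cst ν) * √t + C1 * (t : ℝ) ^ (1 / 4 : ℝ))]
    exact Real.log_le_log hpos u
  have l' : -(cst ν) * √t - C2 * (t : ℝ) ^ (1 / 4 : ℝ) ≤ Real.log (surv P X Y ν 2 t) := by
    rw [← Real.log_exp (-(cst ν) * √t - C2 * (t : ℝ) ^ (1 / 4 : ℝ))]
    exact Real.log_le_log (Real.exp_pos _) l
  have b1 : C1 * (t : ℝ) ^ (1 / 4 : ℝ) ≤ max |C1| |C2| * (t : ℝ) ^ (1 / 4 : ℝ) := by
    gcongr
    exact (le_abs_self _).trans (le_max_left _ _)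
  have b2 : C2 * (t : ℝ) ^ (1 / 4 : ℝ) ≤ max |C1| |C2| * (t : ℝ) ^ (1 / 4 : ℝ) := by
    gcongr
    exact (le_abs_self _).trans (le_max_right _ _)
  rw [abs_le]
  constructor <;> linarith

theorem main (ν a : ℝ) (hν : 0 < ν) (ha : 0 < a) : ∃ C : ℝ, ∀ (Ω : Type) [MeasurableSpace Ω]
    (P : Measure Ω) (X Y : ℝ≥0 → Ω → ℝ), PBM P X Y → ∀ t : ℝ≥0, 1 ≤ t →
    |Real.log (surv P X Y ν a t) + cE ν * √t| ≤ C * (t : ℝ) ^ (1 / 4 : ℝ) := by
  set h : ℝ≥0 := ⟨a / 2, by positivity⟩ with hh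
  have hval : (h : ℝ) = a / 2 := rfl
  have hpos : 0 < h := by
    rw [← NNReal.coe_lt_coe, hval]
    show (0 : ℝ) < a / 2
    positivity
  have hposR : (0 : ℝ) < h := by exact_mod_cast hpos
  have hνh : 0 < ν * (h : ℝ) ^ 2 := by positivity
  obtain ⟨C', hC', hmain⟩ := main_two (ν * (h : ℝ) ^ 2) hνh
  have hscale : cst (ν * (h : ℝ) ^ 2) = h * cst ν := cst_scale hν hposR
  have hc := cst_pos hν
  set κ : ℝ := (((h : ℝ) ^ 2)⁻¹) ^ (1 / 4 : ℝ) with hκ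
  have hκ0 : 0 ≤ κ := by positivity
  refine ⟨C' * κ + (h * cst ν + C' + cst ν * h), ?_⟩
  intro Ω _ P X Y hP t ht
  have ht1 : (1 : ℝ) ≤ (t : ℝ) := by exact_mod_cast ht
  have htq : 1 ≤ (t : ℝ) ^ (1 / 4 : ℝ) := Real.one_le_rpow ht1 (by norm_num)
  have htq0 : 0 ≤ (t : ℝ) ^ (1 / 4 : ℝ) := by positivity
  rw [cE_eq]
  have hP' := hP.scale hpos
  have h2h : (2 : ℝ) * h = a := by rw [hval]; ring
  have hsurv : ∀ s : ℝ≥0, surv P (fun t o => (h : ℝ)⁻¹ * X (h ^ 2 * t) o)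
      (fun t o => (h : ℝ)⁻¹ * Y (h ^ 2 * t) o) (ν * (h : ℝ) ^ 2) 2 s =
      surv P X Y ν a (h ^ 2 * s) := by
    intro s
    rw [surv_scale X Y hpos ν 2 s, h2h]
  have hK : 0 ≤ h * cst ν + C' + cst ν * h := by positivity
  by_cases hcase : h ^ 2 ≤ t
  · set t' : ℝ≥0 := t / h ^ 2 with ht'
    have ht'1 : 1 ≤ t' := by
      rw [ht', le_div_iff₀ (by positivity), one_mul]
      exact hcase
    have heq : h ^ 2 * t' = t := by
      rw [ht']; field_simp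
    have h1 := hmain Ω P _ _ hP' t' ht'1
    rw [hsurv t', heq, hscale] at h1
    have hcoe : (t' : ℝ) = (t : ℝ) * ((h : ℝ) ^ 2)⁻¹ := by
      rw [ht']; push_cast; rw [div_eq_mul_inv]
    have h2 : (h : ℝ) * cst ν * √(t' : ℝ) = cst ν * √(t : ℝ) := by
      rw [hcoe, Real.sqrt_mul (by positivity), Real.sqrt_inv, Real.sqrt_sq hposR.le]
      field_simp
    have h3 : (t' : ℝ) ^ (1 / 4 : ℝ) = (t : ℝ) ^ (1 / 4 : ℝ) * κ := by
      rw [hcoe, Real.mul_rpow (by positivity) (by positivity)]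
    rw [h2, h3] at h1
    refine h1.trans ?_
    have h4 : 0 ≤ (h * cst ν + C' + cst ν * h) * (t : ℝ) ^ (1 / 4 : ℝ) := by positivity
    have h5 : C' * ((t : ℝ) ^ (1 / 4 : ℝ) * κ) = C' * κ * (t : ℝ) ^ (1 / 4 : ℝ) := by ring
    rw [h5, add_mul]
    linarith
  · push Not at hcase
    have h1 := hmain Ω P _ _ hP' 1 le_rfl
    rw [hsurv 1, mul_one, hscale] at h1
    simp only [NNReal.coe_one, Real.sqrt_one, mul_one, Real.one_rpow] at h1
    have hlow := (abs_le.mp h1).1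
    have h2 := surv_anti hP hν ha hcase.le
    have h3 := surv_le_one hP hν ha t
    have h4 := surv_pos hP hν ha t
    have h5 := surv_pos hP hν ha (h ^ 2)
    have l1 : Real.log (surv P X Y ν a t) ≤ 0 := Real.log_nonpos h4.le h3
    have l2 : Real.log (surv P X Y ν a (h ^ 2)) ≤ Real.log (surv P X Y ν a t) :=
      Real.log_le_log h5 h2
    have hs : √(t : ℝ) ≤ h := by
      rw [Real.sqrt_le_left hposR.le]
      exact_mod_cast hcase.le
    have hs0 : 0 ≤ √(t : ℝ) := Real.sqrt_nonneg _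
    have l3 : cst ν * √(t : ℝ) ≤ cst ν * h := by gcongr
    have l4 : 0 ≤ cst ν * √(t : ℝ) := by positivity
    have l5 : h * cst ν + C' + cst ν * h ≤
        (C' * κ + (h * cst ν + C' + cst ν * h)) * (t : ℝ) ^ (1 / 4 : ℝ) := by
      have : 0 ≤ C' * κ := by positivity
      nlinarith
    have l6 : 0 ≤ (h : ℝ) * cst ν := by positivity
    rw [abs_le]
    constructor <;> linarith

end Pool.Agent.BSv
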