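import Pool.Agent.BSv.Counts2

/-!
# Module KEY: the deterministic estimate with codes (helper98)
-/

open MeasureTheory Set Filter Topology
open scoped ENNReal NNReal ContDiff

noncomputable section

namespace Pool.Agent.BSv

/-- summation of the level bounds -/
theorem sum_levels {W : Finset (ℕ × ℤ × ℤ)} {Y Gp ν C1 C2 C4 L T : ℝ} {k1 : ℕ} (hY : 0 ≤ Y)
    (hG : 0 ≤ Gp) (hν : 0 < ν) (hC1 : 0 ≤ C1) (hC2 : 0 ≤ C2) (hC4 : 0 ≤ C4)
    (hT : T = ∑ q ∈ W, (4 : ℝ) ^ q.1)
    (h : ∀ k, ((lev W k).card : ℝ) ≤ (if k < k1 then C1 * (1 + k) ^ 2 * Y else 0) +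
      (C2 * (1 + k) ^ 2 + 4 * C4) / 2 ^ k * Y +
      (if k1 ≤ k then (4 / ν) * Gp / 4 ^ k else 0) + L * (4 ^ k * (lev W k).card)) :
    (W.card : ℝ) ≤ (C1 * k1 ^ 3 + 12 * C2 + 8 * C4) * Y + (8 / ν) / 4 ^ k1 * Gp + L * T := by
  obtain ⟨N, hN⟩ := exists_bound_lev W
  have h1 : (W.card : ℝ) = ∑ k ∈ Finset.range N, ((lev W k).card : ℝ) := by
    have := sum_lev W hN (fun _ => 1)
    simpa using this
  have h2 : T = ∑ k ∈ Finset.range N, 4 ^ k * ((lev W k).card : ℝ) := by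
    rw [hT]; exact sum_lev W hN (fun k => 4 ^ k)
  have s1 : ∑ k ∈ Finset.range N, (if k < k1 then C1 * ((1 : ℝ) + k) ^ 2 * Y else 0) ≤
      C1 * k1 ^ 3 * Y := by
    have : ∑ k ∈ Finset.range N, (if k < k1 then C1 * ((1 : ℝ) + k) ^ 2 * Y else 0) =
        C1 * Y * ∑ k ∈ Finset.range N, (if k < k1 then ((1 : ℝ) + k) ^ 2 else 0) := by
      rw [Finset.mul_sum]
      apply Finset.sum_congr rfl
      intro k _
      split_ifs <;> ring
    rw [this]
    calc C1 * Y * ∑ k ∈ Finset.range N, (if k < k1 then ((1 : ℝ) + k) ^ 2 else 0)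
        ≤ C1 * Y * k1 ^ 3 := by gcongr; exact sum_small N k1
      _ = _ := by ring
  have s2 : ∑ k ∈ Finset.range N, (C2 * ((1 : ℝ) + k) ^ 2 + 4 * C4) / 2 ^ k * Y ≤
      (12 * C2 + 8 * C4) * Y := by
    have : ∑ k ∈ Finset.range N, (C2 * ((1 : ℝ) + k) ^ 2 + 4 * C4) / 2 ^ k * Y =
        (C2 * ∑ k ∈ Finset.range N, ((1 : ℝ) + k) ^ 2 / 2 ^ k +
          4 * C4 * ∑ k ∈ Finset.range N, (1 : ℝ) / 2 ^ k) * Y := by
      rw [Finset.mul_sum, Finset.mul_sum, ← Finset.sum_add_distrib, Finset.sum_mul]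
      apply Finset.sum_congr rfl
      intro k _
      ring
    rw [this]
    have a1 := sum_sq_two N
    have a2 := sum_two N
    have : C2 * ∑ k ∈ Finset.range N, ((1 : ℝ) + k) ^ 2 / 2 ^ k +
          4 * C4 * ∑ k ∈ Finset.range N, (1 : ℝ) / 2 ^ k ≤ C2 * 12 + 4 * C4 * 2 := by gcongr
    calc _ ≤ (C2 * 12 + 4 * C4 * 2) * Y := by gcongr
      _ = _ := by ring
  have s3 : ∑ k ∈ Finset.range N, (if k1 ≤ k then (4 / ν) * Gp / 4 ^ k else 0) ≤
      (8 / ν) / 4 ^ k1 * Gp := by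
    have : ∑ k ∈ Finset.range N, (if k1 ≤ k then (4 / ν) * Gp / 4 ^ k else 0) =
        (4 / ν) * Gp * ∑ k ∈ Finset.range N, (if k1 ≤ k then (1 : ℝ) / 4 ^ k else 0) := by
      rw [Finset.mul_sum]
      apply Finset.sum_congr rfl
      intro k _
      split_ifs <;> ring
    rw [this]
    calc (4 / ν) * Gp * ∑ k ∈ Finset.range N, (if k1 ≤ k then (1 : ℝ) / 4 ^ k else 0)
        ≤ (4 / ν) * Gp * (2 / 4 ^ k1) := by gcongr; exact sum_four N k1
      _ = _ := by ring
  have s4 : ∑ k ∈ Finset.range N, L * (4 ^ k * ((lev W k).card : ℝ)) = L * T := by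
    rw [h2, Finset.mul_sum]
  rw [h1]
  calc ∑ k ∈ Finset.range N, ((lev W k).card : ℝ) ≤ ∑ k ∈ Finset.range N,
        ((if k < k1 then C1 * (1 + k) ^ 2 * Y else 0) +
      (C2 * (1 + k) ^ 2 + 4 * C4) / 2 ^ k * Y +
      (if k1 ≤ k then (4 / ν) * Gp / 4 ^ k else 0) + L * (4 ^ k * (lev W k).card)) :=
        Finset.sum_le_sum (fun k _ => h k)
    _ = _ := by
      rw [Finset.sum_add_distrib, Finset.sum_add_distrib, Finset.sum_add_distrib]
    _ ≤ C1 * k1 ^ 3 * Y + (12 * C2 + 8 * C4) * Y + (8 / ν) / 4 ^ k1 * Gp + L * T := by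
      rw [s4]
      gcongr
    _ = _ := by ring

theorem key (ν : ℝ) (hν : 0 < ν) (K2 KV : ℝ) (hK2 : 0 < K2) (hKV : 0 < KV) : ∃ C r0 : ℝ, 1 ≤ r0 ∧
    ∀ r : ℝ, r0 ≤ r → ∀ V : Finset (ℤ × ℤ), V.Nonempty → (V.card : ℝ) ≤ KV * r ^ 4 →
    lam (UV V) ≤ 2 * cst ν / r ^ 2 →
    ∃ (k : ℕ) (i j : ℤ) (w : List Alf), cellsOf k i j ⊆ V ∧
      Tst (wlk w (k, i, j, true)) ⊆ V ∧
      cst ν * r ^ 2 - C * r + K2 * w.length ≤
        r ^ 4 * lam (UV V) + ν * (Tst (wlk w (k, i, j, true))).card := by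
  have hc := cst_pos hν
  obtain ⟨r1, c1, C1, C2, C4, hr1, hc1, hC1, hC2, hC4, hmain⟩ := counts ν hν
  set κ : ℝ := 1 + 1 / c1 with hκ
  have hκpos : 0 < κ := by positivity
  obtain ⟨k1, hk1⟩ : ∃ k1 : ℕ, 128 * K2 / ν ≤ 4 ^ k1 := by
    obtain ⟨n, hn⟩ := pow_unbounded_of_one_lt (128 * K2 / ν) (show (1 : ℝ) < 4 by norm_num)
    exact ⟨n, hn.le⟩
  set CY : ℝ := C1 * k1 ^ 3 + 12 * C2 + 8 * C4 + C1 with hCY
  have hCYpos : 0 < CY := by positivity
  set C6 : ℝ := (128 * κ) ^ 2 / ν with hC6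
  have hC6pos : 0 < C6 := by positivity
  set K : ℝ := 64 * cst ν / ν + 1 with hK
  have hKpos : 0 < K := by positivity
  set N : ℝ := max (32 * C1) (512 * K2 * CY / ν) with hN
  have hNpos : 0 < N := lt_of_lt_of_le (by positivity) (le_max_left _ _)
  set C : ℝ := 2 * K2 * CY * (K * (1 + K)) + 2 * K2 * C6 * cst ν + ν * C4 * (K * (1 + K)) with hC
  refine ⟨C, max r1 (max (144 * 4 ^ k1 / c1 + 1) (max (16 * K2 * C6) (3 * KV * N ^ 4))),
    hr1.trans (le_max_left _ _), ?_⟩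
  intro r hr V hVne hVcard hlam
  have hrr1 : r1 ≤ r := (le_max_left _ _).trans hr
  have hr' := (le_max_right _ _).trans hr
  have hrr2 : 144 * 4 ^ k1 / c1 + 1 ≤ r := (le_max_left _ _).trans hr'
  have hr'' := (le_max_right _ _).trans hr'
  have hrr3 : 16 * K2 * C6 ≤ r := (le_max_left _ _).trans hr''
  have hrr4 : 3 * KV * N ^ 4 ≤ r := (le_max_right _ _).trans hr''
  have hr1' : 1 ≤ r := hr1.trans hrr1
  have hr0 : 0 < r := by linarith
  have hr2 : r ≤ r ^ 2 := by nlinarith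
  obtain ⟨D, a, e, W, B, hDc, hca, haV, hea, he, hvD, hW, hB, hcov, hDTB, hBc, hlev, hlow, hgood⟩ :=
    hmain r hrr1 V hVne hlam
  have ha : 0 < a := by
    have : 0 < c1 * r ^ 2 := by positivity
    linarith
  have h4 : e ^ 4 * (r ^ 2 * a) = 1 := by rw [hea]; exact ee_pow hr0 ha
  have her : e * r ≤ κ := er_le hr0 ha he h4 hc1 hca
  have ha3 : a ≤ 3 * KV * r ^ 4 := by linarith
  have hNr : N ≤ r ^ 2 * e :=
    r2e_ge hr0 ha he h4 hKV ha3 hNpos.le (hrr4.trans hr2)
  have hYa : a / (r ^ 2 * e) ≤ a / N := Y_le_a ha hNpos hNr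
  set Y := a / (r ^ 2 * e) with hY
  have hYpos : 0 < Y := by positivity
  set T : ℝ := ((famT W).card : ℝ) with hT
  set G := r ^ 4 * lam (UV V) + ν * T - cst ν * r ^ 2 with hG
  have hGp0 : 0 ≤ max G 0 := le_max_right _ _
  have hTsum : T = ∑ q ∈ W, (4 : ℝ) ^ q.1 := by
    rw [hT, card_famT (V := V) (fun q hq => (hW q hq).1)]
    push_cast
    rfl
  have hcr : 144 * 4 ^ k1 < c1 * r ^ 2 := by
    have h1 : 144 * 4 ^ k1 / c1 < r := by linarith
    rw [div_lt_iff₀ hc1] at h1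
    nlinarith
  -- level bounds
  have hL : ∀ k, ((lev W k).card : ℝ) ≤ (if k < k1 then C1 * (1 + k) ^ 2 * Y else 0) +
      (C2 * (1 + k) ^ 2 + 4 * C4) / 2 ^ k * Y +
      (if k1 ≤ k then (4 / ν) * max G 0 / 4 ^ k else 0) +
      ((128 * κ) ^ 2 / r ^ 2) * (4 ^ k * (lev W k).card) := by
    intro k
    have p1 : 0 ≤ (C2 * (1 + k) ^ 2 + 4 * C4) / 2 ^ k * Y := by positivity
    have p2 : 0 ≤ ((128 * κ) ^ 2 / r ^ 2) * (4 ^ k * ((lev W k).card : ℝ)) := by positivity
    have p3 : 0 ≤ (4 / ν) * max G 0 / 4 ^ k := by positivity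
    by_cases hk : k < k1
    · rw [if_pos hk, if_neg (by omega)]
      have h1 : 9 * 4 ^ k < a / 16 := by
        have : (4 : ℝ) ^ k ≤ 4 ^ k1 := pow_le_pow_right₀ (by norm_num) hk.le
        linarith
      have := hlev k h1
      linarith
    · rw [if_neg hk, if_pos (by omega)]
      by_cases hg : 128 * 2 ^ k * e ≤ 1
      · have := hgood k hg
        linarith
      · push Not at hg
        have h1 : (1 : ℝ) ≤ (128 * κ) ^ 2 / r ^ 2 * 4 ^ k := by
          have h2 : e ≤ κ / r := by rw [le_div_iff₀ hr0]; exact her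
          have h3 : 1 < 128 * 2 ^ k * (κ / r) := by
            refine hg.trans_le ?_
            gcongr
          have h5 : (128 * 2 ^ k * (κ / r)) ^ 2 = (128 * κ) ^ 2 / r ^ 2 * 4 ^ k := by
            have : (4 : ℝ) ^ k = (2 ^ k) ^ 2 := by rw [← pow_mul, mul_comm k 2, pow_mul]; norm_num
            rw [this]
            field_simp
          rw [← h5]
          exact one_le_pow₀ h3.le
        have h2 : ((lev W k).card : ℝ) ≤
            ((128 * κ) ^ 2 / r ^ 2) * (4 ^ k * ((lev W k).card : ℝ)) := by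
          calc ((lev W k).card : ℝ) = 1 * ((lev W k).card : ℝ) := by ring
            _ ≤ ((128 * κ) ^ 2 / r ^ 2 * 4 ^ k) * ((lev W k).card : ℝ) := by gcongr
            _ = _ := by ring
        linarith
  have hWc := sum_levels (T := T) hYpos.le hGp0 hν hC1.le hC2.le hC4.le hTsum hL
  -- the total number
  have hlam0 : 0 ≤ r ^ 4 * lam (UV V) := by
    have := lam_nonneg (UV V)
    positivity
  have hTle : T ≤ (max G 0 + cst ν * r ^ 2) / ν := by
    rw [le_div_iff₀ hν]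
    have : G ≤ max G 0 := le_max_left _ _
    linarith
  have hbad : (128 * κ) ^ 2 / r ^ 2 * T ≤ C6 / r ^ 2 * max G 0 + C6 * cst ν := by
    calc (128 * κ) ^ 2 / r ^ 2 * T ≤ (128 * κ) ^ 2 / r ^ 2 * ((max G 0 + cst ν * r ^ 2) / ν) := by
          gcongr
      _ = C6 / r ^ 2 * max G 0 + C6 * cst ν := by
          rw [hC6]; field_simp
  have hM : 2 * K2 * ((W.card : ℝ) + B.card) ≤
      2 * K2 * CY * Y + max G 0 / 4 + 2 * K2 * C6 * cst ν := by
    have h1 : (W.card : ℝ) + B.card ≤ CY * Y + ((8 / ν) / 4 ^ k1 + C6 / r ^ 2) * max G 0 +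
        C6 * cst ν := by
      have : CY * Y = (C1 * k1 ^ 3 + 12 * C2 + 8 * C4) * Y + C1 * Y := by rw [hCY]; ring
      rw [this, add_mul]
      linarith
    have h2 : 2 * K2 * ((8 / ν) / 4 ^ k1) ≤ 1 / 8 := by
      have h3 : 2 * K2 * ((8 / ν) / 4 ^ k1) = (128 * K2 / ν) / (8 * 4 ^ k1) := by
        field_simp; norm_num
      rw [h3, div_le_div_iff₀ (by positivity) (by norm_num)]
      linarith
    have h3 : 2 * K2 * (C6 / r ^ 2) ≤ 1 / 8 := by
      have h4 : 2 * K2 * (C6 / r ^ 2) = (2 * K2 * C6) / r ^ 2 := by ring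
      rw [h4, div_le_div_iff₀ (by positivity) (by norm_num)]
      linarith
    calc 2 * K2 * ((W.card : ℝ) + B.card) ≤
        2 * K2 * (CY * Y + ((8 / ν) / 4 ^ k1 + C6 / r ^ 2) * max G 0 + C6 * cst ν) := by gcongr
      _ = 2 * K2 * CY * Y + (2 * K2 * ((8 / ν) / 4 ^ k1) + 2 * K2 * (C6 / r ^ 2)) * max G 0 +
          2 * K2 * C6 * cst ν := by ring
      _ ≤ 2 * K2 * CY * Y + (1 / 8 + 1 / 8) * max G 0 + 2 * K2 * C6 * cst ν := by gcongr
      _ = _ := by ring
  -- T is large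
  have hTbig : a / 32 ≤ T := by
    have h1 : C1 * Y ≤ a / 32 := by
      have h2 : C1 * Y ≤ C1 * (a / N) := by gcongr
      have h3 : C1 * (a / N) ≤ a / 32 := by
        have h5 : 32 * C1 ≤ N := le_max_left _ _
        rw [← mul_div_assoc, div_le_div_iff₀ hNpos (by norm_num)]
        nlinarith
      exact h2.trans h3
    linarith
  have hWne : W.Nonempty := by
    by_contra hcon
    rw [Finset.not_nonempty_iff_eq_empty] at hcon
    have : T = 0 := by
      rw [hTsum, hcon, Finset.sum_empty]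
    linarith
  obtain ⟨q0, hq0⟩ := hWne
  obtain ⟨w, hw1, hw2⟩ := exists_code hDc hW hB hcov hq0
  refine ⟨q0.1, q0.2.1, q0.2.2, w, wh_sub (hW q0 hq0).1, ?_, ?_⟩
  · rw [hw2]; exact famT_subset (fun q hq => (hW q hq).1)
  · rw [hw2]
    have hwl : K2 * (w.length : ℝ) ≤ 2 * K2 * ((W.card : ℝ) + B.card) := by
      have : (w.length : ℝ) ≤ 2 * ((W.card : ℝ) + B.card) := by exact_mod_cast hw1
      calc K2 * (w.length : ℝ) ≤ K2 * (2 * ((W.card : ℝ) + B.card)) := by gcongr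
        _ = _ := by ring
    have hgoal : K2 * (w.length : ℝ) ≤ G + C * r := by
      by_cases hcase : a ≤ K * r ^ 2
      · have h1 := er_ge hr0 ha he h4 hKpos hcase
        have h2 : Y ≤ K * (1 + K) * r := Y_le_r hr0 he hKpos hcase h1
        have h3 : 2 * K2 * CY * Y ≤ 2 * K2 * CY * (K * (1 + K) * r) := by gcongr
        have h5 : 2 * K2 * C6 * cst ν ≤ 2 * K2 * C6 * cst ν * r := by
          have : 0 < 2 * K2 * C6 * cst ν := by positivity
          nlinarith
        have h6 : ν * C4 * Y ≤ ν * C4 * (K * (1 + K) * r) := by gcongr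
        have hCr : C * r = 2 * K2 * CY * (K * (1 + K) * r) + 2 * K2 * C6 * cst ν * r +
            ν * C4 * (K * (1 + K) * r) := by rw [hC]; ring
        have h7 : 0 ≤ ν * C4 * (K * (1 + K) * r) := by positivity
        rcases le_total 0 G with hG0 | hG0
        · have : max G 0 = G := max_eq_left hG0
          rw [this] at hM
          linarith
        · have : max G 0 = 0 := max_eq_right hG0
          rw [this] at hM
          linarith
      · push Not at hcase
        have h1 : cst ν * r ^ 2 ≤ ν * a / 64 := by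
          have h2 : 64 * cst ν / ν ≤ K := by rw [hK]; linarith
          have h3 : 64 * cst ν / ν * r ^ 2 ≤ a := by
            calc 64 * cst ν / ν * r ^ 2 ≤ K * r ^ 2 := by gcongr
              _ ≤ a := hcase.le
          have h5 : ν * (64 * cst ν / ν * r ^ 2) ≤ ν * a := by gcongr
          have h6 : ν * (64 * cst ν / ν * r ^ 2) = 64 * (cst ν * r ^ 2) := by field_simp
          linarith
        have h2 : ν * (a / 32) ≤ ν * T := by gcongr
        have hG1 : ν * a / 64 ≤ G := by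
          have : G = r ^ 4 * lam (UV V) + ν * T - cst ν * r ^ 2 := hG
          linarith
        have hG0 : 0 ≤ G := le_trans (by positivity) hG1
        have h3 : max G 0 = G := max_eq_left hG0
        rw [h3] at hM
        have h5 : 2 * K2 * CY * Y ≤ G / 4 := by
          have h6 : 512 * K2 * CY / ν ≤ N := le_max_right _ _
          have h7 : 2 * K2 * CY * Y ≤ 2 * K2 * CY * (a / N) := by gcongr
          have h8 : 2 * K2 * CY * (a / N) ≤ ν * a / 256 := by
            rw [div_le_iff₀ hν] at h6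
            rw [← mul_div_assoc, div_le_div_iff₀ hNpos (by norm_num)]
            have : 2 * K2 * CY * a * 256 = (512 * K2 * CY) * a := by ring
            rw [this]
            calc 512 * K2 * CY * a ≤ (N * ν) * a := by gcongr
              _ = _ := by ring
          linarith
        have h7 : 2 * K2 * C6 * cst ν ≤ C * r := by
          have h8 : 2 * K2 * C6 * cst ν ≤ C := by
            rw [hC]
            have p1 : 0 ≤ 2 * K2 * CY * (K * (1 + K)) := by positivity
            have p2 : 0 ≤ ν * C4 * (K * (1 + K)) := by positivity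
            linarith
          have h9 : 0 ≤ 2 * K2 * C6 * cst ν := by positivity
          nlinarith
        linarith
    have hGdef : G = r ^ 4 * lam (UV V) + ν * T - cst ν * r ^ 2 := hG
    linarith

end Pool.Agent.BSv
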