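import Pool.Agent.BSv.Lam

/-!
# Module CNT: bounded overlap

A point lies in at most `8 · 8 = 64` of the closed blocks `bl7 k i j` (fixed `k`), and in at most
`22 · 22 = 484` of the squares `sq (i - 10) (j - 10) 21`; `∫ gr2 v = 2 en v`.
(`∑_c ∫_{B_c} g = ∫ (∑_c 1_{B_c}) g ≤ 64 ∫ g` for `g ≥ 0` integrable.)
-/

open MeasureTheory Set Filter Topology
open scoped ENNReal NNReal ContDiff

noncomputable section

namespace Pool.Agent.BSv

private theorem Cnt_gen {S : Finset (ℤ × ℤ)} {B : ℤ × ℤ → Set Pl}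
    (hB : ∀ c, MeasurableSet (B c)) {g : Pl → ℝ} (hg : Integrable g) (hg0 : ∀ p, 0 ≤ g p)
    (n : ℕ) (m : ℝ → ℤ)
    (hm : ∀ c p, p ∈ B c → c.1 ∈ Finset.Icc (m p.1) (m p.1 + n) ∧
      c.2 ∈ Finset.Icc (m p.2) (m p.2 + n)) :
    ∑ c ∈ S, ∫ p in B c, g p ≤ ((n : ℝ) + 1) ^ 2 * ∫ p, g p := by
  classical
  have h1 : ∀ c ∈ S, Integrable ((B c).indicator g) := fun c _ => hg.indicator (hB c)
  calc ∑ c ∈ S, ∫ p in B c, g p = ∑ c ∈ S, ∫ p, (B c).indicator g p :=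
        Finset.sum_congr rfl fun c _ => (integral_indicator (hB c)).symm
    _ = ∫ p, ∑ c ∈ S, (B c).indicator g p := (integral_finsetSum S h1).symm
    _ ≤ ∫ p, ((n : ℝ) + 1) ^ 2 * g p := by
        refine integral_mono (integrable_finsetSum S h1) (hg.const_mul _) fun p => ?_
        show ∑ c ∈ S, (B c).indicator g p ≤ ((n : ℝ) + 1) ^ 2 * g p
        have h2 : ∑ c ∈ S, (B c).indicator g p = ((S.filter fun c => p ∈ B c).card : ℝ) * g p := by
          rw [← nsmul_eq_mul, ← Finset.sum_const, Finset.sum_filter]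
          exact Finset.sum_congr rfl fun c _ => by rw [Set.indicator_apply]
        rw [h2]
        refine mul_le_mul_of_nonneg_right ?_ (hg0 p)
        have h3 : (S.filter fun c => p ∈ B c) ⊆
            Finset.Icc (m p.1) (m p.1 + n) ×ˢ Finset.Icc (m p.2) (m p.2 + n) := by
          intro c hc
          rw [Finset.mem_product]
          exact hm c p (Finset.mem_filter.1 hc).2
        have h4 := Finset.card_le_card h3
        rw [Finset.card_product, Int.card_Icc, Int.card_Icc] at h4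
        have h5 : (m p.1 + (n : ℤ) + 1 - m p.1).toNat = n + 1 := by omega
        have h6 : (m p.2 + (n : ℤ) + 1 - m p.2).toNat = n + 1 := by omega
        rw [h5, h6] at h4
        calc ((S.filter fun c => p ∈ B c).card : ℝ) ≤ (((n + 1) * (n + 1) : ℕ) : ℝ) := by
              exact_mod_cast h4
          _ = ((n : ℝ) + 1) ^ 2 := by push_cast; ring
    _ = ((n : ℝ) + 1) ^ 2 * ∫ p, g p := integral_const_mul _ _

private theorem Cnt_sq (x y L : ℝ) : MeasurableSet (sq x y L) :=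
  measurableSet_Icc.prod measurableSet_Icc

private theorem Cnt_gr2 (f : Pl → ℝ) (p : Pl) : 0 ≤ gr2 f p := by
  unfold gr2
  positivity

theorem overlap7 (k : ℕ) (S : Finset (ℤ × ℤ)) {U : Set Pl} {v : Pl → ℝ} (hv : CC U v) :
    ∑ c ∈ S, ∫ p in bl7 k c.1 c.2, gr2 v p ≤ 128 * en v := by
  have h2k : (0 : ℝ) < 2 ^ k := by positivity
  have key : ∀ (i : ℤ) (u : ℝ), ((i : ℝ) - 3) * 2 ^ k ≤ u → u ≤ ((i : ℝ) - 3) * 2 ^ k + 7 * 2 ^ k →
      i ∈ Finset.Icc ⌈u / 2 ^ k - 4⌉ (⌈u / 2 ^ k - 4⌉ + (7 : ℕ)) := by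
    intro i u h1 h2
    rw [Finset.mem_Icc]
    have h3 : (i : ℝ) - 3 ≤ u / 2 ^ k := by rwa [le_div_iff₀ h2k]
    have h4 : u / 2 ^ k ≤ (i : ℝ) + 4 := by
      rw [div_le_iff₀ h2k]
      linarith
    constructor
    · rw [Int.ceil_le]
      linarith
    · have h5 := Int.le_ceil (u / 2 ^ k - 4)
      have h6 : (i : ℝ) ≤ ((⌈u / 2 ^ k - 4⌉ + (7 : ℕ) : ℤ) : ℝ) := by
        push_cast
        linarith
      exact_mod_cast h6
  have h1 := Cnt_gen (S := S) (B := fun c => bl7 k c.1 c.2) (fun c => Cnt_sq _ _ _)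
    hv.integrable_gr2 (Cnt_gr2 v) 7 (fun u => ⌈u / 2 ^ k - 4⌉) (fun c p hp => by
      have h2 : p ∈ sq (((c.1 : ℝ) - 3) * 2 ^ k) (((c.2 : ℝ) - 3) * 2 ^ k) (7 * 2 ^ k) := hp
      unfold sq at h2
      rw [Set.mem_prod, Set.mem_Icc, Set.mem_Icc] at h2
      exact ⟨key _ _ h2.1.1 h2.1.2, key _ _ h2.2.1 h2.2.2⟩)
  refine h1.trans (le_of_eq ?_)
  unfold en
  push_cast
  ring

theorem overlap21 (S : Finset (ℤ × ℤ)) {U : Set Pl} {v : Pl → ℝ} (hv : CC U v) :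
    ∑ c ∈ S, ∫ p in sq ((c.1 : ℝ) - 10) ((c.2 : ℝ) - 10) 21, gr2 v p ≤ 1000 * en v := by
  have key : ∀ (i : ℤ) (u : ℝ), (i : ℝ) - 10 ≤ u → u ≤ (i : ℝ) - 10 + 21 →
      i ∈ Finset.Icc ⌈u - 11⌉ (⌈u - 11⌉ + (21 : ℕ)) := by
    intro i u h1 h2
    rw [Finset.mem_Icc]
    constructor
    · rw [Int.ceil_le]
      linarith
    · have h5 := Int.le_ceil (u - 11)
      have h6 : (i : ℝ) ≤ ((⌈u - 11⌉ + (21 : ℕ) : ℤ) : ℝ) := by
        push_cast
        linarith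
      exact_mod_cast h6
  have h1 := Cnt_gen (S := S) (B := fun c => sq ((c.1 : ℝ) - 10) ((c.2 : ℝ) - 10) 21)
    (fun c => Cnt_sq _ _ _)
    hv.integrable_gr2 (Cnt_gr2 v) 21 (fun u => ⌈u - 11⌉) (fun c p hp => by
      have h2 : p ∈ sq ((c.1 : ℝ) - 10) ((c.2 : ℝ) - 10) 21 := hp
      unfold sq at h2
      rw [Set.mem_prod, Set.mem_Icc, Set.mem_Icc] at h2
      exact ⟨key _ _ h2.1.1 h2.1.2, key _ _ h2.2.1 h2.2.2⟩)
  refine h1.trans ?_
  have h0 : 0 ≤ ∫ p, gr2 v p := integral_nonneg fun p => Cnt_gr2 v p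
  unfold en
  push_cast
  linarith

end Pool.Agent.BSv
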