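import Pool.Agent.BSv.Cap

/-!
# Module CROSS: connected sets crossing a square

`crossing`: `D` open connected, `v ≥ α` on `D`, `D` meets `Q = sq x y l` but is not contained in the
tripled square `3Q = sq (x-l) (y-l) (3 l)`.  Then there is a measurable `S ⊆ 3Q` with
`vol S = 3 l²` and `∫_S v ≥ 3 l² α - 6 l² √(∫_{3Q} gr2 v)`.

PROOF.  One of the intervals `[x-l,x]`, `[x+l,x+2l]` (first coordinate) or `[y-l,y]`, `[y+l,y+2l]`
(second coordinate), call it `I`, has the property that for every `t ∈ I` there is a point of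
`D ∩ 3Q` with that coordinate equal to `t`: otherwise there are four exceptional values, which bound
a rectangle between `Q` and `3Q` whose boundary does not meet `D`, and the open rectangle and the
complement of the closed one separate `D`.
Say first coordinate, `S = I × [y-l,y+2l]`.  For `t ∈ I` and every
`z ∈ [y-l,y+2l]`: `v (t,z) ≥ α - ∫_{[y-l,y+2l]} |dy v (t,·)|`.  Integrate over `z` and `t`:
`∫_S v ≥ 3 l² α - 3 l ∫_S |dy v| ≥ 3 l² α - 3 l √(3 l²) √(∫_{3Q} gr2 v)`, and `3 √3 ≤ 6`.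

`cross0`: take `l = 7`, `R = 3Q` (side 21), `B ⊆ R` with `v = 0` on `B`: with `m` the average of `v`
over `R`: `avg_diff` (S and R): `|avg_S - m|² · 147 ≤ 2 · 441 ∫ gr2 v`, `poinc`/`avg_diff` for `B`:
`m² vol B ≤ 2 · 441 ∫ gr2 v`; `vol B ≤ 441`; hence `α² vol B ≤ C ∫_R gr2 v`.

`cross`: the same with the obstacle `c` in the 7 by 7 block: `cap7` bounds the average of `v` over
`bl7`, `avg_diff` compares it with the average over `S ⊆ bl3 ⊆ bl7`.
-/

open MeasureTheory Set Filter Topology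
open scoped ENNReal NNReal ContDiff

noncomputable section

namespace Pool.Agent.BSv

private theorem Cross_cont_dx {v : Pl → ℝ} (hv : ContDiff ℝ 1 v) : Continuous (dx v) :=
  (hv.continuous_fderiv one_ne_zero).clm_apply continuous_const

private theorem Cross_cont_dy {v : Pl → ℝ} (hv : ContDiff ℝ 1 v) : Continuous (dy v) :=
  (hv.continuous_fderiv one_ne_zero).clm_apply continuous_const

private theorem Cross_cont_gr2 {v : Pl → ℝ} (hv : ContDiff ℝ 1 v) : Continuous (gr2 v) :=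
  ((Cross_cont_dx hv).pow 2).add ((Cross_cont_dy hv).pow 2)

private theorem Cross_gr2_nonneg (v : Pl → ℝ) (p : Pl) : 0 ≤ gr2 v p := by
  unfold gr2; positivity

private theorem Cross_compact (a b c d : ℝ) : IsCompact (Icc a b ×ˢ Icc c d : Set Pl) :=
  isCompact_Icc.prod isCompact_Icc

private theorem Cross_meas (a b c d : ℝ) : MeasurableSet (Icc a b ×ˢ Icc c d : Set Pl) :=
  measurableSet_Icc.prod measurableSet_Icc

private theorem Cross_vol {a b c d : ℝ} (hab : a ≤ b) (hcd : c ≤ d) :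
    vol (Icc a b ×ˢ Icc c d : Set Pl) = (b - a) * (d - c) := by
  unfold vol
  rw [Measure.volume_eq_prod, Measure.prod_prod, Real.volume_Icc, Real.volume_Icc,
    ENNReal.toReal_mul, ENNReal.toReal_ofReal (by linarith), ENNReal.toReal_ofReal (by linarith)]

private theorem Cross_ftc {v : Pl → ℝ} (hv : ContDiff ℝ 1 v) {c d : ℝ} (t : ℝ) {z z0 : ℝ}
    (hz : z ∈ Icc c d) (hz0 : z0 ∈ Icc c d) :
    v (t, z0) - ∫ s in Icc c d, |dy v (t, s)| ≤ v (t, z) := by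
  have hder : ∀ s : ℝ, HasDerivAt (fun s => v (t, s)) (dy v (t, s)) s := by
    intro s
    have h1 : HasFDerivAt v (fderiv ℝ v (t, s)) (t, s) :=
      (hv.differentiable one_ne_zero (t, s)).hasFDerivAt
    have h2 : HasDerivAt (fun s : ℝ => ((t, s) : Pl)) (0, 1) s :=
      (hasDerivAt_const s t).prodMk (hasDerivAt_id s)
    exact h1.comp_hasDerivAt s h2
  have hcont : Continuous (fun s => dy v (t, s)) :=
    (Cross_cont_dy hv).comp (by fun_prop)
  have h1 : ∫ s in z0..z, dy v (t, s) = v (t, z) - v (t, z0) :=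
    intervalIntegral.integral_eq_sub_of_hasDerivAt (fun s _ => hder s)
      (hcont.intervalIntegrable _ _)
  have h2 : ‖∫ s in z0..z, dy v (t, s)‖ ≤ ∫ s in uIoc z0 z, ‖dy v (t, s)‖ :=
    intervalIntegral.norm_integral_le_integral_norm_uIoc
  have h3 : ∫ s in uIoc z0 z, ‖dy v (t, s)‖ ≤ ∫ s in Icc c d, ‖dy v (t, s)‖ := by
    apply setIntegral_mono_set
    · exact hcont.norm.continuousOn.integrableOn_compact isCompact_Icc
    · exact Eventually.of_forall fun s => norm_nonneg _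
    · apply LE.le.eventuallyLE
      refine uIoc_subset_uIcc.trans ?_
      exact uIcc_subset_Icc hz0 hz
  have h4 : ∫ s in Icc c d, ‖dy v (t, s)‖ = ∫ s in Icc c d, |dy v (t, s)| := rfl
  rw [h1, Real.norm_eq_abs] at h2
  have := neg_abs_le (v (t, z) - v (t, z0))
  linarith

private theorem Cross_strip {v : Pl → ℝ} (hv : ContDiff ℝ 1 v) {a b c d α : ℝ} (hab : a ≤ b)
    (hcd : c ≤ d) (h : ∀ t ∈ Icc a b, ∃ z0 ∈ Icc c d, α ≤ v (t, z0)) :
    (b - a) * (d - c) * α - (d - c) * ∫ p in Icc a b ×ˢ Icc c d, |dy v p| ≤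
      ∫ p in Icc a b ×ˢ Icc c d, v p := by
  have hi1 : IntegrableOn v (Icc a b ×ˢ Icc c d) :=
    hv.continuous.continuousOn.integrableOn_compact (Cross_compact a b c d)
  have hi2 : IntegrableOn (fun p => |dy v p|) (Icc a b ×ˢ Icc c d) :=
    (Cross_cont_dy hv).abs.continuousOn.integrableOn_compact (Cross_compact a b c d)
  have e1 : ∫ p in Icc a b ×ˢ Icc c d, v p = ∫ t in Icc a b, ∫ z in Icc c d, v (t, z) := by
    rw [Measure.volume_eq_prod] at hi1 ⊢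
    exact setIntegral_prod _ hi1
  have e2 : ∫ p in Icc a b ×ˢ Icc c d, |dy v p| =
      ∫ t in Icc a b, ∫ z in Icc c d, |dy v (t, z)| := by
    rw [Measure.volume_eq_prod] at hi2 ⊢
    exact setIntegral_prod _ hi2
  have i1 : IntegrableOn (fun t => ∫ z in Icc c d, v (t, z)) (Icc a b) := by
    have h1 : Integrable v ((volume.restrict (Icc a b)).prod (volume.restrict (Icc c d))) := by
      rw [Measure.prod_restrict]; exact hi1
    exact h1.integral_prod_left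
  have i2 : IntegrableOn (fun t => ∫ z in Icc c d, |dy v (t, z)|) (Icc a b) := by
    have h1 : Integrable (fun p => |dy v p|)
        ((volume.restrict (Icc a b)).prod (volume.restrict (Icc c d))) := by
      rw [Measure.prod_restrict]; exact hi2
    exact h1.integral_prod_left
  have hK : ∀ t ∈ Icc a b, (d - c) * (α - ∫ z in Icc c d, |dy v (t, z)|) ≤
      ∫ z in Icc c d, v (t, z) := by
    intro t ht
    obtain ⟨z0, hz0, hα⟩ := h t ht
    have h1 : ∫ _z in Icc c d, (α - ∫ z in Icc c d, |dy v (t, z)|) ≤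
        ∫ z in Icc c d, v (t, z) := by
      apply setIntegral_mono_on
      · exact continuousOn_const.integrableOn_compact isCompact_Icc
      · exact (hv.continuous.comp (by fun_prop : Continuous fun z : ℝ => ((t, z) : Pl))
          ).continuousOn.integrableOn_compact isCompact_Icc
      · exact measurableSet_Icc
      · intro z hz
        have := Cross_ftc hv t hz hz0
        linarith
    rw [setIntegral_const, smul_eq_mul, Measure.real, Real.volume_Icc,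
      ENNReal.toReal_ofReal (by linarith)] at h1
    exact h1
  have h2 : ∫ t in Icc a b, (d - c) * (α - ∫ z in Icc c d, |dy v (t, z)|) ≤
      ∫ t in Icc a b, ∫ z in Icc c d, v (t, z) := by
    apply setIntegral_mono_on _ i1 measurableSet_Icc hK
    exact ((continuousOn_const.integrableOn_compact isCompact_Icc).sub i2).const_mul _
  have h3 : ∫ t in Icc a b, (d - c) * (α - ∫ z in Icc c d, |dy v (t, z)|) =
      (b - a) * (d - c) * α - (d - c) * ∫ p in Icc a b ×ˢ Icc c d, |dy v p| := by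
    rw [integral_const_mul, integral_sub (continuousOn_const.integrableOn_compact isCompact_Icc) i2,
      setIntegral_const, smul_eq_mul, Measure.real, Real.volume_Icc,
      ENNReal.toReal_ofReal (by linarith), e2]
    ring
  rw [e1, ← h3]
  exact h2

/-- Cauchy-Schwarz on a rectangle of positive area -/
private theorem Cross_cs {g : Pl → ℝ} (hg : Continuous g) {a b c d : ℝ} (hab : a < b)
    (hcd : c < d) :
    (∫ p in Icc a b ×ˢ Icc c d, g p) ^ 2 ≤
      ((b - a) * (d - c)) * ∫ p in Icc a b ×ˢ Icc c d, g p ^ 2 := by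
  set S : Set Pl := Icc a b ×ˢ Icc c d with hS
  have hV : volume.real S = (b - a) * (d - c) := Cross_vol hab.le hcd.le
  set V := (b - a) * (d - c) with hVd
  have hVpos : 0 < V := mul_pos (by linarith) (by linarith)
  have hi1 : IntegrableOn g S := hg.continuousOn.integrableOn_compact (Cross_compact a b c d)
  have hi2 : IntegrableOn (fun p => g p ^ 2) S :=
    (hg.pow 2).continuousOn.integrableOn_compact (Cross_compact a b c d)
  set A := ∫ p in S, g p with hA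
  have h0 : 0 ≤ ∫ p in S, (g p - A / V) ^ 2 := integral_nonneg fun p => sq_nonneg _
  have h1 : ∫ p in S, (g p - A / V) ^ 2 = (∫ p in S, g p ^ 2) - A ^ 2 / V := by
    have e : ∀ p, (g p - A / V) ^ 2 = (g p ^ 2 - 2 * (A / V) * g p) + (A / V) ^ 2 := by
      intro p; ring
    simp_rw [e]
    have i3 : IntegrableOn (fun p => 2 * (A / V) * g p) S := hi1.const_mul _
    have i4 : IntegrableOn (fun p => g p ^ 2 - 2 * (A / V) * g p) S := hi2.sub i3
    have i5 : IntegrableOn (fun _ : Pl => (A / V) ^ 2) S :=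
      continuousOn_const.integrableOn_compact (Cross_compact a b c d)
    rw [integral_add i4 i5, integral_sub hi2 i3, integral_const_mul, setIntegral_const,
      smul_eq_mul, hV, ← hA]
    field_simp
    ring
  rw [h1] at h0
  have h2 : A ^ 2 / V ≤ ∫ p in S, g p ^ 2 := by linarith
  rw [div_le_iff₀ hVpos] at h2
  linarith

private theorem Cross_fin {α I J E l : ℝ} (hl : 0 < l) (hE : 0 ≤ E) (hJ : J ^ 2 ≤ l * (3 * l) * E)
    (h : l * (3 * l) * α - 3 * l * J ≤ I) : 3 * l ^ 2 * α - 6 * l ^ 2 * √E ≤ I := by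
  have h1 : J ≤ 2 * l * √E := by
    refine le_of_abs_le (abs_le_of_sq_le_sq ?_ (by positivity))
    rw [mul_pow, mul_pow, Real.sq_sqrt hE]
    nlinarith [mul_nonneg (sq_nonneg l) hE]
  have h2 : 3 * l * J ≤ 3 * l * (2 * l * √E) := mul_le_mul_of_nonneg_left h1 (by positivity)
  nlinarith

private theorem Cross_vert {v : Pl → ℝ} (hv : ContDiff ℝ 1 v) {a b c d α l : ℝ} (hl : 0 < l)
    (hab : b - a = l) (hcd : d - c = 3 * l) {R : Set Pl} (hR : IsCompact R)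
    (hSR : Icc a b ×ˢ Icc c d ⊆ R) (h : ∀ t ∈ Icc a b, ∃ z0 ∈ Icc c d, α ≤ v (t, z0)) :
    3 * l ^ 2 * α - 6 * l ^ 2 * √(∫ p in R, gr2 v p) ≤ ∫ p in Icc a b ×ˢ Icc c d, v p := by
  have hE : 0 ≤ ∫ p in R, gr2 v p := integral_nonneg fun p => Cross_gr2_nonneg v p
  have h1 := Cross_strip hv (by linarith : a ≤ b) (by linarith : c ≤ d) h
  have h2 := Cross_cs (Cross_cont_dy hv).abs (by linarith : a < b) (by linarith : c < d)
  rw [hab, hcd] at h1 h2
  refine Cross_fin hl hE (h2.trans ?_) h1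
  apply mul_le_mul_of_nonneg_left _ (by positivity)
  have h3 : ∫ p in Icc a b ×ˢ Icc c d, |dy v p| ^ 2 ≤ ∫ p in Icc a b ×ˢ Icc c d, gr2 v p := by
    apply setIntegral_mono
    · exact ((Cross_cont_dy hv).abs.pow 2).continuousOn.integrableOn_compact
        (Cross_compact a b c d)
    · exact (Cross_cont_gr2 hv).continuousOn.integrableOn_compact (Cross_compact a b c d)
    · intro p
      show |dy v p| ^ 2 ≤ gr2 v p
      rw [sq_abs]
      unfold gr2
      nlinarith [sq_nonneg (dx v p)]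
  refine h3.trans ?_
  apply setIntegral_mono_set
  · exact (Cross_cont_gr2 hv).continuousOn.integrableOn_compact hR
  · exact Eventually.of_forall fun p => Cross_gr2_nonneg v p
  · exact LE.le.eventuallyLE hSR

private theorem Cross_swap_int (g : Pl → ℝ) (R : Set Pl) :
    ∫ p in Prod.swap ⁻¹' R, g p.swap = ∫ p in R, g p := by
  have h1 : MeasurePreserving (Prod.swap : ℝ × ℝ → ℝ × ℝ) volume volume := by
    rw [Measure.volume_eq_prod]
    exact Measure.measurePreserving_swap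
  exact h1.setIntegral_preimage_emb MeasurableEquiv.prodComm.measurableEmbedding g R

private theorem Cross_swap_gr2 {v : Pl → ℝ} (hv : ContDiff ℝ 1 v) (p : Pl) :
    gr2 (fun q => v q.swap) p = gr2 v p.swap := by
  have h1 : HasFDerivAt (fun q : Pl => v q.swap)
      ((fderiv ℝ v p.swap).comp
        ((ContinuousLinearMap.snd ℝ ℝ ℝ).prod (ContinuousLinearMap.fst ℝ ℝ ℝ))) p := by
    have h2 : HasFDerivAt (fun q : Pl => q.swap)
        ((ContinuousLinearMap.snd ℝ ℝ ℝ).prod (ContinuousLinearMap.fst ℝ ℝ ℝ)) p :=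
      (hasFDerivAt_snd (𝕜 := ℝ) (p := p)).prodMk (hasFDerivAt_fst (𝕜 := ℝ) (p := p))
    exact (hv.differentiable one_ne_zero p.swap).hasFDerivAt.comp p h2
  simp only [gr2, dx, dy]
  rw [h1.fderiv]
  simp
  ring

private theorem Cross_horiz {v : Pl → ℝ} (hv : ContDiff ℝ 1 v) {a b c d α l : ℝ} (hl : 0 < l)
    (hab : d - c = l) (hcd : b - a = 3 * l) {R : Set Pl} (hR : IsCompact R)
    (hSR : Icc a b ×ˢ Icc c d ⊆ R) (h : ∀ t ∈ Icc c d, ∃ z0 ∈ Icc a b, α ≤ v (z0, t)) :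
    3 * l ^ 2 * α - 6 * l ^ 2 * √(∫ p in R, gr2 v p) ≤ ∫ p in Icc a b ×ˢ Icc c d, v p := by
  have hv' : ContDiff ℝ 1 (fun q : Pl => v q.swap) := hv.comp (contDiff_snd.prodMk contDiff_fst)
  have hR' : IsCompact (Prod.swap ⁻¹' R : Set Pl) := by
    have := (Homeomorph.prodComm ℝ ℝ).isCompact_preimage (s := R)
    exact this.mpr hR
  have key := Cross_vert hv' (a := c) (b := d) (c := a) (d := b) (α := α) hl hab hcd hR'
    (by
      intro p hp
      exact hSR ⟨hp.2, hp.1⟩)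
    (by
      intro t ht
      obtain ⟨z, hz, hα⟩ := h t ht
      exact ⟨z, hz, hα⟩)
  simp_rw [Cross_swap_gr2 hv] at key
  rw [Cross_swap_int (fun p => gr2 v p) R] at key
  have h3 : ∫ p in Icc c d ×ˢ Icc a b, v p.swap = ∫ p in Icc a b ×ˢ Icc c d, v p := by
    rw [← Cross_swap_int v (Icc a b ×ˢ Icc c d)]
    congr 2
    ext p
    simp only [mem_prod, mem_preimage, Prod.fst_swap, Prod.snd_swap]
    tauto
  rw [h3] at key
  exact key

theorem crossing {D : Set Pl} (hD : IsOpen D) (hDc : IsConnected D) {x y l : ℝ} (hl : 0 < l)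
    (h1 : (D ∩ sq x y l).Nonempty) (h2 : ¬ D ⊆ sq (x - l) (y - l) (3 * l))
    {v : Pl → ℝ} (hv : ContDiff ℝ 1 v) {α : ℝ} (hα : ∀ p ∈ D, α ≤ v p) :
    ∃ S : Set Pl, MeasurableSet S ∧ S ⊆ sq (x - l) (y - l) (3 * l) ∧ vol S = 3 * l ^ 2 ∧
      3 * l ^ 2 * α - 6 * l ^ 2 * √(∫ p in sq (x - l) (y - l) (3 * l), gr2 v p) ≤ ∫ p in S, v p := by
  have hR : IsCompact (sq (x - l) (y - l) (3 * l)) := Cross_compact _ _ _ _
  have vert : ∀ a : ℝ, x - l ≤ a → a ≤ x + l →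
      (∀ t ∈ Icc a (a + l), ∃ z ∈ Icc (y - l) (y - l + 3 * l), (t, z) ∈ D) →
      ∃ S : Set Pl, MeasurableSet S ∧ S ⊆ sq (x - l) (y - l) (3 * l) ∧ vol S = 3 * l ^ 2 ∧
      3 * l ^ 2 * α - 6 * l ^ 2 * √(∫ p in sq (x - l) (y - l) (3 * l), gr2 v p) ≤
        ∫ p in S, v p := by
    intro a ha1 ha2 hP
    have hsub : Icc a (a + l) ×ˢ Icc (y - l) (y - l + 3 * l) ⊆ sq (x - l) (y - l) (3 * l) := by
      intro p hp
      exact ⟨⟨by linarith [hp.1.1], by linarith [hp.1.2]⟩, hp.2⟩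
    refine ⟨Icc a (a + l) ×ˢ Icc (y - l) (y - l + 3 * l), Cross_meas _ _ _ _, hsub, ?_, ?_⟩
    · rw [Cross_vol (by linarith) (by linarith)]; ring
    · exact Cross_vert hv hl (by ring) (by ring) hR hsub (fun t ht => by
        obtain ⟨z, hz, hzD⟩ := hP t ht
        exact ⟨z, hz, hα _ hzD⟩)
  have horiz : ∀ c : ℝ, y - l ≤ c → c ≤ y + l →
      (∀ t ∈ Icc c (c + l), ∃ z ∈ Icc (x - l) (x - l + 3 * l), (z, t) ∈ D) →
      ∃ S : Set Pl, MeasurableSet S ∧ S ⊆ sq (x - l) (y - l) (3 * l) ∧ vol S = 3 * l ^ 2 ∧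
      3 * l ^ 2 * α - 6 * l ^ 2 * √(∫ p in sq (x - l) (y - l) (3 * l), gr2 v p) ≤
        ∫ p in S, v p := by
    intro a ha1 ha2 hP
    have hsub : Icc (x - l) (x - l + 3 * l) ×ˢ Icc a (a + l) ⊆ sq (x - l) (y - l) (3 * l) := by
      intro p hp
      exact ⟨hp.1, ⟨by linarith [hp.2.1], by linarith [hp.2.2]⟩⟩
    refine ⟨Icc (x - l) (x - l + 3 * l) ×ˢ Icc a (a + l), Cross_meas _ _ _ _, hsub, ?_, ?_⟩
    · rw [Cross_vol (by linarith) (by linarith)]; ring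
    · exact Cross_horiz hv hl (by ring) (by ring) hR hsub (fun t ht => by
        obtain ⟨z, hz, hzD⟩ := hP t ht
        exact ⟨z, hz, hα _ hzD⟩)
  by_contra hcon
  have f1 : ∃ t ∈ Icc (x - l) (x - l + l), ∀ z ∈ Icc (y - l) (y - l + 3 * l), (t, z) ∉ D := by
    by_contra h
    push Not at h
    exact hcon (vert (x - l) le_rfl (by linarith) h)
  have f2 : ∃ t ∈ Icc (x + l) (x + l + l), ∀ z ∈ Icc (y - l) (y - l + 3 * l), (t, z) ∉ D := by
    by_contra h
    push Not at h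
    exact hcon (vert (x + l) (by linarith) le_rfl h)
  have f3 : ∃ t ∈ Icc (y - l) (y - l + l), ∀ z ∈ Icc (x - l) (x - l + 3 * l), (z, t) ∉ D := by
    by_contra h
    push Not at h
    exact hcon (horiz (y - l) le_rfl (by linarith) h)
  have f4 : ∃ t ∈ Icc (y + l) (y + l + l), ∀ z ∈ Icc (x - l) (x - l + 3 * l), (z, t) ∉ D := by
    by_contra h
    push Not at h
    exact hcon (horiz (y + l) (by linarith) le_rfl h)
  obtain ⟨t1, ht1, g1⟩ := f1
  obtain ⟨t2, ht2, g2⟩ := f2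
  obtain ⟨t3, ht3, g3⟩ := f3
  obtain ⟨t4, ht4, g4⟩ := f4
  have hU : IsOpen (Ioo t1 t2 ×ˢ Ioo t3 t4 : Set Pl) := isOpen_Ioo.prod isOpen_Ioo
  have hW : IsOpen ((Icc t1 t2 ×ˢ Icc t3 t4 : Set Pl)ᶜ) :=
    (isClosed_Icc.prod isClosed_Icc).isOpen_compl
  have hb : ∀ p ∈ D, p ∈ (Icc t1 t2 ×ˢ Icc t3 t4 : Set Pl) → p ∈ (Ioo t1 t2 ×ˢ Ioo t3 t4 : Set Pl) := by
    intro p hp hpc
    have e1 : p.1 ≠ t1 := by
      intro h
      apply g1 p.2 ⟨by linarith [hpc.2.1, ht3.1], by linarith [hpc.2.2, ht4.2]⟩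
      rw [← h]; exact hp
    have e2 : p.1 ≠ t2 := by
      intro h
      apply g2 p.2 ⟨by linarith [hpc.2.1, ht3.1], by linarith [hpc.2.2, ht4.2]⟩
      rw [← h]; exact hp
    have e3 : p.2 ≠ t3 := by
      intro h
      apply g3 p.1 ⟨by linarith [hpc.1.1, ht1.1], by linarith [hpc.1.2, ht2.2]⟩
      rw [← h]; exact hp
    have e4 : p.2 ≠ t4 := by
      intro h
      apply g4 p.1 ⟨by linarith [hpc.1.1, ht1.1], by linarith [hpc.1.2, ht2.2]⟩
      rw [← h]; exact hp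
    exact ⟨⟨lt_of_le_of_ne hpc.1.1 (Ne.symm e1), lt_of_le_of_ne hpc.1.2 e2⟩,
      ⟨lt_of_le_of_ne hpc.2.1 (Ne.symm e3), lt_of_le_of_ne hpc.2.2 e4⟩⟩
  have hcov : D ⊆ (Ioo t1 t2 ×ˢ Ioo t3 t4 : Set Pl) ∪ (Icc t1 t2 ×ˢ Icc t3 t4 : Set Pl)ᶜ := by
    intro p hp
    by_cases hpc : p ∈ (Icc t1 t2 ×ˢ Icc t3 t4 : Set Pl)
    · exact Or.inl (hb p hp hpc)
    · exact Or.inr hpc
  have hn1 : (D ∩ (Ioo t1 t2 ×ˢ Ioo t3 t4 : Set Pl)).Nonempty := by
    obtain ⟨p, hp, hpQ⟩ := h1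
    refine ⟨p, hp, hb p hp ?_⟩
    exact ⟨⟨by linarith [hpQ.1.1, ht1.2], by linarith [hpQ.1.2, ht2.1]⟩,
      ⟨by linarith [hpQ.2.1, ht3.2], by linarith [hpQ.2.2, ht4.1]⟩⟩
  have hn2 : (D ∩ (Icc t1 t2 ×ˢ Icc t3 t4 : Set Pl)ᶜ).Nonempty := by
    rw [not_subset] at h2
    obtain ⟨p, hp, hpQ⟩ := h2
    refine ⟨p, hp, fun hpc => hpQ ?_⟩
    exact ⟨⟨by linarith [hpc.1.1, ht1.1], by linarith [hpc.1.2, ht2.2]⟩,
      ⟨by linarith [hpc.2.1, ht3.1], by linarith [hpc.2.2, ht4.2]⟩⟩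
  obtain ⟨p, _, hpU, hpW⟩ := hDc.isPreconnected _ _ hU hW hcov hn1 hn2
  exact hpW ⟨⟨hpU.1.1.le, hpU.1.2.le⟩, ⟨hpU.2.1.le, hpU.2.2.le⟩⟩

private theorem Cross_mono {v : Pl → ℝ} (hv : ContDiff ℝ 1 v) {R R' : Set Pl}
    (hR' : IsCompact R') (h : R ⊆ R') : ∫ p in R, gr2 v p ≤ ∫ p in R', gr2 v p := by
  apply setIntegral_mono_set
  · exact (Cross_cont_gr2 hv).continuousOn.integrableOn_compact hR'
  · exact Eventually.of_forall fun p => Cross_gr2_nonneg v p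
  · exact LE.le.eventuallyLE h

private theorem Cross_three {α A m s : ℝ} (hα : 0 ≤ α) (h : α ≤ A + 2 * s) :
    α ^ 2 ≤ 3 * ((A - m) ^ 2 + m ^ 2 + 4 * s ^ 2) := by
  have h1 : α ^ 2 ≤ (A + 2 * s) ^ 2 := pow_le_pow_left₀ hα h 2
  nlinarith [sq_nonneg (A - m - m), sq_nonneg (m - 2 * s), sq_nonneg (A - m - 2 * s)]

theorem cross0 : ∃ C : ℝ, 0 < C ∧ ∀ (D : Set Pl), IsOpen D → IsConnected D → ∀ x y : ℝ,
    (D ∩ sq x y 7).Nonempty → ¬ D ⊆ sq (x - 7) (y - 7) 21 →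
    ∀ v : Pl → ℝ, ContDiff ℝ 1 v → ∀ α : ℝ, 0 ≤ α → (∀ p ∈ D, α ≤ v p) →
    ∀ B : Set Pl, MeasurableSet B → B ⊆ sq (x - 7) (y - 7) 21 → (∀ p ∈ B, v p = 0) →
    α ^ 2 * vol B ≤ C * ∫ p in sq (x - 7) (y - 7) 21, gr2 v p := by
  refine ⟨16000, by norm_num, ?_⟩
  intro D hD hDc x y h1 h2 v hv α hα hDα B hB hBR hB0
  have h37 : (3 * 7 : ℝ) = 21 := by norm_num
  have hcr := crossing hD hDc (by norm_num : (0 : ℝ) < 7) h1 (by rw [h37]; exact h2) hv hDα
  rw [h37] at hcr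
  obtain ⟨S, hSm, hSR, hSv, hS⟩ := hcr
  set E := ∫ p in sq (x - 7) (y - 7) 21, gr2 v p with hE
  have hE0 : 0 ≤ E := integral_nonneg fun p => Cross_gr2_nonneg v p
  have hvolR : vol (sq (x - 7) (y - 7) 21) = 441 := by
    rw [vol_sq _ _ (by norm_num)]; norm_num
  have hRc : IsCompact (sq (x - 7) (y - 7) 21) := Cross_compact _ _ _ _
  have hB441 : vol B ≤ 441 := by
    rw [← hvolR]
    exact ENNReal.toReal_mono hRc.measure_lt_top.ne (measure_mono hBR)
  have hBn : 0 ≤ vol B := ENNReal.toReal_nonneg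
  rcases hBn.eq_or_lt with hz | hpos
  · rw [← hz]; linarith
  have hA := avg_diff hv (x - 7) (y - 7) (by norm_num : (0 : ℝ) < 21) hSR hSm
    (by rw [hSv]; norm_num)
  have hM := avg_diff hv (x - 7) (y - 7) (by norm_num : (0 : ℝ) < 21) hBR hB hpos
  have hBi : ∫ p in B, v p = 0 := by
    rw [setIntegral_congr_fun hB (g := fun _ => (0 : ℝ)) (fun p hp => hB0 p hp)]
    simp
  rw [hBi, zero_div, zero_sub, neg_sq] at hM
  rw [hSv] at hA
  rw [← hE] at hA hM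
  set m := (∫ p in sq (x - 7) (y - 7) 21, v p) / 21 ^ 2 with hm
  set A := (∫ p in S, v p) / (3 * 7 ^ 2) with hAd
  have hAα : α ≤ A + 2 * √E := by
    have : 3 * 7 ^ 2 * α - 6 * 7 ^ 2 * √E ≤ A * (3 * 7 ^ 2) := by
      rw [hAd, div_mul_cancel₀ _ (by norm_num)]
      exact hS
    linarith
  have h3 := Cross_three (m := m) hα hAα
  rw [Real.sq_sqrt hE0] at h3
  have hA' : (A - m) ^ 2 ≤ 6 * E := by linarith
  have h4 : α ^ 2 ≤ 3 * (6 * E + m ^ 2 + 4 * E) := by linarith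
  have h5 : α ^ 2 * vol B ≤ 3 * (6 * E + m ^ 2 + 4 * E) * vol B :=
    mul_le_mul_of_nonneg_right h4 hBn
  have h6 : E * vol B ≤ E * 441 := mul_le_mul_of_nonneg_left hB441 hE0
  nlinarith

theorem cross : ∃ C : ℝ, 0 < C ∧ ∀ (D : Set Pl), IsOpen D → IsConnected D →
    ∀ (k : ℕ) (i j : ℤ) (c : ℤ × ℤ),
    (i - 3) * 2 ^ k ≤ c.1 → c.1 < (i + 4) * 2 ^ k → (j - 3) * 2 ^ k ≤ c.2 → c.2 < (j + 4) * 2 ^ k →
    (D ∩ dsq k i j).Nonempty → ¬ D ⊆ bl3 k i j →
    ∀ v : Pl → ℝ, ContDiff ℝ 1 v → (∀ p ∈ ob c, v p = 0) →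
    ∀ α : ℝ, 0 ≤ α → (∀ p ∈ D, α ≤ v p) →
    α ^ 2 ≤ C * (1 + k) ^ 2 * ∫ p in bl7 k i j, gr2 v p := by
  obtain ⟨C0, hC0, hcap⟩ := cap7
  refine ⟨110 + 3 * C0, by positivity, ?_⟩
  intro D hD hDc k i j c c1 c2 c3 c4 h1 h2 v hv hv0 α hα hDα
  have hcap := hcap k i j c c1 c2 c3 c4 v hv hv0
  have hl : (0 : ℝ) < 2 ^ k := by positivity
  have hb3 : bl3 k i j = sq ((i : ℝ) * 2 ^ k - 2 ^ k) ((j : ℝ) * 2 ^ k - 2 ^ k) (3 * 2 ^ k) := by
    unfold bl3
    congr 1 <;> ring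
  have hb37 : bl3 k i j ⊆ bl7 k i j := by
    intro p hp
    obtain ⟨⟨a1, a2⟩, ⟨a3, a4⟩⟩ := hp
    exact ⟨⟨by linarith, by linarith⟩, ⟨by linarith, by linarith⟩⟩
  have hcr := crossing hD hDc hl h1 (by rw [← hb3]; exact h2) hv hDα
  rw [← hb3] at hcr
  obtain ⟨S, hSm, hSR, hSv, hS⟩ := hcr
  have h7c : IsCompact (bl7 k i j) := Cross_compact _ _ _ _
  have hE37 : ∫ p in bl3 k i j, gr2 v p ≤ ∫ p in bl7 k i j, gr2 v p := Cross_mono hv h7c hb37
  set E := ∫ p in bl7 k i j, gr2 v p with hE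
  have hE0 : 0 ≤ E := integral_nonneg fun p => Cross_gr2_nonneg v p
  have hsq : √(∫ p in bl3 k i j, gr2 v p) ≤ √E := Real.sqrt_le_sqrt hE37
  have hA := avg_diff hv (((i : ℝ) - 3) * 2 ^ k) (((j : ℝ) - 3) * 2 ^ k)
    (by positivity : (0 : ℝ) < 7 * 2 ^ k) (hSR.trans hb37) hSm (by rw [hSv]; positivity)
  have hA : ((∫ p in S, v p) / vol S - (∫ p in bl7 k i j, v p) / (7 * 2 ^ k) ^ 2) ^ 2 * vol S ≤
      2 * (7 * 2 ^ k) ^ 2 * E := hA
  rw [hSv] at hA
  set q : ℝ := 2 ^ k with hq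
  have h4k : (4 : ℝ) ^ k = q ^ 2 := by
    rw [hq, ← pow_mul, mul_comm, pow_mul]; norm_num
  rw [h4k] at hcap
  set I := ∫ p in bl7 k i j, v p with hI
  set m := I / (7 * q) ^ 2 with hm
  set A := (∫ p in S, v p) / (3 * q ^ 2) with hAd
  have hq2 : 0 < q ^ 2 := by positivity
  have hAα : α ≤ A + 2 * √E := by
    have e1 : 3 * q ^ 2 * α - 6 * q ^ 2 * √(∫ p in bl3 k i j, gr2 v p) ≤ A * (3 * q ^ 2) := by
      rw [hAd, div_mul_cancel₀ _ (by positivity)]
      exact hS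
    have e2 : 6 * q ^ 2 * √(∫ p in bl3 k i j, gr2 v p) ≤ 6 * q ^ 2 * √E :=
      mul_le_mul_of_nonneg_left hsq (by positivity)
    have e3 : (3 * q ^ 2) * α ≤ (3 * q ^ 2) * (A + 2 * √E) := by linarith
    exact le_of_mul_le_mul_left e3 (by positivity)
  have h3 := Cross_three (m := m) hα hAα
  rw [Real.sq_sqrt hE0] at h3
  have hA' : (A - m) ^ 2 ≤ 98 / 3 * E := by
    have e1 : (3 * q ^ 2) * (A - m) ^ 2 ≤ (3 * q ^ 2) * (98 / 3 * E) := by linarith
    exact le_of_mul_le_mul_left e1 (by positivity)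
  have hm' : m ^ 2 ≤ C0 * (1 + k) ^ 2 * E := by
    rw [hm, div_pow, div_le_iff₀ (by positivity)]
    refine hcap.trans ?_
    have e1 : 0 ≤ C0 * (1 + (k : ℝ)) ^ 2 * E * (q ^ 2) ^ 2 := by positivity
    have e2 : C0 * (1 + (k : ℝ)) ^ 2 * E * ((7 * q) ^ 2) ^ 2 =
      2401 * (C0 * (1 + (k : ℝ)) ^ 2 * E * (q ^ 2) ^ 2) := by ring
    have e3 : C0 * (q ^ 2) ^ 2 * (1 + (k : ℝ)) ^ 2 * E =
      C0 * (1 + (k : ℝ)) ^ 2 * E * (q ^ 2) ^ 2 := by ring
    rw [e2, e3]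
    linarith
  have hk1 : (1 : ℝ) ≤ (1 + k) ^ 2 := by
    have : (0 : ℝ) ≤ k := Nat.cast_nonneg k
    nlinarith
  have hk2 : E ≤ (1 + (k : ℝ)) ^ 2 * E := le_mul_of_one_le_left hE0 hk1
  have e4 : (110 + 3 * C0) * (1 + (k : ℝ)) ^ 2 * E =
    110 * ((1 + (k : ℝ)) ^ 2 * E) + 3 * (C0 * (1 + (k : ℝ)) ^ 2 * E) := by ring
  rw [e4]
  linarith

end Pool.Agent.BSv
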