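import Pool.Agent.BSv.Select

/-!
# Module PACK: levels of the selected function

From `select`: `f`, `D`, `a`, `e = ee r a`, `s = e/√a`, `λ = lam U`.

* For `x ≥ 1` let `v = Ta (x s) ∘ f ∈ CC U`.  `en_Ta_le` and `int_mul_Ta_le`:
  `en v ≤ 2 λ (2 x s √a) + 36 λ e = 4 λ x e + 36 λ e ≤ 40 λ x e`.
  `v = 0` where `f = 0`; `f > s/2` on `D` gives `v ≥ min (f) (x s) ≥ s/2` on `D`;
  where `f > x s/2`: `v ≥ x s/2`.
* For `x ≥ 1`, `128 x e ≤ 1`: let `D_x = D ∩ {x s/2 < f}` and
  `ψ_x = 1_D (Th (x s) ∘ f) ∈ CC D_x` (`cc_indicator` with `O = {x s/2 < |f|}`).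
  On `D`: `Th (x s) f ≥ 0` and `Th (x s) f ≥ f - 2 x s ≥ Th s f - 2 x s`, hence
  `ψ_x² ≥ ψ² - 4 x s ψ` and `ms ψ_x ≥ ms ψ - 4 x s ∫ ψ ≥ ms ψ - 4 x s √a √(ms ψ)
  = ms ψ - 4 x e √(ms ψ) ≥ ms ψ (1 - 64 x e)` (because `√(ms ψ) ≥ 1/16`);
  `en ψ_x ≤ en ψ` (`gr2_Th_anti`, `gr2_indicator`).  So `D_x` is nonempty and
  `lam D_x ≤ en ψ_x / ms ψ_x ≤ λ (1 + 50 e) / (1 - 64 x e) ≤ λ (1 + 250 x e)`.
* `g = ψ / √(ms ψ) ∈ CC D` has mass one and `en g ≤ λ (1 + 50 e)`.
-/

open MeasureTheory Set Filter Topology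
open scoped ENNReal NNReal ContDiff

noncomputable section

namespace Pool.Agent.BSv

private theorem Pack_open_abs {f : Pl → ℝ} (hf : Continuous f) (t : ℝ) :
    IsOpen {p | t < |f p|} := isOpen_lt continuous_const hf.abs

private theorem Pack_open {f : Pl → ℝ} (hf : Continuous f) (t : ℝ) :
    IsOpen {p | t < f p} := isOpen_lt continuous_const hf

/-- the high part of the selected component -/
private theorem Pack_high {U D : Set Pl} {f : Pl → ℝ} {a e s Λ : ℝ} (hf : CC U f)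
    (ha : a = vol {p | f p ≠ 0}) (hafin : volume {p | f p ≠ 0} ≠ ⊤) (he : 0 < e)
    (hs : 0 < s) (hse : s * √a = e) (hΛ : 0 ≤ Λ)
    (hD : IsOpen D) (hfD : ∀ p ∈ D, s / 2 < f p) (hOD : IsOpen ({p | s / 2 < |f p|} \ D))
    (hm : 1 / 256 ≤ ms (D.indicator fun p => Th s (f p)))
    (hen : en (D.indicator fun p => Th s (f p)) ≤
        Λ * (1 + 50 * e) * ms (D.indicator fun p => Th s (f p)))
    {x : ℝ} (hx : 1 ≤ x) (hxe : 128 * x * e ≤ 1) :
    IsOpen (D ∩ {p | x * s / 2 < f p}) ∧ (D ∩ {p | x * s / 2 < f p}).Nonempty ∧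
        lam (D ∩ {p | x * s / 2 < f p}) ≤ Λ * (1 + 250 * x * e) := by
  have hfc : Continuous f := hf.smooth.continuous
  have hx0 : 0 < x := by linarith
  have hxs : 0 < x * s := by positivity
  have hsx : s ≤ x * s := by nlinarith
  have hDx : IsOpen (D ∩ {p | x * s / 2 < f p}) := hD.inter (Pack_open hfc _)
  have hDO : D ⊆ {p | s / 2 < |f p|} := fun p hp => by
    have h1 := hfD p hp
    show s / 2 < |f p|
    exact h1.trans_le (le_abs_self _)
  have hDxO : D ∩ {p | x * s / 2 < f p} ⊆ {p | x * s / 2 < |f p|} := fun p hp => by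
    have h1 : x * s / 2 < f p := hp.2
    exact h1.trans_le (le_abs_self _)
  have hODx : IsOpen ({p | x * s / 2 < |f p|} \ (D ∩ {p | x * s / 2 < f p})) := by
    have h1 : {p | x * s / 2 < |f p|} \ (D ∩ {p | x * s / 2 < f p}) =
        {p | x * s / 2 < |f p|} ∩ ({p | s / 2 < |f p|} \ D) := by
      ext p
      constructor
      · rintro ⟨h2, h3⟩
        have h2' : x * s / 2 < |f p| := h2
        refine ⟨h2, ?_, fun h4 => h3 ⟨h4, ?_⟩⟩
        · show s / 2 < |f p|
          linarith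
        · have h5 := hfD p h4
          show x * s / 2 < f p
          rwa [abs_of_pos (by linarith)] at h2'
      · rintro ⟨h2, h3, h4⟩
        exact ⟨h2, fun h5 => h4 h5.1⟩
    rw [h1]
    exact (Pack_open_abs hfc _).inter hOD
  -- the two functions
  have cρ : CC {p | s / 2 < |f p|} (fun p => Th s (f p)) := cc_Th hf hs
  have cρx : CC {p | x * s / 2 < |f p|} (fun p => Th (x * s) (f p)) := cc_Th hf hxs
  set ψ := D.indicator fun p => Th s (f p) with hψ
  set ψx := (D ∩ {p | x * s / 2 < f p}).indicator fun p => Th (x * s) (f p) with hψx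
  have cψ : CC D ψ := cc_indicator cρ (Pack_open_abs hfc _) hD hDO hOD
  have cψx : CC (D ∩ {p | x * s / 2 < f p}) ψx :=
    cc_indicator cρx (Pack_open_abs hfc _) hDx hDxO hODx
  -- values
  have hval : ∀ p, 0 ≤ ψ p ∧ ψ p ^ 2 - 4 * x * s * ψ p ≤ ψx p ^ 2 := by
    intro p
    by_cases hp : p ∈ D
    · have h1 := hfD p hp
      have hfp : 0 ≤ f p := by linarith
      have e1 : ψ p = Th s (f p) := Set.indicator_of_mem hp _
      have e2 : ψx p = Th (x * s) (f p) := by
        by_cases hpx : x * s / 2 < f p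
        · exact Set.indicator_of_mem (show p ∈ D ∩ {p | x * s / 2 < f p} from ⟨hp, hpx⟩) _
        · have h3 : ψx p = 0 := Set.indicator_of_notMem (fun h => hpx h.2) _
          rw [h3, Th_eq_zero hxs]
          rw [abs_of_nonneg hfp]
          linarith [not_lt.1 hpx]
      have h2 : 0 ≤ Th s (f p) := Th_nonneg hs hfp
      have h3 : 0 ≤ Th (x * s) (f p) := Th_nonneg hxs hfp
      have h4 : Th s (f p) - 2 * (x * s) ≤ Th (x * s) (f p) := by
        have := Th_ge hxs hfp
        have := Th_le_self hs hfp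
        linarith
      rw [e1, e2]
      refine ⟨h2, ?_⟩
      rcases le_or_gt (2 * (x * s)) (Th s (f p)) with h5 | h5
      · nlinarith
      · nlinarith
    · have e1 : ψ p = 0 := Set.indicator_of_notMem hp _
      rw [e1]
      refine ⟨le_rfl, ?_⟩
      have := sq_nonneg (ψx p)
      nlinarith
  -- mass
  have hm0 : 0 < ms ψ := lt_of_lt_of_le (by norm_num) hm
  have hint : ∫ p, ψ p ≤ √a * √(ms ψ) := by
    have h1 := int_abs_le cψ
    have h2 : ∫ p, ψ p = ∫ p, |ψ p| := by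
      congr 1
      funext p
      rw [abs_of_nonneg (hval p).1]
    rw [h2]
    refine h1.trans ?_
    apply mul_le_mul_of_nonneg_right _ (Real.sqrt_nonneg _)
    apply Real.sqrt_le_sqrt
    rw [ha]
    apply ENNReal.toReal_mono hafin
    apply measure_mono
    intro p hp
    by_contra hcon
    apply hp
    have hpD : p ∉ D := fun h => by
      have := hfD p h
      have h0 : f p = 0 := not_not.1 hcon
      linarith
    exact Set.indicator_of_notMem hpD _
  have hmass : ms ψ * (1 - 64 * x * e) ≤ ms ψx := by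
    have h1 : ms ψ - 4 * x * s * ∫ p, ψ p ≤ ms ψx := by
      unfold ms
      rw [← integral_const_mul, ← integral_sub cψ.integrable_sq (cψ.integrable.const_mul _)]
      exact integral_mono (cψ.integrable_sq.sub (cψ.integrable.const_mul _)) cψx.integrable_sq
        (fun p => (hval p).2)
    have h2 : 4 * x * s * ∫ p, ψ p ≤ 4 * x * e * √(ms ψ) := by
      calc 4 * x * s * ∫ p, ψ p ≤ 4 * x * s * (√a * √(ms ψ)) := by gcongr
        _ = 4 * x * (s * √a) * √(ms ψ) := by ring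
        _ = 4 * x * e * √(ms ψ) := by rw [hse]
    have h3 : √(ms ψ) ≤ 16 * ms ψ := by
      have h4 : 1 / 16 ≤ √(ms ψ) := by
        apply Real.le_sqrt_of_sq_le
        linarith
      have h5 := Real.mul_self_sqrt hm0.le
      nlinarith [Real.sqrt_nonneg (ms ψ)]
    have h6 : 4 * x * e * √(ms ψ) ≤ 64 * x * e * ms ψ := by
      calc 4 * x * e * √(ms ψ) ≤ 4 * x * e * (16 * ms ψ) := by gcongr
        _ = _ := by ring
    linarith
  have hxe0 : 0 < x * e := by positivity
  have hmx0 : 0 < ms ψx := by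
    refine lt_of_lt_of_le ?_ hmass
    apply mul_pos hm0
    linarith
  have hne : (D ∩ {p | x * s / 2 < f p}).Nonempty := by
    by_contra hcon
    rw [Set.not_nonempty_iff_eq_empty] at hcon
    have h1 : ψx = fun _ => 0 := by
      rw [hψx, hcon, Set.indicator_empty]
    rw [h1] at hmx0
    unfold ms at hmx0
    simp at hmx0
  -- energy
  have henx : en ψx ≤ en ψ := by
    unfold en
    apply mul_le_mul_of_nonneg_left _ (by norm_num)
    apply integral_mono cψx.integrable_gr2 cψ.integrable_gr2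
    intro p
    have e1 := gr2_indicator cρ (Pack_open_abs hfc _) hD hDO hOD p
    have e2 := gr2_indicator cρx (Pack_open_abs hfc _) hDx hDxO hODx p
    show gr2 ψx p ≤ gr2 ψ p
    rw [hψ, hψx, e1, e2]
    have hg0 : ∀ (h : Pl → ℝ), 0 ≤ gr2 h p := fun h => by
      unfold gr2
      positivity
    by_cases hp : p ∈ D ∩ {p | x * s / 2 < f p}
    · rw [Set.indicator_of_mem hp, Set.indicator_of_mem hp.1]
      exact gr2_Th_anti hf.smooth hs hsx p
    · rw [Set.indicator_of_notMem hp]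
      exact Set.indicator_nonneg (fun p _ => by unfold gr2; positivity) p
  refine ⟨hDx, hne, ?_⟩
  have h1 := lam_mul_le cψx
  have h2 : lam (D ∩ {p | x * s / 2 < f p}) * ms ψx ≤ Λ * (1 + 250 * x * e) * ms ψx := by
    calc lam (D ∩ {p | x * s / 2 < f p}) * ms ψx ≤ en ψx := h1
      _ ≤ en ψ := henx
      _ ≤ Λ * (1 + 50 * e) * ms ψ := hen
      _ ≤ Λ * ((1 + 250 * x * e) * (1 - 64 * x * e)) * ms ψ := by
          have h3 : 1 + 50 * e ≤ (1 + 250 * x * e) * (1 - 64 * x * e) := by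
            have h4 : e ≤ x * e := by nlinarith
            have h5 : 128 * (x * e) ≤ 1 := by linarith
            nlinarith
          gcongr
      _ = Λ * (1 + 250 * x * e) * (ms ψ * (1 - 64 * x * e)) := by ring
      _ ≤ Λ * (1 + 250 * x * e) * ms ψx := by
          apply mul_le_mul_of_nonneg_left hmass
          have : 0 ≤ 250 * x * e := by positivity
          positivity
  exact le_of_mul_le_mul_right h2 hmx0

theorem pack (Λ0 : ℝ) (hΛ : 0 < Λ0) : ∃ r0 c1 : ℝ, 1 ≤ r0 ∧ 0 < c1 ∧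
    ∀ U : Set Pl, IsOpen U → U.Nonempty → volume U ≠ ⊤ → ∀ r : ℝ, r0 ≤ r → lam U ≤ Λ0 / r ^ 2 →
    ∃ (f : Pl → ℝ) (D : Set Pl) (a e s : ℝ), CC U f ∧
      e = ee r a ∧ s = e / √a ∧ c1 * r ^ 2 ≤ a ∧ a ≤ vol U ∧ 0 < e ∧ e ≤ 1 / 1000 ∧ 0 < s ∧
      IsOpen D ∧ IsConnected D ∧ D ⊆ U ∧ (∀ p ∈ D, s / 2 < f p) ∧ a / 16 ≤ vol D ∧
      (∃ g, CC D g ∧ ms g = 1 ∧ en g ≤ lam U * (1 + 50 * e)) ∧
      (∀ x : ℝ, 1 ≤ x → ∃ v, CC U v ∧ en v ≤ 40 * lam U * x * e ∧ (∀ p, f p = 0 → v p = 0) ∧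
        (∀ p ∈ D, s / 2 ≤ v p) ∧ (∀ p ∈ D, x * s / 2 < f p → x * s / 2 ≤ v p)) ∧
      (∀ x : ℝ, 1 ≤ x → 128 * x * e ≤ 1 → IsOpen (D ∩ {p | x * s / 2 < f p}) ∧
        (D ∩ {p | x * s / 2 < f p}).Nonempty ∧
        lam (D ∩ {p | x * s / 2 < f p}) ≤ lam U * (1 + 250 * x * e)) := by
  obtain ⟨r0, c1, hr0, hc1, hsel⟩ := select Λ0 hΛ
  refine ⟨r0, c1, hr0, hc1, fun U hU hUne hUv r hr hlam => ?_⟩
  obtain ⟨f, D, a, e, s, hf, hm, ha, he, hs, hca, he0, he1, hs0, hen, hD, hDc, hfD, hOD, haD, hm2,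
    hen2⟩ := hsel U hU hUne hUv r hr hlam
  have hr1 : 0 < r := by linarith
  have ha0 : 0 < a := lt_of_lt_of_le (by positivity) hca
  have hse : s * √a = e := by
    rw [hs, div_mul_cancel₀ _ (Real.sqrt_pos.2 ha0).ne']
  have hsuppU : {p | f p ≠ 0} ⊆ U := fun p hp => hf.sub (subset_tsupport f hp)
  have hafin : volume {p | f p ≠ 0} ≠ ⊤ := ne_top_of_le_ne_top hUv (measure_mono hsuppU)
  have hlm0 : 0 ≤ lam U := lam_nonneg U
  have hDU : D ⊆ U := fun p hp => by
    have h1 := hfD p hp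
    have h2 : f p ≠ 0 := by
      intro h3
      rw [h3] at h1
      linarith
    exact hsuppU h2
  refine ⟨f, D, a, e, s, hf, he, hs, hca, ?_, he0, he1, hs0, hD, hDc, hDU, hfD, haD, ?_, ?_, ?_⟩
  · rw [ha]
    exact ENNReal.toReal_mono hUv (measure_mono hsuppU)
  · have hfc : Continuous f := hf.smooth.continuous
    have hDO : D ⊆ {p | s / 2 < |f p|} := fun p hp => by
      have h1 := hfD p hp
      show s / 2 < |f p|
      exact h1.trans_le (le_abs_self _)
    have cψ : CC D (D.indicator fun p => Th s (f p)) :=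
      cc_indicator (cc_Th hf hs0) (Pack_open_abs hfc _) hD hDO hOD
    set ψ := D.indicator fun p => Th s (f p) with hψ
    have hm0 : 0 < ms ψ := lt_of_lt_of_le (by norm_num) hm2
    have hsq : (1 / √(ms ψ)) ^ 2 * ms ψ = 1 := by
      rw [div_pow, Real.sq_sqrt hm0.le, one_pow]
      field_simp
    refine ⟨fun p => 1 / √(ms ψ) * ψ p, cψ.smul _, ?_, ?_⟩
    · rw [ms_smul, hsq]
    · rw [en_smul _ cψ.smooth]
      calc (1 / √(ms ψ)) ^ 2 * en ψ ≤ (1 / √(ms ψ)) ^ 2 * (lam U * (1 + 50 * e) * ms ψ) := by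
            gcongr
        _ = lam U * (1 + 50 * e) * ((1 / √(ms ψ)) ^ 2 * ms ψ) := by ring
        _ = lam U * (1 + 50 * e) := by rw [hsq, mul_one]
  · intro x hx
    have hxs : 0 < x * s := by positivity
    refine ⟨fun p => Ta (x * s) (f p), cc_Ta hf hxs, ?_, ?_, ?_, ?_⟩
    · have h1 := en_Ta_le hf hm hxs
      have h2 := int_mul_Ta_le hf hxs
      rw [hm, Real.sqrt_one, mul_one, ← ha] at h2
      have h3 : 2 * (x * s) * √a = 2 * x * e := by rw [← hse]; ring
      rw [h3] at h2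
      have h4 : 2 * lam U * (∫ p, f p * Ta (x * s) (f p)) ≤ 2 * lam U * (2 * x * e) := by gcongr
      have h5 : lam U * e ≤ lam U * (x * e) := by
        apply mul_le_mul_of_nonneg_left _ hlm0
        nlinarith
      nlinarith
    · intro p hp
      show Ta (x * s) (f p) = 0
      rw [hp, Ta_zero hxs]
    · intro p hp
      have h1 := hfD p hp
      have h2 := Ta_ge hxs (y := f p) (by linarith)
      have h3 : s / 2 ≤ min (f p) (x * s) := le_min h1.le (by nlinarith)
      exact h3.trans h2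
    · intro p hp hxp
      have h1 := hfD p hp
      have h2 := Ta_ge hxs (y := f p) (by linarith)
      have h3 : x * s / 2 ≤ min (f p) (x * s) := le_min hxp.le (by linarith)
      exact h3.trans h2
  · intro x hx hxe
    exact Pack_high hf ha hafin he0 hs0 hse hlm0 hD hfD hOD hm2 hen2 hx hxe

end Pool.Agent.BSv
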