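import Pool.Agent.BSv.KerGrad

/-!
# Module KERUP

`χ` smooth with compact support in the `1/4`-neighbourhood of the compact set `F`, `0 ≤ χ ≤ 1`,
`χ = 1` on the `1/8`-neighbourhood.  For `g ∈ BF F`, `G = Pt (δ/2) g` is smooth,
`∫_{outside the 1/8-neighbourhood} G² ≤ η_δ ms g` with `η_δ = (∫_{|z| ≥ 1/8} hk (δ/2) z dz)²`
(Young / Cauchy-Schwarz with the kernel restricted to `|z| ≥ 1/8`), smaller than every power of `δ`
(`η_δ ≤ C δ⁴`, say), and, pointwise
`gr2 (χ G) ≤ (1 + δ) χ² gr2 G + (1 + 1/δ) G² gr2 χ`: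
`lam · (ms G - η_δ ms g) ≤ lam · ms (χ G) ≤ en (χ G) ≤ (1 + δ) en G + (1 + 1/δ) C_χ η_δ ms g`,
`ms G = ∫ g Pt δ g =: θ ms g` (`ker_half`), `δ en G ≤ (1 - θ) ms g` (`ker_grad`).  So
`(1 - θ)(1 + δ) ≥ δ (lam θ - o(1))`, i.e. `θ ≤ 1 - δ (lam - η)` for `δ` small
(`0 ≤ θ ≤ 1`; `lam = lam (thickening (1/4) F)`).
-/

open MeasureTheory Set Filter Topology
open scoped ENNReal NNReal ContDiff

noncomputable section

namespace Pool.Agent.BSv

private theorem KerUp_BF_int {F : Set Pl} (hF : volume F ≠ ⊤) {g : Pl → ℝ} (hg : BF F g) :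
    Integrable g := by
  obtain ⟨B, hB⟩ := hg.bdd
  have hm : MeasurableSet {p | g p ≠ 0} := hg.meas (measurableSet_singleton 0).compl
  have hsub : {p | g p ≠ 0} ⊆ F := by
    intro p hp
    by_contra h
    exact hp (hg.zero p h)
  have hfin : volume {p | g p ≠ 0} < ⊤ := (measure_mono hsub).trans_lt (lt_top_iff_ne_top.2 hF)
  have h1 : Integrable ({p | g p ≠ 0}.indicator fun _ => B) :=
    (integrable_indicator_iff hm).2 (integrableOn_const hfin.ne)
  refine h1.mono' hg.meas.aestronglyMeasurable (Eventually.of_forall fun p => ?_)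
  by_cases hp : g p = 0
  · rw [hp, norm_zero]
    exact indicator_nonneg (fun x _ => (abs_nonneg _).trans (hB x)) p
  · rw [indicator_of_mem (show p ∈ {p | g p ≠ 0} from hp)]
    exact hB p

private theorem KerUp_abs {F : Set Pl} {g : Pl → ℝ} (hg : BF F g) : BF F fun p => |g p| := by
  obtain ⟨B, hB⟩ := hg.bdd
  refine ⟨hg.meas.abs, ⟨B, fun p => ?_⟩, fun p hp => ?_⟩
  · rw [abs_abs]
    exact hB p
  · show |g p| = 0
    rw [hg.zero p hp, abs_zero]

private theorem KerUp_contr {F : Set Pl} (hF : IsCompact F) {g : Pl → ℝ} (hg : BF F g) {τ : ℝ}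
    (hτ : 0 < τ) : ms (Pt τ g) ≤ ms g := by
  have h1 := ker_grad hF.isBounded hg (δ := 2 * τ) (by positivity)
  have h2 := (ker_half hF.measure_lt_top.ne hg (τ := 2 * τ) (by positivity)).2
  rw [show 2 * τ / 2 = τ by ring] at h1 h2
  have h3 : 0 ≤ 2 * τ * en (Pt τ g) := mul_nonneg (by positivity) (en_nonneg _)
  linarith

/-- the two kernels -/
private theorem KerUp_hk {δ : ℝ} (hδ : 0 < δ) {v : Pl} (hv : 1 / 64 ≤ v.1 ^ 2 + v.2 ^ 2) :
    hk (δ / 2) v ≤ 2 * Real.exp (-(1 / (128 * δ))) * hk δ v := by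
  unfold hk
  have h1 : Real.exp (-(v.1 ^ 2 + v.2 ^ 2) / (2 * (δ / 2))) ≤
      Real.exp (-(1 / (128 * δ))) * Real.exp (-(v.1 ^ 2 + v.2 ^ 2) / (2 * δ)) := by
    rw [← Real.exp_add, Real.exp_le_exp]
    have e1 : -(v.1 ^ 2 + v.2 ^ 2) / (2 * (δ / 2)) = -(v.1 ^ 2 + v.2 ^ 2) / (2 * δ) +
        -(v.1 ^ 2 + v.2 ^ 2) / (2 * δ) := by
      field_simp
      ring
    rw [e1]
    refine add_le_add ?_ le_rfl
    rw [neg_div, neg_le_neg_iff, div_le_div_iff₀ (by positivity) (by positivity)]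
    nlinarith
  have e2 : 2 * Real.exp (-(1 / (128 * δ))) * (Real.exp (-(v.1 ^ 2 + v.2 ^ 2) / (2 * δ)) /
      (2 * Real.pi * δ)) = (Real.exp (-(1 / (128 * δ))) *
        Real.exp (-(v.1 ^ 2 + v.2 ^ 2) / (2 * δ))) / (2 * Real.pi * (δ / 2)) := by
    field_simp
  rw [e2]
  exact div_le_div_of_nonneg_right h1 (by positivity)

private theorem KerUp_exp {δ : ℝ} (hδ : 0 < δ) :
    (2 * Real.exp (-(1 / (128 * δ)))) ^ 2 ≤ 32768 * δ ^ 2 := by
  have h1 : (2 * Real.exp (-(1 / (128 * δ)))) ^ 2 = 4 * Real.exp (-(1 / (64 * δ))) := by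
    have h0 : ((2 : ℕ) : ℝ) * (-(1 / (128 * δ))) = -(1 / (64 * δ)) := by
      push_cast
      field_simp
      norm_num
    rw [mul_pow, ← Real.exp_nat_mul, h0]
    norm_num
  have h2 : 0 ≤ 1 / (64 * δ) := by positivity
  have h3 := Real.quadratic_le_exp_of_nonneg h2
  have h4 : Real.exp (-(1 / (64 * δ))) ≤ 2 * (64 * δ) ^ 2 := by
    rw [Real.exp_neg, inv_le_comm₀ (Real.exp_pos _) (by positivity)]
    have h5 : (2 * (64 * δ) ^ 2)⁻¹ = (1 / (64 * δ)) ^ 2 / 2 := by
      field_simp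
    rw [h5]
    linarith
  rw [h1]
  nlinarith

private theorem KerUp_out {F : Set Pl} (hF : IsCompact F) {g : Pl → ℝ} (hg : BF F g) {δ : ℝ}
    (hδ : 0 < δ) :
    ∫ p in (Metric.cthickening (1 / 8) F)ᶜ, Pt (δ / 2) g p ^ 2 ≤ 32768 * δ ^ 2 * ms g := by
  have hfin : volume F ≠ ⊤ := hF.measure_lt_top.ne
  have hi := KerUp_BF_int hfin hg
  have ha := KerUp_abs hg
  have hE : 0 ≤ 2 * Real.exp (-(1 / (128 * δ))) := by positivity
  have hN : MeasurableSet (Metric.cthickening (1 / 8) F)ᶜ :=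
    Metric.isClosed_cthickening.measurableSet.compl
  have h1 : ∀ p ∈ (Metric.cthickening (1 / 8) F)ᶜ, Pt (δ / 2) g p ^ 2 ≤
      (2 * Real.exp (-(1 / (128 * δ)))) ^ 2 * Pt δ (fun q => |g q|) p ^ 2 := by
    intro p hp
    have hint : Integrable (fun q => hk δ (p - q) * |g q|) := by
      refine hi.abs.bdd_mul
        ((hk_cont hδ).comp (continuous_const.sub continuous_id)).aestronglyMeasurable
        (c := 1 / (2 * Real.pi * δ)) (Eventually.of_forall fun q => ?_)
      rw [Real.norm_eq_abs, abs_of_pos (hk_pos hδ _)]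
      exact hk_le hδ _
    have h2 : |Pt (δ / 2) g p| ≤ 2 * Real.exp (-(1 / (128 * δ))) * Pt δ (fun q => |g q|) p := by
      have h3 : 2 * Real.exp (-(1 / (128 * δ))) * Pt δ (fun q => |g q|) p =
          ∫ q, 2 * Real.exp (-(1 / (128 * δ))) * (hk δ (p - q) * |g q|) := by
        rw [integral_const_mul]
        rfl
      rw [h3, ← Real.norm_eq_abs]
      unfold Pt
      refine norm_integral_le_of_norm_le (hint.const_mul _) (Eventually.of_forall fun q => ?_)
      by_cases hq : q ∈ F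
      · have hd : 1 / 8 < dist p q := by
          by_contra h
          rw [not_lt] at h
          exact hp (Metric.mem_cthickening_of_dist_le p q _ F hq h)
        have hv : 1 / 64 ≤ (p - q).1 ^ 2 + (p - q).2 ^ 2 := by
          rw [Prod.dist_eq, lt_max_iff, Real.dist_eq, Real.dist_eq] at hd
          have e1 : (p - q).1 = p.1 - q.1 := rfl
          have e2 : (p - q).2 = p.2 - q.2 := rfl
          rw [e1, e2]
          rcases hd with hd | hd
          · have := sq_abs (p.1 - q.1)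
            nlinarith [sq_nonneg (p.2 - q.2)]
          · have := sq_abs (p.2 - q.2)
            nlinarith [sq_nonneg (p.1 - q.1)]
        rw [norm_mul, Real.norm_eq_abs, Real.norm_eq_abs, abs_of_pos (hk_pos (by positivity) _),
          ← mul_assoc]
        exact mul_le_mul_of_nonneg_right (KerUp_hk hδ hv) (abs_nonneg _)
      · rw [hg.zero q hq]
        simp
    calc Pt (δ / 2) g p ^ 2 = |Pt (δ / 2) g p| ^ 2 := (sq_abs _).symm
      _ ≤ (2 * Real.exp (-(1 / (128 * δ))) * Pt δ (fun q => |g q|) p) ^ 2 :=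
          pow_le_pow_left₀ (abs_nonneg _) h2 2
      _ = _ := mul_pow _ _ _
  have hG := (ker_half hfin ha (τ := 2 * δ) (by positivity)).1
  rw [show 2 * δ / 2 = δ by ring] at hG
  have hG2 := (ker_half hfin hg (τ := δ) hδ).1
  have hms : ms (fun p => |g p|) = ms g := by
    unfold ms
    congr 1
    funext p
    exact sq_abs _
  calc ∫ p in (Metric.cthickening (1 / 8) F)ᶜ, Pt (δ / 2) g p ^ 2
      ≤ ∫ p in (Metric.cthickening (1 / 8) F)ᶜ,
          (2 * Real.exp (-(1 / (128 * δ)))) ^ 2 * Pt δ (fun q => |g q|) p ^ 2 :=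
        setIntegral_mono_on hG2.integrableOn (hG.const_mul _).integrableOn hN h1
    _ ≤ ∫ p, (2 * Real.exp (-(1 / (128 * δ)))) ^ 2 * Pt δ (fun q => |g q|) p ^ 2 :=
        setIntegral_le_integral (hG.const_mul _) (Eventually.of_forall fun p => by positivity)
    _ = (2 * Real.exp (-(1 / (128 * δ)))) ^ 2 * ms (Pt δ (fun q => |g q|)) := by
        rw [integral_const_mul]
        rfl
    _ ≤ (32768 * δ ^ 2) * ms g := by
        refine mul_le_mul (KerUp_exp hδ) ?_ (ms_nonneg _) (by positivity)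
        rw [← hms]
        exact KerUp_contr hF ha hδ

private theorem KerUp_cut {F : Set Pl} (hF : IsCompact F) : ∃ χ : Pl → ℝ,
    CC (Metric.thickening (1 / 4) F) χ ∧ (∀ p, 0 ≤ χ p ∧ χ p ≤ 1) ∧
      (∀ p ∈ Metric.cthickening (1 / 8) F, χ p = 1) ∧
      (∀ p ∈ Metric.cthickening (1 / 8) F, gr2 χ p = 0) ∧ ∃ C, 0 ≤ C ∧ ∀ p, gr2 χ p ≤ C := by
  have hsub : Metric.cthickening (1 / 8) F ⊆ interior (Metric.cthickening (3 / 16) F) := by
    refine Subset.trans ?_ (Metric.thickening_subset_interior_cthickening _ _)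
    exact Metric.cthickening_subset_thickening' (by norm_num) (by norm_num) F
  obtain ⟨f, h1, h2, h3⟩ := exists_contMDiffMap_one_nhds_of_subset_interior (n := (⊤ : ℕ∞))
    (modelWithCornersSelf ℝ Pl) (Metric.isClosed_cthickening (δ := 1 / 8) (E := F)) hsub
  have hs : ContDiff ℝ ∞ (f : Pl → ℝ) := f.contMDiff.contDiff
  have ht : IsCompact (Metric.cthickening (3 / 16) F) := hF.cthickening
  have hts : tsupport (f : Pl → ℝ) ⊆ Metric.cthickening (3 / 16) F := by
    refine closure_minimal ?_ Metric.isClosed_cthickening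
    intro p hp
    by_contra h
    exact hp (h2 p h)
  have hcs : HasCompactSupport (f : Pl → ℝ) := ht.of_isClosed_subset isClosed_closure hts
  have hloc : ∀ p ∈ Metric.cthickening (1 / 8) F, ∀ᶠ x in 𝓝 p, f x = 1 := by
    intro p hp
    exact (mem_nhdsSet_iff_forall.1 h1) p hp
  have hcont : Continuous (gr2 f) := by
    have h4 : Continuous (fderiv ℝ f) := hs.continuous_fderiv (by simp)
    unfold gr2 dx dy
    exact ((h4.clm_apply continuous_const).pow 2).add ((h4.clm_apply continuous_const).pow 2)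
  have hzero : ∀ p, p ∉ Metric.cthickening (3 / 16) F → gr2 f p = 0 := by
    intro p hp
    have h5 : f =ᶠ[𝓝 p] fun _ => (0 : ℝ) := by
      filter_upwards [Metric.isClosed_cthickening.isOpen_compl.mem_nhds hp] with x hx
      exact h2 x hx
    have h6 : fderiv ℝ f p = 0 := by
      rw [h5.fderiv_eq]
      simp
    unfold gr2 dx dy
    rw [h6]
    simp
  refine ⟨f, ⟨hs, hcs, hts.trans ?_⟩, fun p => h3 p, fun p hp => (hloc p hp).self_of_nhds, ?_, ?_⟩
  · exact Metric.cthickening_subset_thickening' (by norm_num) (by norm_num) F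
  · intro p hp
    have h5 : f =ᶠ[𝓝 p] fun _ => (1 : ℝ) := hloc p hp
    have h6 : fderiv ℝ f p = 0 := by
      rw [h5.fderiv_eq]
      simp
    unfold gr2 dx dy
    rw [h6]
    simp
  · obtain ⟨C, hC⟩ := ht.exists_bound_of_continuousOn hcont.continuousOn
    refine ⟨max C 0, le_max_right _ _, fun p => ?_⟩
    by_cases hp : p ∈ Metric.cthickening (3 / 16) F
    · exact (le_abs_self _).trans ((hC p hp).trans (le_max_left _ _))
    · rw [hzero p hp]
      exact le_max_right _ _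

private theorem KerUp_gr2 {χ G : Pl → ℝ} (hχ : ContDiff ℝ ∞ χ) (hG : ContDiff ℝ ∞ G) {δ : ℝ}
    (hδ : 0 < δ) (p : Pl) : gr2 (fun q => χ q * G q) p ≤
      (1 + δ) * (χ p ^ 2 * gr2 G p) + (1 + 1 / δ) * (G p ^ 2 * gr2 χ p) := by
  have h1 : HasFDerivAt χ (fderiv ℝ χ p) p := (hχ.differentiable (by simp)).differentiableAt.hasFDerivAt
  have h2 : HasFDerivAt G (fderiv ℝ G p) p := (hG.differentiable (by simp)).differentiableAt.hasFDerivAt
  have h3 : fderiv ℝ (fun q => χ q * G q) p = χ p • fderiv ℝ G p + G p • fderiv ℝ χ p :=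
    (h1.mul h2).fderiv
  have key : ∀ a b : ℝ, (a + b) ^ 2 ≤ (1 + δ) * a ^ 2 + (1 + 1 / δ) * b ^ 2 := by
    intro a b
    have h4 : 0 ≤ (δ * a - b) ^ 2 / δ := by positivity
    have h5 : (δ * a - b) ^ 2 / δ = δ * a ^ 2 - 2 * a * b + 1 / δ * b ^ 2 := by
      field_simp
      ring
    rw [h5] at h4
    nlinarith
  unfold gr2 dx dy
  rw [h3]
  simp only [add_apply, smul_apply, smul_eq_mul]
  have k1 := key (χ p * fderiv ℝ G p (1, 0)) (G p * fderiv ℝ χ p (1, 0))
  have k2 := key (χ p * fderiv ℝ G p (0, 1)) (G p * fderiv ℝ χ p (0, 1))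
  calc _ ≤ _ := add_le_add k1 k2
    _ = _ := by ring

theorem ker_up {F : Set Pl} (hF : IsCompact F) (hne : F.Nonempty) {η : ℝ} (hη : 0 < η) :
    ∃ δ0 : ℝ, 0 < δ0 ∧ ∀ δ : ℝ, 0 < δ → δ ≤ δ0 → ∀ g : Pl → ℝ, BF F g →
      ∫ p, g p * Pt δ g p ≤ (1 - δ * (lam (Metric.thickening (1 / 4) F) - η)) * ms g := by
  obtain ⟨χ, hχ, hχ01, hχ1, hχ0, C, hC0, hC⟩ := KerUp_cut hF
  obtain ⟨l, hl⟩ : ∃ l, l = lam (Metric.thickening (1 / 4) F) := ⟨_, rfl⟩
  have hl0 : 0 ≤ l := by rw [hl]; exact lam_nonneg _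
  rw [← hl]
  have hK : 0 < 32768 * (C + l) + l + l ^ 2 + 1 := by positivity
  refine ⟨min 1 (η / (32768 * (C + l) + l + l ^ 2 + 1)), lt_min one_pos (by positivity), ?_⟩
  intro δ hδ hδ0 g hg
  have hδ1 : δ ≤ 1 := hδ0.trans (min_le_left _ _)
  have hδK : δ * (32768 * (C + l) + l + l ^ 2 + 1) ≤ η := by
    rw [← le_div_iff₀ hK]
    exact hδ0.trans (min_le_right _ _)
  have hfin : volume F ≠ ⊤ := hF.measure_lt_top.ne
  have hG : ContDiff ℝ ∞ (Pt (δ / 2) g) := Pt_smooth hF.isBounded hg (by positivity)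
  obtain ⟨hG2, hGms⟩ := ker_half hfin hg hδ
  have hGr := Pt_gr2_integrable hF.isBounded hg (τ := δ / 2) (by positivity)
  have hgrad := ker_grad hF.isBounded hg hδ
  have hout := KerUp_out hF hg hδ
  obtain ⟨G, hGdef⟩ : ∃ G, G = Pt (δ / 2) g := ⟨_, rfl⟩
  rw [← hGdef] at hG hG2 hGms hGr hgrad hout
  have hN : MeasurableSet (Metric.cthickening (1 / 8) F)ᶜ :=
    Metric.isClosed_cthickening.measurableSet.compl
  obtain ⟨B, hB⟩ : ∃ B, B = ∫ p in (Metric.cthickening (1 / 8) F)ᶜ, G p ^ 2 := ⟨_, rfl⟩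
  rw [← hB] at hout
  have hB0 : 0 ≤ B := by
    rw [hB]
    exact integral_nonneg fun p => sq_nonneg _
  have hind : ∫ p, (Metric.cthickening (1 / 8) F)ᶜ.indicator (fun p => G p ^ 2) p = B := by
    rw [integral_indicator hN, hB]
  have hindI : Integrable ((Metric.cthickening (1 / 8) F)ᶜ.indicator (fun p => G p ^ 2)) :=
    hG2.indicator hN
  have hCC : CC (Metric.thickening (1 / 4) F) (fun p => χ p * G p) := by
    refine ⟨hχ.smooth.mul hG, ?_, ?_⟩
    · exact hχ.cpt.mul_right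
    · exact (tsupport_mul_subset_left (f := χ) (g := G)).trans hχ.sub
  -- energy
  have hen : en (fun p => χ p * G p) ≤ (1 + δ) * en G + (1 + 1 / δ) / 2 * C * B := by
    have h1 : ∀ p, gr2 (fun q => χ q * G q) p ≤ (1 + δ) * gr2 G p +
        (1 + 1 / δ) * C * (Metric.cthickening (1 / 8) F)ᶜ.indicator (fun p => G p ^ 2) p := by
      intro p
      have h2 := KerUp_gr2 hχ.smooth hG hδ p
      have h3 : 0 ≤ gr2 G p := by unfold gr2; positivity
      have h4 : χ p ^ 2 ≤ 1 := pow_le_one₀ (hχ01 p).1 (hχ01 p).2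
      have h5 : χ p ^ 2 * gr2 G p ≤ gr2 G p := mul_le_of_le_one_left h3 h4
      have h6 : G p ^ 2 * gr2 χ p ≤
          C * (Metric.cthickening (1 / 8) F)ᶜ.indicator (fun p => G p ^ 2) p := by
        by_cases hp : p ∈ Metric.cthickening (1 / 8) F
        · rw [hχ0 p hp, indicator_of_notMem (by simpa using hp)]
          simp
        · rw [indicator_of_mem (by exact hp), mul_comm]
          exact mul_le_mul_of_nonneg_right (hC p) (sq_nonneg _)
      have h7 : 0 ≤ 1 + 1 / δ := by positivity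
      calc gr2 (fun q => χ q * G q) p ≤ _ := h2
        _ ≤ (1 + δ) * gr2 G p + (1 + 1 / δ) *
            (C * (Metric.cthickening (1 / 8) F)ᶜ.indicator (fun p => G p ^ 2) p) :=
            add_le_add (mul_le_mul_of_nonneg_left h5 (by positivity))
              (mul_le_mul_of_nonneg_left h6 h7)
        _ = _ := by ring
    have h2 : ∫ p, gr2 (fun q => χ q * G q) p ≤ ∫ p, ((1 + δ) * gr2 G p +
        (1 + 1 / δ) * C * (Metric.cthickening (1 / 8) F)ᶜ.indicator (fun p => G p ^ 2) p) :=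
      integral_mono hCC.integrable_gr2 ((hGr.const_mul _).add (hindI.const_mul _)) h1
    rw [integral_add (hGr.const_mul _) (hindI.const_mul _), integral_const_mul, integral_const_mul,
      hind] at h2
    unfold en
    linarith
  -- mass
  have hms : ms G - B ≤ ms (fun p => χ p * G p) := by
    rw [← hind]
    unfold ms
    rw [← integral_sub hG2 hindI]
    refine integral_mono (hG2.sub hindI) hCC.integrable_sq fun p => ?_
    show G p ^ 2 - (Metric.cthickening (1 / 8) F)ᶜ.indicator (fun p => G p ^ 2) p ≤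
      (χ p * G p) ^ 2
    by_cases hp : p ∈ Metric.cthickening (1 / 8) F
    · rw [hχ1 p hp, indicator_of_notMem (by simpa using hp)]
      simp
    · rw [indicator_of_mem (by exact hp), sub_self]
      positivity
  have hlam := lam_mul_le hCC
  rw [← hl] at hlam
  rw [hGms]
  rw [hGms] at hgrad
  obtain ⟨a, ha⟩ : ∃ a, a = ms G := ⟨_, rfl⟩
  obtain ⟨m, hm⟩ : ∃ m, m = ms g := ⟨_, rfl⟩
  obtain ⟨e, he⟩ : ∃ e, e = en G := ⟨_, rfl⟩
  have hm0 : 0 ≤ m := by rw [hm]; exact ms_nonneg _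
  rw [← ha, ← hm]
  rw [← ha, ← hm, ← he] at hgrad
  rw [← he] at hen
  rw [← ha] at hms
  rw [← hm] at hout
  have h1 : l * (a - B) ≤ (1 + δ) * e + (1 + 1 / δ) / 2 * C * B :=
    (mul_le_mul_of_nonneg_left hms hl0).trans (hlam.trans hen)
  have h2 : δ * (l * (a - B)) ≤ (1 + δ) * (m - a) + (1 + δ) / 2 * C * B := by
    have h3 := mul_le_mul_of_nonneg_left h1 hδ.le
    have h4 : δ * ((1 + δ) * e + (1 + 1 / δ) / 2 * C * B) =
        (1 + δ) * (δ * e) + (1 + δ) / 2 * C * B := by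
      field_simp
      ring
    rw [h4] at h3
    have h5 : (1 + δ) * (δ * e) ≤ (1 + δ) * (m - a) :=
      mul_le_mul_of_nonneg_left hgrad (by positivity)
    linarith
  have h3 : a * (1 + δ + δ * l) ≤ (1 + δ) * m + ((1 + δ) / 2 * C + δ * l) * B := by
    nlinarith
  have h4 : ((1 + δ) / 2 * C + δ * l) * B ≤ (C + l) * (32768 * δ ^ 2 * m) := by
    refine mul_le_mul ?_ hout hB0 (by positivity)
    have h5 : (1 + δ) / 2 * C ≤ C := by nlinarith
    have h6 : δ * l ≤ l := by nlinarith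
    linarith
  have h5 : a * (1 + δ + δ * l) ≤ ((1 - δ * (l - η)) * m) * (1 + δ + δ * l) := by
    have h6 : 0 ≤ m * δ := by positivity
    have h7 : m * δ * (δ * (32768 * (C + l) + l + l ^ 2 + 1)) ≤ m * δ * η :=
      mul_le_mul_of_nonneg_left hδK h6
    have h8 : ((1 - δ * (l - η)) * m) * (1 + δ + δ * l) - ((1 + δ) * m +
        (C + l) * (32768 * δ ^ 2 * m)) = m * δ * η - m * δ * (δ * (32768 * (C + l) + l + l ^ 2 + 1))
          + m * δ ^ 2 * (η + η * l + 1) := by
      ring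
    have h9 : 0 ≤ m * δ ^ 2 * (η + η * l + 1) := by positivity
    linarith
  exact le_of_mul_le_mul_right h5 (by positivity)

end Pool.Agent.BSv
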