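import Pool.Agent.BSv.Fdd
import Pool.Agent.BSv.KerUp

/-!
# Module SURVUP: upper bound for the probability to stay in a compact set

For `δ = (t-1)/n`: `{∀ s ≤ t, Z_s ∈ F} ⊆ {∀ k ≤ n, Z_{1+kδ} ∈ F}`; `fdd1`, `kf_up` with
`κ = 1 - δ (lam - η)` (`ker_up`; `κ ≥ 0` for `δ` small), `κ^n ≤ exp (-(t-1)(lam - η))`; `η → 0`.
(`t = 1`: trivial from the same bound with `n = 0`.)
-/

open MeasureTheory Set Filter Topology ProbabilityTheory
open scoped ENNReal NNReal ContDiff

noncomputable section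

namespace Pool.Agent.BSv

variable {Ω : Type*} [MeasurableSpace Ω] {P : Measure Ω} {X Y : ℝ≥0 → Ω → ℝ}

theorem surv_up (h : PBM P X Y) {F : Set Pl} (hF : IsCompact F) (hne : F.Nonempty) {t : ℝ≥0}
    (ht : 1 ≤ t) :
    P {o | ∀ s ≤ t, pos X Y 0 s o ∈ F} ≤
      ENNReal.ofReal (√(vol F) * Real.exp (-((t : ℝ) - 1) * lam (Metric.thickening (1 / 4) F))) := by
  have hFm : MeasurableSet F := hF.measurableSet
  have hv : volume F ≠ ⊤ := hF.measure_lt_top.ne
  set L := lam (Metric.thickening (1 / 4) F) with hL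
  have ht1 : (1 : ℝ) ≤ (t : ℝ) := by exact_mod_cast ht
  -- one step size
  have key : ∀ (δ : ℝ≥0) (n : ℕ) (κ : ℝ), 0 < δ → 1 + (n : ℝ≥0) * δ ≤ t → 0 ≤ κ →
      (∀ g, BF F g → ∫ p, g p * Pt δ g p ≤ κ * ms g) →
      P {o | ∀ s ≤ t, pos X Y 0 s o ∈ F} ≤ ENNReal.ofReal (√(vol F) * κ ^ n) := by
    intro δ n κ hδ hn hκ0 hκ
    have h1 : P {o | ∀ s ≤ t, pos X Y 0 s o ∈ F} ≤
        P {o | ∀ k ≤ n, pos X Y 0 (1 + k * δ) o ∈ F} := by
      refine measure_mono fun o ho k hk => ho _ ?_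
      refine le_trans ?_ hn
      gcongr
    refine h1.trans ?_
    rw [fdd1 h hδ hFm n]
    exact ENNReal.ofReal_le_ofReal (kf_up (by exact_mod_cast hδ) hFm hv hκ0 hκ n)
  -- for every `η`
  have hη : ∀ η : ℝ, 0 < η → P {o | ∀ s ≤ t, pos X Y 0 s o ∈ F} ≤
      ENNReal.ofReal (√(vol F) * Real.exp (-((t : ℝ) - 1) * (L - η))) := by
    intro η hη
    obtain ⟨δ0, hδ0, hker⟩ := ker_up hF hne hη
    rcases ht.eq_or_lt with h1 | h1
    · -- `t = 1`
      let δ1 : ℝ := min δ0 (1 / (|L - η| + 1))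
      have hδ1 : 0 < δ1 := lt_min hδ0 (by positivity)
      have hκ0 : 0 ≤ 1 - δ1 * (L - η) := by
        have h2 : δ1 ≤ 1 / (|L - η| + 1) := min_le_right _ _
        have h3 : δ1 * (L - η) ≤ δ1 * (|L - η| + 1) :=
          mul_le_mul_of_nonneg_left (by linarith [le_abs_self (L - η)]) hδ1.le
        have h4 : δ1 * (|L - η| + 1) ≤ 1 := by
          rwa [le_div_iff₀ (by positivity)] at h2
        linarith
      have h2 := key ⟨δ1, hδ1.le⟩ 0 (1 - δ1 * (L - η)) (by exact_mod_cast hδ1)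
        (by rw [← h1]; simp) hκ0 fun g hg => hker δ1 hδ1 (min_le_left _ _) g hg
      rw [pow_zero, mul_one] at h2
      have e : (t : ℝ) = 1 := by rw [← h1]; rfl
      rw [e, sub_self, neg_zero, zero_mul, Real.exp_zero, mul_one]
      exact h2
    · have ht1' : (1 : ℝ) < (t : ℝ) := by exact_mod_cast h1
      obtain ⟨n, hn⟩ := exists_nat_gt (((t : ℝ) - 1) / min δ0 (1 / (|L - η| + 1)))
      have hm : 0 < min δ0 (1 / (|L - η| + 1)) := lt_min hδ0 (by positivity)
      have hn0 : (0 : ℝ) < n := lt_trans (div_pos (by linarith) hm) hn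
      have hδeq : (((t - 1) / (n : ℝ≥0) : ℝ≥0) : ℝ) = ((t : ℝ) - 1) / n := by
        rw [NNReal.coe_div, NNReal.coe_sub ht]
        simp
      set δ : ℝ≥0 := (t - 1) / (n : ℝ≥0) with hδ
      have hδ0' : (0 : ℝ) < δ := by
        rw [hδeq]
        exact div_pos (by linarith) hn0
      have hδle : (δ : ℝ) ≤ min δ0 (1 / (|L - η| + 1)) := by
        rw [hδeq, div_le_iff₀ hn0]
        rw [div_lt_iff₀ hm] at hn
        linarith
      have hκ0 : 0 ≤ 1 - (δ : ℝ) * (L - η) := by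
        have h2 : (δ : ℝ) ≤ 1 / (|L - η| + 1) := hδle.trans (min_le_right _ _)
        have h3 : (δ : ℝ) * (L - η) ≤ δ * (|L - η| + 1) :=
          mul_le_mul_of_nonneg_left (by linarith [le_abs_self (L - η)]) hδ0'.le
        have h4 : (δ : ℝ) * (|L - η| + 1) ≤ 1 := by
          rwa [le_div_iff₀ (by positivity)] at h2
        linarith
      have hnδ : (n : ℝ) * (δ : ℝ) = (t : ℝ) - 1 := by
        rw [hδeq]
        field_simp
      have h2 := key δ n (1 - (δ : ℝ) * (L - η)) (by exact_mod_cast hδ0')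
        (by
          rw [← NNReal.coe_le_coe]
          push_cast
          linarith) hκ0 fun g hg => hker δ hδ0' (hδle.trans (min_le_left _ _)) g hg
      refine h2.trans (ENNReal.ofReal_le_ofReal (mul_le_mul_of_nonneg_left ?_ (Real.sqrt_nonneg _)))
      have h3 : 1 - (δ : ℝ) * (L - η) ≤ Real.exp (-((δ : ℝ) * (L - η))) := by
        have := Real.add_one_le_exp (-((δ : ℝ) * (L - η)))
        linarith
      refine (pow_le_pow_left₀ hκ0 h3 n).trans (le_of_eq ?_)
      rw [← Real.exp_nat_mul]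
      congr 1
      linear_combination -(L - η) * hnδ
  have hlim : Tendsto (fun η : ℝ => ENNReal.ofReal (√(vol F) *
      Real.exp (-((t : ℝ) - 1) * (L - η)))) (𝓝[>] 0)
      (𝓝 (ENNReal.ofReal (√(vol F) * Real.exp (-((t : ℝ) - 1) * (L - 0))))) := by
    refine Tendsto.mono_left ?_ nhdsWithin_le_nhds
    exact (ENNReal.continuous_ofReal.comp (by fun_prop)).tendsto _
  rw [sub_zero] at hlim
  exact ge_of_tendsto hlim (eventually_nhdsWithin_of_forall fun η hη' => hη η hη')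

end Pool.Agent.BSv
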