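import Pool.Agent.BSv.Key
import Pool.Agent.BSv.ProbSum

/-!
# Module UPPER: the upper bound for radius 2 (helper98)
-/

open MeasureTheory Set Filter Topology ProbabilityTheory
open scoped ENNReal NNReal ContDiff

noncomputable section

namespace Pool.Agent.BSv

theorem quarter {t : ℝ} (ht : 1 ≤ t) : 1 ≤ t ^ (1 / 4 : ℝ) ∧ (t ^ (1 / 4 : ℝ)) ^ 2 = √t ∧
    (t ^ (1 / 4 : ℝ)) ^ 4 = t := by
  have h0 : 0 ≤ t := by linarith
  refine ⟨Real.one_le_rpow ht (by norm_num), ?_, ?_⟩
  · rw [← Real.rpow_natCast, ← Real.rpow_mul h0, Real.sqrt_eq_rpow]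
    norm_num
  · rw [← Real.rpow_natCast, ← Real.rpow_mul h0]
    norm_num

theorem card_box (N : ℕ) : ((box N).card : ℝ) = (2 * (N : ℝ) + 3) ^ 2 := by
  unfold box
  rw [Finset.card_product, Int.card_Icc]
  have : ((N : ℤ) + 1 + 1 - (-(N : ℤ) - 1)).toNat = 2 * N + 3 := by omega
  rw [this]
  push_cast
  ring

theorem pow_le_exp {r : ℝ} (hr : 0 ≤ r) (n : ℕ) : r ^ n ≤ Real.exp (n * r) := by
  rw [Real.exp_nat_mul]
  have : r ≤ Real.exp r := by
    have := Real.add_one_le_exp r
    linarith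
  gcongr

theorem upper (ν : ℝ) (hν : 0 < ν) : ∃ C : ℝ, ∀ (Ω : Type) [MeasurableSpace Ω] (P : Measure Ω)
    (X Y : ℝ≥0 → Ω → ℝ), PBM P X Y → ∀ t : ℝ≥0, 1 ≤ t →
    surv P X Y ν 2 t ≤ Real.exp (-(cst ν) * √t + C * (t : ℝ) ^ (1 / 4 : ℝ)) := by
  have hc := cst_pos hν
  set c := cst ν with hcdef
  set KV : ℝ := (4 * c / ν + 5) ^ 2 with hKV
  have hKV1 : 1 ≤ KV := by
    have : 0 < 4 * c / ν := by positivity
    rw [hKV]; nlinarith
  have hKV0 : 0 < KV := by linarith
  have hlog : 0 < Real.log 192 := Real.log_pos (by norm_num)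
  obtain ⟨C0, r0, hr0, hkey⟩ := key ν hν (Real.log 192) KV hlog hKV0
  set A0 : ℝ := 6 * KV ^ 3 * Real.exp (2 * c) with hA0
  have hA0pos : 0 < A0 := by positivity
  have hA01 : 1 ≤ A0 := by
    have h1 : 1 ≤ Real.exp (2 * c) := Real.one_le_exp (by positivity)
    have h2 : 1 ≤ KV ^ 3 := one_le_pow₀ hKV1
    nlinarith
  refine ⟨max (c * r0) (12 + |C0| + Real.log A0), ?_⟩
  intro Ω _ P X Y h t ht
  have ht1 : (1 : ℝ) ≤ (t : ℝ) := by exact_mod_cast ht
  obtain ⟨hr1, hrsq, hr4⟩ := quarter ht1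
  set r : ℝ := (t : ℝ) ^ (1 / 4 : ℝ) with hr
  have hrpos : 0 < r := by linarith
  rw [← hrsq]
  by_cases hcase : r < r0
  · -- small times
    refine (surv_le_one h hν (by norm_num) t).trans ?_
    apply Real.one_le_exp
    have h1 : c * r0 * r ≤ max (c * r0) (12 + |C0| + Real.log A0) * r := by
      gcongr; exact le_max_left _ _
    have h2 : c * r ^ 2 ≤ c * r0 * r := by
      have : r ^ 2 ≤ r0 * r := by nlinarith
      nlinarith
    linarith
  · push Not at hcase
    set q := Real.exp (-ν) with hq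
    have hq0 : 0 < q := Real.exp_pos _
    have hq1 : q ≤ 1 := by rw [hq]; exact Real.exp_le_one_iff.mpr (by linarith)
    set N : ℕ := ⌈2 * c * r ^ 2 / ν⌉₊ with hN
    have hN1 : 2 * c * r ^ 2 ≤ ν * N := by
      have := Nat.le_ceil (2 * c * r ^ 2 / ν)
      rw [div_le_iff₀ hν] at this
      linarith
    have hN2 : (N : ℝ) ≤ 2 * c * r ^ 2 / ν + 1 := (Nat.ceil_lt_add_one (by positivity)).le
    have hbox : ((box N).card : ℝ) ≤ KV * r ^ 4 := by
      rw [card_box]
      have h1 : 2 * (N : ℝ) + 3 ≤ (4 * c / ν + 5) * r ^ 2 := by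
        have h2 : (1 : ℝ) ≤ r ^ 2 := one_le_pow₀ hr1
        have h3 : (4 * c / ν + 5) * r ^ 2 = 2 * (2 * c * r ^ 2 / ν) + 5 * r ^ 2 := by
          field_simp
          ring
        rw [h3]; linarith
      calc (2 * (N : ℝ) + 3) ^ 2 ≤ ((4 * c / ν + 5) * r ^ 2) ^ 2 := by gcongr
        _ = KV * r ^ 4 := by rw [hKV]; ring
    have hmain := surv_le_sum h hν ht N
    rw [← hr4] at hmain
    rw [← hq] at hmain
    set S0 := (box N).powerset.erase ∅ with hS0
    have hS0sub : S0 ⊆ (box N).powerset := Finset.erase_subset _ _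
    let g : Finset (ℤ × ℤ) → ℝ := fun V => √V.card * Real.exp (-(r ^ 4 - 1) * lam (UV V))
    classical
    have hsplit : ∑ V ∈ S0, wt q (box N) V * g V =
        ∑ V ∈ S0 with lam (UV V) ≤ 2 * c / r ^ 2, wt q (box N) V * g V +
        ∑ V ∈ S0 with ¬ lam (UV V) ≤ 2 * c / r ^ 2, wt q (box N) V * g V :=
      (Finset.sum_filter_add_sum_filter_not _ _ _).symm
    have hcardV : ∀ V ∈ S0, (V.card : ℝ) ≤ KV * r ^ 4 := by
      intro V hV
      have h1 : V ⊆ box N := Finset.mem_powerset.mp (hS0sub hV)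
      have h2 : (V.card : ℝ) ≤ (box N).card := by exact_mod_cast Finset.card_le_card h1
      linarith
    have hsqrtV : ∀ V ∈ S0, √(V.card : ℝ) ≤ KV * r ^ 4 := by
      intro V hV
      have h1 : (1 : ℝ) ≤ V.card := by
        have : V ≠ ∅ := (Finset.mem_erase.mp hV).1
        exact_mod_cast Finset.card_pos.mpr (Finset.nonempty_iff_ne_empty.mpr this)
      have h2 : √(V.card : ℝ) ≤ V.card := by
        rw [Real.sqrt_le_left (by linarith)]
        nlinarith
      exact h2.trans (hcardV V hV)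
    -- the bad configurations
    have hbad : ∑ V ∈ S0 with ¬ lam (UV V) ≤ 2 * c / r ^ 2, wt q (box N) V * g V ≤
        KV * r ^ 4 * Real.exp (2 * c) * Real.exp (-(c * r ^ 2)) := by
      have h1 : ∀ V ∈ S0.filter (fun V => ¬ lam (UV V) ≤ 2 * c / r ^ 2), wt q (box N) V * g V ≤
          wt q (box N) V * (KV * r ^ 4 * Real.exp (2 * c) * Real.exp (-(c * r ^ 2))) := by
        intro V hV
        rw [Finset.mem_filter, not_le] at hV
        apply mul_le_mul_of_nonneg_left _ (wt_nonneg hq0.le hq1 _ _)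
        show √(V.card : ℝ) * Real.exp (-(r ^ 4 - 1) * lam (UV V)) ≤ _
        have h2 : -(r ^ 4 - 1) * lam (UV V) ≤ 2 * c + -(c * r ^ 2) := by
          have h3 : (1 : ℝ) ≤ r ^ 4 := one_le_pow₀ hr1
          have h4 : (r ^ 4 - 1) * (2 * c / r ^ 2) ≤ (r ^ 4 - 1) * lam (UV V) :=
            mul_le_mul_of_nonneg_left hV.2.le (by linarith)
          have h5 : (r ^ 4 - 1) * (2 * c / r ^ 2) = 2 * c * r ^ 2 - 2 * c / r ^ 2 := by
            field_simp
          have h6 : 2 * c / r ^ 2 ≤ 2 * c := by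
            apply div_le_self (by positivity) (one_le_pow₀ hr1)
          have h7 : 0 ≤ c * r ^ 2 := by positivity
          linarith
        calc √(V.card : ℝ) * Real.exp (-(r ^ 4 - 1) * lam (UV V)) ≤
            (KV * r ^ 4) * Real.exp (2 * c + -(c * r ^ 2)) := by
              gcongr
              exact hsqrtV V hV.1
          _ = _ := by rw [Real.exp_add]; ring
      refine (Finset.sum_le_sum h1).trans ?_
      rw [← Finset.sum_mul]
      have h2 : ∑ V ∈ S0 with ¬ lam (UV V) ≤ 2 * c / r ^ 2, wt q (box N) V ≤ 1 := by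
        have h3 := sum_wt_le hq0.le hq1 (box N)
          (S0.filter fun V => ¬ lam (UV V) ≤ 2 * c / r ^ 2)
          ((Finset.filter_subset _ _).trans hS0sub) ∅
        rw [Finset.card_empty, pow_zero] at h3
        refine le_trans (le_of_eq ?_) h3
        apply Finset.sum_congr _ (fun _ _ => rfl)
        rw [Finset.filter_filter]
        simp
      calc _ ≤ 1 * (KV * r ^ 4 * Real.exp (2 * c) * Real.exp (-(c * r ^ 2))) := by gcongr
        _ = _ := by ring
    -- the good configurations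
    set A : ℝ := KV * r ^ 4 * Real.exp (2 * c) * Real.exp (-(c * r ^ 2) + C0 * r) with hA
    have hApos : 0 < A := by positivity
    have hgood : ∑ V ∈ S0 with lam (UV V) ≤ 2 * c / r ^ 2, wt q (box N) V * g V ≤
        A * (2 * (((box N).card + 1) * (box N).card)) := by
      apply union_bound hq0 hq1 (box N) _ ((Finset.filter_subset _ _).trans hS0sub) g hApos.le
      intro V hV
      rw [Finset.mem_filter] at hV
      have hVne : V.Nonempty := Finset.nonempty_iff_ne_empty.mpr (Finset.mem_erase.mp hV.1).1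
      obtain ⟨k, i, j, w, g1, g2, g3⟩ := hkey r hcase V hVne (hcardV V hV.1) hV.2
      refine ⟨k, i, j, w, g1, g2, ?_⟩
      show √(V.card : ℝ) * Real.exp (-(r ^ 4 - 1) * lam (UV V)) ≤ _
      set m := (Tst (wlk w (k, i, j, true))).card with hm
      have h1 : -(r ^ 4 - 1) * lam (UV V) ≤
          2 * c + (-(c * r ^ 2) + C0 * r) + (w.length : ℝ) * (-Real.log 192) + (m : ℝ) * ν := by
        have h2 : lam (UV V) ≤ 2 * c :=
          hV.2.trans (div_le_self (by positivity) (one_le_pow₀ hr1))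
        linarith
      have h192 : (1 / 192 : ℝ) ^ w.length = Real.exp ((w.length : ℝ) * (-Real.log 192)) := by
        rw [Real.exp_nat_mul, Real.exp_neg, Real.exp_log (by norm_num)]
        norm_num
      have hqm : (1 / q) ^ m = Real.exp ((m : ℝ) * ν) := by
        rw [Real.exp_nat_mul, hq, Real.exp_neg]
        norm_num
      rw [h192, hqm, hA]
      calc √(V.card : ℝ) * Real.exp (-(r ^ 4 - 1) * lam (UV V)) ≤
          (KV * r ^ 4) * Real.exp (2 * c + (-(c * r ^ 2) + C0 * r) +
            (w.length : ℝ) * (-Real.log 192) + (m : ℝ) * ν) := by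
            gcongr
            exact hsqrtV V hV.1
        _ = _ := by
            rw [Real.exp_add, Real.exp_add, Real.exp_add]
            ring
    -- summing up
    have hboxpos : 0 ≤ ((box N).card : ℝ) := Nat.cast_nonneg _
    have hr41 : (1 : ℝ) ≤ r ^ 4 := one_le_pow₀ hr1
    have hKr1 : 1 ≤ KV * r ^ 4 := by nlinarith
    have hpoly : 2 * (((box N).card + 1 : ℝ) * (box N).card) ≤ 4 * KV ^ 2 * r ^ 8 := by
      have h1 : ((box N).card + 1 : ℝ) ≤ 2 * (KV * r ^ 4) := by linarith
      calc 2 * (((box N).card + 1 : ℝ) * (box N).card) ≤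
          2 * ((2 * (KV * r ^ 4)) * (KV * r ^ 4)) := by gcongr
        _ = _ := by ring
    have hE1 : Real.exp (-ν * N) ≤ Real.exp (-(c * r ^ 2)) := by
      apply Real.exp_le_exp.mpr
      have : 0 ≤ c * r ^ 2 := by positivity
      linarith
    have hr12 : r ^ 12 ≤ Real.exp (12 * r) := by
      have := pow_le_exp hrpos.le 12
      exact_mod_cast this
    have hC0r : C0 * r ≤ |C0| * r := by gcongr; exact le_abs_self _
    have hX1 : (1 : ℝ) ≤ Real.exp (|C0| * r) := Real.one_le_exp (by positivity)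
    have hgood' : A * (2 * (((box N).card + 1) * (box N).card)) ≤
        4 * KV ^ 3 * Real.exp (2 * c) * (Real.exp (-(c * r ^ 2)) * Real.exp (|C0| * r) *
          Real.exp (12 * r)) := by
      have h1 : A ≤ KV * r ^ 4 * Real.exp (2 * c) * (Real.exp (-(c * r ^ 2)) *
          Real.exp (|C0| * r)) := by
        rw [hA, Real.exp_add]; gcongr
      calc A * (2 * (((box N).card + 1) * (box N).card)) ≤
          (KV * r ^ 4 * Real.exp (2 * c) * (Real.exp (-(c * r ^ 2)) *
          Real.exp (|C0| * r))) * (4 * KV ^ 2 * r ^ 8) := by gcongr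
        _ = 4 * KV ^ 3 * Real.exp (2 * c) * (Real.exp (-(c * r ^ 2)) * Real.exp (|C0| * r) *
          r ^ 12) := by ring
        _ ≤ _ := by gcongr
    have hbad' : KV * r ^ 4 * Real.exp (2 * c) * Real.exp (-(c * r ^ 2)) ≤
        KV ^ 3 * Real.exp (2 * c) * (Real.exp (-(c * r ^ 2)) * Real.exp (|C0| * r) *
          Real.exp (12 * r)) := by
      have h1 : r ^ 4 ≤ Real.exp (12 * r) := by
        calc r ^ 4 ≤ r ^ 12 := pow_le_pow_right₀ hr1 (by norm_num)
          _ ≤ _ := hr12
      have h2 : KV ≤ KV ^ 3 := by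
        calc KV = KV ^ 1 := by ring
          _ ≤ KV ^ 3 := pow_le_pow_right₀ hKV1 (by norm_num)
      calc KV * r ^ 4 * Real.exp (2 * c) * Real.exp (-(c * r ^ 2)) ≤
          KV ^ 3 * Real.exp (12 * r) * Real.exp (2 * c) * Real.exp (-(c * r ^ 2)) := by gcongr
        _ = KV ^ 3 * Real.exp (2 * c) * (Real.exp (-(c * r ^ 2)) * 1 * Real.exp (12 * r)) := by
            ring
        _ ≤ _ := by gcongr
    have hfirst : Real.exp (-(c * r ^ 2)) ≤
        KV ^ 3 * Real.exp (2 * c) * (Real.exp (-(c * r ^ 2)) * Real.exp (|C0| * r) *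
          Real.exp (12 * r)) := by
      have h1 : 1 ≤ KV ^ 3 := one_le_pow₀ hKV1
      have h2 : 1 ≤ Real.exp (2 * c) := Real.one_le_exp (by positivity)
      have h3 : 1 ≤ Real.exp (12 * r) := Real.one_le_exp (by positivity)
      calc Real.exp (-(c * r ^ 2)) = 1 * 1 * (Real.exp (-(c * r ^ 2)) * 1 * 1) := by ring
        _ ≤ _ := by gcongr
    have htotal : surv P X Y ν 2 t ≤ A0 * (Real.exp (-(c * r ^ 2)) * Real.exp (|C0| * r) *
          Real.exp (12 * r)) := by
      have h1 : surv P X Y ν 2 t ≤ Real.exp (-ν * N) + ∑ V ∈ S0, wt q (box N) V * g V := hmain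
      rw [hsplit] at h1
      have h2 : A0 * (Real.exp (-(c * r ^ 2)) * Real.exp (|C0| * r) * Real.exp (12 * r)) =
          KV ^ 3 * Real.exp (2 * c) * (Real.exp (-(c * r ^ 2)) * Real.exp (|C0| * r) *
          Real.exp (12 * r)) + KV ^ 3 * Real.exp (2 * c) * (Real.exp (-(c * r ^ 2)) *
          Real.exp (|C0| * r) * Real.exp (12 * r)) + 4 * KV ^ 3 * Real.exp (2 * c) *
          (Real.exp (-(c * r ^ 2)) * Real.exp (|C0| * r) * Real.exp (12 * r)) := by
        rw [hA0]; ring
      linarith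
    refine htotal.trans ?_
    have h1 : A0 * (Real.exp (-(c * r ^ 2)) * Real.exp (|C0| * r) * Real.exp (12 * r)) =
        Real.exp (Real.log A0 + (-(c * r ^ 2) + |C0| * r + 12 * r)) := by
      rw [Real.exp_add (Real.log A0), Real.exp_log hA0pos, Real.exp_add, Real.exp_add]
    rw [h1]
    apply Real.exp_le_exp.mpr
    have hlogA : 0 ≤ Real.log A0 := Real.log_nonneg hA01
    have h2 : Real.log A0 ≤ Real.log A0 * r := by nlinarith
    have h3 : (12 + |C0| + Real.log A0) * r ≤ max (c * r0) (12 + |C0| + Real.log A0) * r := by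
      gcongr; exact le_max_right _ _
    linarith

end Pool.Agent.BSv
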