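import Pool.Agent.BSv.Poin

/-!
# Module CAP: a function vanishing on the middle of a unit cell has small average

`cap`: `N ≥ 1`, integers `x, y`, the square `R = sq x y N` contains the unit cell `c`, `v = 0` on
`ob c`.  Then `(∫_R v)² ≤ C N⁴ (1 + log2 N)² ∫_R gr2 v`.

PROOF.  Nested squares with integer corners `cell c = O_0 ⊆ O_1 ⊆ … ⊆ O_m ⊆ R`, `O_j` of side `2^j`,
`2^m ≤ N < 2^(m+1)`, `m = Nat.log 2 N`: in the first coordinate the interval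
`[max x (c1 + 1 - 2^j), max x (c1 + 1 - 2^j) + 2^j]` (it contains `[c1, c1+1]`, is nested in `j` and is
contained in `[x, x+N]`), the same in the second one.  `avg_diff` for `ob c ⊆ O_0`
(`vol = 1/4`, average `0`): `avg_{O_0}² ≤ 8 E`, with `E = ∫_R gr2 v`; for `O_j ⊆ O_{j+1}`:
`(avg_{O_j} - avg_{O_{j+1}})² ≤ 2 · 4^(j+1) / 4^j E = 8 E`; for `O_m ⊆ R`:
`(avg_{O_m} - avg_R)² ≤ 2 N² / 4^m E ≤ 8 E`.  So `|avg_R| ≤ (m + 2) √(8 E)`.
-/

open MeasureTheory Set Filter Topology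
open scoped ENNReal NNReal ContDiff

noncomputable section

namespace Pool.Agent.BSv

private theorem Cap_gr2_cont {v : Pl → ℝ} (hv : ContDiff ℝ 1 v) : Continuous (gr2 v) := by
  have h : Continuous (fderiv ℝ v) := hv.continuous_fderiv one_ne_zero
  unfold gr2 dx dy
  fun_prop

private theorem Cap_gr2_nonneg (v : Pl → ℝ) (p : Pl) : 0 ≤ gr2 v p := by
  unfold gr2
  positivity

private theorem Cap_meas (x y L : ℝ) : MeasurableSet (sq x y L) :=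
  measurableSet_Icc.prod measurableSet_Icc

private theorem Cap_int {f : Pl → ℝ} (hf : Continuous f) (x y L : ℝ) :
    IntegrableOn f (sq x y L) :=
  hf.continuousOn.integrableOn_compact (isCompact_Icc.prod isCompact_Icc)

private theorem Cap_sub {x y L x' y' l : ℝ} (h1 : x ≤ x') (h2 : x' + l ≤ x + L) (h3 : y ≤ y')
    (h4 : y' + l ≤ y + L) : sq x' y' l ⊆ sq x y L :=
  Set.prod_mono (Icc_subset_Icc h1 h2) (Icc_subset_Icc h3 h4)

private theorem Cap_mono {v : Pl → ℝ} (hv : ContDiff ℝ 1 v) {x y L : ℝ} {S : Set Pl}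
    (h : S ⊆ sq x y L) : ∫ p in S, gr2 v p ≤ ∫ p in sq x y L, gr2 v p := by
  apply setIntegral_mono_set (Cap_int (Cap_gr2_cont hv) x y L)
  · exact Eventually.of_forall fun p => Cap_gr2_nonneg v p
  · exact h.eventuallyLE

/-- comparison of two squares -/
private theorem Cap_step {v : Pl → ℝ} (hv : ContDiff ℝ 1 v) {x y L x' y' l E : ℝ} (hl : 0 < l)
    (hL : 0 < L) (hLl : L ^ 2 ≤ 4 * l ^ 2) (h : sq x' y' l ⊆ sq x y L)
    (hE : ∫ p in sq x y L, gr2 v p ≤ E) :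
    |(∫ p in sq x' y' l, v p) / l ^ 2 - (∫ p in sq x y L, v p) / L ^ 2| ≤ √(8 * E) := by
  have hvol : vol (sq x' y' l) = l ^ 2 := vol_sq x' y' hl.le
  have h1 := avg_diff hv x y hL h (Cap_meas _ _ _) (by rw [hvol]; positivity)
  rw [hvol] at h1
  apply Real.abs_le_sqrt
  have hE0 : 0 ≤ E := by
    refine le_trans ?_ hE
    exact setIntegral_nonneg (Cap_meas _ _ _) fun p _ => Cap_gr2_nonneg v p
  have h2 : ((∫ p in sq x' y' l, v p) / l ^ 2 - (∫ p in sq x y L, v p) / L ^ 2) ^ 2 * l ^ 2 ≤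
      (8 * E) * l ^ 2 := by
    refine h1.trans ?_
    calc 2 * L ^ 2 * ∫ p in sq x y L, gr2 v p ≤ 2 * L ^ 2 * E := by gcongr
      _ ≤ 2 * (4 * l ^ 2) * E := by gcongr
      _ = 8 * E * l ^ 2 := by ring
  exact le_of_mul_le_mul_right h2 (by positivity)

private theorem Cap_ob_vol (c : ℤ × ℤ) : vol (ob c) = 1 / 4 := by
  unfold ob
  rw [vol_sq _ _ (by norm_num)]
  norm_num

/-- averages over squares of side `2 ^ m` -/
private theorem Cap_dy {v : Pl → ℝ} (hv : ContDiff ℝ 1 v) {c : ℤ × ℤ} (h0 : ∀ p ∈ ob c, v p = 0)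
    {E : ℝ} (m : ℕ) : ∀ x y : ℤ, x ≤ c.1 → c.1 + 1 ≤ x + 2 ^ m → y ≤ c.2 →
      c.2 + 1 ≤ y + 2 ^ m → ∫ p in sq x y (2 ^ m), gr2 v p ≤ E →
      |(∫ p in sq x y (2 ^ m), v p) / (2 ^ m) ^ 2| ≤ (m + 1) * √(8 * E) := by
  induction m with
  | zero =>
    intro x y hx1 hx2 hy1 hy2 hE
    rw [pow_zero] at hx2 hy2 hE ⊢
    have hx : x = c.1 := le_antisymm hx1 (by omega)
    have hy : y = c.2 := le_antisymm hy1 (by omega)
    subst hx hy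
    have hsub : ob c ⊆ sq (c.1 : ℝ) c.2 1 := by
      apply Cap_sub <;> linarith
    have h1 := avg_diff hv (c.1 : ℝ) c.2 one_pos hsub (Cap_meas _ _ _)
      (by rw [Cap_ob_vol]; norm_num)
    have h2 : ∫ p in ob c, v p = 0 := by
      have h3 : ∫ p in ob c, v p = ∫ p in ob c, (0 : ℝ) :=
        setIntegral_congr_fun (Cap_meas _ _ _) (fun p hp => h0 p hp)
      rw [h3]
      simp
    rw [h2, Cap_ob_vol] at h1
    have h3 : |(∫ p in sq (c.1 : ℝ) c.2 1, v p) / 1 ^ 2| ≤ √(8 * E) := by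
      apply Real.abs_le_sqrt
      nlinarith
    simpa using h3
  | succ m ih =>
    intro x y hx1 hx2 hy1 hy2 hE
    have hp : (2 : ℤ) ^ (m + 1) = 2 ^ m + 2 ^ m := by rw [pow_succ]; ring
    have hp0 : (0 : ℤ) < 2 ^ m := by positivity
    rw [hp] at hx2 hy2
    obtain ⟨x', hx', hx'2, hx'3, hx'4⟩ : ∃ x' : ℤ, x ≤ x' ∧ x' + 2 ^ m ≤ x + (2 ^ m + 2 ^ m) ∧
        x' ≤ c.1 ∧ c.1 + 1 ≤ x' + 2 ^ m := by
      refine ⟨max x (c.1 + 1 - 2 ^ m), le_max_left _ _, ?_, ?_, ?_⟩ <;> omega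
    obtain ⟨y', hy', hy'2, hy'3, hy'4⟩ : ∃ y' : ℤ, y ≤ y' ∧ y' + 2 ^ m ≤ y + (2 ^ m + 2 ^ m) ∧
        y' ≤ c.2 ∧ c.2 + 1 ≤ y' + 2 ^ m := by
      refine ⟨max y (c.2 + 1 - 2 ^ m), le_max_left _ _, ?_, ?_, ?_⟩ <;> omega
    have hsub : sq (x' : ℝ) y' (2 ^ m) ⊆ sq (x : ℝ) y (2 ^ (m + 1)) := by
      apply Cap_sub
      · exact_mod_cast hx'
      · have : ((x' + 2 ^ m : ℤ) : ℝ) ≤ ((x + (2 ^ m + 2 ^ m) : ℤ) : ℝ) := by exact_mod_cast hx'2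
        push_cast at this
        rw [pow_succ]
        linarith
      · exact_mod_cast hy'
      · have : ((y' + 2 ^ m : ℤ) : ℝ) ≤ ((y + (2 ^ m + 2 ^ m) : ℤ) : ℝ) := by exact_mod_cast hy'2
        push_cast at this
        rw [pow_succ]
        linarith
    have hE' := (Cap_mono hv hsub).trans hE
    have h1 := ih x' y' hx'3 hx'4 hy'3 hy'4 hE'
    have h2 := Cap_step hv (E := E) (l := 2 ^ m) (L := 2 ^ (m + 1)) (by positivity)
      (by positivity) (le_of_eq (by rw [pow_succ]; ring)) hsub hE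
    have h3 : |(∫ p in sq (x : ℝ) y (2 ^ (m + 1)), v p) / (2 ^ (m + 1)) ^ 2| ≤
        (m + 1) * √(8 * E) + √(8 * E) := by
      rw [abs_sub_comm] at h2
      have h4 := abs_add_le ((∫ p in sq (x : ℝ) y (2 ^ (m + 1)), v p) / (2 ^ (m + 1)) ^ 2 -
        (∫ p in sq (x' : ℝ) y' (2 ^ m), v p) / (2 ^ m) ^ 2)
        ((∫ p in sq (x' : ℝ) y' (2 ^ m), v p) / (2 ^ m) ^ 2)
      rw [sub_add_cancel] at h4
      linarith
    refine h3.trans (le_of_eq ?_)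
    push_cast
    ring

theorem cap : ∃ C : ℝ, 0 < C ∧ ∀ (N : ℕ), 1 ≤ N → ∀ (x y : ℤ) (c : ℤ × ℤ),
    x ≤ c.1 → c.1 + 1 ≤ x + N → y ≤ c.2 → c.2 + 1 ≤ y + N →
    ∀ v : Pl → ℝ, ContDiff ℝ 1 v → (∀ p ∈ ob c, v p = 0) →
    (∫ p in sq x y N, v p) ^ 2 ≤
      C * (N : ℝ) ^ 4 * (1 + Nat.log 2 N) ^ 2 * ∫ p in sq x y N, gr2 v p := by
  refine ⟨32, by norm_num, fun N hN x y c hx1 hx2 hy1 hy2 v hv h0 => ?_⟩
  set m := Nat.log 2 N with hm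
  have hmN : 2 ^ m ≤ N := Nat.pow_log_le_self 2 (by omega)
  have hNm : N < 2 ^ (m + 1) := Nat.lt_pow_succ_log_self (by norm_num) N
  have hmN' : (2 : ℤ) ^ m ≤ N := by exact_mod_cast hmN
  have hN0 : (0 : ℝ) < N := by exact_mod_cast hN
  have hp0 : (0 : ℤ) < 2 ^ m := by positivity
  obtain ⟨x', hx', hx'2, hx'3, hx'4⟩ : ∃ x' : ℤ, x ≤ x' ∧ x' + 2 ^ m ≤ x + N ∧
      x' ≤ c.1 ∧ c.1 + 1 ≤ x' + 2 ^ m := by
    refine ⟨max x (c.1 + 1 - 2 ^ m), le_max_left _ _, ?_, ?_, ?_⟩ <;> omega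
  obtain ⟨y', hy', hy'2, hy'3, hy'4⟩ : ∃ y' : ℤ, y ≤ y' ∧ y' + 2 ^ m ≤ y + N ∧
      y' ≤ c.2 ∧ c.2 + 1 ≤ y' + 2 ^ m := by
    refine ⟨max y (c.2 + 1 - 2 ^ m), le_max_left _ _, ?_, ?_, ?_⟩ <;> omega
  have hsub : sq (x' : ℝ) y' (2 ^ m) ⊆ sq (x : ℝ) y N := by
    apply Cap_sub
    · exact_mod_cast hx'
    · exact_mod_cast hx'2
    · exact_mod_cast hy'
    · exact_mod_cast hy'2
  set E := ∫ p in sq (x : ℝ) y N, gr2 v p with hE
  have hE0 : 0 ≤ E := setIntegral_nonneg (Cap_meas _ _ _) fun p _ => Cap_gr2_nonneg v p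
  have h1 := Cap_dy hv h0 m x' y' hx'3 hx'4 hy'3 hy'4 (Cap_mono hv hsub)
  have hN2 : (N : ℝ) ^ 2 ≤ 4 * (2 ^ m) ^ 2 := by
    have h2 : (N : ℝ) ≤ 2 * 2 ^ m := by
      have : (N : ℝ) ≤ 2 ^ (m + 1) := by exact_mod_cast hNm.le
      rw [pow_succ] at this
      linarith
    nlinarith
  have h2 := Cap_step hv (E := E) (l := 2 ^ m) (L := N) (by positivity) hN0 hN2 hsub le_rfl
  have h3 : |(∫ p in sq (x : ℝ) y N, v p) / (N : ℝ) ^ 2| ≤ (m + 2) * √(8 * E) := by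
    rw [abs_sub_comm] at h2
    have h4 := abs_add_le ((∫ p in sq (x : ℝ) y N, v p) / (N : ℝ) ^ 2 -
      (∫ p in sq (x' : ℝ) y' (2 ^ m), v p) / (2 ^ m) ^ 2)
      ((∫ p in sq (x' : ℝ) y' (2 ^ m), v p) / (2 ^ m) ^ 2)
    rw [sub_add_cancel] at h4
    linarith
  have h4 := pow_le_pow_left₀ (abs_nonneg _) h3 2
  rw [sq_abs, mul_pow, Real.sq_sqrt (by positivity)] at h4
  have h5 : (∫ p in sq (x : ℝ) y N, v p) ^ 2 =
      ((∫ p in sq (x : ℝ) y N, v p) / (N : ℝ) ^ 2) ^ 2 * (N : ℝ) ^ 4 := by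
    field_simp
  rw [h5]
  have h6 : ((m : ℝ) + 2) ^ 2 ≤ 4 * (1 + m) ^ 2 := by nlinarith [(Nat.cast_nonneg m : (0 : ℝ) ≤ m)]
  calc ((∫ p in sq (x : ℝ) y N, v p) / (N : ℝ) ^ 2) ^ 2 * (N : ℝ) ^ 4
      ≤ (((m : ℝ) + 2) ^ 2 * (8 * E)) * (N : ℝ) ^ 4 := by gcongr
    _ ≤ ((4 * (1 + m) ^ 2) * (8 * E)) * (N : ℝ) ^ 4 := by gcongr
    _ = 32 * (N : ℝ) ^ 4 * (1 + m) ^ 2 * E := by ring

/-- dyadic version: `c` is a cell of the 7 by 7 block of the dyadic square `(k,i,j)` -/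
theorem cap7 : ∃ C : ℝ, 0 < C ∧ ∀ (k : ℕ) (i j : ℤ) (c : ℤ × ℤ),
    (i - 3) * 2 ^ k ≤ c.1 → c.1 < (i + 4) * 2 ^ k → (j - 3) * 2 ^ k ≤ c.2 → c.2 < (j + 4) * 2 ^ k →
    ∀ v : Pl → ℝ, ContDiff ℝ 1 v → (∀ p ∈ ob c, v p = 0) →
    (∫ p in bl7 k i j, v p) ^ 2 ≤
      C * ((4 : ℝ) ^ k) ^ 2 * (1 + k) ^ 2 * ∫ p in bl7 k i j, gr2 v p := by
  obtain ⟨C, hC, h⟩ := cap
  refine ⟨C * 21609, by positivity, fun k i j c hi1 hi2 hj1 hj2 v hv h0 => ?_⟩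
  have h1 := h (7 * 2 ^ k) (by
    have : 0 < 2 ^ k := by positivity
    omega) ((i - 3) * 2 ^ k) ((j - 3) * 2 ^ k) c hi1 (by
      push_cast
      have : (i - 3) * 2 ^ k + 7 * 2 ^ k = (i + 4) * (2 : ℤ) ^ k := by ring
      omega) hj1 (by
      push_cast
      have : (j - 3) * 2 ^ k + 7 * 2 ^ k = (j + 4) * (2 : ℤ) ^ k := by ring
      omega) v hv h0
  have hlog : Nat.log 2 (7 * 2 ^ k) = k + 2 := by
    have h2 : 0 < 2 ^ k := by positivity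
    apply Nat.log_eq_of_pow_le_of_lt_pow
    · rw [pow_add]
      omega
    · rw [pow_add, pow_add]
      omega
  have hb : sq (((i - 3) * 2 ^ k : ℤ) : ℝ) (((j - 3) * 2 ^ k : ℤ) : ℝ) ((7 * 2 ^ k : ℕ) : ℝ) =
      bl7 k i j := by
    unfold bl7
    push_cast
    rfl
  rw [hb, hlog] at h1
  refine h1.trans ?_
  have hE0 : 0 ≤ ∫ p in bl7 k i j, gr2 v p :=
    setIntegral_nonneg (Cap_meas _ _ _) fun p _ => Cap_gr2_nonneg v p
  apply mul_le_mul_of_nonneg_right _ hE0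
  have e1 : ((7 * 2 ^ k : ℕ) : ℝ) ^ 4 = 2401 * ((4 : ℝ) ^ k) ^ 2 := by
    push_cast
    have : (4 : ℝ) ^ k = (2 ^ k) ^ 2 := by
      rw [← pow_mul, mul_comm k 2, pow_mul]
      norm_num
    rw [this]
    ring
  rw [e1]
  have e2 : (1 + ((k + 2 : ℕ) : ℝ)) ^ 2 ≤ 9 * (1 + k) ^ 2 := by
    push_cast
    nlinarith [(Nat.cast_nonneg k : (0 : ℝ) ≤ k)]
  calc C * (2401 * ((4 : ℝ) ^ k) ^ 2) * (1 + ((k + 2 : ℕ) : ℝ)) ^ 2
      ≤ C * (2401 * ((4 : ℝ) ^ k) ^ 2) * (9 * (1 + k) ^ 2) := by gcongr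
    _ = C * 21609 * ((4 : ℝ) ^ k) ^ 2 * (1 + k) ^ 2 := by ring

/-- a function which vanishes on `ob c` and is at least `α ≥ 0` on a quarter of the dyadic square
has energy at least `α² / (C (1+k)²)` in the 7 by 7 block.
PROOF: let `m` be the average of `v` over `bl7` (side `L = 7 · 2^k`).  If `m ≤ α/2`: `two_set`-like:
`∫_A ∫_{bl7} (v p - v q)² ≥ L² ∫_A (v p - m)² ≥ L² (4^k/4) (α/2)²` and `poinc`.
If `m > α/2`: `cap7`. -/
theorem capB : ∃ C : ℝ, 0 < C ∧ ∀ (k : ℕ) (i j : ℤ) (c : ℤ × ℤ),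
    (i - 3) * 2 ^ k ≤ c.1 → c.1 < (i + 4) * 2 ^ k → (j - 3) * 2 ^ k ≤ c.2 → c.2 < (j + 4) * 2 ^ k →
    ∀ v : Pl → ℝ, ContDiff ℝ 1 v → (∀ p ∈ ob c, v p = 0) →
    ∀ A : Set Pl, MeasurableSet A → A ⊆ dsq k i j → (4 : ℝ) ^ k / 4 ≤ vol A →
    ∀ α : ℝ, 0 ≤ α → (∀ p ∈ A, α ≤ v p) →
    α ^ 2 ≤ C * (1 + k) ^ 2 * ∫ p in bl7 k i j, gr2 v p := by
  obtain ⟨C, hC, h⟩ := cap7
  refine ⟨4 * C + 1568, by positivity, fun k i j c hi1 hi2 hj1 hj2 v hv h0 A hAm hA hvol α hα hαv => ?_⟩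
  have hcap := h k i j c hi1 hi2 hj1 hj2 v hv h0
  have h4 : (0 : ℝ) < 4 ^ k := by positivity
  have h2 : (0 : ℝ) < 2 ^ k := by positivity
  have h42 : (4 : ℝ) ^ k = (2 ^ k) ^ 2 := by
    rw [← pow_mul, mul_comm k 2, pow_mul]
    norm_num
  have hvA : 0 < vol A := lt_of_lt_of_le (by positivity) hvol
  have hAb : A ⊆ bl7 k i j := by
    refine hA.trans ?_
    apply Cap_sub
    · nlinarith
    · nlinarith
    · nlinarith
    · nlinarith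
  set E := ∫ p in bl7 k i j, gr2 v p with hE
  have hE0 : 0 ≤ E := setIntegral_nonneg (Cap_meas _ _ _) fun p _ => Cap_gr2_nonneg v p
  obtain ⟨m, hm⟩ : ∃ m, m = (∫ p in bl7 k i j, v p) / (7 * 2 ^ k) ^ 2 := ⟨_, rfl⟩
  have hk1 : (1 : ℝ) ≤ (1 + k) ^ 2 := by nlinarith [(Nat.cast_nonneg k : (0 : ℝ) ≤ k)]
  rcases le_or_gt m (α / 2) with hc | hc
  · have h1 := avg_diff hv (((i : ℝ) - 3) * 2 ^ k) (((j : ℝ) - 3) * 2 ^ k)
      (L := 7 * 2 ^ k) (by positivity) hAb hAm hvA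
    have h3 : α ≤ (∫ p in A, v p) / vol A := by
      rw [le_div_iff₀ hvA]
      have hfin : volume A ≠ ⊤ := by
        intro htop
        unfold vol at hvA
        rw [htop] at hvA
        simp at hvA
      have h5 : ∫ p in A, α ≤ ∫ p in A, v p := by
        apply setIntegral_mono_on _ _ hAm hαv
        · exact integrableOn_const hfin
        · exact (Cap_int hv.continuous _ _ _).mono_set hAb
      rw [setIntegral_const, smul_eq_mul] at h5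
      rw [mul_comm]
      exact h5
    have h5 : (α / 2) ^ 2 * (4 ^ k / 4) ≤ 2 * (7 * 2 ^ k) ^ 2 * E := by
      refine le_trans ?_ h1
      have h6 : α / 2 ≤ (∫ p in A, v p) / vol A - m := by linarith
      rw [hm] at h6
      exact mul_le_mul (pow_le_pow_left₀ (by positivity) h6 2) hvol (by positivity) (sq_nonneg _)
    have h6 : α ^ 2 * 4 ^ k ≤ 1568 * E * 4 ^ k := by
      have e1 : (α / 2) ^ 2 * (4 ^ k / 4) = α ^ 2 * 4 ^ k / 16 := by ring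
      have e2 : 2 * (7 * 2 ^ k) ^ 2 * E = 98 * E * 4 ^ k := by rw [h42]; ring
      rw [e1, e2] at h5
      linarith
    have h7 : α ^ 2 ≤ 1568 * E := le_of_mul_le_mul_right h6 h4
    calc α ^ 2 ≤ 1568 * E := h7
      _ ≤ (4 * C + 1568) * 1 * E := by
          have : 0 ≤ C * E := by positivity
          nlinarith
      _ ≤ (4 * C + 1568) * (1 + k) ^ 2 * E := by gcongr
  · have hm2 : ∫ p in bl7 k i j, v p = m * (49 * 4 ^ k) := by
      rw [hm, h42]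
      field_simp
      ring
    rw [hm2] at hcap
    have h5 : m ^ 2 * 2401 * (4 ^ k) ^ 2 ≤ (C * (1 + k) ^ 2 * E) * (4 ^ k) ^ 2 := by
      calc m ^ 2 * 2401 * (4 ^ k) ^ 2 = (m * (49 * 4 ^ k)) ^ 2 := by ring
        _ ≤ _ := hcap
        _ = _ := by ring
    have h6 : m ^ 2 * 2401 ≤ C * (1 + k) ^ 2 * E := le_of_mul_le_mul_right h5 (by positivity)
    have h7 : (α / 2) ^ 2 ≤ m ^ 2 := pow_le_pow_left₀ (by positivity) hc.le 2
    have h8 : 0 ≤ C * (1 + k) ^ 2 * E := by positivity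
    have h9 : 0 ≤ (1 + (k : ℝ)) ^ 2 * E := by positivity
    have h10 : (4 * C + 1568) * (1 + k) ^ 2 * E =
        4 * (C * (1 + k) ^ 2 * E) + 1568 * ((1 + k) ^ 2 * E) := by ring
    rw [h10]
    nlinarith

end Pool.Agent.BSv
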