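import Pool.Agent.BSv.Defs

/-!
# Module COV: covering walks

`F` a finite set of vertices with the cut property for a symmetric relation `R` all of whose pairs
are steps.  Then there is a walk starting at `d0 ∈ F` of length at most `2 |F|` whose set of vertices
is exactly `F`.  PROOF: induction on `|A|`: for every `1 ≤ n ≤ |F|` there are `A ⊆ F`, `|A| = n`,
`d0 ∈ A` and a CLOSED walk from `d0` to `d0` (steps given by `R`) with vertex set `A` and length
`2 n - 2`: if `A ≠ F` take `x ∈ A`, `y ∈ F \ A` with `R x y` and insert `x → y → x` at an occurrence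
of `x`.
-/

open MeasureTheory Set Filter Topology
open scoped ENNReal NNReal ContDiff

noncomputable section

namespace Pool.Agent.BSv

private theorem cov_insert {x y : Vx} {α β : Alf} (h1 : stp α x = y) (h2 : stp β y = x) :
    ∀ (w : List Alf) (d : Vx), x ∈ wlk w d →
      ∃ w' : List Alf, w'.length = w.length + 2 ∧
        (wlk w' d).toFinset = insert y (wlk w d).toFinset := by
  intro w
  induction w with
  | nil =>
    intro d hx
    have hxd : x = d := by simpa [wlk] using hx
    subst hxd
    refine ⟨[α, β], rfl, ?_⟩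
    ext z
    simp only [wlk, h1, h2, List.mem_toFinset, List.mem_cons, List.not_mem_nil, or_false,
      Finset.mem_insert]
    tauto
  | cons γ w ih =>
    intro d hx
    by_cases hxd : x = d
    · subst hxd
      refine ⟨α :: β :: γ :: w, rfl, ?_⟩
      ext z
      simp only [wlk, h1, h2, List.mem_toFinset, List.mem_cons, Finset.mem_insert]
      tauto
    · have hx' : x ∈ wlk w (stp γ d) := by
        have : x = d ∨ x ∈ wlk w (stp γ d) := by simpa [wlk] using hx
        exact this.resolve_left hxd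
      obtain ⟨w', hl, hw'⟩ := ih (stp γ d) hx'
      refine ⟨γ :: w', by simp [hl], ?_⟩
      have e1 : wlk (γ :: w') d = d :: wlk w' (stp γ d) := rfl
      have e2 : wlk (γ :: w) d = d :: wlk w (stp γ d) := rfl
      rw [e1, e2, List.toFinset_cons, List.toFinset_cons, hw', Finset.insert_comm]

private theorem cov_main (R : Vx → Vx → Prop) (hsym : ∀ x y, R x y → R y x)
    (hstp : ∀ x y, R x y → ∃ α : Alf, stp α x = y) (F : Finset Vx)
    (hcut : ∀ A ⊆ F, A.Nonempty → A ≠ F → ∃ x ∈ A, ∃ y ∈ F \ A, R x y) (d0 : Vx) (hd : d0 ∈ F) :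
    ∀ n : ℕ, n < F.card → ∃ (A : Finset Vx) (w : List Alf), A ⊆ F ∧ A.card = n + 1 ∧
      w.length = 2 * n ∧ (wlk w d0).toFinset = A := by
  intro n
  induction n with
  | zero =>
    intro _
    refine ⟨{d0}, [], by simpa using hd, rfl, rfl, rfl⟩
  | succ n ih =>
    intro hn
    obtain ⟨A, w, hAF, hAc, hwl, hwA⟩ := ih (by omega)
    have hne : A.Nonempty := by
      rw [← Finset.card_pos]; omega
    have hAne : A ≠ F := by
      intro h
      rw [h] at hAc
      omega
    obtain ⟨x, hx, y, hy, hR⟩ := hcut A hAF hne hAne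
    obtain ⟨α, hα⟩ := hstp x y hR
    obtain ⟨β, hβ⟩ := hstp y x (hsym x y hR)
    have hxw : x ∈ wlk w d0 := by
      rw [← List.mem_toFinset, hwA]; exact hx
    obtain ⟨w', hl, hw'⟩ := cov_insert hα hβ w d0 hxw
    rw [Finset.mem_sdiff] at hy
    refine ⟨insert y A, w', ?_, ?_, by omega, by rw [hw', hwA]⟩
    · intro z hz
      rcases Finset.mem_insert.mp hz with h | h
      · rw [h]; exact hy.1
      · exact hAF h
    · rw [Finset.card_insert_of_notMem hy.2, hAc]

theorem exists_walk (R : Vx → Vx → Prop) (hsym : ∀ x y, R x y → R y x)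
    (hstp : ∀ x y, R x y → ∃ α : Alf, stp α x = y) (F : Finset Vx)
    (hcut : ∀ A ⊆ F, A.Nonempty → A ≠ F → ∃ x ∈ A, ∃ y ∈ F \ A, R x y) (d0 : Vx) (hd : d0 ∈ F) :
    ∃ w : List Alf, w.length ≤ 2 * F.card ∧ (wlk w d0).toFinset = F := by
  have hpos : 0 < F.card := Finset.card_pos.mpr ⟨d0, hd⟩
  obtain ⟨A, w, hAF, hAc, hwl, hwA⟩ := cov_main R hsym hstp F hcut d0 hd (F.card - 1) (by omega)
  have hAF' : A = F := Finset.eq_of_subset_of_card_le hAF (by omega)
  exact ⟨w, by omega, by rw [hwA, hAF']⟩

end Pool.Agent.BSv
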