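import Pool.Agent.BSv.Fam
import Pool.Agent.BSv.Cov

/-!
# Module CODE: the families met by a connected set are visited by one walk

Let `F` be the set of labelled squares `(k,i,j,true)`, `(k,i,j) ∈ W`, and `(0,c.1,c.2,false)`,
`c ∈ B`.  `R x y` := the closed squares of `x` and `y` intersect, both belong to `F`
(so their scales differ by at most one: `wh_near`, `wh_closed`) — `exists_stp` gives the step.
Cut property: if `F = A ⊔ A'`, both nonempty, then the connected set `D` is covered by the two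
closed sets `⋃_{A}`, `⋃_{A'}` and meets both, so `D ∩ ⋃_A ∩ ⋃_{A'} ≠ ∅`
(`isPreconnected_closed_iff`).  Apply `exists_walk`.
-/

open MeasureTheory Set Filter Topology
open scoped ENNReal NNReal ContDiff

noncomputable section

namespace Pool.Agent.BSv

private theorem cell_eq_dsq (c : ℤ × ℤ) : cell c = dsq 0 c.1 c.2 := by
  simp [cell, dsq]

private theorem isClosed_dsq' (k : ℕ) (i j : ℤ) : IsClosed (dsq k i j) :=
  isClosed_Icc.prod isClosed_Icc

theorem exists_code {V : Finset (ℤ × ℤ)} {D : Set Pl} (hDc : IsConnected D)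
    {W : Finset (ℕ × ℤ × ℤ)} {B : Finset (ℤ × ℤ)}
    (hW : ∀ q ∈ W, wh V q.1 q.2.1 q.2.2 ∧ (D ∩ dsq q.1 q.2.1 q.2.2).Nonempty)
    (hB : ∀ c ∈ B, c ∉ V ∧ (D ∩ cell c).Nonempty)
    (hcov : D ⊆ (⋃ q ∈ W, dsq q.1 q.2.1 q.2.2) ∪ ⋃ c ∈ B, cell c)
    {q0 : ℕ × ℤ × ℤ} (hq0 : q0 ∈ W) :
    ∃ w : List Alf, w.length ≤ 2 * (W.card + B.card) ∧
      Tst (wlk w (q0.1, q0.2.1, q0.2.2, true)) = famT W := by
  classical
  set F : Finset Vx := W.image (fun q => ((q.1, q.2.1, q.2.2, true) : Vx)) ∪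
    B.image (fun c => ((0, c.1, c.2, false) : Vx)) with hFdef
  set S : Vx → Set Pl := fun x => dsq x.1 x.2.1 x.2.2.1 with hSdef
  have hFcases : ∀ x : Vx, x ∈ F ↔ (∃ q ∈ W, ((q.1, q.2.1, q.2.2, true) : Vx) = x) ∨
      ∃ c ∈ B, ((0, c.1, c.2, false) : Vx) = x := by
    intro x
    simp only [hFdef, Finset.mem_union, Finset.mem_image]
  set R : Vx → Vx → Prop := fun x y => x ∈ F ∧ y ∈ F ∧ (S x ∩ S y).Nonempty with hRdef
  have hsym : ∀ x y, R x y → R y x := by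
    rintro x y ⟨h1, h2, h3⟩
    exact ⟨h2, h1, by rwa [Set.inter_comm]⟩
  have hstp : ∀ x y, R x y → ∃ α : Alf, stp α x = y := by
    rintro x y ⟨h1, h2, h3⟩
    have key : x.1 ≤ y.1 + 1 ∧ y.1 ≤ x.1 + 1 := by
      rcases (hFcases x).1 h1 with ⟨q, hq, rfl⟩ | ⟨c, hc, rfl⟩
      · rcases (hFcases y).1 h2 with ⟨q', hq', rfl⟩ | ⟨c', hc', rfl⟩
        · exact wh_near (hW q hq).1 (hW q' hq').1 h3
        · have h0 : q.1 = 0 := by
            refine wh_closed (hW q hq).1 (hB c' hc').1 ?_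
            rw [cell_eq_dsq]
            exact h3
          simp [h0]
      · rcases (hFcases y).1 h2 with ⟨q', hq', rfl⟩ | ⟨c', hc', rfl⟩
        · have h0 : q'.1 = 0 := by
            refine wh_closed (hW q' hq').1 (hB c hc).1 ?_
            rw [cell_eq_dsq, Set.inter_comm]
            exact h3
          simp [h0]
        · simp
    obtain ⟨k, i, j, b⟩ := x
    obtain ⟨k', i', j', b'⟩ := y
    exact exists_stp key.1 key.2 h3 b b'
  have hmeet : ∀ x ∈ F, (D ∩ S x).Nonempty := by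
    intro x hx
    rcases (hFcases x).1 hx with ⟨q, hq, rfl⟩ | ⟨c, hc, rfl⟩
    · exact (hW q hq).2
    · have := (hB c hc).2
      rwa [cell_eq_dsq] at this
  have hcovF : ∀ p ∈ D, ∃ x ∈ F, p ∈ S x := by
    intro p hp
    rcases hcov hp with h | h
    · obtain ⟨q, hq, hpq⟩ := Set.mem_iUnion₂.1 h
      exact ⟨(q.1, q.2.1, q.2.2, true), (hFcases _).2 (Or.inl ⟨q, hq, rfl⟩), hpq⟩
    · obtain ⟨c, hc, hpc⟩ := Set.mem_iUnion₂.1 h
      rw [cell_eq_dsq] at hpc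
      exact ⟨(0, c.1, c.2, false), (hFcases _).2 (Or.inr ⟨c, hc, rfl⟩), hpc⟩
  have hclosed : ∀ A : Finset Vx, IsClosed (⋃ x ∈ A, S x) := by
    intro A
    exact A.finite_toSet.isClosed_biUnion (fun x _ => isClosed_dsq' _ _ _)
  have hcut : ∀ A ⊆ F, A.Nonempty → A ≠ F → ∃ x ∈ A, ∃ y ∈ F \ A, R x y := by
    intro A hA hne hAF
    have hne' : (F \ A).Nonempty := by
      rw [Finset.sdiff_nonempty]
      intro h
      exact hAF (Finset.Subset.antisymm hA h)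
    have hpre := isPreconnected_closed_iff.1 hDc.isPreconnected (⋃ x ∈ A, S x)
      (⋃ x ∈ F \ A, S x) (hclosed A) (hclosed (F \ A))
    have hsub : D ⊆ (⋃ x ∈ A, S x) ∪ ⋃ x ∈ F \ A, S x := by
      intro p hp
      obtain ⟨x, hx, hpx⟩ := hcovF p hp
      by_cases hxA : x ∈ A
      · exact Or.inl (Set.mem_iUnion₂.2 ⟨x, hxA, hpx⟩)
      · exact Or.inr (Set.mem_iUnion₂.2 ⟨x, Finset.mem_sdiff.2 ⟨hx, hxA⟩, hpx⟩)
    have hm1 : (D ∩ ⋃ x ∈ A, S x).Nonempty := by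
      obtain ⟨x, hx⟩ := hne
      obtain ⟨p, hp1, hp2⟩ := hmeet x (hA hx)
      exact ⟨p, hp1, Set.mem_iUnion₂.2 ⟨x, hx, hp2⟩⟩
    have hm2 : (D ∩ ⋃ x ∈ F \ A, S x).Nonempty := by
      obtain ⟨x, hx⟩ := hne'
      obtain ⟨p, hp1, hp2⟩ := hmeet x (Finset.mem_sdiff.1 hx).1
      exact ⟨p, hp1, Set.mem_iUnion₂.2 ⟨x, hx, hp2⟩⟩
    obtain ⟨p, hpD, hp1, hp2⟩ := hpre hsub hm1 hm2
    obtain ⟨x, hx, hpx⟩ := Set.mem_iUnion₂.1 hp1
    obtain ⟨y, hy, hpy⟩ := Set.mem_iUnion₂.1 hp2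
    exact ⟨x, hx, y, hy, hA hx, (Finset.mem_sdiff.1 hy).1, p, hpx, hpy⟩
  have hd0 : ((q0.1, q0.2.1, q0.2.2, true) : Vx) ∈ F := (hFcases _).2 (Or.inl ⟨q0, hq0, rfl⟩)
  obtain ⟨w, hwl, hwF⟩ := exists_walk R hsym hstp F hcut _ hd0
  refine ⟨w, ?_, ?_⟩
  · have hcard : F.card ≤ W.card + B.card := by
      refine (Finset.card_union_le _ _).trans ?_
      exact Nat.add_le_add Finset.card_image_le Finset.card_image_le
    omega
  · ext c
    simp only [Tst, famT, hwF, Finset.mem_biUnion]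
    constructor
    · rintro ⟨x, hx, hc⟩
      rcases (hFcases x).1 hx with ⟨q, hq, rfl⟩ | ⟨c', hc', rfl⟩
      · exact ⟨q, hq, by simpa using hc⟩
      · simp at hc
    · rintro ⟨q, hq, hc⟩
      exact ⟨(q.1, q.2.1, q.2.2, true), (hFcases _).2 (Or.inl ⟨q, hq, rfl⟩), by simpa using hc⟩

end Pool.Agent.BSv
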