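import Pool.Agent.BSv.Lam

/-!
# Module COMP: components of an open set meeting a compact subset

`O` open, `K ⊆ O` compact.  The connected components of `O` (`connectedComponentIn O x`) are open
(the plane is locally connected), pairwise equal or disjoint; finitely many of them cover `K`.
`O \ D` is open for a component `D` (it is the union of the other components).

`cc_indicator`: if `ρ ∈ CC O` and `D` and `O \ D` are open then `1_D ρ ∈ CC D`: near a point of `D`
it is `ρ`, near a point of `O \ D` it is `0`, near a point outside `O` (not in `tsupport ρ`) it is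
`0`; its closed support is contained in the closed set `tsupport ρ \ (O \ D) = tsupport ρ ∩ D`.
-/

open MeasureTheory Set Filter Topology
open scoped ENNReal NNReal ContDiff

noncomputable section

namespace Pool.Agent.BSv

private theorem Comp_disj {O : Set Pl} {x y : Pl}
    (h : connectedComponentIn O x ≠ connectedComponentIn O y) :
    Disjoint (connectedComponentIn O x) (connectedComponentIn O y) := by
  rw [Set.disjoint_left]
  intro z hz hz'
  exact h ((connectedComponentIn_eq hz).trans (connectedComponentIn_eq hz').symm)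

theorem comps {O K : Set Pl} (hO : IsOpen O) (hK : IsCompact K) (hKO : K ⊆ O) :
    ∃ (m : ℕ) (D : Fin m → Set Pl), (∀ i, IsOpen (D i)) ∧ (∀ i, IsConnected (D i)) ∧
      (∀ i, D i ⊆ O) ∧ (∀ i, IsOpen (O \ D i)) ∧ (∀ i j, i ≠ j → Disjoint (D i) (D j)) ∧
      K ⊆ ⋃ i, D i := by
  classical
  obtain ⟨t, htc⟩ := hK.elim_nhds_subcover' (fun x _ => connectedComponentIn O x)
    (fun x hx => hO.connectedComponentIn.mem_nhds (mem_connectedComponentIn (hKO hx)))
  let F : Finset (Set Pl) := t.image (fun x : K => connectedComponentIn O (x : Pl))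
  have hF : ∀ A ∈ F, ∃ x ∈ O, A = connectedComponentIn O x := by
    intro A hA
    obtain ⟨x, _, rfl⟩ := Finset.mem_image.mp hA
    exact ⟨x, hKO x.2, rfl⟩
  let e := F.equivFin
  refine ⟨F.card, fun i => (e.symm i : Set Pl), ?_, ?_, ?_, ?_, ?_, ?_⟩
  · intro i
    obtain ⟨x, hx, h⟩ := hF _ (e.symm i).2
    show IsOpen (e.symm i : Set Pl)
    rw [h]
    exact hO.connectedComponentIn
  · intro i
    obtain ⟨x, hx, h⟩ := hF _ (e.symm i).2
    show IsConnected (e.symm i : Set Pl)
    rw [h]
    exact ⟨⟨x, mem_connectedComponentIn hx⟩, isPreconnected_connectedComponentIn⟩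
  · intro i
    obtain ⟨x, hx, h⟩ := hF _ (e.symm i).2
    show (e.symm i : Set Pl) ⊆ O
    rw [h]
    exact connectedComponentIn_subset _ _
  · intro i
    obtain ⟨x, hx, h⟩ := hF _ (e.symm i).2
    show IsOpen (O \ (e.symm i : Set Pl))
    rw [h, isOpen_iff_mem_nhds]
    intro y hy
    have h1 : connectedComponentIn O y ∈ 𝓝 y :=
      hO.connectedComponentIn.mem_nhds (mem_connectedComponentIn hy.1)
    refine mem_of_superset h1 ?_
    intro z hz
    refine ⟨connectedComponentIn_subset _ _ hz, ?_⟩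
    intro hz'
    have h2 := (connectedComponentIn_eq hz).trans (connectedComponentIn_eq hz').symm
    exact hy.2 (h2 ▸ mem_connectedComponentIn hy.1)
  · intro i j hij
    obtain ⟨x, hx, h⟩ := hF _ (e.symm i).2
    obtain ⟨y, hy, h'⟩ := hF _ (e.symm j).2
    show Disjoint (e.symm i : Set Pl) (e.symm j : Set Pl)
    rw [h, h']
    apply Comp_disj
    intro hxy
    apply hij
    apply e.symm.injective
    apply Subtype.ext
    rw [h, h', hxy]
  · intro z hz
    obtain ⟨x, hx, hzx⟩ := mem_iUnion₂.mp (htc hz)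
    rw [mem_iUnion]
    refine ⟨e ⟨connectedComponentIn O (x : Pl), Finset.mem_image.mpr ⟨x, hx, rfl⟩⟩, ?_⟩
    simpa using hzx

private theorem Comp_cases {O D : Set Pl} {ρ : Pl → ℝ} (hρ : CC O ρ) (hD : IsOpen D)
    (hOD : IsOpen (O \ D)) (p : Pl) :
    (p ∈ D ∧ D.indicator ρ =ᶠ[𝓝 p] ρ) ∨ (p ∉ D ∧ D.indicator ρ =ᶠ[𝓝 p] fun _ => 0) := by
  by_cases hp : p ∈ D
  · left
    refine ⟨hp, ?_⟩
    filter_upwards [hD.mem_nhds hp] with q hq
    rw [indicator_of_mem hq]
  · right
    refine ⟨hp, ?_⟩
    by_cases hpO : p ∈ O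
    · filter_upwards [hOD.mem_nhds ⟨hpO, hp⟩] with q hq
      rw [indicator_of_notMem hq.2]
    · have h1 : p ∉ tsupport ρ := fun h => hpO (hρ.sub h)
      rw [notMem_tsupport_iff_eventuallyEq] at h1
      filter_upwards [h1] with q hq
      by_cases h : q ∈ D
      · rw [indicator_of_mem h, hq]; rfl
      · rw [indicator_of_notMem h]

theorem cc_indicator {O D : Set Pl} {ρ : Pl → ℝ} (hρ : CC O ρ) (hO : IsOpen O) (hD : IsOpen D)
    (hDO : D ⊆ O) (hOD : IsOpen (O \ D)) : CC D (D.indicator ρ) := by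
  refine ⟨?_, ?_, ?_⟩
  · rw [contDiff_iff_contDiffAt]
    intro p
    rcases Comp_cases hρ hD hOD p with ⟨_, h⟩ | ⟨_, h⟩
    · exact hρ.smooth.contDiffAt.congr_of_eventuallyEq h
    · exact contDiffAt_const.congr_of_eventuallyEq h
  · exact hρ.cpt.mono (fun p hp => by
      rw [Function.mem_support] at hp ⊢
      intro h
      apply hp
      by_cases h' : p ∈ D
      · rw [indicator_of_mem h', h]
      · rw [indicator_of_notMem h'])
  · have h1 : Function.support (D.indicator ρ) ⊆ tsupport ρ \ (O \ D) := by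
      intro p hp
      have hpD : p ∈ D := by
        by_contra h
        exact hp (indicator_of_notMem h _)
      refine ⟨subset_tsupport _ ?_, fun h => h.2 hpD⟩
      rw [Function.mem_support] at hp ⊢
      rwa [indicator_of_mem hpD] at hp
    have h2 : IsClosed (tsupport ρ \ (O \ D)) := by
      rw [sdiff_eq]
      exact (isClosed_tsupport ρ).inter hOD.isClosed_compl
    intro p hp
    have h3 := closure_minimal h1 h2 hp
    by_contra h
    exact h3.2 ⟨hρ.sub h3.1, h⟩

/-- `gr2 (1_D ρ) = 1_D gr2 ρ` -/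
theorem gr2_indicator {O D : Set Pl} {ρ : Pl → ℝ} (hρ : CC O ρ) (hO : IsOpen O) (hD : IsOpen D)
    (hDO : D ⊆ O) (hOD : IsOpen (O \ D)) (p : Pl) :
    gr2 (D.indicator ρ) p = D.indicator (gr2 ρ) p := by
  rcases Comp_cases hρ hD hOD p with ⟨hp, h⟩ | ⟨hp, h⟩
  · rw [indicator_of_mem hp]
    simp only [gr2, dx, dy]
    rw [h.fderiv_eq]
  · rw [indicator_of_notMem hp]
    simp only [gr2, dx, dy]
    rw [h.fderiv_eq]
    simp

private theorem Comp_gr2_zero {ρ : Pl → ℝ} {p : Pl} (hp : p ∉ tsupport ρ) : gr2 ρ p = 0 := by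
  rw [notMem_tsupport_iff_eventuallyEq] at hp
  simp only [gr2, dx, dy]
  rw [hp.fderiv_eq]
  simp

private theorem Comp_sum {m : ℕ} {D : Fin m → Set Pl}
    (hdis : ∀ i j, i ≠ j → Disjoint (D i) (D j)) (g : Pl → ℝ) (p : Pl)
    (h : p ∈ ⋃ i, D i ∨ g p = 0) : ∑ i, (D i).indicator g p = g p := by
  classical
  by_cases hp : p ∈ ⋃ i, D i
  · obtain ⟨i, hi⟩ := mem_iUnion.mp hp
    rw [Finset.sum_eq_single i, indicator_of_mem hi]
    · intro j _ hj
      apply indicator_of_notMem
      intro hpj
      exact (Set.disjoint_left.mp (hdis i j (Ne.symm hj))) hi hpj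
    · intro h'; exact absurd (Finset.mem_univ i) h'
  · have h0 : g p = 0 := h.resolve_left hp
    rw [h0]
    apply Finset.sum_eq_zero
    intro i _
    apply indicator_of_notMem
    intro hpi
    exact hp (mem_iUnion.mpr ⟨i, hpi⟩)

/-- sums over the components: mass and energy -/
theorem sum_comps {O : Set Pl} {ρ : Pl → ℝ} (hρ : CC O ρ) (hO : IsOpen O) {m : ℕ}
    {D : Fin m → Set Pl} (hD : ∀ i, IsOpen (D i)) (hDO : ∀ i, D i ⊆ O)
    (hOD : ∀ i, IsOpen (O \ D i)) (hdis : ∀ i j, i ≠ j → Disjoint (D i) (D j))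
    (hcov : tsupport ρ ⊆ ⋃ i, D i) :
    ∑ i, ms ((D i).indicator ρ) = ms ρ ∧ ∑ i, en ((D i).indicator ρ) = en ρ := by
  have hcc : ∀ i, CC (D i) ((D i).indicator ρ) := fun i =>
    cc_indicator hρ hO (hD i) (hDO i) (hOD i)
  constructor
  · unfold ms
    rw [← integral_finsetSum _ (fun i _ => (hcc i).integrable_sq)]
    apply integral_congr_ae
    refine Eventually.of_forall fun p => ?_
    have h1 : ∀ i, ((D i).indicator ρ p) ^ 2 = (D i).indicator (fun q => ρ q ^ 2) p := by
      intro i
      by_cases h : p ∈ D i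
      · rw [indicator_of_mem h, indicator_of_mem h]
      · rw [indicator_of_notMem h, indicator_of_notMem h]; ring
    show ∑ i, ((D i).indicator ρ p) ^ 2 = ρ p ^ 2
    rw [Finset.sum_congr rfl (fun i _ => h1 i)]
    apply Comp_sum hdis
    by_cases h : p ∈ tsupport ρ
    · exact Or.inl (hcov h)
    · right
      show ρ p ^ 2 = 0
      rw [image_eq_zero_of_notMem_tsupport h]; ring
  · unfold en
    rw [← Finset.mul_sum, ← integral_finsetSum _ (fun i _ => (hcc i).integrable_gr2)]
    congr 1
    apply integral_congr_ae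
    refine Eventually.of_forall fun p => ?_
    show ∑ i, gr2 ((D i).indicator ρ) p = gr2 ρ p
    rw [Finset.sum_congr rfl (fun i _ => gr2_indicator hρ hO (hD i) (hDO i) (hOD i) p)]
    apply Comp_sum hdis
    by_cases h : p ∈ tsupport ρ
    · exact Or.inl (hcov h)
    · exact Or.inr (Comp_gr2_zero h)

end Pool.Agent.BSv
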