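import Pool.Agent.BSv.Select

/-!
# Numerical facts about `e = (r² a)^(-1/4)` (helper98)
-/

open MeasureTheory Set Filter Topology

noncomputable section

namespace Pool.Agent.BSv

theorem ee_pow {r a : ℝ} (hr : 0 < r) (ha : 0 < a) : (ee r a) ^ 4 * (r ^ 2 * a) = 1 := by
  unfold ee
  have h : 0 < r ^ 2 * a := by positivity
  rw [← Real.rpow_natCast, ← Real.rpow_mul h.le]
  norm_num
  rw [Real.rpow_neg_one]
  field_simp

theorem er_le {r a e c1 : ℝ} (hr : 0 < r) (ha : 0 < a) (he : 0 < e) (h4 : e ^ 4 * (r ^ 2 * a) = 1)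
    (hc : 0 < c1) (h : c1 * r ^ 2 ≤ a) : e * r ≤ 1 + 1 / c1 := by
  by_contra hcon
  push Not at hcon
  have h1 : (1 : ℝ) ≤ 1 + 1 / c1 := by
    have : 0 < 1 / c1 := by positivity
    linarith
  have h2 : (1 + 1 / c1) ^ 4 < (e * r) ^ 4 := by gcongr
  have h3 : (1 + 1 / c1) ≤ (1 + 1 / c1) ^ 4 := by
    calc (1 + 1 / c1) = (1 + 1 / c1) ^ 1 := by ring
      _ ≤ (1 + 1 / c1) ^ 4 := pow_le_pow_right₀ h1 (by norm_num)
  have h5 : (e * r) ^ 4 * a = r ^ 2 := by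
    have : (e * r) ^ 4 * a = (e ^ 4 * (r ^ 2 * a)) * r ^ 2 := by ring
    rw [this, h4]; ring
  have h6 : (e * r) ^ 4 * a ≥ (1 + 1 / c1) * (c1 * r ^ 2) := by
    have h7 : 1 + 1 / c1 ≤ (e * r) ^ 4 := (h3.trans_lt h2).le
    gcongr
  have h8 : (1 + 1 / c1) * (c1 * r ^ 2) = c1 * r ^ 2 + r ^ 2 := by field_simp
  have h9 : 0 < c1 * r ^ 2 := by positivity
  linarith

theorem er_ge {r a e K : ℝ} (hr : 0 < r) (ha : 0 < a) (he : 0 < e) (h4 : e ^ 4 * (r ^ 2 * a) = 1)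
    (hK : 0 < K) (h : a ≤ K * r ^ 2) : 1 / (1 + K) ≤ e * r := by
  by_contra hcon
  push Not at hcon
  have h2 : (e * r) ^ 4 < (1 / (1 + K)) ^ 4 := by gcongr
  have h3 : (1 / (1 + K)) ^ 4 ≤ 1 / (1 + K) := by
    calc (1 / (1 + K)) ^ 4 ≤ (1 / (1 + K)) ^ 1 :=
          pow_le_pow_of_le_one (by positivity) (by rw [div_le_one (by positivity)]; linarith)
            (by norm_num)
      _ = _ := by ring
  have h5 : (e * r) ^ 4 * a = r ^ 2 := by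
    have : (e * r) ^ 4 * a = (e ^ 4 * (r ^ 2 * a)) * r ^ 2 := by ring
    rw [this, h4]; ring
  have h6 : (e * r) ^ 4 * a ≤ 1 / (1 + K) * (K * r ^ 2) := by
    have h7 : (e * r) ^ 4 ≤ 1 / (1 + K) := (h2.trans_le h3).le
    gcongr
  have h8 : 1 / (1 + K) * (K * r ^ 2) < r ^ 2 := by
    have : 1 / (1 + K) * (K * r ^ 2) = r ^ 2 * (K / (1 + K)) := by ring
    rw [this]
    have h9 : K / (1 + K) < 1 := by rw [div_lt_one (by positivity)]; linarith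
    have : 0 < r ^ 2 := by positivity
    nlinarith
  linarith

theorem r2e_ge {r a e KV N : ℝ} (hr : 0 < r) (ha : 0 < a) (he : 0 < e)
    (h4 : e ^ 4 * (r ^ 2 * a) = 1) (hKV : 0 < KV) (h : a ≤ 3 * KV * r ^ 4) (hN : 0 ≤ N)
    (hr2 : 3 * KV * N ^ 4 ≤ r ^ 2) : N ≤ r ^ 2 * e := by
  by_contra hcon
  push Not at hcon
  have h2 : (r ^ 2 * e) ^ 4 < N ^ 4 := by gcongr
  have h5 : (r ^ 2 * e) ^ 4 * a = r ^ 6 := by
    have : (r ^ 2 * e) ^ 4 * a = (e ^ 4 * (r ^ 2 * a)) * r ^ 6 := by ring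
    rw [this, h4]; ring
  have h6 : (r ^ 2 * e) ^ 4 * a < N ^ 4 * (3 * KV * r ^ 4) := by
    calc (r ^ 2 * e) ^ 4 * a < N ^ 4 * a := by gcongr
      _ ≤ _ := by gcongr
  have h7 : N ^ 4 * (3 * KV * r ^ 4) ≤ r ^ 6 := by
    have : N ^ 4 * (3 * KV * r ^ 4) = (3 * KV * N ^ 4) * r ^ 4 := by ring
    rw [this]
    calc (3 * KV * N ^ 4) * r ^ 4 ≤ r ^ 2 * r ^ 4 := by gcongr
      _ = r ^ 6 := by ring
  linarith

/-- `Y = a / (r² e)` is at least a multiple of `r` -/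
theorem r_le_Y {r a e c1 : ℝ} (hr : 0 < r) (ha : 0 < a) (he : 0 < e)
    (hc : 0 < c1) (h : c1 * r ^ 2 ≤ a) (her : e * r ≤ 1 + 1 / c1) :
    r ≤ (1 + 1 / c1) / c1 * (a / (r ^ 2 * e)) := by
  have h1 : (1 + 1 / c1) / c1 * (a / (r ^ 2 * e)) = ((1 + 1 / c1) * a) / (c1 * (r ^ 2 * e)) := by
    rw [div_mul_div_comm]
  rw [h1, le_div_iff₀ (by positivity)]
  calc r * (c1 * (r ^ 2 * e)) = (e * r) * (c1 * r ^ 2) := by ring
    _ ≤ (1 + 1 / c1) * a := by gcongr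

theorem Y_le_r {r a e K : ℝ} (hr : 0 < r) (he : 0 < e)
    (hK : 0 < K) (h : a ≤ K * r ^ 2) (her : 1 / (1 + K) ≤ e * r) :
    a / (r ^ 2 * e) ≤ K * (1 + K) * r := by
  rw [div_le_iff₀ (by positivity)]
  have h1 : 1 ≤ (1 + K) * (e * r) := by
    rw [div_le_iff₀ (by positivity)] at her
    linarith
  calc a ≤ K * r ^ 2 * 1 := by linarith
    _ ≤ K * r ^ 2 * ((1 + K) * (e * r)) := by gcongr
    _ = _ := by ring

theorem Y_le_a {r a e N : ℝ} (ha : 0 < a) (hN : 0 < N) (h : N ≤ r ^ 2 * e) :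
    a / (r ^ 2 * e) ≤ a / N := by
  gcongr

end Pool.Agent.BSv
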