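import Pool.Agent.BSv.KeyAux
import Pool.Agent.BSv.KeyNum

/-!
# The counting estimates (helper98)
-/

open MeasureTheory Set Filter Topology
open scoped ENNReal NNReal ContDiff

noncomputable section

namespace Pool.Agent.BSv

theorem dsq_zero (i j : ℤ) : dsq 0 i j = cell (i, j) := by
  simp [dsq, cell]

theorem vol_dsq (k : ℕ) (i j : ℤ) : vol (dsq k i j) = 4 ^ k := by
  unfold dsq
  rw [vol_sq _ _ (by positivity), ← pow_mul, mul_comm k 2, pow_mul]
  norm_num

theorem meas_dsq (k : ℕ) (i j : ℤ) : MeasurableSet (dsq k i j) :=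
  measurableSet_Icc.prod measurableSet_Icc

theorem fin_dsq (k : ℕ) (i j : ℤ) : volume (dsq k i j) ≠ ⊤ := by
  have : IsCompact (dsq k i j) := isCompact_Icc.prod isCompact_Icc
  exact this.measure_lt_top.ne

theorem vol_split {A E : Set Pl} (hE : MeasurableSet E) (hA : volume A ≠ ⊤) :
    vol A = vol (A ∩ E) + vol (A \ E) := by
  unfold vol
  rw [← ENNReal.toReal_add, measure_inter_add_diff _ hE]
  · exact ne_top_of_le_ne_top hA (measure_mono inter_subset_left)
  · exact ne_top_of_le_ne_top hA (measure_mono diff_subset)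

theorem vol_mono {A E : Set Pl} (hE : volume E ≠ ⊤) (h : A ⊆ E) : vol A ≤ vol E :=
  ENNReal.toReal_mono hE (measure_mono h)

theorem vol_nonneg (A : Set Pl) : 0 ≤ vol A := ENNReal.toReal_nonneg

/-- three kinds of squares -/
theorem three_types {k : ℕ} {W : Finset (ℕ × ℤ × ℤ)} {D Dx : Set Pl} (hD : MeasurableSet D)
    (hDx : MeasurableSet Dx) (hDfin : volume D ≠ ⊤) (hsub : Dx ⊆ D) {T : Finset (ℤ × ℤ)}
    (hT : ∀ q ∈ W, dsq q.1 q.2.1 q.2.2 ⊆ cells T) (β : ℝ)
    (hB : ∀ S : Finset (ℤ × ℤ), (∀ c ∈ S, (k, c) ∈ W ∧ (4 : ℝ) ^ k / 4 ≤ vol (dsq k c.1 c.2 ∩ Dx)) →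
      (S.card : ℝ) ≤ β) :
    ((lev W k).card : ℝ) ≤ β + 4 / 4 ^ k * (vol (D \ Dx) + vol (cells T \ D)) := by
  classical
  set S1 := (lev W k).filter fun c => (4 : ℝ) ^ k / 4 ≤ vol (dsq k c.1 c.2 ∩ Dx) with hS1
  set S2 := (lev W k).filter fun c => (4 : ℝ) ^ k / 4 ≤ vol (dsq k c.1 c.2 ∩ (D \ Dx)) with hS2
  set S3 := (lev W k).filter fun c => (4 : ℝ) ^ k / 2 ≤ vol (dsq k c.1 c.2 ∩ (cells T \ D)) with hS3
  have hcov : lev W k ⊆ S1 ∪ (S2 ∪ S3) := by
    intro c hc
    by_contra hcon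
    simp only [Finset.mem_union, not_or, hS1, hS2, hS3, Finset.mem_filter, hc, true_and,
      not_le] at hcon
    obtain ⟨h1, h2, h3⟩ := hcon
    have e1 := vol_split (A := dsq k c.1 c.2) hD (fin_dsq k c.1 c.2)
    have e2 := vol_split (A := dsq k c.1 c.2 ∩ D) hDx
      (ne_top_of_le_ne_top (fin_dsq k c.1 c.2) (measure_mono inter_subset_left))
    have e3 : dsq k c.1 c.2 ∩ D ∩ Dx = dsq k c.1 c.2 ∩ Dx := by
      rw [inter_assoc, inter_eq_self_of_subset_right hsub]
    have e4 : (dsq k c.1 c.2 ∩ D) \ Dx = dsq k c.1 c.2 ∩ (D \ Dx) := by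
      rw [inter_diff_assoc]
    have e5 : dsq k c.1 c.2 \ D = dsq k c.1 c.2 ∩ (cells T \ D) := by
      have : dsq k c.1 c.2 ⊆ cells T := hT (k, c) (mem_lev.mp hc)
      rw [← inter_diff_assoc, inter_eq_self_of_subset_left this]
    rw [vol_dsq, e2, e3, e4, e5] at e1
    have : (0 : ℝ) < 4 ^ k := by positivity
    linarith
  have hcard : ((lev W k).card : ℝ) ≤ S1.card + (S2.card + S3.card) := by
    have h1 := Finset.card_le_card hcov
    have h2 := Finset.card_union_le S1 (S2 ∪ S3)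
    have h3 := Finset.card_union_le S2 S3
    exact_mod_cast h1.trans (h2.trans (by omega))
  have b1 : (S1.card : ℝ) ≤ β := by
    apply hB
    intro c hc
    rw [hS1, Finset.mem_filter] at hc
    exact ⟨mem_lev.mp hc.1, hc.2⟩
  have b2 : (4 : ℝ) ^ k / 4 * S2.card ≤ vol (D \ Dx) := by
    apply area_count k S2 (hD.diff hDx)
      (ne_top_of_le_ne_top hDfin (measure_mono diff_subset))
    intro c hc
    rw [hS2, Finset.mem_filter] at hc
    exact hc.2
  have b3 : (4 : ℝ) ^ k / 2 * S3.card ≤ vol (cells T \ D) := by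
    apply area_count k S3 ((isCompact_cells T).measurableSet.diff hD)
      (ne_top_of_le_ne_top (vol_cells T).1 (measure_mono diff_subset))
    intro c hc
    rw [hS3, Finset.mem_filter] at hc
    exact hc.2
  have hpos : (0 : ℝ) < 4 ^ k := by positivity
  have b2' : (S2.card : ℝ) ≤ 4 / 4 ^ k * vol (D \ Dx) := by
    rw [div_mul_eq_mul_div, le_div_iff₀ hpos]
    linarith
  have b3' : (S3.card : ℝ) ≤ 4 / 4 ^ k * vol (cells T \ D) := by
    rw [div_mul_eq_mul_div, le_div_iff₀ hpos]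
    have := vol_nonneg (cells T \ D)
    linarith
  rw [mul_add]
  linarith

end Pool.Agent.BSv
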