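import Mathlib

/-!
# Brownian survival among Poissonian obstacles in the plane (MP_131163_pr): definitions

The internal work is done in `Pl = ℝ × ℝ` (sup metric, Lebesgue measure); closed balls are squares.
-/

open MeasureTheory Set Filter Topology
open scoped ENNReal NNReal ContDiff

noncomputable section

namespace Pool.Agent.BSv

/-- the plane (sup metric: closed balls are closed squares) -/
abbrev Pl : Type := ℝ × ℝ

/-- area -/
def vol (A : Set Pl) : ℝ := (volume A).toReal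

/-- first partial derivative -/
def dx (f : Pl → ℝ) (p : Pl) : ℝ := fderiv ℝ f p (1, 0)

/-- second partial derivative -/
def dy (f : Pl → ℝ) (p : Pl) : ℝ := fderiv ℝ f p (0, 1)

/-- squared Euclidean norm of the gradient -/
def gr2 (f : Pl → ℝ) (p : Pl) : ℝ := dx f p ^ 2 + dy f p ^ 2

/-- Dirichlet energy `1/2 ∫ |∇ f|²` -/
def en (f : Pl → ℝ) : ℝ := (1 / 2) * ∫ p, gr2 f p

/-- mass `∫ f²` -/
def ms (f : Pl → ℝ) : ℝ := ∫ p, f p ^ 2

/-- smooth functions with compact support inside `U` -/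
structure CC (U : Set Pl) (f : Pl → ℝ) : Prop where
  smooth : ContDiff ℝ ∞ f
  cpt : HasCompactSupport f
  sub : tsupport f ⊆ U

/-- principal Dirichlet eigenvalue of `-1/2 Δ` in `U` -/
def lam (U : Set Pl) : ℝ := sInf {e | ∃ f, CC U f ∧ ms f = 1 ∧ e = en f}

/-- `c(2,ν) = inf_U (ν |U| + λ(U))` -/
def cst (ν : ℝ) : ℝ :=
  sInf {e | ∃ U : Set Pl, IsOpen U ∧ U.Nonempty ∧ volume U ≠ ⊤ ∧ e = ν * vol U + lam U}

/-! ### truncations -/

/-- smooth cut-off: `0` for `|v| ≤ 1`, `1` for `|v| ≥ 2` -/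
def zt (v : ℝ) : ℝ := Real.smoothTransition (|v| - 1)

/-- upper truncation: odd, `0` for `|y| ≤ s`, derivative `zt (y/s)` in `[0,1]` -/
def Th (s y : ℝ) : ℝ := ∫ v in (0 : ℝ)..y, zt (v / s)

/-- lower truncation `y - Th s y`: odd, `= y` for `|y| ≤ s`, absolute value at most `2 s` -/
def Ta (s y : ℝ) : ℝ := y - Th s y

/-! ### squares and cells -/

/-- the closed square with lower left corner `(x,y)` and side `L` -/
def sq (x y L : ℝ) : Set Pl := Icc x (x + L) ×ˢ Icc y (y + L)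

/-- closed unit cell -/
def cell (c : ℤ × ℤ) : Set Pl := sq c.1 c.2 1

/-- the middle square of side `1/2` of a unit cell -/
def ob (c : ℤ × ℤ) : Set Pl := sq (c.1 + 1 / 4) (c.2 + 1 / 4) (1 / 2)

/-- union of the closed cells of `V` -/
def cells (V : Finset (ℤ × ℤ)) : Set Pl := ⋃ c ∈ V, cell c

/-- the open `1/4`-neighbourhood (sup metric) of the cells of `V`; it does not meet `ob c`, `c ∉ V` -/
def UV (V : Finset (ℤ × ℤ)) : Set Pl := Metric.thickening (1 / 4) (cells V)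

/-- closed dyadic square of side `2^k` -/
def dsq (k : ℕ) (i j : ℤ) : Set Pl := sq ((i : ℝ) * 2 ^ k) ((j : ℝ) * 2 ^ k) (2 ^ k)

/-- the unit cells inside a dyadic square -/
def cellsOf (k : ℕ) (i j : ℤ) : Finset (ℤ × ℤ) :=
  Finset.Ico (i * 2 ^ k) ((i + 1) * 2 ^ k) ×ˢ Finset.Ico (j * 2 ^ k) ((j + 1) * 2 ^ k)

/-- the unit cells inside the 3 by 3 block of dyadic squares around a dyadic square -/
def cellsOf3 (k : ℕ) (i j : ℤ) : Finset (ℤ × ℤ) :=
  Finset.Ico ((i - 1) * 2 ^ k) ((i + 2) * 2 ^ k) ×ˢ Finset.Ico ((j - 1) * 2 ^ k) ((j + 2) * 2 ^ k)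

/-- a dyadic square is admissible for `V`: a cell of `V` (`k = 0`) or a dyadic square whose
3 by 3 block is contained in `V` (`k ≥ 1`) -/
def fit (V : Finset (ℤ × ℤ)) (k : ℕ) (i j : ℤ) : Prop :=
  if k = 0 then (i, j) ∈ V else cellsOf3 k i j ⊆ V

/-- Whitney squares of `V`: maximal admissible dyadic squares (the parent is
`(k + 1, i / 2, j / 2)` with floor division) -/
def wh (V : Finset (ℤ × ℤ)) (k : ℕ) (i j : ℤ) : Prop :=
  fit V k i j ∧ ¬ fit V (k + 1) (i / 2) (j / 2)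

/-- the 7 by 7 block around a dyadic square: side `7 * 2^k` -/
def bl7 (k : ℕ) (i j : ℤ) : Set Pl :=
  sq (((i : ℝ) - 3) * 2 ^ k) (((j : ℝ) - 3) * 2 ^ k) (7 * 2 ^ k)

/-- the 3 by 3 block around a dyadic square: side `3 * 2^k` -/
def bl3 (k : ℕ) (i j : ℤ) : Set Pl :=
  sq (((i : ℝ) - 1) * 2 ^ k) (((j : ℝ) - 1) * 2 ^ k) (3 * 2 ^ k)

/-! ### codes: labelled dyadic squares and walks -/

/-- a labelled dyadic square `(k, i, j, b)`; `b = true`: all its cells are in `V` -/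
abbrev Vx : Type := ℕ × ℤ × ℤ × Bool

/-- the alphabet: 96 possible steps -/
abbrev Alf : Type := Fin 3 × Fin 4 × Fin 4 × Bool

/-- one step of a walk between touching dyadic squares of comparable size -/
def stp (α : Alf) (d : Vx) : Vx :=
  if α.1 = 0 then (d.1 - 1, 2 * d.2.1 - 1 + (α.2.1 : ℤ), 2 * d.2.2.1 - 1 + (α.2.2.1 : ℤ), α.2.2.2)
  else if α.1 = 1 then (d.1, d.2.1 - 1 + (α.2.1 : ℤ), d.2.2.1 - 1 + (α.2.2.1 : ℤ), α.2.2.2)
  else (d.1 + 1, (d.2.1 - 1) / 2 + (α.2.1 : ℤ), (d.2.2.1 - 1) / 2 + (α.2.2.1 : ℤ), α.2.2.2)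

/-- the vertices visited by a walk -/
def wlk : List Alf → Vx → List Vx
  | [], d => [d]
  | α :: w, d => d :: wlk w (stp α d)

/-- the cells of the squares of a list which carry the label `true` -/
def Tst (l : List Vx) : Finset (ℤ × ℤ) :=
  l.toFinset.biUnion fun d => if d.2.2.2 then cellsOf d.1 d.2.1 d.2.2.1 else ∅

/-! ### heat kernel -/

/-- heat kernel of `1/2 Δ` in the plane -/
def hk (τ : ℝ) (p : Pl) : ℝ := Real.exp (-(p.1 ^ 2 + p.2 ^ 2) / (2 * τ)) / (2 * Real.pi * τ)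

/-- heat semigroup -/
def Pt (τ : ℝ) (f : Pl → ℝ) (p : Pl) : ℝ := ∫ q, hk τ (p - q) * f q

/-- survival in `F` at the times `0, δ, 2 δ, …, n δ`, started at `p` -/
def kf (δ : ℝ) (F : Set Pl) : ℕ → Pl → ℝ
  | 0 => F.indicator 1
  | n + 1 => F.indicator (Pt δ (kf δ F n))

/-! ### the objects of the statement, in the Euclidean plane -/

/-- the Euclidean plane -/
abbrev E2 : Type := EuclideanSpace ℝ (Fin 2)

/-- principal Dirichlet eigenvalue of `-1/2 Δ` in `U` -/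
def lamE (U : Set E2) : ℝ :=
  sInf {e | ∃ f : E2 → ℝ, ContDiff ℝ ∞ f ∧ HasCompactSupport f ∧ tsupport f ⊆ U ∧
    ∫ x, f x ^ 2 = 1 ∧ e = (1 / 2) * ∫ x, ‖fderiv ℝ f x‖ ^ 2}

/-- `c(2,ν)` -/
def cE (ν : ℝ) : ℝ :=
  sInf {e | ∃ U : Set E2, IsOpen U ∧ U.Nonempty ∧ volume U ≠ ⊤ ∧
    e = ν * (volume U).toReal + lamE U}

/-- the Wiener sausage of radius `a` of the planar process `(X, Y)` up to time `t` -/
def sausage {Ω : Type*} (X Y : ℝ≥0 → Ω → ℝ) (a : ℝ) (t : ℝ≥0) (o : Ω) : Set E2 :=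
  ⋃ s ∈ Set.Iic t, Metric.closedBall (!₂[X s o, Y s o] : E2) a

/-- `S(t) = E[exp(-ν |W_t^a|)]` -/
def surv {Ω : Type*} [MeasurableSpace Ω] (P : Measure Ω) (X Y : ℝ≥0 → Ω → ℝ) (ν a : ℝ)
    (t : ℝ≥0) : ℝ :=
  ∫ o, Real.exp (-ν * (volume (sausage X Y a t o)).toReal) ∂P

/-- a planar Brownian motion: two independent real Brownian motions -/
structure PBM {Ω : Type*} [MeasurableSpace Ω] (P : Measure Ω) (X Y : ℝ≥0 → Ω → ℝ) : Prop where
  fst : ProbabilityTheory.IsBrownianReal X P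
  snd : ProbabilityTheory.IsBrownianReal Y P
  indep : ProbabilityTheory.IndepFun (fun o t => X t o) (fun o t => Y t o) P

/-- position at time `s` in `Pl`, started at `p` -/
def pos {Ω : Type*} (X Y : ℝ≥0 → Ω → ℝ) (p : Pl) (s : ℝ≥0) (o : Ω) : Pl :=
  (p.1 + X s o, p.2 + Y s o)

end Pool.Agent.BSv
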