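import Pool.Agent.BSv.Kf

/-!
# Module FDD: finite-dimensional distributions of planar Brownian motion

`PBM P X Y`.  The shifted pair `(X (s + ·) - X s, Y (s + ·) - Y s)` is again a `PBM` and is
independent of `(X s, Y s)` (Mathlib: `IsPreBrownianReal.shift`, `IsPreBrownianReal.indepFun_shift`,
and the independence of `X` and `Y`: the four families `X` up to `s`, `X` after `s`, `Y` up to `s`,
`Y` after `s` are independent).  `(X s, Y s)` has density `hk s` for `s > 0`
(`gaussianReal 0 s`).

`fdd`: induction on `n`: `P (∀ k ≤ n+1, p + Z_{kδ} ∈ F) = 1_F(p) ∫ hk δ (q - p) kf δ F n q dq`.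
`fdd1`: the same with a first step of length `1` and no constraint at time `0`.
-/

open MeasureTheory Set Filter Topology ProbabilityTheory
open scoped ENNReal NNReal ContDiff

noncomputable section

namespace Pool.Agent.BSv

variable {Ω : Type*} [MeasurableSpace Ω] {P : Measure Ω} {X Y : ℝ≥0 → Ω → ℝ}

theorem PBM.isProb (h : PBM P X Y) : IsProbabilityMeasure P :=
  h.fst.isGaussianProcess.isProbabilityMeasure

theorem PBM.shift (h : PBM P X Y) (s : ℝ≥0) :
    PBM P (fun t o => X (s + t) o - X s o) (fun t o => Y (s + t) o - Y s o) where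
  fst := h.fst.shift s
  snd := h.snd.shift s
  indep := by
    have hm : Measurable (fun (w : ℝ≥0 → ℝ) (t : ℝ≥0) => w (s + t) - w s) := by fun_prop
    exact h.indep.comp hm hm

/-- rearrangement of four factors -/
private theorem rearr {α β γ δ : Type*} [MeasurableSpace α] [MeasurableSpace β]
    [MeasurableSpace γ] [MeasurableSpace δ] (a : Measure α) (b : Measure β) (c : Measure γ)
    (d : Measure δ) [SFinite a] [SFinite b] [SFinite c] [SFinite d] :
    MeasurePreserving (fun z : (α × γ) × (β × δ) => ((z.1.1, z.2.1), (z.1.2, z.2.2)))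
      ((a.prod c).prod (b.prod d)) ((a.prod b).prod (c.prod d)) := by
  have s1 := measurePreserving_prodAssoc a c (b.prod d)
  have s2 := (MeasurePreserving.id a).prod
    ((measurePreserving_prodAssoc c b d).symm MeasurableEquiv.prodAssoc)
  have s3 := (MeasurePreserving.id a).prod
    ((Measure.measurePreserving_swap (μ := c) (ν := b)).prod (MeasurePreserving.id d))
  have s4 := (MeasurePreserving.id a).prod (measurePreserving_prodAssoc b c d)
  have s5 := (measurePreserving_prodAssoc a b (c.prod d)).symm MeasurableEquiv.prodAssoc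
  exact s5.comp (s4.comp (s3.comp (s2.comp s1)))

/-- the law of the position -/
private theorem law_pos (h : PBM P X Y) {s : ℝ≥0} (hs : 0 < s) :
    P.map (fun o => ((X s o, Y s o) : Pl)) =
      (volume : Measure Pl).withDensity fun z => ENNReal.ofReal (hk s z) := by
  have := h.isProb
  have hX := h.fst.hasLaw_eval s
  have hY := h.snd.hasLaw_eval s
  have hi : IndepFun (X s) (Y s) P :=
    h.indep.comp (measurable_pi_apply s) (measurable_pi_apply s)
  rw [hi.map_prod_eq_prod_map_map hX.aemeasurable hY.aemeasurable, hX.map_eq, hY.map_eq,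
    gaussianReal_of_var_ne_zero 0 hs.ne', prod_withDensity (measurable_gaussianPDF 0 s)
      (measurable_gaussianPDF 0 s)]
  have hs' : (0 : ℝ) < s := hs
  congr 1
  funext z
  rw [gaussianPDF, gaussianPDF, ← ENNReal.ofReal_mul (gaussianPDFReal_nonneg _ _ _)]
  congr 1
  have h1 : √(2 * Real.pi * (s : ℝ)) * √(2 * Real.pi * (s : ℝ)) = 2 * Real.pi * s :=
    Real.mul_self_sqrt (by positivity)
  unfold gaussianPDFReal hk
  rw [mul_mul_mul_comm, ← mul_inv, h1, ← Real.exp_add, mul_comm (2 * Real.pi * (s : ℝ))⁻¹,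
    ← div_eq_mul_inv]
  congr 2
  ring

private theorem mI (s : ℝ≥0) :
    Measurable (fun w : (Set.Iic s → ℝ) => w ⟨s, le_refl s⟩) :=
  measurable_pi_apply (⟨s, le_refl s⟩ : Set.Iic s)

/-- the position at time `s` and the increments afterwards are independent -/
private theorem indep_step (h : PBM P X Y) (s δ : ℝ≥0) (n : ℕ) :
    IndepFun (fun o => ((X s o, Y s o) : Pl))
      (fun o => ((fun k : Fin (n + 1) => X (s + k * δ) o - X s o),
        (fun k : Fin (n + 1) => Y (s + k * δ) o - Y s o))) P := by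
  have := h.isProb
  set VX : Ω → (Fin (n + 1) → ℝ) := fun o k => X (s + k * δ) o - X s o with hVX
  set VY : Ω → (Fin (n + 1) → ℝ) := fun o k => Y (s + k * δ) o - Y s o with hVY
  have mX : ∀ t, AEMeasurable (X t) P := h.fst.aemeasurable
  have mY : ∀ t, AEMeasurable (Y t) P := h.snd.aemeasurable
  have mVX : AEMeasurable VX P := aemeasurable_pi_lambda _ fun k => (mX _).sub (mX _)
  have mVY : AEMeasurable VY P := aemeasurable_pi_lambda _ fun k => (mY _).sub (mY _)
  -- independence inside one coordinate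
  have iX : IndepFun (X s) VX P := by
    have h1 := (h.fst.indepFun_shift s).symm
    have h2 := h1.comp (φ := fun w : (Set.Iic s → ℝ) => w ⟨s, le_refl s⟩)
      (ψ := fun w : (ℝ≥0 → ℝ) => fun k : Fin (n + 1) => w (k * δ)) (mI s)
      (by fun_prop)
    exact h2
  have iY : IndepFun (Y s) VY P := by
    have h1 := (h.snd.indepFun_shift s).symm
    have h2 := h1.comp (φ := fun w : (Set.Iic s → ℝ) => w ⟨s, le_refl s⟩)
      (ψ := fun w : (ℝ≥0 → ℝ) => fun k : Fin (n + 1) => w (k * δ)) (mI s)
      (by fun_prop)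
    exact h2
  -- independence of the two coordinates
  have iXY : IndepFun (fun o => (X s o, VX o)) (fun o => (Y s o, VY o)) P := by
    have hm : Measurable (fun w : (ℝ≥0 → ℝ) =>
        (w s, fun k : Fin (n + 1) => w (s + k * δ) - w s)) := by fun_prop
    exact h.indep.comp hm hm
  have iV : IndepFun VX VY P := by
    have hm : Measurable (fun w : (ℝ≥0 → ℝ) =>
        fun k : Fin (n + 1) => w (s + k * δ) - w s) := by fun_prop
    exact h.indep.comp hm hm
  have iZ : IndepFun (X s) (Y s) P :=
    h.indep.comp (measurable_pi_apply s) (measurable_pi_apply s)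
  have e1 := iXY.map_prod_eq_prod_map_map ((mX s).prodMk mVX) ((mY s).prodMk mVY)
  rw [iX.map_prod_eq_prod_map_map (mX s) mVX, iY.map_prod_eq_prod_map_map (mY s) mVY] at e1
  have pX : IsProbabilityMeasure (P.map (X s)) := Measure.isProbabilityMeasure_map (mX s)
  have pY : IsProbabilityMeasure (P.map (Y s)) := Measure.isProbabilityMeasure_map (mY s)
  have pVX : IsProbabilityMeasure (P.map VX) := Measure.isProbabilityMeasure_map mVX
  have pVY : IsProbabilityMeasure (P.map VY) := Measure.isProbabilityMeasure_map mVY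
  have e2 := (rearr (P.map (X s)) (P.map (Y s)) (P.map VX) (P.map VY)).map_eq
  rw [← e1] at e2
  rw [AEMeasurable.map_map_of_aemeasurable (by fun_prop)
    (((mX s).prodMk mVX).prodMk ((mY s).prodMk mVY))] at e2
  refine (indepFun_iff_map_prod_eq_prod_map_map ((mX s).prodMk (mY s)) (mVX.prodMk mVY)).2 ?_
  rw [iZ.map_prod_eq_prod_map_map (mX s) (mY s), iV.map_prod_eq_prod_map_map mVX mVY]
  exact e2

/-- measurability of the kernels -/
private theorem kf_meas {δ : ℝ} (hδ : 0 < δ) {F : Set Pl} (hF : MeasurableSet F) (n : ℕ) :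
    Measurable (kf δ F n) := by
  induction n with
  | zero => exact measurable_one.indicator hF
  | succ n ih =>
    refine Measurable.indicator ?_ hF
    have h1 : Measurable (fun z : Pl × Pl => hk δ (z.1 - z.2) * kf δ F n z.2) :=
      ((hk_cont hδ).measurable.comp (measurable_fst.sub measurable_snd)).mul
        (ih.comp measurable_snd)
    exact (h1.stronglyMeasurable.integral_prod_right).measurable

private theorem fdd_step (h : PBM P X Y) {s : ℝ≥0} (hs : 0 < s) (δ : ℝ≥0) {F : Set Pl}
    (hF : MeasurableSet F) (n : ℕ) {G : Pl → ℝ} (hG : Measurable G) (hG0 : ∀ p, 0 ≤ G p)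
    (hG1 : ∀ p, G p ≤ 1)
    (ih : ∀ p, P {o | ∀ k ≤ n, pos (fun t o => X (s + t) o - X s o)
      (fun t o => Y (s + t) o - Y s o) p (k * δ) o ∈ F} = ENNReal.ofReal (G p)) (p : Pl) :
    P {o | ∀ k ≤ n, pos X Y p (s + k * δ) o ∈ F} =
      ENNReal.ofReal (∫ q, hk s (p - q) * G q) := by
  have := h.isProb
  have hs' : (0 : ℝ) < s := hs
  set VX : Ω → (Fin (n + 1) → ℝ) := fun o k => X (s + k * δ) o - X s o with hVX
  set VY : Ω → (Fin (n + 1) → ℝ) := fun o k => Y (s + k * δ) o - Y s o with hVY
  set Z : Ω → Pl := fun o => (X s o, Y s o) with hZ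
  set V : Ω → (Fin (n + 1) → ℝ) × (Fin (n + 1) → ℝ) := fun o => (VX o, VY o) with hV
  have mX : ∀ t, AEMeasurable (X t) P := h.fst.aemeasurable
  have mY : ∀ t, AEMeasurable (Y t) P := h.snd.aemeasurable
  have mVX : AEMeasurable VX P := aemeasurable_pi_lambda _ fun k => (mX _).sub (mX _)
  have mVY : AEMeasurable VY P := aemeasurable_pi_lambda _ fun k => (mY _).sub (mY _)
  have mZ : AEMeasurable Z P := (mX s).prodMk (mY s)
  have mV : AEMeasurable V P := mVX.prodMk mVY
  have hi : IndepFun Z V P := indep_step h s δ n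
  set E : Set (Pl × ((Fin (n + 1) → ℝ) × (Fin (n + 1) → ℝ))) :=
    {w | ∀ k : Fin (n + 1), ((p.1 + w.1.1 + w.2.1 k, p.2 + w.1.2 + w.2.2 k) : Pl) ∈ F} with hE
  have mE : MeasurableSet E := by
    have : E = ⋂ k : Fin (n + 1), (fun w : Pl × ((Fin (n + 1) → ℝ) × (Fin (n + 1) → ℝ)) =>
        ((p.1 + w.1.1 + w.2.1 k, p.2 + w.1.2 + w.2.2 k) : Pl)) ⁻¹' F := by
      ext w
      simp [hE]
    rw [this]
    refine MeasurableSet.iInter fun k => ?_
    have hm : Measurable (fun w : Pl × ((Fin (n + 1) → ℝ) × (Fin (n + 1) → ℝ)) =>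
        ((p.1 + w.1.1 + w.2.1 k, p.2 + w.1.2 + w.2.2 k) : Pl)) := by fun_prop
    exact hm hF
  have e1 : {o | ∀ k ≤ n, pos X Y p (s + k * δ) o ∈ F} = (fun o => (Z o, V o)) ⁻¹' E := by
    ext o
    simp only [mem_ofPred_eq, mem_preimage, hE, hZ, hV, hVX, hVY]
    constructor
    · intro ho k
      have := ho k (Nat.lt_succ_iff.1 k.2)
      unfold pos at this
      convert this using 2 <;> ring
    · intro ho k hk
      have := ho ⟨k, Nat.lt_succ_iff.2 hk⟩
      unfold pos
      convert this using 2 <;> (simp only []; ring)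
  rw [e1, ← Measure.map_apply_of_aemeasurable (mZ.prodMk mV) mE,
    hi.map_prod_eq_prod_map_map mZ mV, Measure.prod_apply mE]
  have e2 : ∀ z : Pl, P.map V (Prod.mk z ⁻¹' E) = ENNReal.ofReal (G (p + z)) := by
    intro z
    rw [Measure.map_apply_of_aemeasurable mV (measurable_prodMk_left mE), ← ih (p + z)]
    congr 1
    ext o
    simp only [mem_ofPred_eq, mem_preimage, hE, hV, hVX, hVY]
    constructor
    · intro ho k hk
      exact ho ⟨k, Nat.lt_succ_iff.2 hk⟩
    · intro ho k
      exact ho k (Nat.lt_succ_iff.1 k.2)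
  simp only [e2]
  rw [hZ, law_pos h hs]
  have mk : Measurable (fun z : Pl => ENNReal.ofReal (hk s z)) :=
    (hk_cont hs').measurable.ennreal_ofReal
  have mg : Measurable (fun z : Pl => ENNReal.ofReal (G (p + z))) :=
    (hG.comp (measurable_const_add p)).ennreal_ofReal
  rw [lintegral_withDensity_eq_lintegral_mul _ mk mg]
  have e3 : ∀ z : Pl, ((fun z : Pl => ENNReal.ofReal (hk s z)) *
      fun z => ENNReal.ofReal (G (p + z))) z =
      ENNReal.ofReal (hk s (p - (p + z)) * G (p + z)) := by
    intro z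
    rw [Pi.mul_apply, sub_add_cancel_left, hk_neg, ENNReal.ofReal_mul (hk_pos hs' z).le]
  rw [lintegral_congr e3,
    lintegral_add_left_eq_self (fun q => ENNReal.ofReal (hk s (p - q) * G q)) p]
  symm
  refine ofReal_integral_eq_lintegral_ofReal ?_ (Eventually.of_forall fun q =>
    mul_nonneg (hk_pos hs' _).le (hG0 q))
  have hki : Integrable (fun q => hk s (p - q)) := (hk_integrable hs').comp_sub_left p
  refine hki.mul_bdd (c := 1) hG.aestronglyMeasurable (Eventually.of_forall fun q => ?_)
  rw [Real.norm_eq_abs, abs_of_nonneg (hG0 q)]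
  exact hG1 q

theorem fdd (h : PBM P X Y) {δ : ℝ≥0} (hδ : 0 < δ) {F : Set Pl} (hF : MeasurableSet F) (n : ℕ)
    (p : Pl) :
    P {o | ∀ k ≤ n, pos X Y p (k * δ) o ∈ F} = ENNReal.ofReal (kf δ F n p) := by
  have hδ' : (0 : ℝ) < δ := hδ
  induction n generalizing X Y p with
  | zero =>
    have := h.isProb
    have h0 : ∀ᵐ o ∂P, pos X Y p 0 o = p := by
      filter_upwards [h.fst.eval_zero_ae_eq_zero, h.snd.eval_zero_ae_eq_zero] with o h1 h2
      unfold pos
      rw [h1, h2, add_zero, add_zero]
    by_cases hp : p ∈ F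
    · have e1 : kf δ F 0 p = 1 := by
        unfold kf
        rw [indicator_of_mem hp]
        rfl
      rw [e1, ENNReal.ofReal_one]
      have e2 : {o | ∀ k ≤ 0, pos X Y p ((k : ℕ) * δ) o ∈ F} =ᵐ[P] univ := by
        filter_upwards [h0] with o ho
        refine eq_iff_iff.2 ⟨fun _ => trivial, fun _ k hk => ?_⟩
        rw [Nat.le_zero.1 hk, Nat.cast_zero, zero_mul, ho]
        exact hp
      rw [measure_congr e2, measure_univ]
    · have e1 : kf δ F 0 p = 0 := by
        unfold kf
        rw [indicator_of_notMem hp]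
      rw [e1, ENNReal.ofReal_zero]
      have e2 : {o | ∀ k ≤ 0, pos X Y p ((k : ℕ) * δ) o ∈ F} =ᵐ[P] (∅ : Set Ω) := by
        filter_upwards [h0] with o ho
        refine eq_iff_iff.2 ⟨fun hk => ?_, fun hh => absurd hh (notMem_empty o)⟩
        have := hk 0 le_rfl
        rw [Nat.cast_zero, zero_mul, ho] at this
        exact absurd this hp
      rw [measure_congr e2, measure_empty]
  | succ n ih =>
    have := h.isProb
    have h0 : ∀ᵐ o ∂P, pos X Y p 0 o = p := by
      filter_upwards [h.fst.eval_zero_ae_eq_zero, h.snd.eval_zero_ae_eq_zero] with o h1 h2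
      unfold pos
      rw [h1, h2, add_zero, add_zero]
    have hstep := fdd_step h hδ δ hF n (kf_meas hδ' hF n) (kf_nonneg hδ' F n)
      (kf_le_one hδ' hF n) (fun p => ih (h.shift δ) p) p
    by_cases hp : p ∈ F
    · have e1 : kf δ F (n + 1) p = ∫ q, hk δ (p - q) * kf δ F n q := by
        rw [kf, indicator_of_mem hp]
        rfl
      rw [e1, ← hstep]
      have e2 : {o | ∀ k ≤ n + 1, pos X Y p ((k : ℕ) * δ) o ∈ F} =ᵐ[P]
          {o | ∀ k ≤ n, pos X Y p (δ + (k : ℕ) * δ) o ∈ F} := by
        filter_upwards [h0] with o ho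
        refine eq_iff_iff.2 ⟨fun hk k hk' => ?_, fun hk k hk' => ?_⟩
        · have := hk (k + 1) (by omega)
          have e : ((k + 1 : ℕ) : ℝ≥0) * δ = δ + (k : ℕ) * δ := by
            push_cast
            ring
          rwa [e] at this
        · rcases Nat.eq_zero_or_pos k with rfl | hk0
          · rw [Nat.cast_zero, zero_mul, ho]
            exact hp
          · have := hk (k - 1) (by omega)
            have e : (k : ℝ≥0) * δ = δ + ((k - 1 : ℕ) : ℝ≥0) * δ := by
              obtain ⟨m, rfl⟩ : ∃ m, k = m + 1 := ⟨k - 1, by omega⟩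
              rw [Nat.add_sub_cancel]
              push_cast
              ring
            rwa [e]
      rw [measure_congr e2]
    · have e1 : kf δ F (n + 1) p = 0 := by
        rw [kf, indicator_of_notMem hp]
      rw [e1, ENNReal.ofReal_zero]
      have e2 : {o | ∀ k ≤ n + 1, pos X Y p ((k : ℕ) * δ) o ∈ F} =ᵐ[P] (∅ : Set Ω) := by
        filter_upwards [h0] with o ho
        refine eq_iff_iff.2 ⟨fun hk => ?_, fun hh => absurd hh (notMem_empty o)⟩
        have := hk 0 (Nat.zero_le _)
        rw [Nat.cast_zero, zero_mul, ho] at this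
        exact absurd this hp
      rw [measure_congr e2, measure_empty]

theorem fdd1 (h : PBM P X Y) {δ : ℝ≥0} (hδ : 0 < δ) {F : Set Pl} (hF : MeasurableSet F) (n : ℕ) :
    P {o | ∀ k ≤ n, pos X Y 0 (1 + k * δ) o ∈ F} =
      ENNReal.ofReal (∫ p, hk 1 p * kf δ F n p) := by
  have hδ' : (0 : ℝ) < δ := hδ
  have hstep := fdd_step h (s := 1) one_pos δ hF n (kf_meas hδ' hF n) (kf_nonneg hδ' F n)
      (kf_le_one hδ' hF n) (fun p => fdd (h.shift 1) hδ hF n p) 0
  rw [hstep]
  congr 1
  refine integral_congr_ae (Eventually.of_forall fun q => ?_)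
  simp only [zero_sub, hk_neg, NNReal.coe_one]

end Pool.Agent.BSv
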