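import Pool.Agent.BSv.Defs

/-!
# Module TRUNC: the smooth truncations `Th s` and `Ta s`

`zt v = smoothTransition (|v| - 1)` is smooth (it is `0` near `v = 0`), even, values in `[0,1]`,
`0` for `|v| ≤ 1`, `1` for `|v| ≥ 2`, monotone in `|v|`.
`Th s y = ∫_0^y zt (v/s) dv`, `Ta s y = y - Th s y`.
-/

open MeasureTheory Set Filter Topology
open scoped ENNReal NNReal ContDiff

noncomputable section

namespace Pool.Agent.BSv

theorem zt_nonneg (v : ℝ) : 0 ≤ zt v := Real.smoothTransition.nonneg _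

theorem zt_le_one (v : ℝ) : zt v ≤ 1 := Real.smoothTransition.le_one _

private theorem Trunc_zt_zero {v : ℝ} (h : |v| ≤ 1) : zt v = 0 :=
  Real.smoothTransition.zero_of_nonpos (by linarith)

private theorem Trunc_zt_neg (v : ℝ) : zt (-v) = zt v := by
  unfold zt
  rw [abs_neg]

theorem zt_contDiff : ContDiff ℝ ∞ zt := by
  rw [contDiff_iff_contDiffAt]
  intro v
  by_cases hv : v = 0
  · have h1 : zt =ᶠ[𝓝 v] fun _ => (0 : ℝ) := by
      have h2 : ∀ᶠ w in 𝓝 v, |w| < 1 := by
        rw [hv]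
        have h3 := (continuous_abs : Continuous fun x : ℝ => |x|).tendsto 0
        rw [abs_zero] at h3
        exact h3.eventually (gt_mem_nhds one_pos)
      filter_upwards [h2] with w hw
      exact Trunc_zt_zero hw.le
    exact contDiffAt_const.congr_of_eventuallyEq h1
  · have h1 : ContDiffAt ℝ ∞ (fun w : ℝ => |w| - 1) v :=
      (contDiffAt_abs hv).sub contDiffAt_const
    exact Real.smoothTransition.contDiffAt.comp v h1

private theorem Trunc_zt_cont : Continuous zt := zt_contDiff.continuous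

/-- `|y/s'| ≤ |y/s|` -/
theorem zt_anti {s s' : ℝ} (hs : 0 < s) (h : s ≤ s') (y : ℝ) : zt (y / s') ≤ zt (y / s) := by
  unfold zt
  apply Real.smoothTransition.monotone
  have h1 : |y / s'| ≤ |y / s| := by
    rw [abs_div, abs_div, abs_of_pos hs, abs_of_pos (hs.trans_le h)]
    exact div_le_div_of_nonneg_left (abs_nonneg y) hs h
  linarith

private theorem Trunc_cont (s : ℝ) : Continuous fun v : ℝ => zt (v / s) :=
  Trunc_zt_cont.comp (continuous_id.div_const s)

theorem Th_hasDerivAt {s : ℝ} (hs : 0 < s) (y : ℝ) : HasDerivAt (Th s) (zt (y / s)) y := by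
  have h1 := (Trunc_cont s)
  exact intervalIntegral.integral_hasDerivAt_right (h1.intervalIntegrable _ _)
    (h1.stronglyMeasurableAtFilter _ _) h1.continuousAt

theorem Th_contDiff {s : ℝ} (hs : 0 < s) : ContDiff ℝ ∞ (Th s) := by
  have h1 : deriv (Th s) = fun y => zt (y / s) := funext fun y => (Th_hasDerivAt hs y).deriv
  rw [contDiff_infty_iff_deriv]
  refine ⟨fun y => (Th_hasDerivAt hs y).differentiableAt, ?_⟩
  rw [h1]
  exact zt_contDiff.comp (contDiff_id.div_const s)

theorem Ta_hasDerivAt {s : ℝ} (hs : 0 < s) (y : ℝ) : HasDerivAt (Ta s) (1 - zt (y / s)) y :=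
  (hasDerivAt_id y).sub (Th_hasDerivAt hs y)

theorem Ta_contDiff {s : ℝ} (hs : 0 < s) : ContDiff ℝ ∞ (Ta s) :=
  contDiff_id.sub (Th_contDiff hs)

theorem Th_neg {s : ℝ} (hs : 0 < s) (y : ℝ) : Th s (-y) = - Th s y := by
  have _ := hs
  unfold Th
  have h1 := intervalIntegral.integral_comp_neg (a := 0) (b := y) (fun v : ℝ => zt (v / s))
  rw [neg_zero] at h1
  have h2 : ∀ v : ℝ, zt (-v / s) = zt (v / s) := by
    intro v
    rw [neg_div, Trunc_zt_neg]
  simp only [h2] at h1
  rw [h1, intervalIntegral.integral_symm]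

theorem Ta_neg {s : ℝ} (hs : 0 < s) (y : ℝ) : Ta s (-y) = - Ta s y := by
  unfold Ta
  rw [Th_neg hs]
  ring

theorem Th_zero {s : ℝ} (hs : 0 < s) : Th s 0 = 0 := by
  have _ := hs
  unfold Th
  rw [intervalIntegral.integral_same]

theorem Ta_zero {s : ℝ} (hs : 0 < s) : Ta s 0 = 0 := by
  unfold Ta
  rw [Th_zero hs, sub_zero]

theorem Th_nonneg {s y : ℝ} (hs : 0 < s) (hy : 0 ≤ y) : 0 ≤ Th s y := by
  have _ := hs
  exact intervalIntegral.integral_nonneg hy fun v _ => zt_nonneg _

theorem Th_le_self {s y : ℝ} (hs : 0 < s) (hy : 0 ≤ y) : Th s y ≤ y := by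
  have _ := hs
  have h1 : Th s y ≤ ∫ _ in (0 : ℝ)..y, (1 : ℝ) :=
    intervalIntegral.integral_mono hy ((Trunc_cont s).intervalIntegrable _ _)
      (continuous_const.intervalIntegrable _ _) fun v => zt_le_one _
  simpa using h1

theorem Th_eq_zero {s y : ℝ} (hs : 0 < s) (h : |y| ≤ s) : Th s y = 0 := by
  have key : ∀ z : ℝ, 0 ≤ z → z ≤ s → Th s z = 0 := by
    intro z hz0 hzs
    unfold Th
    rw [intervalIntegral.integral_congr (g := fun _ => (0 : ℝ))]
    · simp
    · intro v hv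
      rw [Set.uIcc_of_le hz0] at hv
      apply Trunc_zt_zero
      rw [abs_div, abs_of_pos hs, abs_of_nonneg hv.1, div_le_one hs]
      exact hv.2.trans hzs
  rcases le_total 0 y with hy | hy
  · rw [abs_of_nonneg hy] at h
    exact key y hy h
  · rw [abs_of_nonpos hy] at h
    have h1 := key (-y) (by linarith) h
    rw [Th_neg hs] at h1
    linarith

theorem Ta_eq_self {s y : ℝ} (hs : 0 < s) (h : |y| ≤ s) : Ta s y = y := by
  unfold Ta
  rw [Th_eq_zero hs h, sub_zero]

private theorem Trunc_Th_mono {s : ℝ} (hs : 0 < s) : Monotone (Th s) :=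
  monotone_of_deriv_nonneg (fun y => (Th_hasDerivAt hs y).differentiableAt) fun y => by
    rw [(Th_hasDerivAt hs y).deriv]
    exact zt_nonneg _

private theorem Trunc_Ta_mono {s : ℝ} (hs : 0 < s) : Monotone (Ta s) :=
  monotone_of_deriv_nonneg (fun y => (Ta_hasDerivAt hs y).differentiableAt) fun y => by
    rw [(Ta_hasDerivAt hs y).deriv]
    linarith [zt_le_one (y / s)]

/-- `zt (v/s) ≥ 1_{v ≥ 2 s}` -/
theorem Th_ge {s y : ℝ} (hs : 0 < s) (hy : 0 ≤ y) : y - 2 * s ≤ Th s y := by
  rcases le_total y (2 * s) with h | h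
  · exact (by linarith : y - 2 * s ≤ 0).trans (Th_nonneg hs hy)
  · have h1 : Th s y = Th s (2 * s) + ∫ v in (2 * s)..y, zt (v / s) := by
      unfold Th
      rw [intervalIntegral.integral_add_adjacent_intervals
        ((Trunc_cont s).intervalIntegrable _ _) ((Trunc_cont s).intervalIntegrable _ _)]
    have h2 : ∫ v in (2 * s)..y, zt (v / s) = y - 2 * s := by
      rw [intervalIntegral.integral_congr (g := fun _ => (1 : ℝ))]
      · simp
      · intro v hv
        rw [Set.uIcc_of_le h] at hv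
        unfold zt
        apply Real.smoothTransition.one_of_one_le
        have h3 : 2 ≤ v / s := by
          rw [le_div_iff₀ hs]
          exact hv.1
        rw [abs_of_nonneg (by linarith)]
        linarith
    rw [h1, h2]
    linarith [Th_nonneg hs (by linarith : (0 : ℝ) ≤ 2 * s)]

theorem Th_anti {s s' y : ℝ} (hs : 0 < s) (h : s ≤ s') (hy : 0 ≤ y) : Th s' y ≤ Th s y :=
  intervalIntegral.integral_mono hy ((Trunc_cont s').intervalIntegrable _ _)
    ((Trunc_cont s).intervalIntegrable _ _) fun v => zt_anti hs h v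

theorem Ta_nonneg {s y : ℝ} (hs : 0 < s) (hy : 0 ≤ y) : 0 ≤ Ta s y := by
  unfold Ta
  linarith [Th_le_self hs hy]

theorem Ta_le_self {s y : ℝ} (hs : 0 < s) (hy : 0 ≤ y) : Ta s y ≤ y := by
  unfold Ta
  linarith [Th_nonneg hs hy]

theorem Ta_le {s y : ℝ} (hs : 0 < s) (hy : 0 ≤ y) : Ta s y ≤ 2 * s := by
  unfold Ta
  linarith [Th_ge hs hy]

/-- `Ta s` is monotone and the identity on `[0,s]` -/
theorem Ta_ge {s y : ℝ} (hs : 0 < s) (hy : 0 ≤ y) : min y s ≤ Ta s y := by
  have h1 : |min y s| ≤ s := by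
    rw [abs_of_nonneg (le_min hy hs.le)]
    exact min_le_right _ _
  rw [← Ta_eq_self hs h1]
  exact Trunc_Ta_mono hs (min_le_left _ _)

theorem abs_Ta_le {s : ℝ} (hs : 0 < s) (y : ℝ) : |Ta s y| ≤ 2 * s := by
  rcases le_total 0 y with hy | hy
  · rw [abs_of_nonneg (Ta_nonneg hs hy)]
    exact Ta_le hs hy
  · have h1 : Ta s y = - Ta s (-y) := by rw [Ta_neg hs, neg_neg]
    rw [h1, abs_neg, abs_of_nonneg (Ta_nonneg hs (by linarith))]
    exact Ta_le hs (by linarith)

theorem abs_Ta_le_self {s : ℝ} (hs : 0 < s) (y : ℝ) : |Ta s y| ≤ |y| := by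
  rcases le_total 0 y with hy | hy
  · rw [abs_of_nonneg (Ta_nonneg hs hy), abs_of_nonneg hy]
    exact Ta_le_self hs hy
  · have h1 : Ta s y = - Ta s (-y) := by rw [Ta_neg hs, neg_neg]
    rw [h1, abs_neg, abs_of_nonneg (Ta_nonneg hs (by linarith)), abs_of_nonpos hy]
    exact Ta_le_self hs (by linarith)

/-- both factors have the same sign -/
theorem mul_Ta_nonneg {s : ℝ} (hs : 0 < s) (y : ℝ) : 0 ≤ y * Ta s y := by
  rcases le_total 0 y with hy | hy
  · exact mul_nonneg hy (Ta_nonneg hs hy)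
  · have h1 : y * Ta s y = (-y) * Ta s (-y) := by
      rw [Ta_neg hs]
      ring
    rw [h1]
    exact mul_nonneg (by linarith) (Ta_nonneg hs (by linarith))

theorem mul_Th_nonneg {s : ℝ} (hs : 0 < s) (y : ℝ) : 0 ≤ y * Th s y := by
  rcases le_total 0 y with hy | hy
  · exact mul_nonneg hy (Th_nonneg hs hy)
  · have h1 : y * Th s y = (-y) * Th s (-y) := by
      rw [Th_neg hs]
      ring
    rw [h1]
    exact mul_nonneg (by linarith) (Th_nonneg hs (by linarith))

end Pool.Agent.BSv
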