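import Pool.Agent.BSv.Defs
import Pool.Agent.BSv.Trunc

/-!
# Module GNS: the Gagliardo-Nirenberg inequality in the plane, with support area

`∫ f² ≤ C0 * |{f ≠ 0}| * (1/2 ∫ |∇f|²)` for smooth compactly supported `f`.

PROOF.  Mathlib: `MeasureTheory.eLpNorm_le_eLpNorm_fderiv_one` (n = 2, p = 2, conjugate exponents
2, 2): `‖f‖_2 ≤ C ‖Df‖_1`, and `Df = 0` a.e. outside `{f ≠ 0}`: in fact outside the closed support;
on `{f = 0}` inside the support `Df = 0` at almost every point is also true, but simpler: apply the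
inequality to `g = Th ε ∘ f`-like truncations, or use that at a point with `f = 0` and `Df ≠ 0`
the zero set is locally a curve (null set).  The easiest way: `∫ ‖Df‖ = ∫_{f ≠ 0} ‖Df‖` because
the set `{f = 0, Df ≠ 0}` is a null set (implicit function theorem or Lebesgue density:
at a density point of `{f = 0}` where `f` is differentiable the derivative is `0`).
Alternative without null sets: apply the inequality to `Th ε ∘ f` (module Trunc, smooth, support in
`{|f| ≥ ε} ⊆ {f ≠ 0}`), Cauchy-Schwarz on `{|f| ≥ ε}`: `ms (Th ε ∘ f) ≤ C² |{f ≠ 0}| ∫ |∇ f|²`,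
and let `ε → 0` (monotone/dominated convergence, `|y| - 2 ε ≤ |Th ε y| ≤ |y|`).
The operator norm of `fderiv f p` on `ℝ × ℝ` with the sup norm is at most `|dx f p| + |dy f p|`.
-/

open MeasureTheory Set Filter Topology
open scoped ENNReal NNReal ContDiff

noncomputable section

namespace Pool.Agent.BSv

private theorem Gns_norm (f : Pl → ℝ) (p : Pl) : ‖fderiv ℝ f p‖ ≤ |dx f p| + |dy f p| := by
  refine ContinuousLinearMap.opNorm_le_bound _ (by positivity) fun v => ?_
  have h1 : fderiv ℝ f p v = v.1 * dx f p + v.2 * dy f p := by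
    have h2 : v = v.1 • ((1 : ℝ), (0 : ℝ)) + v.2 • ((0 : ℝ), (1 : ℝ)) := by
      ext <;> simp
    conv_lhs => rw [h2]
    rw [map_add, map_smul, map_smul]
    rfl
  have h3 : |v.1| ≤ ‖v‖ := norm_fst_le v
  have h4 : |v.2| ≤ ‖v‖ := norm_snd_le v
  rw [h1, Real.norm_eq_abs]
  calc |v.1 * dx f p + v.2 * dy f p| ≤ |v.1 * dx f p| + |v.2 * dy f p| := abs_add_le _ _
    _ = |v.1| * |dx f p| + |v.2| * |dy f p| := by rw [abs_mul, abs_mul]
    _ ≤ ‖v‖ * |dx f p| + ‖v‖ * |dy f p| := by
        gcongr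
    _ = (|dx f p| + |dy f p|) * ‖v‖ := by ring

private theorem Gns_norm2 (f : Pl → ℝ) (p : Pl) : ‖fderiv ℝ f p‖ ^ 2 ≤ 2 * gr2 f p := by
  have h1 := Gns_norm f p
  have h2 : ‖fderiv ℝ f p‖ ^ 2 ≤ (|dx f p| + |dy f p|) ^ 2 :=
    pow_le_pow_left₀ (norm_nonneg _) h1 2
  have h3 : (|dx f p| + |dy f p|) ^ 2 ≤ 2 * gr2 f p := by
    unfold gr2
    nlinarith [sq_nonneg (|dx f p| - |dy f p|), sq_abs (dx f p), sq_abs (dy f p)]
  exact h2.trans h3

private theorem Gns_gr2_int {f : Pl → ℝ} (hf : ContDiff ℝ ∞ f) (hc : HasCompactSupport f) :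
    Integrable (gr2 f) := by
  have h1 : Continuous (fderiv ℝ f) := hf.continuous_fderiv (by simp)
  have h2 : HasCompactSupport (fderiv ℝ f) := hc.fderiv ℝ
  have h3 : Continuous (gr2 f) := by
    unfold gr2 dx dy
    exact ((h1.clm_apply continuous_const).pow 2).add ((h1.clm_apply continuous_const).pow 2)
  refine h3.integrable_of_hasCompactSupport ?_
  refine h2.mono' ?_
  intro p hp
  by_contra h4
  have h5 : fderiv ℝ f p = 0 := by
    have : p ∉ Function.support (fderiv ℝ f) := fun h => h4 (subset_tsupport _ h)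
    simpa using this
  apply hp
  unfold gr2 dx dy
  rw [h5]
  simp

/-- the constant of the inequality in `L^1` -/
private def Gns_c : ℝ≥0 := lintegralPowLePowLIntegralFDerivConst (volume : Measure Pl) 2

private theorem Gns_trunc {f : Pl → ℝ} (hf : ContDiff ℝ ∞ f) (hc : HasCompactSupport f) {ε : ℝ}
    (hε : 0 < ε) : ms (fun p => Th ε (f p)) ≤ Gns_c * vol {p | f p ≠ 0} * (4 * en f) := by
  obtain ⟨g, hg⟩ : ∃ g : Pl → ℝ, g = fun p => Th ε (f p) := ⟨_, rfl⟩
  obtain ⟨A, hA⟩ : ∃ A : Set Pl, A = {p | f p ≠ 0} := ⟨_, rfl⟩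
  rw [← hg, ← hA]
  have hAo : IsOpen A := by
    rw [hA]
    exact isOpen_ne_fun hf.continuous continuous_const
  have hAv : volume A ≠ ⊤ := by
    have h1 : A ⊆ tsupport f := by
      rw [hA]
      exact subset_tsupport f
    exact ((measure_mono h1).trans_lt hc.isCompact.measure_lt_top).ne
  have hgs : ContDiff ℝ ∞ g := by
    rw [hg]
    exact (Th_contDiff hε).comp hf
  have hgc : HasCompactSupport g := by
    rw [hg]
    exact hc.comp_left (Th_zero hε)
  have hDg : ∀ p, fderiv ℝ g p = zt (f p / ε) • fderiv ℝ f p := by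
    intro p
    have h1 : HasFDerivAt f (fderiv ℝ f p) p :=
      (hf.differentiable (by simp)).differentiableAt.hasFDerivAt
    have h2 := (Th_hasDerivAt hε (f p)).comp_hasFDerivAt p h1
    rw [hg]
    exact h2.fderiv
  have hDg0 : ∀ p, p ∉ A → fderiv ℝ g p = 0 := by
    intro p hp
    have h1 : f p = 0 := by
      by_contra h2
      apply hp
      rw [hA]
      exact h2
    have h2 : zt (0 / ε) = 0 := by
      unfold zt
      apply Real.smoothTransition.zero_of_nonpos
      simp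
    rw [hDg, h1, h2, zero_smul]
  have hDgn : ∀ p, ‖fderiv ℝ g p‖ ^ 2 ≤ 2 * gr2 f p := by
    intro p
    refine le_trans ?_ (Gns_norm2 f p)
    rw [hDg, norm_smul, Real.norm_of_nonneg (zt_nonneg _)]
    have h1 : zt (f p / ε) * ‖fderiv ℝ f p‖ ≤ ‖fderiv ℝ f p‖ :=
      mul_le_of_le_one_left (norm_nonneg _) (zt_le_one _)
    exact pow_le_pow_left₀ (mul_nonneg (zt_nonneg _) (norm_nonneg _)) h1 2
  have hconj : Real.HolderConjugate (Module.finrank ℝ Pl : ℝ) 2 := by
    have h1 : Module.finrank ℝ Pl = 2 := by simp [Pl]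
    rw [h1]
    norm_num
    exact Real.HolderConjugate.two_two
  have key := lintegral_pow_le_pow_lintegral_fderiv (volume : Measure Pl)
    (hgs.of_le (by exact_mod_cast le_top)) hgc hconj
  -- Cauchy-Schwarz
  have hcs : (∫⁻ p, ‖fderiv ℝ g p‖ₑ) ^ (2 : ℝ) ≤
      volume A * ∫⁻ p, ‖fderiv ℝ g p‖ₑ ^ (2 : ℝ) := by
    have h1 : ∫⁻ p, ‖fderiv ℝ g p‖ₑ =
        ∫⁻ p, ((A.indicator (fun _ => (1 : ℝ≥0∞))) * (fun p => ‖fderiv ℝ g p‖ₑ)) p := by
      refine lintegral_congr fun p => ?_
      by_cases hp : p ∈ A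
      · rw [Pi.mul_apply, Set.indicator_of_mem hp, one_mul]
      · have h5 : ‖fderiv ℝ g p‖ₑ = 0 := by
          rw [← ofReal_norm, hDg0 p hp, norm_zero, ENNReal.ofReal_zero]
        rw [Pi.mul_apply, h5, mul_zero]
    have hmeas : Measurable fun p => ‖fderiv ℝ g p‖ₑ :=
      (hgs.continuous_fderiv (by simp)).measurable.enorm
    have h2 := ENNReal.lintegral_mul_le_Lp_mul_Lq (volume : Measure Pl)
      Real.HolderConjugate.two_two
      (f := A.indicator (fun _ => (1 : ℝ≥0∞))) (g := fun p => ‖fderiv ℝ g p‖ₑ)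
      ((measurable_const.indicator hAo.measurableSet).aemeasurable) hmeas.aemeasurable
    have h3 : ∫⁻ p, (A.indicator (fun _ => (1 : ℝ≥0∞)) p) ^ (2 : ℝ) = volume A := by
      have h4 : ∀ p, (A.indicator (fun _ => (1 : ℝ≥0∞)) p) ^ (2 : ℝ) =
          A.indicator (fun _ => (1 : ℝ≥0∞)) p := by
        intro p
        by_cases hp : p ∈ A
        · simp [hp]
        · simp [hp]
      rw [lintegral_congr h4, lintegral_indicator hAo.measurableSet]
      simp
    rw [← h1, h3] at h2
    calc (∫⁻ p, ‖fderiv ℝ g p‖ₑ) ^ (2 : ℝ) ≤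
        (volume A ^ (1 / (2 : ℝ)) * (∫⁻ p, ‖fderiv ℝ g p‖ₑ ^ (2 : ℝ)) ^ (1 / (2 : ℝ))) ^ (2 : ℝ) :=
          ENNReal.rpow_le_rpow h2 (by norm_num)
      _ = volume A * ∫⁻ p, ‖fderiv ℝ g p‖ₑ ^ (2 : ℝ) := by
          rw [ENNReal.mul_rpow_of_nonneg _ _ (by norm_num : (0 : ℝ) ≤ 2), ← ENNReal.rpow_mul,
            ← ENNReal.rpow_mul]
          norm_num
  have hen : ∫⁻ p, ‖fderiv ℝ g p‖ₑ ^ (2 : ℝ) ≤ ENNReal.ofReal (4 * en f) := by
    have h1 : 4 * en f = ∫ p, 2 * gr2 f p := by
      unfold en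
      rw [integral_const_mul]
      ring
    rw [h1, ofReal_integral_eq_lintegral_ofReal ((Gns_gr2_int hf hc).const_mul 2)
      (Eventually.of_forall fun p => by
        show 0 ≤ 2 * gr2 f p
        unfold gr2
        positivity)]
    refine lintegral_mono fun p => ?_
    have h2 : ‖fderiv ℝ g p‖ₑ ^ (2 : ℝ) = ENNReal.ofReal (‖fderiv ℝ g p‖ ^ 2) := by
      rw [← ofReal_norm, ENNReal.ofReal_rpow_of_nonneg (norm_nonneg _) (by norm_num)]
      norm_num
    rw [h2]
    exact ENNReal.ofReal_le_ofReal (hDgn p)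
  have hfin : ∫⁻ p, ‖g p‖ₑ ^ (2 : ℝ) ≤
      (Gns_c : ℝ≥0∞) * (volume A * ENNReal.ofReal (4 * en f)) := by
    refine key.trans ?_
    unfold Gns_c
    gcongr
    exact hcs.trans (by gcongr)
  have hms : ms g = (∫⁻ p, ‖g p‖ₑ ^ (2 : ℝ)).toReal := by
    unfold ms
    rw [integral_eq_lintegral_of_nonneg_ae (Eventually.of_forall fun p => sq_nonneg (g p))
      ((hgs.continuous.pow 2).aestronglyMeasurable)]
    congr 1
    refine lintegral_congr fun p => ?_
    rw [← ofReal_norm, ENNReal.ofReal_rpow_of_nonneg (norm_nonneg _) (by norm_num)]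
    norm_num
  have hen0 : 0 ≤ en f := by
    unfold en
    refine mul_nonneg (by norm_num) (integral_nonneg fun p => ?_)
    show 0 ≤ gr2 f p
    unfold gr2
    positivity
  have hfin2 : (Gns_c : ℝ≥0∞) * (volume A * ENNReal.ofReal (4 * en f)) ≠ ⊤ :=
    ENNReal.mul_ne_top ENNReal.coe_ne_top (ENNReal.mul_ne_top hAv ENNReal.ofReal_ne_top)
  rw [hms]
  refine (ENNReal.toReal_mono hfin2 hfin).trans (le_of_eq ?_)
  rw [ENNReal.toReal_mul, ENNReal.toReal_mul, ENNReal.toReal_ofReal (by positivity),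
    ENNReal.coe_toReal]
  unfold vol
  ring

theorem gns : ∃ C0 : ℝ, 0 < C0 ∧ ∀ f : Pl → ℝ, ContDiff ℝ ∞ f → HasCompactSupport f →
    ms f ≤ C0 * vol {p | f p ≠ 0} * en f := by
  refine ⟨4 * Gns_c + 1, by positivity, fun f hf hc => ?_⟩
  have hen0 : 0 ≤ en f := by
    unfold en
    refine mul_nonneg (by norm_num) (integral_nonneg fun p => ?_)
    show 0 ≤ gr2 f p
    unfold gr2
    positivity
  have hv0 : 0 ≤ vol {p | f p ≠ 0} := ENNReal.toReal_nonneg
  obtain ⟨e, he⟩ : ∃ e : ℕ → ℝ, ∀ n, e n = 1 / ((n : ℝ) + 1) := ⟨_, fun _ => rfl⟩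
  have he0 : ∀ n, 0 < e n := fun n => by
    rw [he]
    exact Nat.one_div_pos_of_nat
  have helim : Tendsto (fun n => 2 * e n) atTop (𝓝 0) := by
    have h1 : Tendsto (fun n : ℕ => 1 / ((n : ℝ) + 1)) atTop (𝓝 0) :=
      tendsto_one_div_add_atTop_nhds_zero_nat
    have h2 : e = fun n : ℕ => 1 / ((n : ℝ) + 1) := funext he
    rw [← h2] at h1
    have h3 := h1.const_mul 2
    rwa [mul_zero] at h3
  have hlim : Tendsto (fun n : ℕ => ms (fun p => Th (e n) (f p))) atTop (𝓝 (ms f)) := by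
    have hint : Integrable (fun p => f p ^ 2) := by
      have h1 : Continuous (fun p : Pl => f p ^ 2) := hf.continuous.pow 2
      have h2 : HasCompactSupport (fun p : Pl => f p ^ 2) := by
        refine hc.mono ?_
        intro p hp hp2
        apply hp
        show f p ^ 2 = 0
        rw [hp2]
        norm_num
      exact h1.integrable_of_hasCompactSupport h2
    have hmeas : ∀ n, AEStronglyMeasurable (fun p => Th (e n) (f p) ^ 2) volume := by
      intro n
      have h1 : Continuous (fun p => Th (e n) (f p)) :=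
        (Th_contDiff (he0 n)).continuous.comp hf.continuous
      exact (h1.pow 2).aestronglyMeasurable
    have hbd : ∀ n, ∀ᵐ p ∂(volume : Measure Pl), ‖Th (e n) (f p) ^ 2‖ ≤ f p ^ 2 := by
      intro n
      refine Eventually.of_forall fun p => ?_
      rw [Real.norm_of_nonneg (sq_nonneg _), sq_le_sq]
      rcases le_total 0 (f p) with h | h
      · rw [abs_of_nonneg (Th_nonneg (he0 n) h), abs_of_nonneg h]
        exact Th_le_self (he0 n) h
      · have h1 : Th (e n) (f p) = - Th (e n) (-f p) := by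
          rw [Th_neg (he0 n), neg_neg]
        rw [h1, abs_neg, abs_of_nonneg (Th_nonneg (he0 n) (by linarith)), abs_of_nonpos h]
        exact Th_le_self (he0 n) (by linarith)
    have hpt : ∀ᵐ p ∂(volume : Measure Pl),
        Tendsto (fun n => Th (e n) (f p) ^ 2) atTop (𝓝 (f p ^ 2)) := by
      refine Eventually.of_forall fun p => ?_
      have h1 : Tendsto (fun n => Th (e n) (f p)) atTop (𝓝 (f p)) := by
        rw [tendsto_iff_norm_sub_tendsto_zero]
        refine squeeze_zero (fun n => norm_nonneg _) (fun n => ?_) helim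
        have h2 := abs_Ta_le (he0 n) (f p)
        unfold Ta at h2
        rw [Real.norm_eq_abs, abs_sub_comm]
        exact h2
      exact h1.pow 2
    exact tendsto_integral_of_dominated_convergence (fun p => f p ^ 2) hmeas hint hbd hpt
  refine le_of_tendsto hlim (Eventually.of_forall fun n => ?_)
  refine (Gns_trunc hf hc (he0 n)).trans ?_
  have h3 : 0 ≤ vol {p | f p ≠ 0} * en f := mul_nonneg hv0 hen0
  nlinarith [h3]

end Pool.Agent.BSv
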