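import Pool.Agent.BSv.Lam

/-!
# Module KER: the heat kernel, basic facts

`hk τ` is the Gaussian density with covariance `τ Id` (a product of two one-dimensional Gaussians,
`integral_gaussian`), `Pt τ f = hk τ * f` (convolution).

* `ker_symm`: Fubini and `hk_neg`.
* `hk_semi`: `∫ hk σ (p - q) hk τ (q - z) dq = hk (σ + τ) (p - z)` (complete the square).
* `ker_pos`: `∫ g Pt τ g = ∫ (Pt (τ/2) g)²`, by the semigroup property and symmetry.
-/

open MeasureTheory Set Filter Topology
open scoped ENNReal NNReal ContDiff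

noncomputable section

namespace Pool.Agent.BSv

/-- one-dimensional kernel -/
private def Ker_g (τ x : ℝ) : ℝ := Real.exp (-x ^ 2 / (2 * τ)) / Real.sqrt (2 * Real.pi * τ)

private theorem Ker_hk {τ : ℝ} (hτ : 0 < τ) (p : Pl) : hk τ p = Ker_g τ p.1 * Ker_g τ p.2 := by
  have h1 : 0 ≤ 2 * Real.pi * τ := by positivity
  unfold hk Ker_g
  rw [div_mul_div_comm, ← Real.exp_add, Real.mul_self_sqrt h1]
  congr 2
  ring

private theorem Ker_gauss {b : ℝ} (hb : 0 < b) (m : ℝ) :
    Integrable (fun x : ℝ => Real.exp (-(x - m) ^ 2 / b)) ∧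
      ∫ x : ℝ, Real.exp (-(x - m) ^ 2 / b) = Real.sqrt (Real.pi * b) := by
  have h1 : Integrable (fun x : ℝ => Real.exp (-(b⁻¹) * x ^ 2)) :=
    integrable_exp_neg_mul_sq (inv_pos.2 hb)
  have h2 : (fun x : ℝ => Real.exp (-(x - m) ^ 2 / b)) =
      fun x : ℝ => Real.exp (-(b⁻¹) * (x - m) ^ 2) := by
    funext x
    congr 1
    field_simp
  refine ⟨?_, ?_⟩
  · rw [h2]
    exact h1.comp_sub_right m
  · rw [h2, integral_sub_right_eq_self (fun x : ℝ => Real.exp (-(b⁻¹) * x ^ 2)) m,
      integral_gaussian]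
    congr 1
    rw [div_inv_eq_mul]

private theorem Ker_g_int {τ : ℝ} (hτ : 0 < τ) : Integrable (Ker_g τ) ∧ ∫ x, Ker_g τ x = 1 := by
  have h1 := Ker_gauss (b := 2 * τ) (by positivity) 0
  simp only [sub_zero] at h1
  refine ⟨h1.1.div_const _, ?_⟩
  unfold Ker_g
  rw [integral_div, h1.2]
  have h2 : Real.pi * (2 * τ) = 2 * Real.pi * τ := by ring
  rw [h2]
  exact div_self (Real.sqrt_ne_zero'.2 (by positivity))

private theorem Ker_g_semi {σ τ : ℝ} (hσ : 0 < σ) (hτ : 0 < τ) (u w : ℝ) :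
    ∫ x, Ker_g σ (u - x) * Ker_g τ (x - w) = Ker_g (σ + τ) (u - w) := by
  have h1 : ∀ x, Ker_g σ (u - x) * Ker_g τ (x - w) =
      Real.exp (-(u - w) ^ 2 / (2 * (σ + τ))) / (Real.sqrt (2 * Real.pi * σ) *
        Real.sqrt (2 * Real.pi * τ)) *
      Real.exp (-(x - (τ * u + σ * w) / (σ + τ)) ^ 2 / (2 * (σ * τ) / (σ + τ))) := by
    intro x
    unfold Ker_g
    rw [div_mul_div_comm, div_mul_eq_mul_div, ← Real.exp_add, ← Real.exp_add]
    congr 2
    field_simp
    ring
  simp only [h1]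
  rw [integral_const_mul, (Ker_gauss (by positivity) _).2]
  unfold Ker_g
  rw [div_mul_eq_mul_div, div_eq_div_iff (by positivity) (by positivity)]
  rw [mul_assoc, ← Real.sqrt_mul (by positivity), ← Real.sqrt_mul (by positivity)]
  congr 2
  field_simp

theorem hk_pos {τ : ℝ} (hτ : 0 < τ) (p : Pl) : 0 < hk τ p := by
  unfold hk
  positivity

theorem hk_cont {τ : ℝ} (hτ : 0 < τ) : Continuous (hk τ) := by
  unfold hk
  fun_prop

theorem hk_le {τ : ℝ} (hτ : 0 < τ) (p : Pl) : hk τ p ≤ 1 / (2 * Real.pi * τ) := by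
  unfold hk
  refine div_le_div_of_nonneg_right ?_ (by positivity)
  rw [Real.exp_le_one_iff]
  exact div_nonpos_of_nonpos_of_nonneg (by nlinarith [sq_nonneg p.1, sq_nonneg p.2]) (by positivity)

theorem hk_integrable {τ : ℝ} (hτ : 0 < τ) : Integrable (hk τ) := by
  have h1 : hk τ = fun p : Pl => Ker_g τ p.1 * Ker_g τ p.2 := funext (Ker_hk hτ)
  rw [h1, Measure.volume_eq_prod]
  exact (Ker_g_int hτ).1.mul_prod (Ker_g_int hτ).1

theorem hk_int {τ : ℝ} (hτ : 0 < τ) : ∫ p, hk τ p = 1 := by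
  have h1 : hk τ = fun p : Pl => Ker_g τ p.1 * Ker_g τ p.2 := funext (Ker_hk hτ)
  rw [h1, Measure.volume_eq_prod, integral_prod_mul, (Ker_g_int hτ).2, mul_one]

theorem hk_neg {τ : ℝ} (p : Pl) : hk τ (-p) = hk τ p := by
  unfold hk
  simp

/-- semigroup property of the kernel -/
theorem hk_semi {σ τ : ℝ} (hσ : 0 < σ) (hτ : 0 < τ) (p z : Pl) :
    ∫ q, hk σ (p - q) * hk τ (q - z) = hk (σ + τ) (p - z) := by
  have h1 : (fun q : Pl => hk σ (p - q) * hk τ (q - z)) = fun q : Pl =>
      (fun x => Ker_g σ (p.1 - x) * Ker_g τ (x - z.1)) q.1 *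
        (fun x => Ker_g σ (p.2 - x) * Ker_g τ (x - z.2)) q.2 := by
    funext q
    rw [Ker_hk hσ, Ker_hk hτ]
    show Ker_g σ (p.1 - q.1) * Ker_g σ (p.2 - q.2) * (Ker_g τ (q.1 - z.1) * Ker_g τ (q.2 - z.2)) = _
    ring
  rw [h1, Measure.volume_eq_prod, integral_prod_mul (fun x => Ker_g σ (p.1 - x) * Ker_g τ (x - z.1))
    (fun x => Ker_g σ (p.2 - x) * Ker_g τ (x - z.2)), Ker_g_semi hσ hτ, Ker_g_semi hσ hτ,
    Ker_hk (by positivity)]
  rfl

/-- `‖hk 1‖_2² = 1/(4π)` -/
theorem hk_sq : ∫ p, hk 1 p ^ 2 ≤ 1 := by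
  have h0 : (0 : ℝ) < 1 := one_pos
  have h1 : ∀ p, hk 1 p ^ 2 ≤ hk 1 p := by
    intro p
    have h2 := hk_le h0 p
    have h3 := (hk_pos h0 p).le
    have h4 : 1 / (2 * Real.pi * 1) ≤ 1 := by
      rw [div_le_one (by positivity)]
      have := Real.pi_gt_three
      linarith
    nlinarith
  calc ∫ p, hk 1 p ^ 2 ≤ ∫ p, hk 1 p := by
        refine integral_mono_of_nonneg (Eventually.of_forall fun p => sq_nonneg _)
          (hk_integrable h0) (Eventually.of_forall h1)
    _ = 1 := hk_int h0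

/-- bounded measurable functions vanishing outside a set -/
structure BF (F : Set Pl) (g : Pl → ℝ) : Prop where
  meas : Measurable g
  bdd : ∃ B, ∀ p, |g p| ≤ B
  zero : ∀ p, p ∉ F → g p = 0

private theorem Ker_BF_int {F : Set Pl} (hF : volume F ≠ ⊤) {g : Pl → ℝ} (hg : BF F g) :
    Integrable g := by
  obtain ⟨B, hB⟩ := hg.bdd
  have hm : MeasurableSet {p | g p ≠ 0} := hg.meas (measurableSet_singleton 0).compl
  have hsub : {p | g p ≠ 0} ⊆ F := by
    intro p hp
    by_contra h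
    exact hp (hg.zero p h)
  have hfin : volume {p | g p ≠ 0} < ⊤ := (measure_mono hsub).trans_lt (lt_top_iff_ne_top.2 hF)
  have h1 : Integrable ({p | g p ≠ 0}.indicator fun _ => B) :=
    (integrable_indicator_iff hm).2 (integrableOn_const hfin.ne)
  refine h1.mono' hg.meas.aestronglyMeasurable (Eventually.of_forall fun p => ?_)
  by_cases hp : g p = 0
  · rw [hp, norm_zero]
    exact indicator_nonneg (fun x _ => (abs_nonneg _).trans (hB x)) p
  · rw [indicator_of_mem (show p ∈ {p | g p ≠ 0} from hp)]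
    exact hB p

private theorem Ker_prod {g : Pl → ℝ} (hg : Integrable g) {τ : ℝ} (hτ : 0 < τ) :
    Integrable (fun z : Pl × Pl => hk τ (z.1 - z.2) * g z.2) (volume.prod volume) := by
  have h1 := Integrable.convolution_integrand (ContinuousLinearMap.mul ℝ ℝ) hg (hk_integrable hτ)
  refine h1.congr (Eventually.of_forall fun z => ?_)
  show g z.2 * hk τ (z.1 - z.2) = _
  ring

private theorem Ker_Pt_int {g : Pl → ℝ} (hg : Integrable g) {τ : ℝ} (hτ : 0 < τ) :
    Integrable (Pt τ g) := (Ker_prod hg hτ).integral_prod_left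

private theorem Ker_symm_int {g h : Pl → ℝ} (hg : Integrable g) (hh : Integrable h) {τ : ℝ}
    (hτ : 0 < τ) : ∫ p, g p * Pt τ h p = ∫ p, h p * Pt τ g p := by
  have h1 : Integrable (fun z : Pl × Pl => g z.1 * h z.2) (volume.prod volume) := hg.mul_prod hh
  have hc : Continuous fun z : Pl × Pl => hk τ (z.1 - z.2) :=
    (hk_cont hτ).comp (continuous_fst.sub continuous_snd)
  have h2 : Integrable (fun z : Pl × Pl => hk τ (z.1 - z.2) * (g z.1 * h z.2))
      (volume.prod volume) := by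
    refine h1.bdd_mul hc.aestronglyMeasurable (c := 1 / (2 * Real.pi * τ))
      (Eventually.of_forall fun z => ?_)
    rw [Real.norm_eq_abs, abs_of_pos (hk_pos hτ _)]
    exact hk_le hτ _
  calc ∫ p, g p * Pt τ h p = ∫ p, ∫ q, hk τ (p - q) * (g p * h q) := by
        congr 1
        funext p
        unfold Pt
        rw [← integral_const_mul]
        congr 1
        funext q
        ring
    _ = ∫ q, ∫ p, hk τ (p - q) * (g p * h q) := integral_integral_swap h2
    _ = ∫ q, h q * Pt τ g q := by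
        congr 1
        funext q
        unfold Pt
        rw [← integral_const_mul]
        congr 1
        funext p
        rw [← hk_neg (p - q), neg_sub]
        ring

private theorem Ker_semi {g : Pl → ℝ} (hg : Integrable g) {σ τ : ℝ} (hσ : 0 < σ) (hτ : 0 < τ)
    (p : Pl) : Pt σ (Pt τ g) p = Pt (σ + τ) g p := by
  have hi : Integrable (fun q => hk σ (p - q)) := (hk_integrable hσ).comp_sub_left p
  have h1 : Integrable (fun z : Pl × Pl => hk σ (p - z.1) * g z.2) (volume.prod volume) :=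
    hi.mul_prod hg
  have hc : Continuous fun z : Pl × Pl => hk τ (z.1 - z.2) :=
    (hk_cont hτ).comp (continuous_fst.sub continuous_snd)
  have h2 : Integrable (fun z : Pl × Pl => hk τ (z.1 - z.2) * (hk σ (p - z.1) * g z.2))
      (volume.prod volume) := by
    refine h1.bdd_mul hc.aestronglyMeasurable (c := 1 / (2 * Real.pi * τ))
      (Eventually.of_forall fun z => ?_)
    rw [Real.norm_eq_abs, abs_of_pos (hk_pos hτ _)]
    exact hk_le hτ _
  calc Pt σ (Pt τ g) p = ∫ q, ∫ z, hk τ (q - z) * (hk σ (p - q) * g z) := by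
        unfold Pt
        congr 1
        funext q
        rw [← integral_const_mul]
        congr 1
        funext z
        ring
    _ = ∫ z, ∫ q, hk τ (q - z) * (hk σ (p - q) * g z) := integral_integral_swap h2
    _ = Pt (σ + τ) g p := by
        unfold Pt
        congr 1
        funext z
        rw [← hk_semi hσ hτ, ← integral_mul_const]
        congr 1
        funext q
        ring

theorem ker_cont {F : Set Pl} (hF : volume F ≠ ⊤) {g : Pl → ℝ} (hg : BF F g) {τ : ℝ} (hτ : 0 < τ) :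
    Continuous (Pt τ g) := by
  have hi := Ker_BF_int hF hg
  unfold Pt
  refine continuous_of_dominated (bound := fun q => 1 / (2 * Real.pi * τ) * |g q|) ?_ ?_ ?_ ?_
  · intro p
    exact ((hk_cont hτ).comp (continuous_const.sub continuous_id)).aestronglyMeasurable.mul
      hi.aestronglyMeasurable
  · intro p
    refine Eventually.of_forall fun q => ?_
    rw [norm_mul, Real.norm_eq_abs, Real.norm_eq_abs, abs_of_pos (hk_pos hτ _)]
    exact mul_le_mul_of_nonneg_right (hk_le hτ _) (abs_nonneg _)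
  · exact hi.abs.const_mul _
  · refine Eventually.of_forall fun q => ?_
    exact ((hk_cont hτ).comp (continuous_id.sub continuous_const)).mul continuous_const

theorem ker_bdd {B : ℝ} {g : Pl → ℝ} (hg : Measurable g) (hB : ∀ p, |g p| ≤ B) {τ : ℝ}
    (hτ : 0 < τ) (p : Pl) : |Pt τ g p| ≤ B := by
  have hi : Integrable (fun q => hk τ (p - q)) := (hk_integrable hτ).comp_sub_left p
  have h1 : ∫ q, B * hk τ (p - q) = B := by
    rw [integral_const_mul, integral_sub_left_eq_self (hk τ) volume p, hk_int hτ, mul_one]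
  rw [← h1, ← Real.norm_eq_abs]
  unfold Pt
  refine norm_integral_le_of_norm_le (hi.const_mul B) (Eventually.of_forall fun q => ?_)
  rw [norm_mul, Real.norm_eq_abs, Real.norm_eq_abs, abs_of_pos (hk_pos hτ _), mul_comm]
  exact mul_le_mul_of_nonneg_right (hB q) (hk_pos hτ _).le

/-- symmetry -/
theorem ker_symm {F F' : Set Pl} (hF : volume F ≠ ⊤) (hF' : volume F' ≠ ⊤) {g h : Pl → ℝ}
    (hg : BF F g) (hh : BF F' h) {τ : ℝ} (hτ : 0 < τ) :
    ∫ p, g p * Pt τ h p = ∫ p, h p * Pt τ g p :=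
  Ker_symm_int (Ker_BF_int hF hg) (Ker_BF_int hF' hh) hτ

/-- semigroup and symmetry: `∫ g Pt τ g = ∫ (Pt (τ/2) g)²` -/
theorem ker_half {F : Set Pl} (hF : volume F ≠ ⊤) {g : Pl → ℝ} (hg : BF F g) {τ : ℝ}
    (hτ : 0 < τ) : Integrable (fun p => Pt (τ / 2) g p ^ 2) ∧
      ∫ p, g p * Pt τ g p = ms (Pt (τ / 2) g) := by
  have h2 : 0 < τ / 2 := by positivity
  have hi := Ker_BF_int hF hg
  obtain ⟨B, hB⟩ := hg.bdd
  have hG := Ker_Pt_int hi h2
  refine ⟨?_, ?_⟩
  · have h3 : Integrable (fun p => Pt (τ / 2) g p * Pt (τ / 2) g p) :=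
      hG.bdd_mul hG.aestronglyMeasurable (c := B)
        (Eventually.of_forall fun p => ker_bdd hg.meas hB h2 p)
    refine h3.congr (Eventually.of_forall fun p => ?_)
    exact (pow_two _).symm
  · have h4 := Ker_symm_int hG hi h2
    unfold ms
    have h5 : (fun p => g p * Pt τ g p) = fun p => g p * Pt (τ / 2) (Pt (τ / 2) g) p := by
      funext p
      rw [Ker_semi hi h2 h2, add_halves]
    rw [h5, ← h4]
    congr 1
    funext p
    ring

/-- positivity of the form -/
theorem ker_pos {F : Set Pl} (hF : volume F ≠ ⊤) {g : Pl → ℝ} (hg : BF F g) {τ : ℝ} (hτ : 0 < τ) :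
    0 ≤ ∫ p, g p * Pt τ g p := by
  rw [(ker_half hF hg hτ).2]
  exact integral_nonneg fun p => sq_nonneg _

end Pool.Agent.BSv
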