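import Pool.Agent.BSv.Ker

/-!
# Auxiliary lemmas for KERLOW and KERGRAD: second moments of the heat kernel and the difference identity
-/

open MeasureTheory Set Filter Topology
open scoped ENNReal NNReal ContDiff

noncomputable section

namespace Pool.Agent.BSv.KerAux

open Pool.Agent.BSv

/-- the one-dimensional Gaussian density -/
def ph (τ x : ℝ) : ℝ := Real.exp (-x ^ 2 / (2 * τ)) / √(2 * Real.pi * τ)

theorem ph_eq {τ : ℝ} (hτ : 0 < τ) (x : ℝ) :
    ph τ x = ProbabilityTheory.gaussianPDFReal 0 τ.toNNReal x := by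
  unfold ph ProbabilityTheory.gaussianPDFReal
  simp only [sub_zero, Real.coe_toNNReal _ hτ.le]
  rw [div_eq_inv_mul]

theorem ph_integrable {τ : ℝ} (hτ : 0 < τ) : Integrable (ph τ) := by
  have : ph τ = ProbabilityTheory.gaussianPDFReal 0 τ.toNNReal := funext (ph_eq hτ)
  rw [this]; exact ProbabilityTheory.integrable_gaussianPDFReal _ _

theorem nn_ne {τ : ℝ} (hτ : 0 < τ) : τ.toNNReal ≠ 0 := by
  have := Real.toNNReal_pos.2 hτ
  exact this.ne'

theorem ph_int {τ : ℝ} (hτ : 0 < τ) : ∫ x, ph τ x = 1 := by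
  have : ph τ = ProbabilityTheory.gaussianPDFReal 0 τ.toNNReal := funext (ph_eq hτ)
  rw [this]; exact ProbabilityTheory.integral_gaussianPDFReal_eq_one _ (nn_ne hτ)

theorem ph_nonneg (τ x : ℝ) : 0 ≤ ph τ x := by unfold ph; positivity

theorem ph_x {τ : ℝ} (hτ : 0 < τ) : Integrable (fun x => ph τ x * x) ∧ ∫ x, ph τ x * x = 0 := by
  have e : ∀ x, ph τ x = ProbabilityTheory.gaussianPDFReal 0 τ.toNNReal x := ph_eq hτ
  have h1 := ProbabilityTheory.integral_gaussianReal_eq_integral_smul (μ := 0) (v := τ.toNNReal)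
    (f := fun x : ℝ => x) (nn_ne hτ)
  have h2 := ProbabilityTheory.integral_id_gaussianReal (μ := 0) (v := τ.toNNReal)
  refine ⟨?_, ?_⟩
  · have hm : MemLp id 1 (ProbabilityTheory.gaussianReal 0 τ.toNNReal) :=
      ProbabilityTheory.memLp_id_gaussianReal 1
    have hi : Integrable id (ProbabilityTheory.gaussianReal 0 τ.toNNReal) :=
      memLp_one_iff_integrable.1 hm
    rw [ProbabilityTheory.gaussianReal_of_var_ne_zero _ (nn_ne hτ)] at hi
    rw [integrable_withDensity_iff_integrable_smul' (ProbabilityTheory.measurable_gaussianPDF _ _)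
      (Filter.Eventually.of_forall fun x => ProbabilityTheory.gaussianPDF_lt_top)] at hi
    refine hi.congr (Filter.Eventually.of_forall fun x => ?_)
    simp only [ProbabilityTheory.toReal_gaussianPDF, smul_eq_mul, id]
    rw [e]
  · rw [h2] at h1
    simp only [smul_eq_mul] at h1
    rw [h1]
    exact integral_congr_ae (Filter.Eventually.of_forall fun x => by simp only [e])

theorem ph_xx {τ : ℝ} (hτ : 0 < τ) :
    Integrable (fun x => ph τ x * x ^ 2) ∧ ∫ x, ph τ x * x ^ 2 = τ := by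
  have e : ∀ x, ph τ x = ProbabilityTheory.gaussianPDFReal 0 τ.toNNReal x := ph_eq hτ
  have h1 := ProbabilityTheory.integral_gaussianReal_eq_integral_smul (μ := 0) (v := τ.toNNReal)
    (f := fun x : ℝ => x ^ 2) (nn_ne hτ)
  have h2 := ProbabilityTheory.variance_fun_id_gaussianReal (μ := 0) (v := τ.toNNReal)
  have hm : MemLp id 2 (ProbabilityTheory.gaussianReal 0 τ.toNNReal) :=
      ProbabilityTheory.memLp_id_gaussianReal 2
  refine ⟨?_, ?_⟩
  · have hi : Integrable (fun x : ℝ => x ^ 2) (ProbabilityTheory.gaussianReal 0 τ.toNNReal) :=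
      hm.integrable_sq
    rw [ProbabilityTheory.gaussianReal_of_var_ne_zero _ (nn_ne hτ)] at hi
    rw [integrable_withDensity_iff_integrable_smul' (ProbabilityTheory.measurable_gaussianPDF _ _)
      (Filter.Eventually.of_forall fun x => ProbabilityTheory.gaussianPDF_lt_top)] at hi
    refine hi.congr (Filter.Eventually.of_forall fun x => ?_)
    simp only [ProbabilityTheory.toReal_gaussianPDF, smul_eq_mul]
    rw [e]
  · rw [ProbabilityTheory.variance_eq_integral (by fun_prop)] at h2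
    have h3 := ProbabilityTheory.integral_id_gaussianReal (μ := 0) (v := τ.toNNReal)
    rw [h3] at h2
    simp only [sub_zero, Real.coe_toNNReal _ hτ.le] at h2
    rw [h2] at h1
    simp only [smul_eq_mul] at h1
    refine Eq.trans ?_ h1.symm
    exact integral_congr_ae (Filter.Eventually.of_forall fun x => by simp only [e])

theorem hk_ph {τ : ℝ} (hτ : 0 < τ) (z : Pl) : hk τ z = ph τ z.1 * ph τ z.2 := by
  unfold hk ph
  have h : √(2 * Real.pi * τ) * √(2 * Real.pi * τ) = 2 * Real.pi * τ :=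
    Real.mul_self_sqrt (by positivity)
  rw [div_mul_div_comm, h, ← Real.exp_add]
  congr 2
  ring

theorem hk_quad {τ : ℝ} (hτ : 0 < τ) (A B C : ℝ) :
    Integrable (fun z : Pl => hk τ z * (A * z.1 ^ 2 + 2 * B * (z.1 * z.2) + C * z.2 ^ 2)) ∧
      ∫ z : Pl, hk τ z * (A * z.1 ^ 2 + 2 * B * (z.1 * z.2) + C * z.2 ^ 2) = τ * (A + C) := by
  have i1 : Integrable (fun z : ℝ × ℝ => (ph τ z.1 * z.1 ^ 2) * ph τ z.2) :=
    (ph_xx hτ).1.mul_prod (ph_integrable hτ)
  have i2 : Integrable (fun z : ℝ × ℝ => (ph τ z.1 * z.1) * (ph τ z.2 * z.2)) :=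
    (ph_x hτ).1.mul_prod (ph_x hτ).1
  have i3 : Integrable (fun z : ℝ × ℝ => ph τ z.1 * (ph τ z.2 * z.2 ^ 2)) :=
    (ph_integrable hτ).mul_prod (ph_xx hτ).1
  have v1 : ∫ z : ℝ × ℝ, (ph τ z.1 * z.1 ^ 2) * ph τ z.2 = τ := by
    have := integral_prod_mul (μ := (volume : Measure ℝ)) (ν := (volume : Measure ℝ))
      (fun x => ph τ x * x ^ 2) (ph τ)
    rw [(ph_xx hτ).2, ph_int hτ, mul_one] at this
    exact this
  have v2 : ∫ z : ℝ × ℝ, (ph τ z.1 * z.1) * (ph τ z.2 * z.2) = 0 := by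
    have := integral_prod_mul (μ := (volume : Measure ℝ)) (ν := (volume : Measure ℝ))
      (fun x => ph τ x * x) (fun x => ph τ x * x)
    rw [(ph_x hτ).2, mul_zero] at this
    exact this
  have v3 : ∫ z : ℝ × ℝ, ph τ z.1 * (ph τ z.2 * z.2 ^ 2) = τ := by
    have := integral_prod_mul (μ := (volume : Measure ℝ)) (ν := (volume : Measure ℝ))
      (ph τ) (fun x => ph τ x * x ^ 2)
    rw [(ph_xx hτ).2, ph_int hτ, one_mul] at this
    exact this
  have e : (fun z : Pl => hk τ z * (A * z.1 ^ 2 + 2 * B * (z.1 * z.2) + C * z.2 ^ 2)) =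
      fun z : Pl => A * ((ph τ z.1 * z.1 ^ 2) * ph τ z.2) +
        2 * B * ((ph τ z.1 * z.1) * (ph τ z.2 * z.2)) + C * (ph τ z.1 * (ph τ z.2 * z.2 ^ 2)) := by
    funext z
    rw [hk_ph hτ]
    ring
  rw [e]
  have i12 : Integrable (fun z : Pl => A * ((ph τ z.1 * z.1 ^ 2) * ph τ z.2) +
        2 * B * ((ph τ z.1 * z.1) * (ph τ z.2 * z.2))) :=
    (i1.const_mul A).add (i2.const_mul (2 * B))
  refine ⟨i12.add (i3.const_mul C), ?_⟩
  rw [integral_add i12 (i3.const_mul C),
    integral_add (i1.const_mul A) (i2.const_mul (2 * B)), integral_const_mul, integral_const_mul,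
    integral_const_mul, v1, v2, v3]
  ring

theorem Pt_eq (τ : ℝ) (g : Pl → ℝ) (p : Pl) : Pt τ g p = ∫ z, hk τ z * g (p + z) := by
  unfold Pt
  rw [← integral_add_left_eq_self (fun q => hk τ (p - q) * g q) p]
  refine integral_congr_ae (Filter.Eventually.of_forall fun z => ?_)
  simp only
  rw [show p - (p + z) = -z by abel, hk_neg]

/-- measurable square integrable -/
structure SQ (g : Pl → ℝ) : Prop where
  meas : Measurable g
  sq : Integrable (fun p => g p ^ 2)

theorem int2 {τ : ℝ} (hτ : 0 < τ) {g : Pl → ℝ} (hg : SQ g) :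
    Integrable (fun w : Pl × Pl => hk τ w.1 * g w.2 ^ 2) (volume.prod volume) ∧
    Integrable (fun w : Pl × Pl => hk τ w.1 * g (w.1 + w.2) ^ 2) (volume.prod volume) := by
  have h := (hk_integrable hτ).mul_prod hg.sq
  refine ⟨h, ?_⟩
  have hm := measurePreserving_prod_add (volume : Measure Pl) (volume : Measure Pl)
  exact hm.integrable_comp_of_integrable h

theorem int3 {τ : ℝ} (hτ : 0 < τ) {g : Pl → ℝ} (hg : SQ g) :
    Integrable (fun w : Pl × Pl => hk τ w.1 * (g w.2 * g (w.1 + w.2))) (volume.prod volume) := by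
  have h := int2 hτ hg
  refine Integrable.mono (h.1.add h.2) ?_ (Filter.Eventually.of_forall fun w => ?_)
  · have := hg.meas
    have h2 : Measurable (hk τ) := (hk_cont hτ).measurable
    exact Measurable.aestronglyMeasurable (by fun_prop)
  · rw [Pi.add_apply, Real.norm_eq_abs, Real.norm_eq_abs, abs_mul, ← mul_add,
      abs_of_pos (hk_pos hτ _)]
    refine le_trans ?_ (le_abs_self _)
    refine mul_le_mul_of_nonneg_left ?_ (hk_pos hτ _).le
    rw [abs_le]
    constructor <;> nlinarith [sq_nonneg (g w.2 - g (w.1 + w.2)), sq_nonneg (g w.2 + g (w.1 + w.2)),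
      sq_nonneg (g w.2), sq_nonneg (g (w.1 + w.2))]

theorem int4 {τ : ℝ} (hτ : 0 < τ) {g : Pl → ℝ} (hg : SQ g) :
    Integrable (fun w : Pl × Pl => hk τ w.1 * (g (w.1 + w.2) - g w.2) ^ 2)
      (volume.prod volume) := by
  have h := int2 hτ hg
  have h3 := int3 hτ hg
  have e : (fun w : Pl × Pl => hk τ w.1 * (g (w.1 + w.2) - g w.2) ^ 2) =
      fun w : Pl × Pl => (hk τ w.1 * g w.2 ^ 2 + hk τ w.1 * g (w.1 + w.2) ^ 2) -
        2 * (hk τ w.1 * (g w.2 * g (w.1 + w.2))) := by
    funext w; ring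
  rw [e]
  exact (h.1.add h.2).sub (h3.const_mul 2)

/-- the difference identity -/
theorem diff_id {τ : ℝ} (hτ : 0 < τ) {g : Pl → ℝ} (hg : SQ g) :
    ∫ z, hk τ z * ∫ p, (g (z + p) - g p) ^ 2 = 2 * (ms g - ∫ p, g p * Pt τ g p) := by
  have h := int2 hτ hg
  have h3 := int3 hτ hg
  have h4 := int4 hτ hg
  have e : (fun w : Pl × Pl => hk τ w.1 * (g (w.1 + w.2) - g w.2) ^ 2) =
      fun w : Pl × Pl => (hk τ w.1 * g w.2 ^ 2 + hk τ w.1 * g (w.1 + w.2) ^ 2) -
        2 * (hk τ w.1 * (g w.2 * g (w.1 + w.2))) := by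
    funext w; ring
  have e1 : ∫ z, hk τ z * ∫ p, (g (z + p) - g p) ^ 2 =
      ∫ w : Pl × Pl, hk τ w.1 * (g (w.1 + w.2) - g w.2) ^ 2 ∂(volume.prod volume) := by
    rw [integral_prod _ h4]
    refine integral_congr_ae (Filter.Eventually.of_forall fun z => ?_)
    simp only
    rw [integral_const_mul]
  have e2 : ∫ w : Pl × Pl, hk τ w.1 * g w.2 ^ 2 ∂(volume.prod volume) = ms g := by
    have := integral_prod_mul (μ := (volume : Measure Pl)) (ν := (volume : Measure Pl))
      (hk τ) (fun p => g p ^ 2)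
    rw [hk_int hτ, one_mul] at this
    exact this
  have e3 : ∫ w : Pl × Pl, hk τ w.1 * g (w.1 + w.2) ^ 2 ∂(volume.prod volume) = ms g := by
    rw [← e2]
    rw [integral_prod _ h.2, integral_prod _ h.1]
    refine integral_congr_ae (Filter.Eventually.of_forall fun z => ?_)
    simp only
    rw [integral_const_mul, integral_const_mul, integral_add_left_eq_self (fun p => g p ^ 2) z]
  have e4 : ∫ w : Pl × Pl, hk τ w.1 * (g w.2 * g (w.1 + w.2)) ∂(volume.prod volume) =
      ∫ p, g p * Pt τ g p := by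
    rw [integral_prod_symm _ h3]
    refine integral_congr_ae (Filter.Eventually.of_forall fun p => ?_)
    simp only
    rw [Pt_eq, ← integral_const_mul]
    refine integral_congr_ae (Filter.Eventually.of_forall fun z => ?_)
    simp only
    rw [add_comm z p]
    ring
  have h12 : Integrable (fun w : Pl × Pl => hk τ w.1 * g w.2 ^ 2 + hk τ w.1 * g (w.1 + w.2) ^ 2)
      (volume.prod volume) := h.1.add h.2
  rw [e1, e, integral_sub h12 (h3.const_mul 2)]
  have e5 : ∫ w : Pl × Pl, (hk τ w.1 * g w.2 ^ 2 + hk τ w.1 * g (w.1 + w.2) ^ 2)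
      ∂(volume.prod volume) = ms g + ms g := by
    rw [integral_add h.1 h.2, e2, e3]
  have e6 : ∫ w : Pl × Pl, 2 * (hk τ w.1 * (g w.2 * g (w.1 + w.2))) ∂(volume.prod volume) =
      2 * ∫ p, g p * Pt τ g p := by
    rw [integral_const_mul, e4]
  rw [e5, e6]
  ring

end Pool.Agent.BSv.KerAux
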