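import Pool.Agent.BSv.KerAux

/-!
# Module KERGRAD: smoothing, with the sharp constant

`F` bounded (or compact), `g ∈ BF F`, `G = Pt (δ/2) g`.  `G` is smooth (the kernel times a smooth
cut-off is smooth with compact support, `HasCompactSupport.contDiff_convolution_right`, locally).

`ker_grad`: `δ en G ≤ ms g - ∫ g Pt δ g`.
With `τ = δ/2`, `u = ∇ G (p)`: `u·u = (1/(2τ)) ∫ (z·u) hk τ z (g (p+z) - g (p-z)) dz`, so (complete the
square) `4 τ |∇ G (p)|² ≤ ∫ hk τ z (g (p+z) - g (p-z))² dz`.  Integrate over `p`, translate, and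
substitute `w = 2 z`: `2 δ ∫ |∇ G|² ≤ ∫ hk (2δ) w ∫ (g (p+w) - g p)² dp dw = 2 (F 0 - F (2δ))`, with
`F θ = ∫ g Pt θ g`, `F 0 = ms g`; finally `F 0 - F (2δ) ≤ 2 (F 0 - F δ)`, because
`F 0 - 2 F δ + F (2δ) = ∫ (g - Pt δ g)² ≥ 0`.
-/

open MeasureTheory Set Filter Topology
open scoped ENNReal NNReal ContDiff

noncomputable section

namespace Pool.Agent.BSv

namespace KerGradAux

theorem BF_integrable_mul {F : Set Pl} (hF : volume F ≠ ⊤) {g : Pl → ℝ} (hg : BF F g) {h : Pl → ℝ}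
    (hh : Measurable h) {B : ℝ} (hB : ∀ p, |h p| ≤ B) : Integrable (fun p => g p * h p) := by
  obtain ⟨A, hA⟩ := hg.bdd
  set S : Set Pl := {p | g p ≠ 0} with hS
  have hSm : MeasurableSet S := (hg.meas (measurableSet_singleton 0)).compl
  have hSF : S ⊆ F := by
    intro p hp
    by_contra hn
    exact hp (hg.zero p hn)
  have hSv : volume S ≠ ⊤ := ne_top_of_le_ne_top hF (measure_mono hSF)
  have hA0 : 0 ≤ A := le_trans (abs_nonneg _) (hA 0)
  have h1 : IntegrableOn (fun p => g p * h p) S := by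
    refine Measure.integrableOn_of_bounded hSv (by
      have := hg.meas
      exact Measurable.aestronglyMeasurable (by fun_prop)) (M := A * B) ?_
    refine Filter.Eventually.of_forall fun p => ?_
    rw [Real.norm_eq_abs, abs_mul]
    exact mul_le_mul (hA p) (hB p) (abs_nonneg _) hA0
  rw [← integrable_indicator_iff hSm] at h1
  refine h1.congr (Filter.Eventually.of_forall fun p => ?_)
  by_cases hp : p ∈ S
  · simp [indicator_of_mem hp]
  · rw [indicator_of_notMem hp]
    have : g p = 0 := by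
      by_contra h0
      exact hp h0
    simp [this]

theorem BF_integrable {F : Set Pl} (hF : volume F ≠ ⊤) {g : Pl → ℝ} (hg : BF F g) :
    Integrable g := by
  have := BF_integrable_mul hF hg (h := fun _ => 1) measurable_const (B := 1) (by simp)
  simpa using this

theorem BF_sq {F : Set Pl} (hF : volume F ≠ ⊤) {g : Pl → ℝ} (hg : BF F g) : KerAux.SQ g := by
  obtain ⟨A, hA⟩ := hg.bdd
  refine ⟨hg.meas, ?_⟩
  have := BF_integrable_mul hF hg (h := g) hg.meas hA
  refine this.congr (Filter.Eventually.of_forall fun p => ?_)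
  simp only
  ring

theorem hk_smooth (τ : ℝ) : ContDiff ℝ ∞ (hk τ) := by
  unfold hk
  fun_prop

/-- the derivative of the kernel -/
def hkd (τ : ℝ) (x : Pl) : Pl →L[ℝ] ℝ :=
  (-(hk τ x * x.1 / τ)) • ContinuousLinearMap.fst ℝ ℝ ℝ +
    (-(hk τ x * x.2 / τ)) • ContinuousLinearMap.snd ℝ ℝ ℝ

theorem hk_hasFDerivAt {τ : ℝ} (hτ : 0 < τ) (x : Pl) : HasFDerivAt (hk τ) (hkd τ x) x := by
  have h1 : HasFDerivAt (fun p : Pl => p.1) (ContinuousLinearMap.fst ℝ ℝ ℝ) x := hasFDerivAt_fst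
  have h2 : HasFDerivAt (fun p : Pl => p.2) (ContinuousLinearMap.snd ℝ ℝ ℝ) x := hasFDerivAt_snd
  have h3 := ((((h1.pow 2).add (h2.pow 2)).const_mul (-(2 * τ)⁻¹)).exp).const_mul
    (2 * Real.pi * τ)⁻¹
  have e : hk τ = fun p : Pl => (2 * Real.pi * τ)⁻¹ *
      Real.exp (-(2 * τ)⁻¹ * ((fun p : Pl => p.1) p ^ 2 + (fun p : Pl => p.2) p ^ 2)) := by
    funext p
    unfold hk
    rw [div_eq_inv_mul]
    congr 2
    field_simp
  rw [e]
  refine h3.congr_fderiv ?_
  ext <;> simp [hkd, hk] <;> field_simp <;> ring_nf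

theorem hk_mul_abs_le {τ : ℝ} (hτ : 0 < τ) (x : Pl) (y : ℝ) (hy : y ^ 2 ≤ x.1 ^ 2 + x.2 ^ 2) :
    hk τ x * |y| ≤ (1 + 2 * τ) / (2 * Real.pi * τ) := by
  unfold hk
  set u := (x.1 ^ 2 + x.2 ^ 2) / (2 * τ) with hu
  have hu0 : 0 ≤ u := by positivity
  have h1 : |y| ≤ 1 + 2 * τ * u := by
    have h2 : 2 * τ * u = x.1 ^ 2 + x.2 ^ 2 := by rw [hu]; field_simp
    rw [h2]
    nlinarith [sq_nonneg (|y| - 1), sq_abs y]
  have h3 : Real.exp (-u) * (1 + 2 * τ * u) ≤ 1 + 2 * τ := by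
    have h4 : Real.exp (-u) ≤ 1 := Real.exp_le_one_iff.2 (by linarith)
    have h5 : Real.exp (-u) * u ≤ 1 := by
      have h6 : u ≤ Real.exp u := by linarith [Real.add_one_le_exp u]
      calc Real.exp (-u) * u ≤ Real.exp (-u) * Real.exp u :=
            mul_le_mul_of_nonneg_left h6 (Real.exp_pos _).le
        _ = 1 := by rw [← Real.exp_add]; simp
    nlinarith
  have h7 : -(x.1 ^ 2 + x.2 ^ 2) / (2 * τ) = -u := by rw [hu, neg_div]
  rw [h7, div_mul_eq_mul_div]
  refine div_le_div_of_nonneg_right ?_ (by positivity)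
  exact le_trans (mul_le_mul_of_nonneg_left h1 (Real.exp_pos _).le) h3

theorem hkd_le {τ : ℝ} (hτ : 0 < τ) : ∃ C, ∀ x, ‖hkd τ x‖ ≤ C := by
  refine ⟨(1 + 2 * τ) / (2 * Real.pi * τ) / τ + (1 + 2 * τ) / (2 * Real.pi * τ) / τ, fun x => ?_⟩
  unfold hkd
  refine (norm_add_le _ _).trans (add_le_add ?_ ?_)
  · rw [norm_smul, norm_neg, Real.norm_eq_abs, abs_div, abs_mul, abs_of_pos (hk_pos hτ _),
      abs_of_pos hτ]
    refine (mul_le_of_le_one_right (by have := hk_pos hτ x; positivity)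
      (ContinuousLinearMap.norm_fst_le _ _ _)).trans ?_
    exact div_le_div_of_nonneg_right (hk_mul_abs_le hτ x _ (by nlinarith [sq_nonneg x.2])) hτ.le
  · rw [norm_smul, norm_neg, Real.norm_eq_abs, abs_div, abs_mul, abs_of_pos (hk_pos hτ _),
      abs_of_pos hτ]
    refine (mul_le_of_le_one_right (by have := hk_pos hτ x; positivity)
      (ContinuousLinearMap.norm_snd_le _ _ _)).trans ?_
    exact div_le_div_of_nonneg_right (hk_mul_abs_le hτ x _ (by nlinarith [sq_nonneg x.1])) hτ.le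

theorem hkd_cont {τ : ℝ} (hτ : 0 < τ) : Continuous (hkd τ) := by
  unfold hkd
  have := hk_cont hτ
  fun_prop

/-- the gradient of the smoothed function -/
theorem Pt_hasFDerivAt {F : Set Pl} (hF : volume F ≠ ⊤) {g : Pl → ℝ} (hg : BF F g) {τ : ℝ}
    (hτ : 0 < τ) (p : Pl) :
    HasFDerivAt (Pt τ g) (∫ q, g q • hkd τ (p - q)) p ∧
      Integrable (fun q => g q • hkd τ (p - q)) := by
  obtain ⟨C, hC⟩ := hkd_le hτ
  have hgi := BF_integrable hF hg
  have hkc := hk_cont hτ
  have hdc := hkd_cont hτ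
  have hgm := hg.meas
  have hm : AEStronglyMeasurable (fun q => g q • hkd τ (p - q)) volume := by
    refine (hgm.aestronglyMeasurable).smul ?_
    exact (hdc.comp (continuous_const.sub continuous_id)).aestronglyMeasurable
  have hi : Integrable (fun q => g q • hkd τ (p - q)) := by
    refine Integrable.mono' (hgi.norm.mul_const C) hm (Filter.Eventually.of_forall fun q => ?_)
    rw [norm_smul]
    exact mul_le_mul_of_nonneg_left (hC _) (norm_nonneg _)
  refine ⟨?_, hi⟩
  have h := hasFDerivAt_integral_of_dominated_of_fderiv_le (𝕜 := ℝ) (μ := (volume : Measure Pl))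
    (F := fun x q => hk τ (x - q) * g q) (F' := fun x q => g q • hkd τ (x - q))
    (x₀ := p) (s := univ) (bound := fun q => ‖g q‖ * C) Filter.univ_mem
    (Filter.Eventually.of_forall fun x => by
      exact Measurable.aestronglyMeasurable (by
        have h1 : Measurable (hk τ) := hkc.measurable
        fun_prop))
    (by
      obtain ⟨B, hB⟩ : ∃ B, ∀ x, |hk τ x| ≤ B :=
        ⟨_, fun x => by rw [abs_of_pos (hk_pos hτ x)]; exact hk_le hτ x⟩
      have := BF_integrable_mul hF hg (h := fun q => hk τ (p - q)) (by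
        have h1 : Measurable (hk τ) := hkc.measurable
        fun_prop) (fun q => hB (p - q))
      refine this.congr (Filter.Eventually.of_forall fun q => ?_)
      simp only
      ring)
    hm
    (Filter.Eventually.of_forall fun q x _ => by
      rw [norm_smul]
      exact mul_le_mul_of_nonneg_left (hC _) (norm_nonneg _))
    (hgi.norm.mul_const C)
    (Filter.Eventually.of_forall fun q x _ => by
      have h1 : HasFDerivAt (fun x : Pl => hk τ (x - q)) (hkd τ (x - q)) x := by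
        have h2 : HasFDerivAt (fun x : Pl => x - q) (ContinuousLinearMap.id ℝ Pl) x :=
          (hasFDerivAt_id x).sub_const q
        have h3 := (hk_hasFDerivAt hτ (x - q)).comp x h2
        rw [ContinuousLinearMap.comp_id] at h3
        exact h3
      exact h1.mul_const (g q))
  exact h

theorem grad_eq {F : Set Pl} (hF : volume F ≠ ⊤) {g : Pl → ℝ} (hg : BF F g) {τ : ℝ}
    (hτ : 0 < τ) (p u : Pl) :
    fderiv ℝ (Pt τ g) p u = τ⁻¹ * ∫ z, hk τ z * (z.1 * u.1 + z.2 * u.2) * g (z + p) := by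
  obtain ⟨h1, h2⟩ := Pt_hasFDerivAt hF hg hτ p
  rw [h1.fderiv, ContinuousLinearMap.integral_apply h2]
  rw [← integral_add_left_eq_self (fun q => (g q • hkd τ (p - q)) u) p, ← integral_const_mul]
  refine integral_congr_ae (Filter.Eventually.of_forall fun z => ?_)
  simp only
  rw [show p - (p + z) = -z by abel, add_comm p z]
  simp only [hkd, hk_neg, smul_apply, add_apply,
    ContinuousLinearMap.coe_fst', ContinuousLinearMap.coe_snd', smul_eq_mul, Prod.fst_neg,
    Prod.snd_neg]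
  field_simp

theorem grad_eq_neg {F : Set Pl} (hF : volume F ≠ ⊤) {g : Pl → ℝ} (hg : BF F g) {τ : ℝ}
    (hτ : 0 < τ) (p u : Pl) :
    fderiv ℝ (Pt τ g) p u = -(τ⁻¹ * ∫ z, hk τ z * (z.1 * u.1 + z.2 * u.2) * g (-z + p)) := by
  rw [grad_eq hF hg hτ, ← mul_neg, ← integral_neg]
  congr 1
  rw [← integral_neg_eq_self (fun z : Pl => hk τ z * (z.1 * u.1 + z.2 * u.2) * g (z + p))]
  refine integral_congr_ae (Filter.Eventually.of_forall fun z => ?_)
  simp only [hk_neg, Prod.fst_neg, Prod.snd_neg]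
  ring

theorem int_bdd {k h : Pl → ℝ} (hk : Integrable k) (hh : Measurable h) {B : ℝ}
    (hB : ∀ z, |h z| ≤ B) : Integrable (fun z => k z * h z) := by
  refine Integrable.mono' (hk.norm.mul_const B)
    (hk.aestronglyMeasurable.mul hh.aestronglyMeasurable) (Filter.Eventually.of_forall fun z => ?_)
  rw [norm_mul]
  exact mul_le_mul_of_nonneg_left (by rw [Real.norm_eq_abs]; exact hB z) (norm_nonneg _)

theorem int_y {τ : ℝ} (hτ : 0 < τ) (u : Pl) :
    Integrable (fun z : Pl => hk τ z * (z.1 * u.1 + z.2 * u.2) ^ 2) ∧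
    ∫ z : Pl, hk τ z * (z.1 * u.1 + z.2 * u.2) ^ 2 = τ * (u.1 ^ 2 + u.2 ^ 2) ∧
    Integrable (fun z : Pl => hk τ z * (z.1 * u.1 + z.2 * u.2)) := by
  have h := KerAux.hk_quad hτ (u.1 ^ 2) (u.1 * u.2) (u.2 ^ 2)
  have e : (fun z : Pl => hk τ z * (z.1 * u.1 + z.2 * u.2) ^ 2) = fun z : Pl =>
      hk τ z * (u.1 ^ 2 * z.1 ^ 2 + 2 * (u.1 * u.2) * (z.1 * z.2) + u.2 ^ 2 * z.2 ^ 2) := by
    funext z; ring
  have h1 : Integrable (fun z : Pl => hk τ z * (z.1 * u.1 + z.2 * u.2) ^ 2) := by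
    rw [e]; exact h.1
  refine ⟨h1, by rw [e]; exact h.2, ?_⟩
  refine Integrable.mono' ((hk_integrable hτ).add h1) ?_ (Filter.Eventually.of_forall fun z => ?_)
  · have : Measurable (hk τ) := (hk_cont hτ).measurable
    exact Measurable.aestronglyMeasurable (by fun_prop)
  · rw [Pi.add_apply, Real.norm_eq_abs, abs_mul, abs_of_pos (hk_pos hτ z)]
    have h2 : |z.1 * u.1 + z.2 * u.2| ≤ 1 + (z.1 * u.1 + z.2 * u.2) ^ 2 := by
      nlinarith [sq_nonneg (|z.1 * u.1 + z.2 * u.2| - 1), sq_abs (z.1 * u.1 + z.2 * u.2)]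
    have := mul_le_mul_of_nonneg_left h2 (hk_pos hτ z).le
    linarith

theorem fderiv_pair (G : Pl → ℝ) (p : Pl) :
    fderiv ℝ G p (dx G p, dy G p) = gr2 G p := by
  have h : ((dx G p, dy G p) : Pl) = (dx G p) • ((1 : ℝ), (0 : ℝ)) + (dy G p) • ((0 : ℝ), (1 : ℝ)) := by
    ext <;> simp
  rw [h, map_add, map_smul, map_smul]
  unfold gr2
  rw [pow_two, pow_two]
  rfl

/-- the pointwise inequality -/
theorem pointwise {F : Set Pl} (hF : volume F ≠ ⊤) {g : Pl → ℝ} (hg : BF F g) {τ : ℝ}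
    (hτ : 0 < τ) (p : Pl) :
    4 * τ * gr2 (Pt τ g) p ≤ ∫ z, hk τ z * (g (z + p) - g (-z + p)) ^ 2 := by
  set G := Pt τ g with hG
  set u : Pl := (dx G p, dy G p) with hu
  obtain ⟨A, hA⟩ := hg.bdd
  have hgm := hg.meas
  obtain ⟨y1, y2, y3⟩ := int_y hτ u
  have m1 : Measurable fun z => g (z + p) := by fun_prop
  have m2 : Measurable fun z => g (-z + p) := by fun_prop
  have i1 : Integrable fun z : Pl => hk τ z * (z.1 * u.1 + z.2 * u.2) * g (z + p) :=
    int_bdd y3 m1 fun z => hA _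
  have i2 : Integrable fun z : Pl => hk τ z * (z.1 * u.1 + z.2 * u.2) * g (-z + p) :=
    int_bdd y3 m2 fun z => hA _
  have i3 : Integrable fun z : Pl => hk τ z * (g (z + p) - g (-z + p)) ^ 2 := by
    refine int_bdd (hk_integrable hτ) (B := (2 * A) ^ 2) (by fun_prop) fun z => ?_
    rw [abs_of_nonneg (sq_nonneg _), sq_le_sq, abs_of_nonneg (a := 2 * A) (by
      have := le_trans (abs_nonneg _) (hA 0); linarith)]
    have h1 := hA (z + p)
    have h2 := hA (-z + p)
    have h3 := abs_sub (g (z + p)) (g (-z + p))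
    linarith
  have e1 := grad_eq hF hg hτ p u
  have e2 := grad_eq_neg hF hg hτ p u
  have e3 : ∫ z : Pl, hk τ z * (z.1 * u.1 + z.2 * u.2) * (g (z + p) - g (-z + p)) =
      2 * τ * gr2 G p := by
    have e4 : (fun z : Pl => hk τ z * (z.1 * u.1 + z.2 * u.2) * (g (z + p) - g (-z + p))) =
        fun z : Pl => hk τ z * (z.1 * u.1 + z.2 * u.2) * g (z + p) -
          hk τ z * (z.1 * u.1 + z.2 * u.2) * g (-z + p) := by funext z; ring
    rw [e4, integral_sub i1 i2]
    rw [← hG, hu, fderiv_pair] at e1 e2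
    rw [← hu] at e1 e2
    have e5 : ∫ z : Pl, hk τ z * (z.1 * u.1 + z.2 * u.2) * g (z + p) = τ * gr2 G p := by
      rw [e1, mul_inv_cancel_left₀ hτ.ne']
    have e6 : ∫ z : Pl, hk τ z * (z.1 * u.1 + z.2 * u.2) * g (-z + p) = -(τ * gr2 G p) := by
      rw [e2, mul_neg, mul_inv_cancel_left₀ hτ.ne', neg_neg]
    rw [e5, e6]; ring
  have i4 : Integrable fun z : Pl =>
      hk τ z * (z.1 * u.1 + z.2 * u.2) * (g (z + p) - g (-z + p)) := by
    refine (i1.sub i2).congr (Filter.Eventually.of_forall fun z => ?_)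
    simp only [Pi.sub_apply]
    ring
  have h0 : 0 ≤ ∫ z : Pl, hk τ z * ((g (z + p) - g (-z + p)) - 2 * (z.1 * u.1 + z.2 * u.2)) ^ 2 :=
    integral_nonneg fun z => mul_nonneg (hk_pos hτ z).le (sq_nonneg _)
  have e7 : (fun z : Pl =>
      hk τ z * ((g (z + p) - g (-z + p)) - 2 * (z.1 * u.1 + z.2 * u.2)) ^ 2) = fun z : Pl =>
      (hk τ z * (g (z + p) - g (-z + p)) ^ 2 -
        4 * (hk τ z * (z.1 * u.1 + z.2 * u.2) * (g (z + p) - g (-z + p)))) +
        4 * (hk τ z * (z.1 * u.1 + z.2 * u.2) ^ 2) := by funext z; ring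
  have i5 : Integrable fun z : Pl => hk τ z * (g (z + p) - g (-z + p)) ^ 2 -
        4 * (hk τ z * (z.1 * u.1 + z.2 * u.2) * (g (z + p) - g (-z + p))) :=
    i3.sub (i4.const_mul 4)
  rw [e7, integral_add i5 (y1.const_mul 4), integral_sub i3 (i4.const_mul 4), integral_const_mul,
    integral_const_mul, e3, y2] at h0
  have e8 : u.1 ^ 2 + u.2 ^ 2 = gr2 G p := rfl
  rw [e8] at h0
  linarith

theorem int_sym {g : Pl → ℝ} (hg : KerAux.SQ g) {τ : ℝ} (hτ : 0 < τ) :
    Integrable (fun w : Pl × Pl => hk τ w.1 * (g (w.1 + w.2) - g (-w.1 + w.2)) ^ 2)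
      (volume.prod volume) := by
  have h2 := (KerAux.int2 hτ hg).2
  have hmp : MeasurePreserving (Prod.map (Neg.neg : Pl → Pl) (id : Pl → Pl))
      ((volume : Measure Pl).prod (volume : Measure Pl))
      ((volume : Measure Pl).prod (volume : Measure Pl)) :=
    (Measure.measurePreserving_neg (volume : Measure Pl)).prod (MeasurePreserving.id _)
  have h3 := hmp.integrable_comp_of_integrable h2
  have h4 : Integrable (fun w : Pl × Pl => hk τ w.1 * g (-w.1 + w.2) ^ 2)
      (volume.prod volume) := by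
    refine h3.congr (Filter.Eventually.of_forall fun w => ?_)
    simp [hk_neg]
  have hgm := hg.meas
  have hkm : Measurable (hk τ) := (hk_cont hτ).measurable
  refine Integrable.mono' ((h2.const_mul 2).add (h4.const_mul 2)) ?_
    (Filter.Eventually.of_forall fun w => ?_)
  · exact Measurable.aestronglyMeasurable (by fun_prop)
  · rw [Pi.add_apply, Real.norm_eq_abs, abs_mul, abs_of_pos (hk_pos hτ _),
      abs_of_nonneg (sq_nonneg _)]
    have h5 : (g (w.1 + w.2) - g (-w.1 + w.2)) ^ 2 ≤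
        2 * g (w.1 + w.2) ^ 2 + 2 * g (-w.1 + w.2) ^ 2 := by
      nlinarith [sq_nonneg (g (w.1 + w.2) + g (-w.1 + w.2))]
    have := mul_le_mul_of_nonneg_left h5 (hk_pos hτ w.1).le
    linarith

theorem sym_eq {g : Pl → ℝ} (hg : KerAux.SQ g) {τ : ℝ} (hτ : 0 < τ) :
    ∫ p, ∫ z, hk τ z * (g (z + p) - g (-z + p)) ^ 2 =
      2 * (ms g - ∫ p, g p * Pt (4 * τ) g p) := by
  have hi := int_sym hg hτ
  have h1 : ∫ p, ∫ z, hk τ z * (g (z + p) - g (-z + p)) ^ 2 =
      ∫ z, ∫ p, hk τ z * (g (z + p) - g (-z + p)) ^ 2 := by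
    rw [← integral_prod_symm (fun w : Pl × Pl => hk τ w.1 * (g (w.1 + w.2) - g (-w.1 + w.2)) ^ 2) hi,
      integral_prod (fun w : Pl × Pl => hk τ w.1 * (g (w.1 + w.2) - g (-w.1 + w.2)) ^ 2) hi]
  rw [h1, ← KerAux.diff_id (show 0 < 4 * τ by linarith) hg]
  have h2 : ∀ z : Pl, ∫ p, hk τ z * (g (z + p) - g (-z + p)) ^ 2 =
      4 * (hk (4 * τ) ((2 : ℝ) • z) * ∫ p, (g ((2 : ℝ) • z + p) - g p) ^ 2) := by
    intro z
    rw [integral_const_mul, ← integral_add_left_eq_self (fun p => (g ((2 : ℝ) • z + p) - g p) ^ 2)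
      (-z)]
    have e1 : ∀ p, (g ((2 : ℝ) • z + (-z + p)) - g (-z + p)) ^ 2 =
        (g (z + p) - g (-z + p)) ^ 2 := by
      intro p
      rw [show (2 : ℝ) • z + (-z + p) = z + p by rw [two_smul]; abel]
    simp only [e1]
    have e2 : hk τ z = 4 * hk (4 * τ) ((2 : ℝ) • z) := by
      unfold hk
      simp only [Prod.smul_fst, Prod.smul_snd, smul_eq_mul]
      rw [show -((2 * z.1) ^ 2 + (2 * z.2) ^ 2) / (2 * (4 * τ)) = -(z.1 ^ 2 + z.2 ^ 2) / (2 * τ) by
        field_simp; ring]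
      field_simp
    rw [e2]
    ring
  simp only [h2]
  rw [integral_const_mul, Measure.integral_comp_smul (volume : Measure Pl)
    (fun w => hk (4 * τ) w * ∫ p, (g (w + p) - g p) ^ 2) (2 : ℝ)]
  have h3 : Module.finrank ℝ Pl = 2 := by simp [Pl]
  rw [h3, smul_eq_mul]
  norm_num
  ring

end KerGradAux

open KerGradAux

theorem Pt_smooth {F : Set Pl} (hF : Bornology.IsBounded F) {g : Pl → ℝ} (hg : BF F g) {τ : ℝ}
    (hτ : 0 < τ) : ContDiff ℝ ∞ (Pt τ g) := by
  have hFv : volume F ≠ ⊤ := hF.measure_lt_top.ne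
  have hgi := BF_integrable hFv hg
  obtain ⟨M, hM⟩ := hF.subset_closedBall (0 : Pl)
  rw [contDiff_iff_contDiffAt]
  intro p0
  set R : ℝ := ‖p0‖ + 1 with hR
  have hR0 : 0 < R := by positivity
  let χ : ContDiffBump (0 : Pl) := ⟨R + |M| + 1, R + |M| + 2, by positivity, by linarith⟩
  have hχs : ContDiff ℝ ∞ (fun x => χ x * hk τ x) := χ.contDiff.mul (hk_smooth τ)
  have hχc : HasCompactSupport (fun x => χ x * hk τ x) := χ.hasCompactSupport.mul_right
  have hconv : ContDiff ℝ ∞ (convolution g (fun x => χ x * hk τ x)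
      (ContinuousLinearMap.mul ℝ ℝ) volume) :=
    hχc.contDiff_convolution_right (ContinuousLinearMap.mul ℝ ℝ) hgi.locallyIntegrable
      (n := ⊤) hχs
  refine hconv.contDiffAt.congr_of_eventuallyEq ?_
  filter_upwards [Metric.ball_mem_nhds p0 one_pos] with p hp
  unfold Pt convolution
  refine integral_congr_ae (Filter.Eventually.of_forall fun q => ?_)
  simp only [ContinuousLinearMap.mul_apply']
  by_cases hq : q ∈ F
  · have h1 : χ (p - q) = 1 := by
      apply χ.one_of_mem_closedBall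
      rw [mem_closedBall_zero_iff]
      have h2 : ‖q‖ ≤ M := by simpa using hM hq
      have h3 : ‖p‖ ≤ ‖p0‖ + 1 := by
        have h4 : ‖p - p0‖ < 1 := by rwa [Metric.mem_ball, dist_eq_norm] at hp
        have h5 : ‖p‖ ≤ ‖p - p0‖ + ‖p0‖ := by
          have := norm_add_le (p - p0) p0
          simpa using this
        linarith
      have h6 := norm_sub_le p q
      have h7 := le_abs_self M
      show ‖p - q‖ ≤ R + |M| + 1
      linarith
    rw [h1]
    ring
  · rw [hg.zero q hq]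
    ring

theorem Pt_gr2_integrable {F : Set Pl} (hF : Bornology.IsBounded F) {g : Pl → ℝ} (hg : BF F g)
    {τ : ℝ} (hτ : 0 < τ) : Integrable (gr2 (Pt τ g)) := by
  have hFv : volume F ≠ ⊤ := hF.measure_lt_top.ne
  have hsm := Pt_smooth hF hg hτ
  have hc : Continuous (gr2 (Pt τ g)) := by
    have h1 := hsm.continuous_fderiv (by simp)
    unfold gr2 dx dy
    exact ((h1.clm_apply continuous_const).pow 2).add ((h1.clm_apply continuous_const).pow 2)
  have hi := (int_sym (BF_sq hFv hg) hτ).integral_prod_right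
  have h4 : Integrable (fun p => 4 * τ * gr2 (Pt τ g) p) := by
    refine Integrable.mono' hi (hc.aestronglyMeasurable.const_mul _)
      (Filter.Eventually.of_forall fun p => ?_)
    rw [Real.norm_eq_abs, abs_of_nonneg (by unfold gr2; positivity)]
    exact pointwise hFv hg hτ p
  have h5 := h4.const_mul (4 * τ)⁻¹
  refine h5.congr (Filter.Eventually.of_forall fun p => ?_)
  simp only
  field_simp

theorem ker_grad {F : Set Pl} (hF : Bornology.IsBounded F) {g : Pl → ℝ} (hg : BF F g) {δ : ℝ}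
    (hδ : 0 < δ) : δ * en (Pt (δ / 2) g) ≤ ms g - ∫ p, g p * Pt δ g p := by
  have hFv : volume F ≠ ⊤ := hF.measure_lt_top.ne
  have hδ2 : 0 < δ / 2 := by linarith
  have hsq := BF_sq hFv hg
  -- first half
  have h1 : 2 * δ * ∫ p, gr2 (Pt (δ / 2) g) p ≤ 2 * (ms g - ∫ p, g p * Pt (2 * δ) g p) := by
    have h2 := sym_eq hsq hδ2
    rw [show 4 * (δ / 2) = 2 * δ by ring] at h2
    rw [← h2, ← integral_const_mul]
    refine integral_mono ((Pt_gr2_integrable hF hg hδ2).const_mul _)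
      (int_sym hsq hδ2).integral_prod_right fun p => ?_
    have := pointwise hFv hg hδ2 p
    rw [show 4 * (δ / 2) = 2 * δ by ring] at this
    exact this
  -- convexity
  have h3 := ker_half hFv hg (show 0 < 2 * δ by linarith)
  rw [show 2 * δ / 2 = δ by ring] at h3
  obtain ⟨A, hA⟩ := hg.bdd
  have hPm : Measurable (Pt δ g) := (ker_cont hFv hg hδ).measurable
  have hi : Integrable (fun p => g p * Pt δ g p) :=
    BF_integrable_mul hFv hg hPm (ker_bdd hg.meas hA hδ)
  have h4 : 0 ≤ ∫ p, (g p - Pt δ g p) ^ 2 := integral_nonneg fun p => sq_nonneg _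
  have e : (fun p => (g p - Pt δ g p) ^ 2) = fun p =>
      (g p ^ 2 - 2 * (g p * Pt δ g p)) + Pt δ g p ^ 2 := by funext p; ring
  have i5 : Integrable fun p => g p ^ 2 - 2 * (g p * Pt δ g p) := hsq.sq.sub (hi.const_mul 2)
  rw [e, integral_add i5 h3.1, integral_sub hsq.sq (hi.const_mul 2), integral_const_mul] at h4
  have h5 : ∫ p, Pt δ g p ^ 2 = ∫ p, g p * Pt (2 * δ) g p := h3.2.symm
  have h6 : ∫ p, g p ^ 2 = ms g := rfl
  rw [h5, h6] at h4
  unfold en
  linarith

end Pool.Agent.BSv
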