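import Pool.Agent.BSv.KerAux

/-!
# Module KERLOW

`ms f - ∫ f Pt δ f = (1/2) ∫ hk δ z (∫ (f (p+z) - f p)² dp) dz` (expand the square, translation
invariance, `∫ hk δ = 1`) and
`∫ (f (p+z) - f p)² dp ≤ ∫ (z1 dx f + z2 dy f)² dp` (`f (p+z) - f p = ∫_0^1 (z1 dx f + z2 dy f)(p+tz) dt`,
Jensen / Cauchy-Schwarz, translation invariance); `∫ hk δ z z_i z_j dz = δ δ_ij`.
-/

open MeasureTheory Set Filter Topology
open scoped ENNReal NNReal ContDiff

noncomputable section

namespace Pool.Agent.BSv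

private theorem kl_sq_int_le {φ : ℝ → ℝ} (hφ : Continuous φ) :
    (∫ t in (0 : ℝ)..1, φ t) ^ 2 ≤ ∫ t in (0 : ℝ)..1, φ t ^ 2 := by
  set m := ∫ t in (0 : ℝ)..1, φ t with hm
  have h1 : 0 ≤ ∫ t in (0 : ℝ)..1, (φ t - m) ^ 2 :=
    intervalIntegral.integral_nonneg (by norm_num) fun t _ => sq_nonneg _
  have e : ∫ t in (0 : ℝ)..1, (φ t - m) ^ 2 =
      (∫ t in (0 : ℝ)..1, φ t ^ 2) - 2 * m * m + m ^ 2 := by
    have e1 : (fun t => (φ t - m) ^ 2) = fun t => (φ t ^ 2 - 2 * m * φ t) + m ^ 2 := by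
      funext t; ring
    have i1 : IntervalIntegrable (fun t => φ t ^ 2) volume 0 1 :=
      (hφ.pow 2).intervalIntegrable _ _
    have i2 : IntervalIntegrable (fun t => 2 * m * φ t) volume 0 1 :=
      (continuous_const.mul hφ).intervalIntegrable _ _
    rw [e1, intervalIntegral.integral_add (i1.sub i2) (by simp),
      intervalIntegral.integral_sub i1 i2, intervalIntegral.integral_const_mul, ← hm]
    simp
  rw [e] at h1
  nlinarith

private theorem kl_int_sq {φ : Pl → ℝ} (hc : Continuous φ) (hs : HasCompactSupport φ) :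
    Integrable (fun q => φ q ^ 2) := by
  have h1 : HasCompactSupport (fun q => φ q ^ 2) := by
    have := hs.comp_left (g := fun t : ℝ => t ^ 2) (by norm_num)
    exact this
  exact Continuous.integrable_of_hasCompactSupport (by fun_prop) h1

private theorem kl_fderiv {f : Pl → ℝ} (z q : Pl) :
    fderiv ℝ f q z = z.1 * dx f q + z.2 * dy f q := by
  have h : z = z.1 • ((1 : ℝ), (0 : ℝ)) + z.2 • ((0 : ℝ), (1 : ℝ)) := by
    ext <;> simp
  conv_lhs => rw [h]
  rw [map_add, map_smul, map_smul]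
  rfl

private theorem kl_key {U : Set Pl} {f : Pl → ℝ} (hf : CC U f) (z : Pl) :
    ∫ p, (f (z + p) - f p) ^ 2 ≤ ∫ p, (z.1 * dx f p + z.2 * dy f p) ^ 2 := by
  have hd : Differentiable ℝ f := hf.smooth.differentiable (by simp)
  have hfc : Continuous f := hf.smooth.continuous
  have hc : Continuous fun q => fderiv ℝ f q z :=
    (hf.smooth.continuous_fderiv (by simp)).clm_apply continuous_const
  have hcs : HasCompactSupport fun q => fderiv ℝ f q z := hf.cpt.fderiv_apply ℝ z
  have hi2 : Integrable (fun q => (fderiv ℝ f q z) ^ 2) := kl_int_sq hc hcs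
  -- pointwise
  have hpt : ∀ p, (f (z + p) - f p) ^ 2 ≤ ∫ t in (0 : ℝ)..1, (fderiv ℝ f (p + t • z) z) ^ 2 := by
    intro p
    have hline : ∀ t : ℝ, HasDerivAt (fun t : ℝ => p + t • z) z t := by
      intro t
      have h1 : HasDerivAt (fun t : ℝ => t • z) ((1 : ℝ) • z) t :=
        (hasDerivAt_id t).smul_const z
      rw [one_smul] at h1
      exact h1.const_add p
    have hder : ∀ t ∈ uIcc (0 : ℝ) 1,
        HasDerivAt (fun t : ℝ => f (p + t • z)) (fderiv ℝ f (p + t • z) z) t := by
      intro t _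
      exact (hd (p + t • z)).hasFDerivAt.comp_hasDerivAt t (hline t)
    have hcl : Continuous fun t : ℝ => fderiv ℝ f (p + t • z) z :=
      hc.comp (by fun_prop : Continuous fun t : ℝ => p + t • z)
    have h2 := intervalIntegral.integral_eq_sub_of_hasDerivAt hder (hcl.intervalIntegrable _ _)
    rw [one_smul, zero_smul, add_zero, add_comm p z] at h2
    rw [← h2]
    exact kl_sq_int_le hcl
  -- Fubini
  have hF : Integrable (Function.uncurry fun (p : Pl) (t : ℝ) => (fderiv ℝ f (p + t • z) z) ^ 2)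
      (volume.prod (volume.restrict (Ioc (0 : ℝ) 1))) := by
    have hcont : Continuous (Function.uncurry fun (p : Pl) (t : ℝ) =>
        (fderiv ℝ f (p + t • z) z) ^ 2) := by
      have : Continuous fun w : Pl × ℝ => w.1 + w.2 • z := by fun_prop
      exact (hc.comp this).pow 2
    rw [integrable_prod_iff' hcont.aestronglyMeasurable]
    constructor
    · exact Filter.Eventually.of_forall fun t => hi2.comp_add_right (t • z)
    · have e : (fun t : ℝ => ∫ p : Pl, ‖Function.uncurry (fun (p : Pl) (t : ℝ) =>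
          (fderiv ℝ f (p + t • z) z) ^ 2) (p, t)‖) =
          fun _ => ∫ p : Pl, ‖(fderiv ℝ f p z) ^ 2‖ := by
        funext t
        exact integral_add_right_eq_self (fun p => ‖(fderiv ℝ f p z) ^ 2‖) (t • z)
      rw [e]
      exact integrable_const _
  have hsw : ∫ p, ∫ t in (0 : ℝ)..1, (fderiv ℝ f (p + t • z) z) ^ 2 =
      ∫ p, (fderiv ℝ f p z) ^ 2 := by
    have e1 : ∀ p, ∫ t in (0 : ℝ)..1, (fderiv ℝ f (p + t • z) z) ^ 2 =
        ∫ t in Ioc (0 : ℝ) 1, (fderiv ℝ f (p + t • z) z) ^ 2 := fun p =>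
      intervalIntegral.integral_of_le (by norm_num)
    simp only [e1]
    rw [integral_integral_swap hF]
    have e2 : ∀ t : ℝ, ∫ p : Pl, (fderiv ℝ f (p + t • z) z) ^ 2 =
        ∫ p, (fderiv ℝ f p z) ^ 2 := fun t =>
      integral_add_right_eq_self (fun p => (fderiv ℝ f p z) ^ 2) (t • z)
    simp only [e2]
    simp
  have hint1 : Integrable fun p => (f (z + p) - f p) ^ 2 := by
    have hcc : HasCompactSupport fun p => f (z + p) - f p := by
      have h1 : HasCompactSupport fun p => f (z + p) :=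
        hf.cpt.comp_homeomorph (Homeomorph.addLeft z)
      exact h1.sub hf.cpt
    have hco : Continuous fun p => f (z + p) - f p :=
      (hfc.comp (continuous_const.add continuous_id)).sub hfc
    exact kl_int_sq hco hcc
  have hint2 : Integrable fun p => ∫ t in (0 : ℝ)..1, (fderiv ℝ f (p + t • z) z) ^ 2 := by
    have e1 : (fun p => ∫ t in (0 : ℝ)..1, (fderiv ℝ f (p + t • z) z) ^ 2) =
        fun p => ∫ t in Ioc (0 : ℝ) 1, (fderiv ℝ f (p + t • z) z) ^ 2 := by
      funext p
      exact intervalIntegral.integral_of_le (by norm_num)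
    rw [e1]
    exact hF.integral_prod_left
  calc ∫ p, (f (z + p) - f p) ^ 2
      ≤ ∫ p, ∫ t in (0 : ℝ)..1, (fderiv ℝ f (p + t • z) z) ^ 2 :=
        integral_mono hint1 hint2 hpt
    _ = ∫ p, (fderiv ℝ f p z) ^ 2 := hsw
    _ = ∫ p, (z.1 * dx f p + z.2 * dy f p) ^ 2 := by simp only [kl_fderiv]

theorem ker_low {U : Set Pl} {f : Pl → ℝ} (hf : CC U f) {δ : ℝ} (hδ : 0 < δ) :
    ms f - δ * en f ≤ ∫ p, f p * Pt δ f p := by
  have hfc : Continuous f := hf.smooth.continuous
  have hsq : KerAux.SQ f := ⟨hfc.measurable, hf.integrable_sq⟩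
  have hid := KerAux.diff_id hδ hsq
  have hdxc : Continuous (dx f) :=
    (hf.smooth.continuous_fderiv (by simp)).clm_apply continuous_const
  have hdyc : Continuous (dy f) :=
    (hf.smooth.continuous_fderiv (by simp)).clm_apply continuous_const
  have hdxs : HasCompactSupport (dx f) := hf.cpt.fderiv_apply ℝ _
  have hdys : HasCompactSupport (dy f) := hf.cpt.fderiv_apply ℝ _
  have iA : Integrable (fun p => dx f p ^ 2) := kl_int_sq hdxc hdxs
  have iC : Integrable (fun p => dy f p ^ 2) := kl_int_sq hdyc hdys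
  have iB : Integrable (fun p => dx f p * dy f p) :=
    (hdxc.mul hdyc).integrable_of_hasCompactSupport hdxs.mul_right
  have hz : ∀ z : Pl, ∫ p, (z.1 * dx f p + z.2 * dy f p) ^ 2 =
      (∫ p, dx f p ^ 2) * z.1 ^ 2 + 2 * (∫ p, dx f p * dy f p) * (z.1 * z.2) +
        (∫ p, dy f p ^ 2) * z.2 ^ 2 := by
    intro z
    have e : (fun p => (z.1 * dx f p + z.2 * dy f p) ^ 2) = fun p =>
        (z.1 ^ 2 * dx f p ^ 2 + 2 * (z.1 * z.2) * (dx f p * dy f p)) + z.2 ^ 2 * dy f p ^ 2 := by
      funext p; ring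
    have i12 : Integrable fun p =>
        (z.1 ^ 2 * dx f p ^ 2 + 2 * (z.1 * z.2) * (dx f p * dy f p)) :=
      (iA.const_mul _).add (iB.const_mul _)
    rw [e, integral_add i12 (iC.const_mul _), integral_add (iA.const_mul _) (iB.const_mul _),
      integral_const_mul, integral_const_mul, integral_const_mul]
    ring
  have hq := KerAux.hk_quad hδ (∫ p, dx f p ^ 2) (∫ p, dx f p * dy f p) (∫ p, dy f p ^ 2)
  have hen : (∫ p, dx f p ^ 2) + (∫ p, dy f p ^ 2) = 2 * en f := by
    unfold en gr2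
    rw [integral_add iA iC]
    ring
  have hle : ∫ z, hk δ z * ∫ p, (f (z + p) - f p) ^ 2 ≤ δ * (2 * en f) := by
    rw [← hen, ← hq.2]
    refine integral_mono ?_ hq.1 fun z => ?_
    · have := (KerAux.int4 hδ hsq).integral_prod_left
      refine this.congr (Filter.Eventually.of_forall fun z => ?_)
      simp only
      rw [integral_const_mul]
    · simp only
      refine mul_le_mul_of_nonneg_left ?_ (hk_pos hδ z).le
      rw [← hz z]
      exact kl_key hf z
  rw [hid] at hle
  linarith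

end Pool.Agent.BSv
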