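import Pool.Agent.BSv.Pack
import Pool.Agent.BSv.Cross
import Pool.Agent.BSv.Cnt
import Pool.Agent.BSv.Code
import Pool.Agent.BSv.Scale

/-!
# Counting lemmas for module KEY (helper98)
-/

open MeasureTheory Set Filter Topology
open scoped ENNReal NNReal ContDiff

noncomputable section

namespace Pool.Agent.BSv

/-- cell `c'` outside `V` in the 7 by 7 block of the dyadic square `(k, c)` -/
def obs (V : Finset (ℤ × ℤ)) (k : ℕ) (c : ℤ × ℤ) : Prop :=
  ∃ c' : ℤ × ℤ, c' ∉ V ∧ (c.1 - 3) * 2 ^ k ≤ c'.1 ∧ c'.1 < (c.1 + 4) * 2 ^ k ∧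
      (c.2 - 3) * 2 ^ k ≤ c'.2 ∧ c'.2 < (c.2 + 4) * 2 ^ k

theorem cc_zero_ob {V : Finset (ℤ × ℤ)} {v : Pl → ℝ} (hv : CC (UV V) v) {c' : ℤ × ℤ}
    (hc : c' ∉ V) : ∀ p ∈ ob c', v p = 0 := by
  intro p hp
  by_contra h
  have h1 : p ∈ tsupport v := subset_tsupport _ h
  exact Set.disjoint_left.mp (ob_disjoint hc) hp (hv.sub h1)

theorem cross_count : ∃ C : ℝ, 0 < C ∧ ∀ (V : Finset (ℤ × ℤ)) (D : Set Pl), IsOpen D →
    IsConnected D → ∀ v : Pl → ℝ, CC (UV V) v → ∀ α : ℝ, 0 ≤ α → (∀ p ∈ D, α ≤ v p) →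
    ∀ (k : ℕ) (S : Finset (ℤ × ℤ)), ¬ vol D ≤ 9 * 4 ^ k →
    (∀ c ∈ S, (D ∩ dsq k c.1 c.2).Nonempty ∧ obs V k c) →
    α ^ 2 * S.card ≤ C * (1 + k) ^ 2 * en v := by
  obtain ⟨C, hC, h⟩ := cross
  refine ⟨128 * C, by positivity, ?_⟩
  intro V D hD hDc v hv α hα hαv k S hbig hS
  have key : ∀ c ∈ S, α ^ 2 ≤ C * (1 + k) ^ 2 * ∫ p in bl7 k c.1 c.2, gr2 v p := by
    intro c hc
    obtain ⟨h1, c', hc', g1, g2, g3, g4⟩ := hS c hc
    refine h D hD hDc k c.1 c.2 c' g1 g2 g3 g4 h1 ?_ v (hv.smooth.of_le (by exact_mod_cast le_top))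
      (cc_zero_ob hv hc') α hα hαv
    intro hsub
    apply hbig
    have hle : vol D ≤ vol (bl3 k c.1 c.2) := by
      unfold vol
      apply ENNReal.toReal_mono _ (measure_mono hsub)
      have : IsCompact (bl3 k c.1 c.2) := isCompact_Icc.prod isCompact_Icc
      exact this.measure_lt_top.ne
    have hv3 : vol (bl3 k c.1 c.2) = 9 * 4 ^ k := by
      unfold bl3
      rw [vol_sq _ _ (by positivity), mul_pow, ← pow_mul, mul_comm k 2, pow_mul]
      norm_num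
    linarith
  have hsum : α ^ 2 * S.card ≤ ∑ c ∈ S, C * (1 + k) ^ 2 * ∫ p in bl7 k c.1 c.2, gr2 v p := by
    calc α ^ 2 * S.card = ∑ _c ∈ S, α ^ 2 := by rw [Finset.sum_const, nsmul_eq_mul, mul_comm]
      _ ≤ _ := Finset.sum_le_sum key
  rw [← Finset.mul_sum] at hsum
  have := overlap7 k S hv
  calc α ^ 2 * S.card ≤ _ := hsum
    _ ≤ C * (1 + k) ^ 2 * (128 * en v) := by gcongr
    _ = 128 * C * (1 + k) ^ 2 * en v := by ring

theorem capB_count : ∃ C : ℝ, 0 < C ∧ ∀ (V : Finset (ℤ × ℤ)) (A : Set Pl), MeasurableSet A →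
    ∀ v : Pl → ℝ, CC (UV V) v → ∀ α : ℝ, 0 ≤ α → (∀ p ∈ A, α ≤ v p) →
    ∀ (k : ℕ) (S : Finset (ℤ × ℤ)),
    (∀ c ∈ S, (4 : ℝ) ^ k / 4 ≤ vol (dsq k c.1 c.2 ∩ A) ∧ obs V k c) →
    α ^ 2 * S.card ≤ C * (1 + k) ^ 2 * en v := by
  obtain ⟨C, hC, h⟩ := capB
  refine ⟨128 * C, by positivity, ?_⟩
  intro V A hA v hv α hα hαv k S hS
  have key : ∀ c ∈ S, α ^ 2 ≤ C * (1 + k) ^ 2 * ∫ p in bl7 k c.1 c.2, gr2 v p := by
    intro c hc
    obtain ⟨h1, c', hc', g1, g2, g3, g4⟩ := hS c hc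
    refine h k c.1 c.2 c' g1 g2 g3 g4 v (hv.smooth.of_le (by exact_mod_cast le_top))
      (cc_zero_ob hv hc') (dsq k c.1 c.2 ∩ A) ?_ inter_subset_left h1 α hα
      (fun p hp => hαv p hp.2)
    exact (measurableSet_Icc.prod measurableSet_Icc).inter hA
  have hsum : α ^ 2 * S.card ≤ ∑ c ∈ S, C * (1 + k) ^ 2 * ∫ p in bl7 k c.1 c.2, gr2 v p := by
    calc α ^ 2 * S.card = ∑ _c ∈ S, α ^ 2 := by rw [Finset.sum_const, nsmul_eq_mul, mul_comm]
      _ ≤ _ := Finset.sum_le_sum key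
  rw [← Finset.mul_sum] at hsum
  have := overlap7 k S hv
  calc α ^ 2 * S.card ≤ _ := hsum
    _ ≤ C * (1 + k) ^ 2 * (128 * en v) := by gcongr
    _ = 128 * C * (1 + k) ^ 2 * en v := by ring

theorem area_count (k : ℕ) (S : Finset (ℤ × ℤ)) {A : Set Pl} (hA : MeasurableSet A)
    (hfin : volume A ≠ ⊤) {β : ℝ} (h : ∀ c ∈ S, β ≤ vol (dsq k c.1 c.2 ∩ A)) :
    β * S.card ≤ vol A := by
  calc β * S.card = ∑ _c ∈ S, β := by rw [Finset.sum_const, nsmul_eq_mul, mul_comm]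
    _ ≤ ∑ c ∈ S, vol (dsq k c.1 c.2 ∩ A) := Finset.sum_le_sum h
    _ ≤ vol A := sum_vol_dsq k S hA hfin

/-! ### levels -/

/-- the squares of scale `k` -/
def lev (W : Finset (ℕ × ℤ × ℤ)) (k : ℕ) : Finset (ℤ × ℤ) :=
  (W.filter fun q => q.1 = k).image Prod.snd

theorem mem_lev {W : Finset (ℕ × ℤ × ℤ)} {k : ℕ} {c : ℤ × ℤ} : c ∈ lev W k ↔ (k, c) ∈ W := by
  unfold lev
  rw [Finset.mem_image]
  constructor
  · rintro ⟨q, h1, h2⟩
    obtain ⟨h3, h4⟩ := Finset.mem_filter.mp h1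
    rw [← h4, ← h2]
    exact h3
  · intro h
    exact ⟨(k, c), Finset.mem_filter.mpr ⟨h, rfl⟩, rfl⟩

theorem card_lev (W : Finset (ℕ × ℤ × ℤ)) (k : ℕ) :
    (lev W k).card = (W.filter fun q => q.1 = k).card := by
  unfold lev
  apply Finset.card_image_of_injOn
  rintro ⟨a, b⟩ ha ⟨a', b'⟩ ha' h
  simp only [Finset.coe_filter, Set.mem_ofPred_eq] at ha ha'
  simp only at h
  rw [h, ha.2, ha'.2]

theorem sum_lev (W : Finset (ℕ × ℤ × ℤ)) {N : ℕ} (hN : ∀ q ∈ W, q.1 < N) (g : ℕ → ℝ) :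
    ∑ q ∈ W, g q.1 = ∑ k ∈ Finset.range N, g k * (lev W k).card := by
  have := Finset.sum_fiberwise_of_maps_to (s := W) (t := Finset.range N) (g := fun q => q.1)
    (fun q hq => Finset.mem_range.mpr (hN q hq)) (fun q => g q.1)
  rw [← this]
  apply Finset.sum_congr rfl
  intro k _
  rw [card_lev]
  calc ∑ q ∈ W.filter (fun q => q.1 = k), g q.1 = ∑ _q ∈ W.filter (fun q => q.1 = k), g k := by
        apply Finset.sum_congr rfl
        intro q hq
        rw [(Finset.mem_filter.mp hq).2]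
    _ = _ := by rw [Finset.sum_const, nsmul_eq_mul, mul_comm]

theorem exists_bound_lev (W : Finset (ℕ × ℤ × ℤ)) : ∃ N : ℕ, ∀ q ∈ W, q.1 < N :=
  ⟨W.sup (fun q => q.1) + 1, fun _ hq => Nat.lt_succ_of_le (Finset.le_sup (f := fun q => q.1) hq)⟩

/-! ### series -/

theorem sum_sq_two (n : ℕ) : ∑ k ∈ Finset.range n, ((1 : ℝ) + k) ^ 2 / 2 ^ k ≤ 12 := by
  have h : ∑ k ∈ Finset.range n, ((1 : ℝ) + k) ^ 2 / 2 ^ k =
      12 - (2 * (n : ℝ) ^ 2 + 8 * n + 12) / 2 ^ n := by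
    induction n with
    | zero => norm_num
    | succ n ih =>
      rw [Finset.sum_range_succ, ih, pow_succ]
      push_cast
      field_simp
      ring
  rw [h]
  have : 0 ≤ (2 * (n : ℝ) ^ 2 + 8 * n + 12) / 2 ^ n := by positivity
  linarith

theorem sum_two (n : ℕ) : ∑ k ∈ Finset.range n, (1 : ℝ) / 2 ^ k ≤ 2 := by
  have h : ∑ k ∈ Finset.range n, (1 : ℝ) / 2 ^ k = 2 - 2 / 2 ^ n := by
    induction n with
    | zero => norm_num
    | succ n ih =>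
      rw [Finset.sum_range_succ, ih, pow_succ]
      field_simp
      ring
  rw [h]
  have : (0 : ℝ) ≤ 2 / 2 ^ n := by positivity
  linarith

theorem sum_four (n k1 : ℕ) :
    ∑ k ∈ Finset.range n, (if k1 ≤ k then (1 : ℝ) / 4 ^ k else 0) ≤ 2 / 4 ^ k1 := by
  have h : ∑ k ∈ Finset.range n, (if k1 ≤ k then (1 : ℝ) / 4 ^ k else 0) ≤
      2 / 4 ^ k1 - (if k1 ≤ n then (2 : ℝ) / 4 ^ n else 2 / 4 ^ k1) := by
    induction n with
    | zero =>
      by_cases hk : k1 ≤ 0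
      · have : k1 = 0 := by omega
        subst this
        simp
      · simp [hk]
    | succ n ih =>
      rw [Finset.sum_range_succ]
      by_cases h1 : k1 ≤ n
      · have h2 : k1 ≤ n + 1 := by omega
        rw [if_pos h1, if_pos h2]
        rw [if_pos h1] at ih
        have : (2 : ℝ) / 4 ^ (n + 1) = (1 / 2) / 4 ^ n := by
          rw [pow_succ]; field_simp; norm_num
        rw [this]
        have h3 : (1 : ℝ) / 4 ^ n = 1 / 4 ^ n := rfl
        have h4 : (2 : ℝ) / 4 ^ n - 1 / 4 ^ n - (1 / 2) / 4 ^ n = (1 / 2) / 4 ^ n := by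
          field_simp; norm_num
        have h5 : (0 : ℝ) ≤ (1 / 2) / 4 ^ n := by positivity
        linarith
      · rw [if_neg h1]
        rw [if_neg h1] at ih
        by_cases h2 : k1 ≤ n + 1
        · have : k1 = n + 1 := by omega
          subst this
          rw [if_pos le_rfl]
          linarith
        · rw [if_neg h2]
          linarith
  refine h.trans ?_
  have : 0 ≤ (if k1 ≤ n then (2 : ℝ) / 4 ^ n else 2 / 4 ^ k1) := by
    split_ifs <;> positivity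
  linarith

theorem sum_small (n k1 : ℕ) :
    ∑ k ∈ Finset.range n, (if k < k1 then ((1 : ℝ) + k) ^ 2 else 0) ≤ (k1 : ℝ) ^ 3 := by
  rw [← Finset.sum_filter]
  have hsub : (Finset.range n).filter (fun k => k < k1) ⊆ Finset.range k1 := by
    intro k hk
    exact Finset.mem_range.mpr (Finset.mem_filter.mp hk).2
  calc ∑ k ∈ (Finset.range n).filter (fun k => k < k1), ((1 : ℝ) + k) ^ 2
      ≤ ∑ k ∈ Finset.range k1, ((1 : ℝ) + k) ^ 2 :=
        Finset.sum_le_sum_of_subset_of_nonneg hsub (fun _ _ _ => by positivity)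
    _ ≤ ∑ _k ∈ Finset.range k1, (k1 : ℝ) ^ 2 := by
        apply Finset.sum_le_sum
        intro k hk
        have : (k : ℝ) + 1 ≤ k1 := by exact_mod_cast Finset.mem_range.mp hk
        have h0 : (0 : ℝ) ≤ k := Nat.cast_nonneg k
        nlinarith
    _ = (k1 : ℝ) ^ 3 := by
        rw [Finset.sum_const, Finset.card_range, nsmul_eq_mul]; ring

end Pool.Agent.BSv
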