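import Pool.Agent.BSv.KerLow

/-!
# Module KF: iterated kernels

`K g = 1_F Pt δ (1_F g)`, `kf δ F n = K^n 1_F` (all functions in `BF F`).  `K` is symmetric
(`ker_symm`) and positive (`ker_pos`).

For `g ∈ BF F` let `a n = ∫ g K^n g`.  Log-convexity `a (n+1)² ≤ a n · a (n+2)` and `a n ≥ 0`:
`a (2i) = ∫ (K^i g)²`, `a (2i+1) = ∫ K^i g · K K^i g`; Cauchy-Schwarz for the two positive forms.
So the ratios `a (n+1) / a n` are nondecreasing.

* `kf_low`: `f ∈ CC`, `tsupport f ⊆ F`, `ms f = 1`, `|f| ≤ B`: `a 0 = 1`,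
  `a 1 = ∫ f Pt δ f ≥ 1 - δ en f`, so `a n ≥ (1 - δ en f)^n`; and `a n ≤ B² ∫ 1_F K^n 1_F`
  (`|K^n f| ≤ B K^n 1_F`).
* `kf_up`: if `∫ g Pt δ g ≤ κ ms g` for all `g ∈ BF F`, then with `g = 1_F` all ratios are `≤ κ`
  (those with even index are, by the hypothesis for `K^i 1_F`, and they are nondecreasing), so
  `ms (kf n) = a (2n) ≤ κ^(2n) vol F`, and Cauchy-Schwarz with `hk_sq`.
-/

open MeasureTheory Set Filter Topology
open scoped ENNReal NNReal ContDiff

noncomputable section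

namespace Pool.Agent.BSv

private def kfK (δ : ℝ) (F : Set Pl) (g : Pl → ℝ) : Pl → ℝ := F.indicator (Pt δ g)

private theorem kf_eq (δ : ℝ) (F : Set Pl) (n : ℕ) :
    kf δ F n = (kfK δ F)^[n] (F.indicator 1) := by
  induction n with
  | zero => rfl
  | succ n ih =>
    rw [Function.iterate_succ_apply', ← ih]
    rfl

private theorem kfK_BF {δ : ℝ} (hδ : 0 < δ) {F : Set Pl} (hF : MeasurableSet F)
    (hv : volume F ≠ ⊤) {g : Pl → ℝ} (hg : BF F g) : BF F (kfK δ F g) := by
  obtain ⟨B, hB⟩ := hg.bdd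
  refine ⟨(ker_cont hv hg hδ).measurable.indicator hF, ⟨B, fun p => ?_⟩, fun p hp => ?_⟩
  · by_cases hp : p ∈ F
    · rw [kfK, Set.indicator_of_mem hp]
      exact ker_bdd hg.meas hB hδ p
    · rw [kfK, Set.indicator_of_notMem hp, abs_zero]
      exact (abs_nonneg _).trans (hB p)
  · rw [kfK, Set.indicator_of_notMem hp]

private theorem kfK_iter_BF {δ : ℝ} (hδ : 0 < δ) {F : Set Pl} (hF : MeasurableSet F)
    (hv : volume F ≠ ⊤) {g : Pl → ℝ} (hg : BF F g) (n : ℕ) : BF F ((kfK δ F)^[n] g) := by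
  induction n with
  | zero => exact hg
  | succ n ih =>
    rw [Function.iterate_succ_apply']
    exact kfK_BF hδ hF hv ih

private theorem ind_BF {F : Set Pl} (hF : MeasurableSet F) : BF F (F.indicator (1 : Pl → ℝ)) := by
  refine ⟨measurable_one.indicator hF, ⟨1, fun p => ?_⟩, fun p hp => ?_⟩
  · by_cases hp : p ∈ F
    · simp [hp]
    · simp [hp]
  · simp [hp]

private theorem BF_int_mul {F : Set Pl} (hv : volume F ≠ ⊤) {g h : Pl → ℝ} (hg : BF F g)
    (hh : BF F h) : Integrable (fun p => g p * h p) := by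
  obtain ⟨A, hA⟩ := hg.bdd
  obtain ⟨B, hB⟩ := hh.bdd
  have h1 : IntegrableOn (fun p => g p * h p) F volume := by
    refine Measure.integrableOn_of_bounded (M := A * B) hv
      (hg.meas.mul hh.meas).aestronglyMeasurable (Filter.Eventually.of_forall fun p => ?_)
    rw [Real.norm_eq_abs, abs_mul]
    exact mul_le_mul (hA p) (hB p) (abs_nonneg _) ((abs_nonneg _).trans (hA p))
  refine (integrableOn_iff_integrable_of_support_subset ?_).1 h1
  intro p hp
  by_contra hpF
  apply hp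
  simp [hg.zero p hpF]

private theorem BF_add_smul {F : Set Pl} {g h : Pl → ℝ} (hg : BF F g) (hh : BF F h) (t : ℝ) :
    BF F (fun p => g p + t * h p) := by
  obtain ⟨A, hA⟩ := hg.bdd
  obtain ⟨B, hB⟩ := hh.bdd
  refine ⟨hg.meas.add (hh.meas.const_mul t), ⟨A + |t| * B, fun p => ?_⟩, fun p hp => ?_⟩
  · refine (abs_add_le _ _).trans (add_le_add (hA p) ?_)
    rw [abs_mul]
    exact mul_le_mul_of_nonneg_left (hB p) (abs_nonneg t)
  · rw [hg.zero p hp, hh.zero p hp]; simp

private theorem hk_mul_int {δ : ℝ} (hδ : 0 < δ) {g : Pl → ℝ} (hg : Measurable g) {B : ℝ}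
    (hB : ∀ p, |g p| ≤ B) (p : Pl) : Integrable (fun q => hk δ (p - q) * g q) := by
  have h1 : Integrable (fun q => hk δ (p - q)) := (hk_integrable hδ).comp_sub_left p
  refine h1.mul_bdd (c := B) hg.aestronglyMeasurable (Filter.Eventually.of_forall fun q => ?_)
  exact hB q

private theorem kfK_add_smul {δ : ℝ} (hδ : 0 < δ) {F : Set Pl} {g h : Pl → ℝ} (hg : BF F g)
    (hh : BF F h) (t : ℝ) (p : Pl) :
    kfK δ F (fun p => g p + t * h p) p = kfK δ F g p + t * kfK δ F h p := by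
  obtain ⟨A, hA⟩ := hg.bdd
  obtain ⟨B, hB⟩ := hh.bdd
  by_cases hp : p ∈ F
  · simp only [kfK, Set.indicator_of_mem hp, Pt]
    rw [← integral_const_mul, ← integral_add (hk_mul_int hδ hg.meas hA p)
      ((hk_mul_int hδ hh.meas hB p).const_mul t)]
    refine integral_congr_ae (Filter.Eventually.of_forall fun q => ?_)
    show _ = _
    ring
  · simp [kfK, Set.indicator_of_notMem hp]

private theorem kfK_form {δ : ℝ} {F : Set Pl} {g : Pl → ℝ} (hg : BF F g) (h : Pl → ℝ) :
    ∫ p, g p * kfK δ F h p = ∫ p, g p * Pt δ h p := by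
  refine integral_congr_ae (Filter.Eventually.of_forall fun p => ?_)
  show g p * kfK δ F h p = g p * Pt δ h p
  by_cases hp : p ∈ F
  · rw [kfK, Set.indicator_of_mem hp]
  · rw [hg.zero p hp, zero_mul, zero_mul]

private theorem kfK_symm {δ : ℝ} (hδ : 0 < δ) {F : Set Pl} (hv : volume F ≠ ⊤) {g h : Pl → ℝ}
    (hg : BF F g) (hh : BF F h) :
    ∫ p, g p * kfK δ F h p = ∫ p, kfK δ F g p * h p := by
  have e : ∀ p, kfK δ F g p * h p = h p * kfK δ F g p := fun p => mul_comm _ _
  simp only [e]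
  rw [kfK_form hg, kfK_form hh]
  exact ker_symm hv hv hg hh hδ

/-- Cauchy-Schwarz from a nonnegative quadratic polynomial -/
private theorem cs_of_nonneg {a b c : ℝ} (h : ∀ t : ℝ, 0 ≤ a + 2 * t * b + t ^ 2 * c) :
    b ^ 2 ≤ a * c := by
  have h1 : discrim c (2 * b) a ≤ 0 := by
    refine discrim_le_zero fun t => ?_
    have := h t
    nlinarith [this]
  rw [discrim] at h1
  nlinarith [h1]

private theorem int_lin {u v w z : Pl → ℝ} (hu : Integrable u) (hv : Integrable v)
    (hw : Integrable w) (hz : Integrable z) (a b c : ℝ) :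
    ∫ p, (u p + a * v p + b * w p + c * z p) =
      (∫ p, u p) + a * (∫ p, v p) + b * (∫ p, w p) + c * ∫ p, z p := by
  have h1 : Integrable (fun p => u p + a * v p) := hu.add (hv.const_mul a)
  have h2 : Integrable (fun p => u p + a * v p + b * w p) := h1.add (hw.const_mul b)
  rw [integral_add h2 (hz.const_mul c), integral_add h1 (hw.const_mul b),
    integral_add hu (hv.const_mul a), integral_const_mul, integral_const_mul, integral_const_mul]

private theorem cs_L2 {g h : Pl → ℝ} (h1 : Integrable (fun p => g p * g p))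
    (h2 : Integrable (fun p => g p * h p)) (h3 : Integrable (fun p => h p * h p)) :
    (∫ p, g p * h p) ^ 2 ≤ (∫ p, g p * g p) * ∫ p, h p * h p := by
  refine cs_of_nonneg fun t => ?_
  have e : (∫ p, (g p + t * h p) ^ 2) = (∫ p, g p * g p) + 2 * t * (∫ p, g p * h p) +
      t ^ 2 * ∫ p, h p * h p := by
    have e0 : ∀ p, (g p + t * h p) ^ 2 =
        g p * g p + t * (g p * h p) + t * (g p * h p) + t ^ 2 * (h p * h p) := fun p => by ring
    simp only [e0]
    rw [int_lin h1 h2 h2 h3]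
    ring
  rw [← e]
  exact integral_nonneg fun p => sq_nonneg _

private theorem cs_K {δ : ℝ} (hδ : 0 < δ) {F : Set Pl} (hF : MeasurableSet F)
    (hv : volume F ≠ ⊤) {g h : Pl → ℝ} (hg : BF F g) (hh : BF F h) :
    (∫ p, g p * kfK δ F h p) ^ 2 ≤ (∫ p, g p * kfK δ F g p) * ∫ p, h p * kfK δ F h p := by
  refine cs_of_nonneg fun t => ?_
  have hKg := kfK_BF hδ hF hv hg
  have hKh := kfK_BF hδ hF hv hh
  have hgh := BF_add_smul hg hh t
  have e : (∫ p, (g p + t * h p) * kfK δ F (fun p => g p + t * h p) p) =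
      (∫ p, g p * kfK δ F g p) + 2 * t * (∫ p, g p * kfK δ F h p) +
      t ^ 2 * ∫ p, h p * kfK δ F h p := by
    have i1 := BF_int_mul hv hg hKg
    have i2 := BF_int_mul hv hg hKh
    have i3 := BF_int_mul hv hKg hh
    have i4 := BF_int_mul hv hh hKh
    have e1 : ∀ p, (g p + t * h p) * kfK δ F (fun p => g p + t * h p) p =
        g p * kfK δ F g p + t * (g p * kfK δ F h p) + t * (kfK δ F g p * h p) +
          t ^ 2 * (h p * kfK δ F h p) := by
      intro p
      rw [kfK_add_smul hδ hg hh t p]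
      ring
    simp only [e1]
    rw [int_lin i1 i2 i3 i4, ← kfK_symm hδ hv hg hh]
    ring
  rw [← e, kfK_form hgh]
  exact ker_pos hv hgh hδ

/-- the moments `⟨g, K^n g⟩` -/
private def mo (δ : ℝ) (F : Set Pl) (g : Pl → ℝ) (n : ℕ) : ℝ :=
  ∫ p, g p * (kfK δ F)^[n] g p

private theorem mo_split {δ : ℝ} (hδ : 0 < δ) {F : Set Pl} (hF : MeasurableSet F)
    (hv : volume F ≠ ⊤) {g : Pl → ℝ} (hg : BF F g) (i : ℕ) : ∀ j : ℕ,
    ∫ p, (kfK δ F)^[i] g p * (kfK δ F)^[j] g p = mo δ F g (i + j) := by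
  induction i with
  | zero =>
    intro j
    rw [zero_add]
    rfl
  | succ i ih =>
    intro j
    have h1 := kfK_iter_BF hδ hF hv hg i
    have h2 := kfK_iter_BF hδ hF hv hg j
    have h3 := kfK_symm hδ hv h1 h2
    rw [Function.iterate_succ_apply', ← h3, ← Function.iterate_succ_apply' (kfK δ F) j g, ih (j + 1)]
    congr 1
    omega

private theorem mo_even {δ : ℝ} (hδ : 0 < δ) {F : Set Pl} (hF : MeasurableSet F)
    (hv : volume F ≠ ⊤) {g : Pl → ℝ} (hg : BF F g) (i : ℕ) :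
    mo δ F g (2 * i) = ms ((kfK δ F)^[i] g) := by
  rw [two_mul, ← mo_split hδ hF hv hg i i, ms]
  refine integral_congr_ae (Filter.Eventually.of_forall fun q => ?_)
  show _ = _
  ring

private theorem mo_odd {δ : ℝ} (hδ : 0 < δ) {F : Set Pl} (hF : MeasurableSet F)
    (hv : volume F ≠ ⊤) {g : Pl → ℝ} (hg : BF F g) (i : ℕ) :
    mo δ F g (2 * i + 1) = ∫ p, (kfK δ F)^[i] g p * Pt δ ((kfK δ F)^[i] g) p := by
  rw [two_mul, add_assoc, ← mo_split hδ hF hv hg i (i + 1), Function.iterate_succ_apply',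
    kfK_form (kfK_iter_BF hδ hF hv hg i)]

private theorem mo_nonneg {δ : ℝ} (hδ : 0 < δ) {F : Set Pl} (hF : MeasurableSet F)
    (hv : volume F ≠ ⊤) {g : Pl → ℝ} (hg : BF F g) (n : ℕ) : 0 ≤ mo δ F g n := by
  rcases Nat.even_or_odd' n with ⟨i, h | h⟩
  · rw [h, mo_even hδ hF hv hg]
    exact integral_nonneg fun p => sq_nonneg _
  · rw [h, mo_odd hδ hF hv hg]
    exact ker_pos hv (kfK_iter_BF hδ hF hv hg i) hδ

private theorem mo_logconv {δ : ℝ} (hδ : 0 < δ) {F : Set Pl} (hF : MeasurableSet F)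
    (hv : volume F ≠ ⊤) {g : Pl → ℝ} (hg : BF F g) (n : ℕ) :
    mo δ F g (n + 1) ^ 2 ≤ mo δ F g n * mo δ F g (n + 2) := by
  rcases Nat.even_or_odd' n with ⟨i, h | h⟩
  · have e0 : mo δ F g n = ∫ p, (kfK δ F)^[i] g p * (kfK δ F)^[i] g p := by
      rw [mo_split hδ hF hv hg i i]; congr 1; omega
    have e1 : mo δ F g (n + 1) = ∫ p, (kfK δ F)^[i] g p * (kfK δ F)^[i + 1] g p := by
      rw [mo_split hδ hF hv hg i (i + 1)]; congr 1; omega
    have e2 : mo δ F g (n + 2) = ∫ p, (kfK δ F)^[i + 1] g p * (kfK δ F)^[i + 1] g p := by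
      rw [mo_split hδ hF hv hg (i + 1) (i + 1)]; congr 1; omega
    rw [e0, e1, e2]
    have b1 := kfK_iter_BF hδ hF hv hg i
    have b2 := kfK_iter_BF hδ hF hv hg (i + 1)
    exact cs_L2 (BF_int_mul hv b1 b1) (BF_int_mul hv b1 b2) (BF_int_mul hv b2 b2)
  · have e0 : mo δ F g n = ∫ p, (kfK δ F)^[i] g p * kfK δ F ((kfK δ F)^[i] g) p := by
      rw [← Function.iterate_succ_apply' (kfK δ F) i g, mo_split hδ hF hv hg i (i + 1)]
      congr 1; omega
    have e1 : mo δ F g (n + 1) = ∫ p, (kfK δ F)^[i] g p * kfK δ F ((kfK δ F)^[i + 1] g) p := by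
      rw [← Function.iterate_succ_apply' (kfK δ F) (i + 1) g, mo_split hδ hF hv hg i (i + 1 + 1)]
      congr 1; omega
    have e2 : mo δ F g (n + 2) =
        ∫ p, (kfK δ F)^[i + 1] g p * kfK δ F ((kfK δ F)^[i + 1] g) p := by
      rw [← Function.iterate_succ_apply' (kfK δ F) (i + 1) g,
        mo_split hδ hF hv hg (i + 1) (i + 1 + 1)]
      congr 1; omega
    rw [e0, e1, e2]
    exact cs_K hδ hF hv (kfK_iter_BF hδ hF hv hg i) (kfK_iter_BF hδ hF hv hg (i + 1))

theorem kf_BF {δ : ℝ} (hδ : 0 < δ) {F : Set Pl} (hF : MeasurableSet F) (hv : volume F ≠ ⊤) (n : ℕ) :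
    BF F (kf δ F n) := by
  rw [kf_eq]
  exact kfK_iter_BF hδ hF hv (ind_BF hF) n

theorem kf_nonneg {δ : ℝ} (hδ : 0 < δ) (F : Set Pl) (n : ℕ) (p : Pl) : 0 ≤ kf δ F n p := by
  induction n generalizing p with
  | zero =>
    rw [kf]
    exact Set.indicator_nonneg (fun _ _ => zero_le_one) p
  | succ n ih =>
    rw [kf]
    refine Set.indicator_nonneg (fun q _ => ?_) p
    exact integral_nonneg fun z => mul_nonneg (hk_pos hδ _).le (ih z)

theorem kf_le_one {δ : ℝ} (hδ : 0 < δ) {F : Set Pl} (hF : MeasurableSet F) (n : ℕ) (p : Pl) :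
    kf δ F n p ≤ 1 := by
  induction n generalizing p with
  | zero =>
    rw [kf]
    by_cases hp : p ∈ F
    · simp [hp]
    · simp [hp]
  | succ n ih =>
    rw [kf]
    by_cases hp : p ∈ F
    · rw [Set.indicator_of_mem hp, Pt]
      have hint : Integrable (fun q => hk δ (p - q)) := (hk_integrable hδ).comp_sub_left p
      calc (∫ q, hk δ (p - q) * kf δ F n q) ≤ ∫ q, hk δ (p - q) := by
            refine integral_mono_of_nonneg (Filter.Eventually.of_forall fun q => ?_) hint
              (Filter.Eventually.of_forall fun q => ?_)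
            · exact mul_nonneg (hk_pos hδ _).le (kf_nonneg hδ F n q)
            · exact mul_le_of_le_one_right (hk_pos hδ _).le (ih q)
        _ = 1 := by
            rw [integral_sub_left_eq_self (fun q => hk δ q) volume p, hk_int hδ]
    · rw [Set.indicator_of_notMem hp]
      exact zero_le_one

theorem kf_low {δ : ℝ} (hδ : 0 < δ) {F : Set Pl} (hF : MeasurableSet F) (hv : volume F ≠ ⊤)
    {f : Pl → ℝ} (hf : CC univ f) (hs : tsupport f ⊆ F) (h1 : ms f = 1) {B : ℝ}
    (hB : ∀ p, |f p| ≤ B) (hδf : δ * en f ≤ 1) (n : ℕ) :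
    (1 - δ * en f) ^ n ≤ B ^ 2 * ∫ p in F, kf δ F n p := by
  have hB0 : 0 ≤ B := (abs_nonneg _).trans (hB 0)
  have hfBF : BF F f := by
    refine ⟨hf.smooth.continuous.measurable, ⟨B, hB⟩, fun p hp => ?_⟩
    exact image_eq_zero_of_notMem_tsupport fun h => hp (hs h)
  set ρ : ℝ := 1 - δ * en f with hρ
  have hρ0 : 0 ≤ ρ := by rw [hρ]; linarith
  have m0 : mo δ F f 0 = 1 := by
    have := mo_even hδ hF hv hfBF 0
    simpa [h1] using this
  have m1 : ρ ≤ mo δ F f 1 := by
    have e := mo_odd hδ hF hv hfBF 0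
    have e2 : mo δ F f 1 = ∫ p, f p * Pt δ f p := by simpa using e
    rw [e2, hρ, ← h1]
    exact ker_low hf hδ
  have hstep : ∀ n, ρ * mo δ F f n ≤ mo δ F f (n + 1) := by
    intro n
    induction n with
    | zero => rw [m0]; simpa using m1
    | succ n ih =>
      have hlc := mo_logconv hδ hF hv hfBF n
      have p0 := mo_nonneg hδ hF hv hfBF n
      have p1 := mo_nonneg hδ hF hv hfBF (n + 1)
      have p2 := mo_nonneg hδ hF hv hfBF (n + 2)
      rcases p0.eq_or_lt with h0 | h0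
      · rw [← h0, zero_mul] at hlc
        have : mo δ F f (n + 1) = 0 := by
          have := sq_nonneg (mo δ F f (n + 1))
          exact pow_eq_zero_iff (two_ne_zero) |>.1 (le_antisymm hlc this)
        rw [this, mul_zero]
        exact p2
      · show ρ * mo δ F f (n + 1) ≤ mo δ F f (n + 2)
        refine le_of_mul_le_mul_left ?_ h0
        calc mo δ F f n * (ρ * mo δ F f (n + 1)) = (ρ * mo δ F f n) * mo δ F f (n + 1) := by ring
          _ ≤ mo δ F f (n + 1) * mo δ F f (n + 1) := mul_le_mul_of_nonneg_right ih p1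
          _ = mo δ F f (n + 1) ^ 2 := by ring
          _ ≤ mo δ F f n * mo δ F f (n + 2) := hlc
  have hpow : ∀ n, ρ ^ n ≤ mo δ F f n := by
    intro n
    induction n with
    | zero => rw [m0, pow_zero]
    | succ n ih =>
      calc ρ ^ (n + 1) = ρ * ρ ^ n := by ring
        _ ≤ ρ * mo δ F f n := mul_le_mul_of_nonneg_left ih hρ0
        _ ≤ mo δ F f (n + 1) := hstep n
  refine (hpow n).trans ?_
  have hdom : ∀ n p, |(kfK δ F)^[n] f p| ≤ B * kf δ F n p := by
    intro n
    induction n with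
    | zero =>
      intro p
      by_cases hp : p ∈ F
      · simpa [kf, hp] using hB p
      · simp [kf, hp, hfBF.zero p hp]
    | succ n ih =>
      intro p
      rw [Function.iterate_succ_apply', kf]
      by_cases hp : p ∈ F
      · rw [kfK, Set.indicator_of_mem hp, Set.indicator_of_mem hp, Pt, Pt, ← integral_const_mul]
        have hb := kf_BF hδ hF hv n
        obtain ⟨C, hC⟩ := hb.bdd
        have hi := (hk_mul_int hδ hb.meas hC p).const_mul B
        rw [← Real.norm_eq_abs]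
        refine (norm_integral_le_of_norm_le hi (Filter.Eventually.of_forall fun q => ?_))
        rw [Real.norm_eq_abs, abs_mul, abs_of_pos (hk_pos hδ _)]
        calc hk δ (p - q) * |(kfK δ F)^[n] f q| ≤ hk δ (p - q) * (B * kf δ F n q) :=
              mul_le_mul_of_nonneg_left (ih q) (hk_pos hδ _).le
          _ = B * (hk δ (p - q) * kf δ F n q) := by ring
      · rw [kfK, Set.indicator_of_notMem hp, Set.indicator_of_notMem hp]
        simp
  have hb := kf_BF hδ hF hv n
  have hset : ∫ p in F, kf δ F n p = ∫ p, kf δ F n p :=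
    setIntegral_eq_integral_of_forall_compl_eq_zero fun p hp => hb.zero p hp
  have hint : Integrable (kf δ F n) := by
    have h2 := BF_int_mul hv (ind_BF hF) hb
    refine h2.congr (Filter.Eventually.of_forall fun p => ?_)
    show _ = _
    by_cases hp : p ∈ F
    · simp [hp]
    · simp [hp, hb.zero p hp]
  rw [hset, ← integral_const_mul, mo]
  refine integral_mono (BF_int_mul hv hfBF (kfK_iter_BF hδ hF hv hfBF n)) (hint.const_mul _) ?_
  intro p
  show f p * (kfK δ F)^[n] f p ≤ B ^ 2 * kf δ F n p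
  calc f p * (kfK δ F)^[n] f p ≤ |f p * (kfK δ F)^[n] f p| := le_abs_self _
    _ = |f p| * |(kfK δ F)^[n] f p| := abs_mul _ _
    _ ≤ B * (B * kf δ F n p) := mul_le_mul (hB p) (hdom n p) (abs_nonneg _) hB0
    _ = B ^ 2 * kf δ F n p := by ring

theorem kf_up {δ : ℝ} (hδ : 0 < δ) {F : Set Pl} (hF : MeasurableSet F) (hv : volume F ≠ ⊤)
    {κ : ℝ} (hκ0 : 0 ≤ κ) (hκ : ∀ g, BF F g → ∫ p, g p * Pt δ g p ≤ κ * ms g) (n : ℕ) :
    ∫ p, hk 1 p * kf δ F n p ≤ √(vol F) * κ ^ n := by
  set g : Pl → ℝ := F.indicator 1 with hgdef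
  have hg : BF F g := ind_BF hF
  have modd : ∀ i, mo δ F g (2 * i + 1) ≤ κ * mo δ F g (2 * i) := by
    intro i
    rw [mo_odd hδ hF hv hg, mo_even hδ hF hv hg]
    exact hκ _ (kfK_iter_BF hδ hF hv hg i)
  have meven : ∀ i, mo δ F g (2 * i + 2) ≤ κ * mo δ F g (2 * i + 1) := by
    intro i
    have hlc := mo_logconv hδ hF hv hg (2 * i + 1)
    have h3 := modd (i + 1)
    have p1 := mo_nonneg hδ hF hv hg (2 * i + 1)
    have p2 := mo_nonneg hδ hF hv hg (2 * i + 2)
    rcases p2.eq_or_lt with h0 | h0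
    · rw [← h0]
      exact mul_nonneg hκ0 p1
    · refine le_of_mul_le_mul_left ?_ h0
      calc mo δ F g (2 * i + 2) * mo δ F g (2 * i + 2) = mo δ F g (2 * i + 1 + 1) ^ 2 := by
            rw [pow_two]
        _ ≤ mo δ F g (2 * i + 1) * mo δ F g (2 * i + 1 + 2) := hlc
        _ ≤ mo δ F g (2 * i + 1) * (κ * mo δ F g (2 * i + 2)) := mul_le_mul_of_nonneg_left h3 p1
        _ = mo δ F g (2 * i + 2) * (κ * mo δ F g (2 * i + 1)) := by ring
  have m0 : mo δ F g 0 = vol F := by
    have e : mo δ F g 0 = ∫ p, F.indicator (1 : Pl → ℝ) p := by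
      rw [mo]
      refine integral_congr_ae (Filter.Eventually.of_forall fun p => ?_)
      show g p * g p = _
      by_cases hp : p ∈ F
      · simp [hgdef, hp]
      · simp [hgdef, hp]
    rw [e, integral_indicator_one hF]
    rfl
  have hall : ∀ n, mo δ F g (2 * n) ≤ κ ^ (2 * n) * vol F := by
    intro n
    induction n with
    | zero => rw [mul_zero, m0, pow_zero, one_mul]
    | succ n ih =>
      calc mo δ F g (2 * (n + 1)) = mo δ F g (2 * n + 2) := by congr 1
        _ ≤ κ * mo δ F g (2 * n + 1) := meven n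
        _ ≤ κ * (κ * mo δ F g (2 * n)) := mul_le_mul_of_nonneg_left (modd n) hκ0
        _ ≤ κ * (κ * (κ ^ (2 * n) * vol F)) := by
            exact mul_le_mul_of_nonneg_left (mul_le_mul_of_nonneg_left ih hκ0) hκ0
        _ = κ ^ (2 * (n + 1)) * vol F := by ring
  have hb := kf_BF hδ hF hv n
  have hms : ∫ p, kf δ F n p * kf δ F n p ≤ κ ^ (2 * n) * vol F := by
    have e : ∫ p, kf δ F n p * kf δ F n p = mo δ F g (2 * n) := by
      rw [two_mul, ← mo_split hδ hF hv hg n n, kf_eq]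
    rw [e]
    exact hall n
  obtain ⟨C, hC⟩ := hb.bdd
  have i1 : Integrable (fun p => hk 1 p * hk 1 p) := by
    refine (hk_integrable one_pos).mul_bdd (c := 1 / (2 * Real.pi * 1))
      (hk_cont one_pos).aestronglyMeasurable (Filter.Eventually.of_forall fun q => ?_)
    rw [Real.norm_eq_abs, abs_of_pos (hk_pos one_pos _)]
    exact hk_le one_pos q
  have i2 : Integrable (fun p => hk 1 p * kf δ F n p) := by
    refine (hk_integrable one_pos).mul_bdd (c := C)
      hb.meas.aestronglyMeasurable (Filter.Eventually.of_forall fun q => hC q)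
  have i3 : Integrable (fun p => kf δ F n p * kf δ F n p) := BF_int_mul hv hb hb
  have hcs := cs_L2 i1 i2 i3
  have hhk : ∫ p, hk 1 p * hk 1 p ≤ 1 := by
    have := hk_sq
    simp only [pow_two] at this
    exact this
  have hvF : 0 ≤ vol F := ENNReal.toReal_nonneg
  have hkk : 0 ≤ ∫ p, kf δ F n p * kf δ F n p := integral_nonneg fun p => mul_self_nonneg _
  have h2 : (∫ p, hk 1 p * kf δ F n p) ^ 2 ≤ (√(vol F) * κ ^ n) ^ 2 := by
    calc (∫ p, hk 1 p * kf δ F n p) ^ 2 ≤
          (∫ p, hk 1 p * hk 1 p) * ∫ p, kf δ F n p * kf δ F n p := hcs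
      _ ≤ 1 * ∫ p, kf δ F n p * kf δ F n p := mul_le_mul_of_nonneg_right hhk hkk
      _ ≤ κ ^ (2 * n) * vol F := by rw [one_mul]; exact hms
      _ = (√(vol F) * κ ^ n) ^ 2 := by
          rw [mul_pow, Real.sq_sqrt hvF]
          ring
  exact le_of_sq_le_sq h2 (mul_nonneg (Real.sqrt_nonneg _) (pow_nonneg hκ0 n))

end Pool.Agent.BSv
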