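import Pool.Agent.BSv.Pack
import Pool.Agent.BSv.Cross
import Pool.Agent.BSv.Cnt

/-!
# Module LOWVOL: a nearly optimal set whose 2-neighbourhood is not much larger

Given `U` open, `vol U ≤ K r²`, `lam U ≤ Λ0/r²`, `r ≥ r0`.  `pack` gives `D`, `a ≤ vol U ≤ K r²`,
`e = ee r a`, `s = e/√a`, `a ≥ c1 r²`; hence `e ≤ c1^(-1/4)/r` and `e ≥ K^(-1/4)/r`.
Let `v` be the function of `pack` for `x = 1`: `v ≥ s/2` on `D`, `en v ≤ 40 lam U e`, `v = 0`
outside `U`.  Let `J` be the set of cells meeting `cthickening 2 D`; for `c ∈ J`, `D` meets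
`sq (c.1-3) (c.2-3) 7`, and `D ⊄ sq (c.1-10) (c.2-10) 21` because
`vol D ≥ a/16 ≥ c1 r²/16 > 441`.  `cross0` with `B = cell c \ U`:
`(s/2)² vol (cell c \ U) ≤ C ∫_{sq (c.1-10) (c.2-10) 21} gr2 v`; sum over `J` with `overlap21`:
`∑_J vol (cell c \ U) ≤ (4 C/s²) 1000 en v ≤ C' lam U e a / e² = C' lam U a/e ≤ C'' r`.
So `vol (cthickening 2 D) ≤ |J| = ∑_J (vol (cell c ∩ U) + vol (cell c \ U)) ≤ vol U + C'' r`.
(`D` is bounded: it is contained in the support of the function `f ∈ CC U` of `pack`, where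
`f > s/2 > 0`; so `J` is finite.)
-/

open MeasureTheory Set Filter Topology
open scoped ENNReal NNReal ContDiff

noncomputable section

namespace Pool.Agent.BSv

private theorem LowVol_four {a b : ℝ} (ha : 0 ≤ a) (hb : 0 ≤ b) (h : a ^ 4 ≤ b ^ 4) : a ≤ b :=
  le_of_pow_le_pow_left₀ (by norm_num) hb h

private theorem LowVol_ee4 {r a : ℝ} (h : 0 < r ^ 2 * a) : ee r a ^ 4 * (r ^ 2 * a) = 1 := by
  unfold ee
  rw [← Real.rpow_natCast, ← Real.rpow_mul h.le]
  norm_num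
  rw [Real.rpow_neg_one]
  exact inv_mul_cancel₀ h.ne'

private theorem LowVol_sq_meas (x y L : ℝ) : MeasurableSet (sq x y L) :=
  (measurableSet_Icc.prod measurableSet_Icc)

private theorem LowVol_sq_fin (x y L : ℝ) : volume (sq x y L) ≠ ⊤ :=
  ((isCompact_Icc.prod isCompact_Icc).measure_lt_top).ne

private theorem LowVol_cell_mono (c : ℤ × ℤ) :
    cell c ⊆ sq ((c.1 : ℝ) - 10) ((c.2 : ℝ) - 10) 21 := by
  rintro p ⟨⟨h1, h2⟩, h3, h4⟩
  refine ⟨⟨by linarith, by linarith⟩, by linarith, by linarith⟩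

private theorem LowVol_floor (p : Pl) : p ∈ cell (⌊p.1⌋, ⌊p.2⌋) := by
  refine ⟨⟨Int.floor_le _, (Int.lt_floor_add_one _).le⟩, Int.floor_le _,
    (Int.lt_floor_add_one _).le⟩

private theorem LowVol_near {D : Set Pl} {c : ℤ × ℤ}
    (h : (cell c ∩ Metric.cthickening 2 D).Nonempty) (hD : D.Nonempty) :
    (D ∩ sq ((c.1 : ℝ) - 3) ((c.2 : ℝ) - 3) 7).Nonempty := by
  obtain ⟨p, ⟨⟨h1, h2⟩, h3, h4⟩, hp⟩ := h
  have hp' : Metric.infDist p D ≤ 2 := by
    rw [Metric.mem_cthickening_iff] at hp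
    unfold Metric.infDist
    exact ENNReal.toReal_le_of_le_ofReal (by norm_num) hp
  obtain ⟨q, hq, hq2⟩ := (Metric.infDist_lt_iff hD).1 (lt_of_le_of_lt hp' (by norm_num : (2:ℝ) < 3))
  rw [Prod.dist_eq, max_lt_iff, Real.dist_eq, Real.dist_eq, abs_lt, abs_lt] at hq2
  refine ⟨q, hq, ⟨?_, ?_⟩, ?_, ?_⟩ <;> [linarith [hq2.1.1, hq2.1.2]; linarith [hq2.1.1, hq2.1.2];
    linarith [hq2.2.1, hq2.2.2]; linarith [hq2.2.1, hq2.2.2]]

private theorem LowVol_cover {D U : Set Pl} (hb : Bornology.IsBounded D) (hU : volume U ≠ ⊤) :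
    ∃ J : Finset (ℤ × ℤ), (∀ c ∈ J, (cell c ∩ Metric.cthickening 2 D).Nonempty) ∧
      vol (Metric.cthickening 2 D) ≤ vol U + ∑ c ∈ J, vol (cell c \ U) := by
  classical
  have hb2 : Bornology.IsBounded (Metric.cthickening 2 D) := hb.cthickening
  obtain ⟨M, hM⟩ := hb2.subset_closedBall (0 : Pl)
  let N : ℤ := ⌈|M| + 2⌉
  let J : Finset (ℤ × ℤ) := ((Finset.Icc (-N) N) ×ˢ (Finset.Icc (-N) N)).filter
    (fun c => (cell c ∩ Metric.cthickening 2 D).Nonempty)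
  refine ⟨J, fun c hc => (Finset.mem_filter.1 hc).2, ?_⟩
  have hsub : Metric.cthickening 2 D ⊆ U ∪ ⋃ c ∈ J, (cell c \ U) := by
    intro p hp
    by_cases hpU : p ∈ U
    · exact Or.inl hpU
    · right
      have hMp := hM hp
      rw [mem_closedBall_zero_iff, Prod.norm_def, max_le_iff, Real.norm_eq_abs,
        Real.norm_eq_abs] at hMp
      have hMa : M ≤ |M| := le_abs_self M
      have hN : |M| + 2 ≤ (N : ℝ) := Int.le_ceil _
      have key : ∀ x : ℝ, |x| ≤ M → ⌊x⌋ ∈ Finset.Icc (-N) N := by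
        intro x hx
        have := abs_le.1 hx
        have h1 := Int.floor_le x
        have h2 := Int.lt_floor_add_one x
        rw [Finset.mem_Icc]
        constructor
        · have : (-(N : ℝ)) ≤ (⌊x⌋ : ℝ) := by linarith
          exact_mod_cast this
        · have : (⌊x⌋ : ℝ) ≤ (N : ℝ) := by linarith
          exact_mod_cast this
      refine mem_iUnion₂.2 ⟨(⌊p.1⌋, ⌊p.2⌋), ?_, LowVol_floor p, hpU⟩
      refine Finset.mem_filter.2 ⟨Finset.mem_product.2 ⟨key _ hMp.1, key _ hMp.2⟩, ?_⟩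
      exact ⟨p, LowVol_floor p, hp⟩
  have hfin : ∀ c : ℤ × ℤ, volume (cell c \ U) ≠ ⊤ := fun c =>
    ne_top_of_le_ne_top (LowVol_sq_fin _ _ _) (measure_mono sdiff_subset)
  have h1 : volume (U ∪ ⋃ c ∈ J, (cell c \ U)) ≤ volume U + ∑ c ∈ J, volume (cell c \ U) :=
    (measure_union_le _ _).trans (add_le_add le_rfl (measure_biUnion_finset_le _ _))
  have hsum : ∑ c ∈ J, volume (cell c \ U) ≠ ⊤ := by
    rw [ENNReal.sum_ne_top]
    exact fun c _ => hfin c
  have h2 : vol (Metric.cthickening 2 D) ≤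
      (volume U + ∑ c ∈ J, volume (cell c \ U)).toReal :=
    ENNReal.toReal_mono (ENNReal.add_ne_top.2 ⟨hU, hsum⟩) ((measure_mono hsub).trans h1)
  rw [ENNReal.toReal_add hU hsum, ENNReal.toReal_sum (fun c _ => hfin c)] at h2
  exact h2

theorem lowvol (Λ0 K : ℝ) (hΛ : 0 < Λ0) (hK : 0 < K) : ∃ C r0 : ℝ, 1 ≤ r0 ∧
    ∀ U : Set Pl, IsOpen U → U.Nonempty → volume U ≠ ⊤ → ∀ r : ℝ, r0 ≤ r → vol U ≤ K * r ^ 2 →
    lam U ≤ Λ0 / r ^ 2 →
    ∃ (D : Set Pl) (g : Pl → ℝ), IsOpen D ∧ D ⊆ U ∧ Bornology.IsBounded D ∧ CC D g ∧ ms g = 1 ∧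
      en g ≤ lam U * (1 + C / r) ∧ vol (Metric.cthickening 2 D) ≤ vol U + C * r := by
  obtain ⟨r1, c1, hr1, hc1, hpack⟩ := pack Λ0 hΛ
  obtain ⟨C2, hC2, hcross⟩ := cross0
  obtain ⟨k4, hk40, hk4⟩ : ∃ k : ℝ, 0 < k ∧ k ^ 4 = K :=
    ⟨K ^ ((1 : ℝ) / 4), Real.rpow_pos_of_pos hK _, by
      rw [← Real.rpow_natCast, ← Real.rpow_mul hK.le]; norm_num⟩
  obtain ⟨c4, hc40, hc4⟩ : ∃ k : ℝ, 0 < k ∧ k ^ 4 = c1 :=
    ⟨c1 ^ ((1 : ℝ) / 4), Real.rpow_pos_of_pos hc1 _, by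
      rw [← Real.rpow_natCast, ← Real.rpow_mul hc1.le]; norm_num⟩
  refine ⟨max (50 / c4) (160000 * C2 * Λ0 * K * k4), max r1 (max 1 (7057 / c1)),
    le_max_of_le_left hr1, ?_⟩
  intro U hU hne hUf r hr hvU hlU
  have hrr1 : r1 ≤ r := (le_max_left _ _).trans hr
  have hr2 : 1 ≤ r := hr1.trans hrr1
  have hr3 : 7057 / c1 ≤ r := ((le_max_right _ _).trans (le_max_right _ _)).trans hr
  have hr0 : 0 < r := by linarith
  obtain ⟨f, D, a, e, s, hf, he, hs, ha1, haU, he0, he1, hs0, hDo, hDc, hDU, hfD, haD,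
    ⟨g, hg, hg1, hg2⟩, hx, -⟩ := hpack U hU hne hUf r hrr1 hlU
  obtain ⟨v, hv, hv2, hv3, hv4, -⟩ := hx 1 le_rfl
  have ha0 : 0 < a := lt_of_lt_of_le (by positivity) ha1
  have hra : 0 < r ^ 2 * a := by positivity
  have he4 : e ^ 4 * (r ^ 2 * a) = 1 := by rw [he]; exact LowVol_ee4 hra
  have hlam := lam_nonneg U
  have e_up : e * r * c4 ≤ 1 := by
    refine LowVol_four (by positivity) (by norm_num) ?_
    calc (e * r * c4) ^ 4 = e ^ 4 * (r ^ 2 * (c4 ^ 4 * r ^ 2)) := by ring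
      _ ≤ e ^ 4 * (r ^ 2 * a) := by rw [hc4]; gcongr
      _ = 1 ^ 4 := by rw [he4]; norm_num
  have e_lo : 1 ≤ e * r * k4 := by
    refine LowVol_four (by norm_num) (by positivity) ?_
    calc (1 : ℝ) ^ 4 = e ^ 4 * (r ^ 2 * a) := by rw [he4]; norm_num
      _ ≤ e ^ 4 * (r ^ 2 * (k4 ^ 4 * r ^ 2)) := by rw [hk4]; gcongr; exact haU.trans hvU
      _ = (e * r * k4) ^ 4 := by ring
  have hbD : Bornology.IsBounded D := by
    refine (hf.cpt.isCompact.isBounded).subset fun p hp => subset_tsupport f ?_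
    have := hfD p hp
    exact (Function.mem_support).2 (by linarith [hs0] : (0:ℝ) < f p).ne'
  obtain ⟨J, hJ1, hJ2⟩ := LowVol_cover (D := D) (U := U) hbD hUf
  refine ⟨D, g, hDo, hDU, hbD, hg, hg1, ?_, ?_⟩
  · refine hg2.trans (mul_le_mul_of_nonneg_left ?_ hlam)
    have h1 : 50 * e ≤ (50 / c4) / r := by
      rw [div_div, le_div_iff₀ (by positivity)]
      nlinarith
    have h2 : (50 / c4) / r ≤ max (50 / c4) (160000 * C2 * Λ0 * K * k4) / r := by
      gcongr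
      exact le_max_left _ _
    linarith
  · refine hJ2.trans (add_le_add le_rfl ?_)
    have hvo : ∀ p, p ∉ U → v p = 0 := fun p hp =>
      image_eq_zero_of_notMem_tsupport (fun h => hp (hv.sub h))
    have hcell : ∀ c ∈ J, (s / 2) ^ 2 * vol (cell c \ U) ≤
        C2 * ∫ p in sq ((c.1 : ℝ) - 10) ((c.2 : ℝ) - 10) 21, gr2 v p := by
      intro c hc
      have hm := LowVol_near (hJ1 c hc) hDc.nonempty
      have h3 : ((c.1 : ℝ) - 3) - 7 = (c.1 : ℝ) - 10 := by ring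
      have h4 : ((c.2 : ℝ) - 3) - 7 = (c.2 : ℝ) - 10 := by ring
      have hnot : ¬ D ⊆ sq ((c.1 : ℝ) - 10) ((c.2 : ℝ) - 10) 21 := by
        intro hsub
        have h5 : vol D ≤ vol (sq ((c.1 : ℝ) - 10) ((c.2 : ℝ) - 10) 21) :=
          ENNReal.toReal_mono (LowVol_sq_fin _ _ _) (measure_mono hsub)
        rw [vol_sq _ _ (by norm_num)] at h5
        have h6 : 7057 ≤ c1 * r ^ 2 := by
          rw [div_le_iff₀ hc1] at hr3
          nlinarith
        linarith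
      have := hcross D hDo hDc ((c.1 : ℝ) - 3) ((c.2 : ℝ) - 3) hm (by rwa [h3, h4]) v
        (hv.smooth.of_le (by exact_mod_cast le_top)) (s / 2) (by positivity) hv4 (cell c \ U)
        ((LowVol_sq_meas _ _ _).diff hU.measurableSet)
        (by rw [h3, h4]; exact sdiff_subset.trans (LowVol_cell_mono c))
        (fun p hp => hvo p hp.2)
      rwa [h3, h4] at this
    have hsum : (s / 2) ^ 2 * ∑ c ∈ J, vol (cell c \ U) ≤ C2 * (1000 * en v) := by
      rw [Finset.mul_sum]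
      refine (Finset.sum_le_sum hcell).trans ?_
      rw [← Finset.mul_sum]
      exact mul_le_mul_of_nonneg_left (overlap21 J hv) hC2.le
    have hs2 : s ^ 2 = e ^ 2 / a := by
      rw [hs, div_pow, Real.sq_sqrt ha0.le]
    set S := ∑ c ∈ J, vol (cell c \ U) with hS
    have h7 : e ^ 2 * S ≤ 160000 * C2 * lam U * e * a := by
      have h8 : (s / 2) ^ 2 * S ≤ C2 * (1000 * (40 * lam U * 1 * e)) := by
        refine hsum.trans ?_
        gcongr
      have h9 : (s / 2) ^ 2 * S = (e ^ 2 * S) / (4 * a) := by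
        rw [div_pow, hs2]; field_simp; ring
      rw [h9, div_le_iff₀ (by positivity)] at h8
      nlinarith
    have h10 : e * S ≤ 160000 * C2 * (Λ0 / r ^ 2) * (K * r ^ 2) := by
      have h11 : e * S ≤ 160000 * C2 * lam U * a := by
        have : e * (e * S) ≤ e * (160000 * C2 * lam U * a) := by nlinarith
        exact le_of_mul_le_mul_left this he0
      refine h11.trans ?_
      gcongr
      exact haU.trans hvU
    have h12 : 160000 * C2 * (Λ0 / r ^ 2) * (K * r ^ 2) = 160000 * C2 * Λ0 * K := by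
      field_simp
    rw [h12] at h10
    have hS0 : 0 ≤ S := Finset.sum_nonneg fun c _ => ENNReal.toReal_nonneg
    have h13 : S ≤ (160000 * C2 * Λ0 * K * k4) * r := by
      calc S = 1 * S := by ring
        _ ≤ (e * r * k4) * S := by gcongr
        _ = (e * S) * (r * k4) := by ring
        _ ≤ (160000 * C2 * Λ0 * K) * (r * k4) := by gcongr
        _ = _ := by ring
    refine h13.trans ?_
    gcongr
    exact le_max_right _ _

end Pool.Agent.BSv
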