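import Pool.Agent.BSv.Ten
import Pool.Agent.BSv.Comp

/-!
# Module SELECT: the selection lemma

`ee r a = (r² a)^(-1/4)`.  For `f ∈ CC U`, `ms f = 1` write `a f = vol {f ≠ 0} > 0`.

Let `λ = lam U > 0` (`lam_pos`), `Λ0`, `r ≥ r0`, `λ ≤ Λ0 / r²`.

CLASS: `f ∈ CC U`, `ms f = 1`, `en f ≤ λ (1 + 36 ee r (a f))`.  It is nonempty (`exists_near` with
small `η`: apply it with `η` = `λ * 36 * ee r (vol U)` and `a f ≤ vol U`).

(1) AREA: in the class `a f ≥ c1 r²`: by `gns`,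
`1 = ms f ≤ C0 a en f ≤ C0 a (Λ0/r²) (1 + 36 (r² a)^(-1/4))`; with `A = a / r²` and `r ≥ 1`:
`1 ≤ C0 Λ0 (A + 36 A^(3/4) / r) ≤ 37 C0 Λ0 max (A, A^(3/4))`.
Hence `e := ee r a ≤ c1^(-1/4) / r ≤ 1/1000` for `r ≥ r0`.

(2) Let `a* > 0` be the infimum of the areas over the class, take `f` in the class with `a f ≤ 2 a*`;
`a = a f`, `e = ee r a`, `s = e / √a`, `R = en f`, `ρ = Th s ∘ f`, `O = {s/2 < |f|}`,
components `D_i` of `O` covering `{s ≤ |f|}` (module Comp), `ψ_i = 1_{D_i} ρ ∈ CC D_i`.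
`∑ ms ψ_i = ms ρ ≥ 1 - 2 ∫ f Ta s f ≥ 1 - 4 s √a = 1 - 4 e`, `∑ ms ψ_i ≤ 1`,
`∑ en ψ_i = en ρ ≤ R`, `en ψ_i ≥ λ ms ψ_i`.

(3) CLAIM: some `i` has (i) `en ψ_i ≤ R (1 + 9 e) ms ψ_i` and (ii) `vol D_i ≤ 16 a ms ψ_i`.
Otherwise let `M1` be the sum of `ms ψ_i` over the `i` violating (ii): `M1 < ∑ vol D_i/(16 a) ≤ 1/16`
and `M2` the sum over the others, which violate (i):
`R ≥ λ M1 + R (1 + 9 e) M2`, `λ ≥ R (1 - 36 e)`, so
`1 ≥ (1 - 36 e) M1 + (1 + 9 e) M2 = (M1 + M2) - 36 e M1 + 9 e M2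
  ≥ 1 - 4 e - 36 e /16 + 9 e (1 - 4 e - 1/16) > 1`, contradiction (`R > 0`, `e ≤ 1/1000`).

(4) For this `i` put `D = D_i`, `ψ = ψ_i`.  If `vol D < a/16` then `ψ / √(ms ψ)` is in the class:
its area is at most `vol D`, `e' ≥ ee r (a/16) = 2 e`, and
`en/ms ≤ R (1 + 9 e) ≤ λ (1 + 36 e)(1 + 9 e) ≤ λ (1 + 72 e) ≤ λ (1 + 36 e')`;
but its area is `< a/16 ≤ a*/8 < a*`: contradiction.  So `vol D ≥ a/16` and `ms ψ ≥ 1/256`.

(5) `f` has constant sign on the connected set `D`; if it is negative replace `f` by `-f`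
(`Th`, `Ta` are odd).
-/

open MeasureTheory Set Filter Topology
open scoped ENNReal NNReal ContDiff

noncomputable section

namespace Pool.Agent.BSv

/-- `(r² a)^(-1/4)` -/
def ee (r a : ℝ) : ℝ := (r ^ 2 * a) ^ (-(1 / 4) : ℝ)

private theorem Select_ee_pos {r a : ℝ} (hr : 0 < r) (ha : 0 < a) : 0 < ee r a :=
  Real.rpow_pos_of_pos (by positivity) _

private theorem Select_ee_pow {r a : ℝ} (hr : 0 < r) (ha : 0 < a) :
    ee r a ^ 4 * (r ^ 2 * a) = 1 := by
  unfold ee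
  have h : 0 < r ^ 2 * a := by positivity
  have h1 : ((r ^ 2 * a) ^ (-(1 / 4) : ℝ)) ^ 4 = (r ^ 2 * a)⁻¹ := by
    rw [← Real.rpow_natCast, ← Real.rpow_mul h.le]
    norm_num
    rw [Real.rpow_neg_one, mul_inv, mul_comm]
  rw [h1]
  exact inv_mul_cancel₀ h.ne'

private theorem Select_ee_anti {r a b : ℝ} (hr : 0 < r) (ha : 0 < a) (hab : a ≤ b) :
    ee r b ≤ ee r a := by
  unfold ee
  exact Real.rpow_le_rpow_of_nonpos (by positivity) (by gcongr) (by norm_num)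

private theorem Select_ee_16 {r a : ℝ} (hr : 0 < r) (ha : 0 < a) :
    ee r (a / 16) = 2 * ee r a := by
  have h1 := Select_ee_pow hr (a := a / 16) (by positivity)
  have h2 := Select_ee_pow hr ha
  have h3 : 0 < r ^ 2 * a := by positivity
  have h4 : ee r (a / 16) ^ 4 = (2 * ee r a) ^ 4 := by
    apply mul_right_cancel₀ h3.ne'
    have e1 : ee r (a / 16) ^ 4 * (r ^ 2 * a) = 16 := by linarith
    have e2 : (2 * ee r a) ^ 4 * (r ^ 2 * a) = 16 * (ee r a ^ 4 * (r ^ 2 * a)) := by ring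
    rw [e1, e2, h2, mul_one]
  exact (pow_left_inj₀ (Select_ee_pos hr (by positivity)).le
    (by have := Select_ee_pos hr ha; positivity) (by norm_num)).mp h4

private theorem Select_area {C0 Λ0 : ℝ} (hC0 : 0 < C0) (hΛ : 0 < Λ0) :
    ∃ m : ℝ, 0 < m ∧ m ≤ 1 / 2 ∧ ∀ r a R : ℝ, 1 ≤ r → 0 < a →
      R ≤ (Λ0 / r ^ 2) * (1 + 36 * ee r a) → 1 ≤ C0 * a * R → ee r a * (m * r) ≤ 1 := by
  set M := max 1 (37 * C0 * Λ0) with hM
  have hM1 : 1 ≤ M := le_max_left _ _
  have hM2 : 37 * C0 * Λ0 ≤ M := le_max_right _ _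
  have hm0 : 0 < 1 / (2 * M) := by positivity
  have hmM : 1 / (2 * M) * M = 1 / 2 := by field_simp
  have hm1 : 1 / (2 * M) ≤ 1 / 2 := by
    apply one_div_le_one_div_of_le (by norm_num)
    linarith
  refine ⟨1 / (2 * M), hm0, hm1, ?_⟩
  intro r a R hr ha hR h1
  set m := 1 / (2 * M) with hm
  have hr0 : 0 < r := by linarith
  by_contra hcon
  push Not at hcon
  have he := Select_ee_pos hr0 ha
  have hp := Select_ee_pow hr0 ha
  set e := ee r a with hedef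
  have hu : 0 < e⁻¹ := by positivity
  set u := e⁻¹ with hudef
  have heu : e * u = 1 := mul_inv_cancel₀ he.ne'
  have hu4 : u ^ 4 = r ^ 2 * a := by
    have : e ^ 4 * u ^ 4 = e ^ 4 * (r ^ 2 * a) := by
      rw [← mul_pow, heu, one_pow, hp]
    exact mul_left_cancel₀ (by positivity) this
  have hulr : u ≤ m * r := by
    have : e * u ≤ e * (m * r) := by rw [heu]; exact hcon.le
    exact le_of_mul_le_mul_left this he
  have h2 : C0 * a * R ≤ C0 * a * ((Λ0 / r ^ 2) * (1 + 36 * e)) :=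
    mul_le_mul_of_nonneg_left hR (by positivity)
  have h3 : C0 * a * ((Λ0 / r ^ 2) * (1 + 36 * e)) = C0 * Λ0 * (u ^ 3 * (u + 36)) / r ^ 4 := by
    have e1 : a = u ^ 4 / r ^ 2 := by rw [hu4]; field_simp
    have e2 : e = 1 / u := by rw [hudef]; simp
    rw [e1, e2]
    field_simp
  have h4 : u ^ 3 * (u + 36) ≤ (m * r) ^ 3 * (m * r + 36) := by gcongr
  have h5 : (m * r) ^ 3 * (m * r + 36) ≤ 37 * m ^ 3 * r ^ 4 := by
    have e1 : (m * r) ^ 3 * (m * r + 36) ≤ (m * r) ^ 3 * (37 * r) := by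
      apply mul_le_mul_of_nonneg_left _ (by positivity)
      nlinarith
    calc (m * r) ^ 3 * (m * r + 36) ≤ (m * r) ^ 3 * (37 * r) := e1
      _ = 37 * m ^ 3 * r ^ 4 := by ring
  have h6 : C0 * Λ0 * (u ^ 3 * (u + 36)) / r ^ 4 ≤ 37 * C0 * Λ0 * m ^ 3 := by
    rw [div_le_iff₀ (by positivity)]
    calc C0 * Λ0 * (u ^ 3 * (u + 36)) ≤ C0 * Λ0 * (37 * m ^ 3 * r ^ 4) :=
          mul_le_mul_of_nonneg_left (h4.trans h5) (by positivity)
      _ = 37 * C0 * Λ0 * m ^ 3 * r ^ 4 := by ring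
  have h7 : 37 * C0 * Λ0 * m ^ 3 ≤ M * m ^ 3 := mul_le_mul_of_nonneg_right hM2 (by positivity)
  have h8 : M * m ^ 3 = 1 / 2 * m ^ 2 := by rw [← hmM]; ring
  have h9 : m ^ 2 ≤ (1 / 2) ^ 2 := by gcongr
  linarith

private theorem Select_supp {U : Set Pl} {f : Pl → ℝ} (hf : CC U f) :
    {p | f p ≠ 0} ⊆ U := fun _ hp => hf.sub (subset_tsupport _ hp)

private theorem Select_fin {U : Set Pl} {f : Pl → ℝ} (hf : CC U f) :
    volume {p | f p ≠ 0} ≠ ⊤ :=
  ((measure_mono (subset_tsupport f)).trans_lt (hf.cpt.isCompact.measure_lt_top)).ne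

/-- the class -/
private def SCl (U : Set Pl) (r : ℝ) (f : Pl → ℝ) : Prop :=
  CC U f ∧ ms f = 1 ∧ en f ≤ lam U * (1 + 36 * ee r (vol {p | f p ≠ 0}))

private theorem Select_min {U : Set Pl} (hU : IsOpen U) (hne : U.Nonempty) (hv : volume U ≠ ⊤)
    {r b : ℝ} (hr : 0 < r) (hb : 0 < b) (hpos : ∀ f, SCl U r f → b ≤ vol {p | f p ≠ 0})
    (hpos' : ∀ f, CC U f → ms f = 1 → 0 < vol {p | f p ≠ 0}) :
    ∃ f, SCl U r f ∧ ∀ g, SCl U r g → vol {p | f p ≠ 0} < 2 * vol {p | g p ≠ 0} := by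
  have hlp := lam_pos hU hne hv
  have hvU : 0 < vol U := by
    obtain ⟨f, hf, h1⟩ := exists_cc hU hne
    exact (hpos' f hf h1).trans_le (ENNReal.toReal_mono hv (measure_mono (Select_supp hf)))
  obtain ⟨f0, hf0, h10, hen0⟩ := exists_near hU hne
    (η := lam U * 36 * ee r (vol U)) (by have := Select_ee_pos hr hvU; positivity)
  have hc0 : SCl U r f0 := by
    refine ⟨hf0, h10, ?_⟩
    have h2 : ee r (vol U) ≤ ee r (vol {p | f0 p ≠ 0}) :=
      Select_ee_anti hr (hpos' f0 hf0 h10)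
      (ENNReal.toReal_mono hv (measure_mono (Select_supp hf0)) :
        vol {p | f0 p ≠ 0} ≤ vol U)
    have h3 := mul_le_mul_of_nonneg_left h2 (by positivity : 0 ≤ lam U * 36)
    linarith
  set T : Set ℝ := {x | ∃ f, SCl U r f ∧ x = vol {p | f p ≠ 0}} with hT
  have hTne : T.Nonempty := ⟨_, f0, hc0, rfl⟩
  have hTb : BddBelow T := ⟨b, by rintro x ⟨f, hf, rfl⟩; exact hpos f hf⟩
  have hTi : b ≤ sInf T := le_csInf hTne (by rintro x ⟨f, hf, rfl⟩; exact hpos f hf)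
  obtain ⟨x, ⟨f, hf, rfl⟩, hlt⟩ := exists_lt_of_csInf_lt hTne (by linarith : sInf T < 2 * sInf T)
  refine ⟨f, hf, fun g hg => ?_⟩
  have := csInf_le hTb ⟨g, hg, rfl⟩
  linarith

private theorem Select_sum_vol {m : ℕ} {D : Fin m → Set Pl} (hD : ∀ i, MeasurableSet (D i))
    (hdis : ∀ i j, i ≠ j → Disjoint (D i) (D j)) {A : Set Pl} (hA : volume A ≠ ⊤)
    (hsub : ∀ i, D i ⊆ A) : ∑ i, vol (D i) ≤ vol A := by
  have h1 : volume (⋃ i ∈ (Finset.univ : Finset (Fin m)), D i) = ∑ i, volume (D i) :=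
    measure_biUnion_finset (fun i _ j _ hij => hdis i j hij) (fun i _ => hD i)
  have h2 : ∑ i, vol (D i) = (∑ i, volume (D i)).toReal := by
    rw [ENNReal.toReal_sum]
    · rfl
    · intro i _
      exact ((measure_mono (hsub i)).trans_lt hA.lt_top).ne
  rw [h2, ← h1]
  exact ENNReal.toReal_mono hA (measure_mono (iUnion₂_subset fun i _ => hsub i))

private theorem Select_pick {m : ℕ} (ψm ψe dv : Fin m → ℝ) {L R e a : ℝ} (ha : 0 < a)
    (he : 0 < e) (he1 : e ≤ 1 / 1000) (hR : 0 < R) (hlam : R ≤ L * (1 + 36 * e))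
    (hm0 : ∀ i, 0 ≤ ψm i) (hlow : ∀ i, L * ψm i ≤ ψe i) (hsm : 1 - 4 * e ≤ ∑ i, ψm i)
    (hse : ∑ i, ψe i ≤ R) (hdv0 : ∀ i, 0 ≤ dv i) (hdv : ∑ i, dv i ≤ a) :
    ∃ i, ψe i ≤ R * (1 + 9 * e) * ψm i ∧ dv i ≤ 16 * a * ψm i := by
  by_contra hcon
  push Not at hcon
  have hL : R * (1 - 36 * e) ≤ L := by
    have h1 : (R * (1 - 36 * e)) * (1 + 36 * e) ≤ L * (1 + 36 * e) := by
      have : (R * (1 - 36 * e)) * (1 + 36 * e) = R - 1296 * R * e ^ 2 := by ring
      rw [this]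
      have : 0 ≤ 1296 * R * e ^ 2 := by positivity
      linarith
    exact le_of_mul_le_mul_right h1 (by positivity)
  set K := 45 * e * R / (16 * a) with hK
  have hK0 : 0 < K := by positivity
  have hKa : K * (16 * a) = 45 * e * R := by rw [hK]; field_simp
  have hi : ∀ i, R * (1 + 9 * e) * ψm i - K * dv i ≤ ψe i := by
    intro i
    by_cases hP : ψe i ≤ R * (1 + 9 * e) * ψm i
    · have h1 := hcon i hP
      have h2 : R * (1 - 36 * e) * ψm i ≤ ψe i :=
        (mul_le_mul_of_nonneg_right hL (hm0 i)).trans (hlow i)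
      have h3 : K * (16 * a * ψm i) ≤ K * dv i := mul_le_mul_of_nonneg_left h1.le hK0.le
      have h4 : K * (16 * a * ψm i) = 45 * e * R * ψm i := by rw [← hKa]; ring
      rw [h4] at h3
      linarith
    · push Not at hP
      have := mul_nonneg hK0.le (hdv0 i)
      linarith
  have hsum : R * (1 + 9 * e) * (∑ i, ψm i) - K * ∑ i, dv i ≤ ∑ i, ψe i := by
    rw [Finset.mul_sum, Finset.mul_sum, ← Finset.sum_sub_distrib]
    exact Finset.sum_le_sum fun i _ => hi i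
  have h1 : R * (1 + 9 * e) * (1 - 4 * e) ≤ R * (1 + 9 * e) * ∑ i, ψm i :=
    mul_le_mul_of_nonneg_left hsm (by positivity)
  have h2 : K * ∑ i, dv i ≤ K * a := mul_le_mul_of_nonneg_left hdv hK0.le
  have h3 : K * a = 45 / 16 * (e * R) := by linarith
  have h4 : R * (1 + 9 * e) * (1 - 4 * e) - 45 / 16 * (e * R) ≤ R := by linarith
  have h5 : R * (1 + 9 * e) * (1 - 4 * e) - 45 / 16 * (e * R) - R =
      R * e * (35 / 16 - 36 * e) := by ring
  have h6 : 0 < R * e * (35 / 16 - 36 * e) := by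
    apply mul_pos (by positivity); linarith
  linarith

private theorem Select_core (Λ0 : ℝ) (hΛ : 0 < Λ0) : ∃ r0 c1 : ℝ, 1 ≤ r0 ∧ 0 < c1 ∧
    ∀ U : Set Pl, IsOpen U → U.Nonempty → volume U ≠ ⊤ → ∀ r : ℝ, r0 ≤ r → lam U ≤ Λ0 / r ^ 2 →
    ∃ (f : Pl → ℝ) (D : Set Pl) (a e s : ℝ), CC U f ∧ ms f = 1 ∧ a = vol {p | f p ≠ 0} ∧
      e = ee r a ∧ s = e / √a ∧ c1 * r ^ 2 ≤ a ∧ 0 < e ∧ e ≤ 1 / 1000 ∧ 0 < s ∧
      en f ≤ lam U * (1 + 36 * e) ∧
      IsOpen D ∧ IsConnected D ∧ D ⊆ {p | s / 2 < |f p|} ∧ IsOpen ({p | s / 2 < |f p|} \ D) ∧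
      a / 16 ≤ vol D ∧
      1 / 256 ≤ ms (D.indicator fun p => Th s (f p)) ∧
      en (D.indicator fun p => Th s (f p)) ≤
        lam U * (1 + 50 * e) * ms (D.indicator fun p => Th s (f p)) := by
  obtain ⟨C0, hC0, hgns⟩ := gns
  obtain ⟨m, hm0, hm1, harea⟩ := Select_area hC0 hΛ
  refine ⟨1000 / m, m ^ 4, by rw [le_div_iff₀ hm0]; linarith, by positivity, ?_⟩
  intro U hU hne hv r hr hlam
  have hmr : 1000 ≤ m * r := by rw [div_le_iff₀ hm0] at hr; linarith
  have hr1 : 1 ≤ r := by nlinarith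
  have hr0 : 0 < r := by linarith
  have hlp : 0 < lam U := lam_pos hU hne hv
  have hapos : ∀ f, CC U f → ms f = 1 → 0 < vol {p | f p ≠ 0} := by
    intro f hf h1
    have h2 := hgns f hf.smooth hf.cpt
    rw [h1] at h2
    have h0 : 0 ≤ vol {p | f p ≠ 0} := ENNReal.toReal_nonneg
    rcases h0.eq_or_lt with h | h
    · rw [← h] at h2; linarith
    · exact h
  have hcl : ∀ f, SCl U r f → ee r (vol {p | f p ≠ 0}) * (m * r) ≤ 1 := by
    intro f hf
    refine harea r _ (en f) hr1 (hapos f hf.1 hf.2.1) ?_ ?_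
    · refine hf.2.2.trans ?_
      have := Select_ee_pos hr0 (hapos f hf.1 hf.2.1)
      exact mul_le_mul_of_nonneg_right hlam (by positivity)
    · rw [← hf.2.1]; exact hgns f hf.1.smooth hf.1.cpt
  have hcl2 : ∀ f, SCl U r f → m ^ 4 * r ^ 2 ≤ vol {p | f p ≠ 0} := by
    intro f hf
    have ha := hapos f hf.1 hf.2.1
    have he := Select_ee_pos hr0 ha
    have hp := Select_ee_pow hr0 ha
    have h1 : (ee r (vol {p | f p ≠ 0}) * (m * r)) ^ 4 ≤ 1 :=
      pow_le_one₀ (by positivity) (hcl f hf)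
    have h2 : (ee r (vol {p | f p ≠ 0}) ^ 4 * r ^ 2) * (m ^ 4 * r ^ 2) ≤
        (ee r (vol {p | f p ≠ 0}) ^ 4 * r ^ 2) * vol {p | f p ≠ 0} := by
      calc (ee r (vol {p | f p ≠ 0}) ^ 4 * r ^ 2) * (m ^ 4 * r ^ 2)
          = (ee r (vol {p | f p ≠ 0}) * (m * r)) ^ 4 := by ring
        _ ≤ 1 := h1
        _ = ee r (vol {p | f p ≠ 0}) ^ 4 * (r ^ 2 * vol {p | f p ≠ 0}) := hp.symm
        _ = _ := by ring
    exact le_of_mul_le_mul_left h2 (by positivity)
  obtain ⟨f, hfc, hmin⟩ := Select_min hU hne hv hr0 (b := m ^ 4 * r ^ 2) (by positivity)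
    hcl2 hapos
  have hf := hfc.1
  have h1 := hfc.2.1
  have hen := hfc.2.2
  have ha := hapos f hf h1
  have hca := hcl2 f hfc
  have hem := hcl f hfc
  have he := Select_ee_pos hr0 ha
  set a := vol {p | f p ≠ 0} with had
  set e := ee r a with hed
  have he1 : e ≤ 1 / 1000 := by
    have : e * 1000 ≤ e * (m * r) := mul_le_mul_of_nonneg_left hmr he.le
    linarith
  have hsa : 0 < √a := Real.sqrt_pos.mpr ha
  have hs : 0 < e / √a := by positivity
  have hse : e / √a * √a = e := div_mul_cancel₀ _ hsa.ne'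
  set s := e / √a with hsd
  set O : Set Pl := {p | s / 2 < |f p|} with hO
  have hOo : IsOpen O := isOpen_lt continuous_const hf.smooth.continuous.abs
  have hρ : CC O (fun p => Th s (f p)) := cc_Th hf hs
  set ρ : Pl → ℝ := fun p => Th s (f p) with hρd
  obtain ⟨n, D, hDo, hDc, hDO, hOD, hdis, hcov⟩ := comps hOo hρ.cpt.isCompact hρ.sub
  obtain ⟨hS1, hS2⟩ := sum_comps hρ hOo hDo hDO hOD hdis hcov
  have hcc : ∀ i, CC (D i) ((D i).indicator ρ) := fun i =>
    cc_indicator hρ hOo (hDo i) (hDO i) (hOD i)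
  have hOf : O ⊆ {p | f p ≠ 0} := by
    intro p hp h0
    have : s / 2 < |f p| := hp
    rw [h0, abs_zero] at this
    linarith
  have hOU : O ⊆ U := hOf.trans (Select_supp hf)
  have hRpos : 0 < en f := by
    have := lam_mul_le hf
    rw [h1, mul_one] at this
    linarith
  have hms : 1 - 4 * e ≤ ∑ i, ms ((D i).indicator ρ) := by
    rw [hS1]
    have g1 := ms_Th_ge hf h1 hs
    have g2 := int_mul_Ta_le hf hs
    rw [h1, Real.sqrt_one, mul_one] at g2
    have g3 : 2 * s * √(vol {p | f p ≠ 0}) = 2 * e := by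
      rw [← had, mul_assoc, hse]
    rw [g3] at g2
    linarith
  have hes : ∑ i, en ((D i).indicator ρ) ≤ en f := by
    rw [hS2]
    have g1 := en_Th_add_en_Ta hf hs
    have g2 := en_nonneg (fun p => Ta s (f p))
    linarith
  have hvs : ∑ i, vol (D i) ≤ a :=
    Select_sum_vol (fun i => (hDo i).measurableSet) hdis (Select_fin hf)
      (fun i => (hDO i).trans hOf)
  obtain ⟨i, hi1, hi2⟩ := Select_pick (fun i => ms ((D i).indicator ρ))
    (fun i => en ((D i).indicator ρ)) (fun i => vol (D i)) (L := lam U) ha he he1 hRpos hen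
    (fun i => ms_nonneg _) (fun i => lam_mul_le ((hcc i).mono ((hDO i).trans hOU))) hms hes
    (fun i => ENNReal.toReal_nonneg) hvs
  set ψ := (D i).indicator ρ with hψ
  have hψc : CC (D i) ψ := hcc i
  have hvD0 : 0 < vol (D i) := by
    have h2 : 0 < volume (D i) := (hDo i).measure_pos volume (hDc i).nonempty
    exact ENNReal.toReal_pos h2.ne'
      ((measure_mono ((hDO i).trans hOf)).trans_lt (Select_fin hf).lt_top).ne
  have hmψ : 0 < ms ψ := by
    by_contra hcon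
    push Not at hcon
    have : 16 * a * ms ψ ≤ 0 := mul_nonpos_of_nonneg_of_nonpos (by positivity) hcon
    linarith
  have hfac : en f * (1 + 9 * e) ≤ lam U * ((1 + 36 * e) * (1 + 9 * e)) := by
    rw [← mul_assoc]
    exact mul_le_mul_of_nonneg_right hen (by positivity)
  have hDa : a / 16 ≤ vol (D i) := by
    by_contra hcon
    push Not at hcon
    set q := (√(ms ψ))⁻¹ with hq
    have hq2 : q ^ 2 * ms ψ = 1 := by
      rw [hq, inv_pow, Real.sq_sqrt hmψ.le]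
      exact inv_mul_cancel₀ hmψ.ne'
    have hgc : CC U (fun p => q * ψ p) := (hψc.smul q).mono ((hDO i).trans hOU)
    have hgm : ms (fun p => q * ψ p) = 1 := by rw [ms_smul, hq2]
    have hga := hapos _ hgc hgm
    have hgD : vol {p | q * ψ p ≠ 0} ≤ vol (D i) := by
      apply ENNReal.toReal_mono
        ((measure_mono ((hDO i).trans hOf)).trans_lt (Select_fin hf).lt_top).ne
      apply measure_mono
      intro p hp
      by_contra h
      apply hp
      rw [hψ, indicator_of_notMem h, mul_zero]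
    have hee : 2 * e ≤ ee r (vol {p | q * ψ p ≠ 0}) := by
      rw [hed, ← Select_ee_16 hr0 ha]
      exact Select_ee_anti hr0 hga (hgD.trans hcon.le)
    have hgcl : SCl U r (fun p => q * ψ p) := by
      refine ⟨hgc, hgm, ?_⟩
      rw [en_smul q hψc.smooth]
      have g1 : q ^ 2 * en ψ ≤ q ^ 2 * (en f * (1 + 9 * e) * ms ψ) :=
        mul_le_mul_of_nonneg_left hi1 (by positivity)
      have g2 : q ^ 2 * (en f * (1 + 9 * e) * ms ψ) = en f * (1 + 9 * e) := by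
        calc q ^ 2 * (en f * (1 + 9 * e) * ms ψ) = en f * (1 + 9 * e) * (q ^ 2 * ms ψ) := by ring
          _ = _ := by rw [hq2, mul_one]
      rw [g2] at g1
      have g3 : (1 + 36 * e) * (1 + 9 * e) ≤ 1 + 36 * ee r (vol {p | q * ψ p ≠ 0}) := by
        nlinarith
      exact g1.trans (hfac.trans (mul_le_mul_of_nonneg_left g3 hlp.le))
    have := hmin _ hgcl
    linarith
  have hm256 : 1 / 256 ≤ ms ψ := by
    have g1 : a / 16 ≤ 16 * a * ms ψ := hDa.trans hi2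
    have g2 : a * (1 / 256) ≤ a * ms ψ := by linarith
    exact le_of_mul_le_mul_left g2 ha
  refine ⟨f, D i, a, e, s, hf, h1, had, hed, hsd, hca, he, he1, hs, hen, hDo i, hDc i, hDO i,
    hOD i, hDa, hm256, ?_⟩
  refine hi1.trans ?_
  apply mul_le_mul_of_nonneg_right _ hmψ.le
  refine hfac.trans (mul_le_mul_of_nonneg_left ?_ hlp.le)
  nlinarith

theorem select (Λ0 : ℝ) (hΛ : 0 < Λ0) : ∃ r0 c1 : ℝ, 1 ≤ r0 ∧ 0 < c1 ∧
    ∀ U : Set Pl, IsOpen U → U.Nonempty → volume U ≠ ⊤ → ∀ r : ℝ, r0 ≤ r → lam U ≤ Λ0 / r ^ 2 →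
    ∃ (f : Pl → ℝ) (D : Set Pl) (a e s : ℝ), CC U f ∧ ms f = 1 ∧ a = vol {p | f p ≠ 0} ∧
      e = ee r a ∧ s = e / √a ∧ c1 * r ^ 2 ≤ a ∧ 0 < e ∧ e ≤ 1 / 1000 ∧ 0 < s ∧
      en f ≤ lam U * (1 + 36 * e) ∧
      IsOpen D ∧ IsConnected D ∧ (∀ p ∈ D, s / 2 < f p) ∧ IsOpen ({p | s / 2 < |f p|} \ D) ∧
      a / 16 ≤ vol D ∧
      1 / 256 ≤ ms (D.indicator fun p => Th s (f p)) ∧
      en (D.indicator fun p => Th s (f p)) ≤
        lam U * (1 + 50 * e) * ms (D.indicator fun p => Th s (f p)) := by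
  obtain ⟨r0, c1, hr0, hc1, H⟩ := Select_core Λ0 hΛ
  refine ⟨r0, c1, hr0, hc1, ?_⟩
  intro U hU hne hv r hr hlam
  obtain ⟨f, D, a, e, s, hf, h1, h2, h3, h4, h5, h6, h7, hs, h8, hDo, hDc, hDO, hOD, h9, h10,
    h11⟩ := H U hU hne hv r hr hlam
  have hsign : (∀ p ∈ D, s / 2 < f p) ∨ (∀ p ∈ D, s / 2 < -f p) := by
    have hA : IsOpen {p | s / 2 < f p} := isOpen_lt continuous_const hf.smooth.continuous
    have hB : IsOpen {p | s / 2 < -f p} := isOpen_lt continuous_const hf.smooth.continuous.neg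
    by_contra hcon
    push Not at hcon
    obtain ⟨⟨p, hp, hp'⟩, ⟨q, hq, hq'⟩⟩ := hcon
    have hcov : D ⊆ {p | s / 2 < f p} ∪ {p | s / 2 < -f p} := by
      intro z hz
      have : s / 2 < |f z| := hDO hz
      exact lt_abs.mp this
    have n1 : (D ∩ {p | s / 2 < f p}).Nonempty := by
      refine ⟨q, hq, ?_⟩
      rcases hcov hq with h | h
      · exact h
      · exact absurd h (not_lt.mpr hq')
    have n2 : (D ∩ {p | s / 2 < -f p}).Nonempty := by
      refine ⟨p, hp, ?_⟩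
      rcases hcov hp with h | h
      · exact absurd h (not_lt.mpr hp')
      · exact h
    obtain ⟨z, _, hz1, hz2⟩ := hDc.isPreconnected _ _ hA hB hcov n1 n2
    have hz1 : s / 2 < f z := hz1
    have hz2 : s / 2 < -f z := hz2
    linarith
  rcases hsign with hpos | hneg
  · exact ⟨f, D, a, e, s, hf, h1, h2, h3, h4, h5, h6, h7, hs, h8, hDo, hDc, hpos, hOD, h9, h10, h11⟩
  · have hOo : IsOpen {p | s / 2 < |f p|} := isOpen_lt continuous_const hf.smooth.continuous.abs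
    have hψ : CC D (D.indicator fun p => Th s (f p)) := cc_indicator (cc_Th hf hs) hOo hDo hDO hOD
    have hind : (D.indicator fun p => Th s ((-1) * f p)) =
        fun p => (-1) * (D.indicator fun p => Th s (f p)) p := by
      funext p
      by_cases hp : p ∈ D
      · rw [indicator_of_mem hp, indicator_of_mem hp, neg_one_mul, neg_one_mul, Th_neg hs]
      · rw [indicator_of_notMem hp, indicator_of_notMem hp, mul_zero]
    refine ⟨fun p => (-1) * f p, D, a, e, s, hf.smul (-1), ?_, ?_, h3, h4, h5, h6, h7, hs, ?_, hDo,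
      hDc, ?_, ?_, h9, ?_, ?_⟩
    · rw [ms_smul, h1]; norm_num
    · rw [h2]
      congr 1
      ext p
      simp
    · rw [en_smul _ hf.smooth]
      linarith
    · intro p hp
      have := hneg p hp
      show s / 2 < (-1) * f p
      linarith
    · have : {p | s / 2 < |(-1) * f p|} = {p | s / 2 < |f p|} := by
        ext p
        simp
      rw [this]
      exact hOD
    · rw [hind, ms_smul]
      linarith
    · rw [hind, ms_smul, en_smul _ hψ.smooth]
      linarith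

end Pool.Agent.BSv
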